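-- Proof of the negation: two non-isomorphic finite groups (of order 819) whose direct powers have
-- the same subgroups, up to a fixed bijection of the underlying sets.
import Pool.Statements.S00830
import Mathlib

set_option autoImplicit false
open Pool Pool.MP_196888_al

namespace Pool.Agent.S00830

/-- The semidirect product of `ZMod p` by `ZMod 9`, where the generator `1` acts as multiplication
by `r` (with `r ^ 9 = 1`). -/
@[ext] structure SD (p : ℕ) (r : ZMod p) where
  a : ZMod p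
  s : ZMod 9
deriving DecidableEq

namespace SD

variable {p : ℕ} {r : ZMod p}

theorem pw_add (h : r ^ 9 = 1) (s t : ZMod 9) : r ^ (s + t).val = r ^ s.val * r ^ t.val := by
  rw [ZMod.val_add, ← pow_eq_pow_mod _ h, pow_add]

instance : Mul (SD p r) := ⟨fun x y => ⟨x.a + r ^ x.s.val * y.a, x.s + y.s⟩⟩
instance : One (SD p r) := ⟨⟨0, 0⟩⟩
instance : Inv (SD p r) := ⟨fun x => ⟨-(r ^ (-x.s).val * x.a), -x.s⟩⟩

@[simp] theorem mul_a (x y : SD p r) : (x * y).a = x.a + r ^ x.s.val * y.a := rfl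
@[simp] theorem mul_s (x y : SD p r) : (x * y).s = x.s + y.s := rfl
@[simp] theorem one_a : (1 : SD p r).a = 0 := rfl
@[simp] theorem one_s : (1 : SD p r).s = 0 := rfl
@[simp] theorem inv_a (x : SD p r) : (x⁻¹).a = -(r ^ (-x.s).val * x.a) := rfl
@[simp] theorem inv_s (x : SD p r) : (x⁻¹).s = -x.s := rfl

instance [h : Fact (r ^ 9 = 1)] : Group (SD p r) :=
  Group.ofLeftAxioms
    (by
      intro x y z
      ext
      · simp only [mul_a, mul_s, pw_add h.out]; ring
      · simp only [mul_s]; ring)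
    (by
      intro x
      ext
      · simp
      · simp)
    (by
      intro x
      ext
      · simp
      · simp)

theorem pow_s [Fact (r ^ 9 = 1)] (x : SD p r) (n : ℕ) : (x ^ n).s = n * x.s := by
  induction n with
  | zero => simp
  | succ n ih => rw [pow_succ, mul_s, ih]; push_cast; ring

theorem pow_a_of_s [Fact (r ^ 9 = 1)] (x : SD p r) (hx : x.s = 0) (n : ℕ) :
    (x ^ n).a = n * x.a := by
  induction n with
  | zero => simp
  | succ n ih =>
    rw [pow_succ, mul_a, ih, pow_s, hx]; simp; ring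

/-- Elements with trivial `s`-component have order dividing `p`. -/
theorem pow_p_eq_one [Fact (r ^ 9 = 1)] (x : SD p r) (hx : x.s = 0) : x ^ p = 1 := by
  ext
  · rw [pow_a_of_s x hx]; simp
  · rw [pow_s, hx]; simp

/-- The underlying set is a product. -/
def equivProd (p : ℕ) (r : ZMod p) : SD p r ≃ ZMod p × ZMod 9 where
  toFun x := (x.a, x.s)
  invFun y := ⟨y.1, y.2⟩
  left_inv _ := rfl
  right_inv _ := rfl

instance [NeZero p] : Fintype (SD p r) := Fintype.ofEquiv _ (equivProd p r).symm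

theorem card_eq [NeZero p] : Fintype.card (SD p r) = p * 9 := by
  rw [Fintype.card_congr (equivProd p r), Fintype.card_prod, ZMod.card, ZMod.card]

end SD

instance f7 : Fact ((2 : ZMod 7) ^ 9 = 1) := ⟨by decide⟩
instance f13 : Fact ((3 : ZMod 13) ^ 9 = 1) := ⟨by decide⟩
instance f13' : Fact ((9 : ZMod 13) ^ 9 = 1) := ⟨by decide⟩

/-- The two non-isomorphic groups `(Z/7 × Z/13) ⋊ Z/9`, for `r = 3` and for `r = 9`:
the fibre products over `Z/9` of `Z/7 ⋊ Z/9` and `Z/13 ⋊ Z/9`. -/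
def Gs (r : ZMod 13) [Fact (r ^ 9 = 1)] : Subgroup (SD 7 2 × SD 13 r) where
  carrier := {x | x.1.s = x.2.s}
  mul_mem' := by
    intro x y hx hy
    simp only [Set.mem_ofPred_eq] at hx hy ⊢
    simp [hx, hy]
  one_mem' := rfl
  inv_mem' := by
    intro x hx
    simp only [Set.mem_ofPred_eq] at hx ⊢
    simp [hx]

theorem mem_Gs {r : ZMod 13} [Fact (r ^ 9 = 1)] (x : SD 7 2 × SD 13 r) :
    x ∈ Gs r ↔ x.1.s = x.2.s := Iff.rfl

/-- The bijection `Z/13 ⋊_3 Z/9 → Z/13 ⋊_9 Z/9`, which is squaring up to an isomorphism. -/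
def th : SD 13 3 ≃ SD 13 9 where
  toFun x := ⟨(1 + 3 ^ x.s.val) * x.a, x.s⟩
  invFun x := ⟨(1 + 3 ^ x.s.val) ^ 11 * x.a, x.s⟩
  left_inv := by
    have key : ∀ s : ZMod 9, ((1 + 3 ^ s.val : ZMod 13)) ^ 11 * (1 + 3 ^ s.val) = 1 := by decide
    intro x
    ext
    · simp only [← mul_assoc, key, one_mul]
    · rfl
  right_inv := by
    have key : ∀ s : ZMod 9, ((1 + 3 ^ s.val : ZMod 13)) * (1 + 3 ^ s.val) ^ 11 = 1 := by decide
    intro x
    ext
    · simp only [← mul_assoc, key, one_mul]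
    · rfl

@[simp] theorem th_s (x : SD 13 3) : (th x).s = x.s := rfl
@[simp] theorem th_a (x : SD 13 3) : (th x).a = (1 + 3 ^ x.s.val) * x.a := rfl

/-- The isomorphism `Z/13 ⋊_9 Z/9 → Z/13 ⋊_3 Z/9`. -/
def io : SD 13 9 →* SD 13 3 where
  toFun x := ⟨x.a, 2 * x.s⟩
  map_one' := rfl
  map_mul' := by
    have key : ∀ s : ZMod 9, ((9 : ZMod 13) ^ s.val) = 3 ^ (2 * s).val := by decide
    intro x y
    ext
    · simp only [SD.mul_a, key]
    · simp only [SD.mul_s]; ring

theorem io_inj : Function.Injective io := by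
  have key : ∀ s t : ZMod 9, 2 * s = 2 * t → s = t := by decide
  intro x y h
  have h1 : (io x).a = (io y).a := by rw [h]
  have h2 : (io x).s = (io y).s := by rw [h]
  ext
  · exact h1
  · exact key _ _ h2

theorem io_th (x : SD 13 3) : io (th x) = x ^ 2 := by
  rw [pow_two]
  ext
  · show (1 + 3 ^ x.s.val) * x.a = x.a + 3 ^ x.s.val * x.a
    ring
  · show 2 * x.s = x.s + x.s
    ring

theorem pow118 {r : ZMod 13} [Fact (r ^ 9 = 1)] (x : SD 13 r) : x ^ 118 = x := by
  have h : x ^ 117 = 1 := by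
    have := pow_card_eq_one (x := x)
    rwa [SD.card_eq] at this
  rw [show (118 : ℕ) = 117 + 1 from rfl, pow_succ, h, one_mul]

/-- The word giving the multiplication of the second group in terms of the first one. -/
def w1 {M : Type*} [Group M] (x y : M) : M := x * y * ((x * y)⁻¹ * (x ^ 2 * y ^ 2) ^ 59) ^ 14

/-- The word giving the multiplication of the first group in terms of the second one. -/
def w2 {M : Type*} [Group M] (x y : M) : M := x * y * ((x * y)⁻¹ * (x ^ 59 * y ^ 59) ^ 2) ^ 14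

theorem map_w1 {M N : Type*} [Group M] [Group N] (f : M →* N) (x y : M) :
    f (w1 x y) = w1 (f x) (f y) := by simp [w1]

theorem map_w2 {M N : Type*} [Group M] [Group N] (f : M →* N) (x y : M) :
    f (w2 x y) = w2 (f x) (f y) := by simp [w2]

theorem w1_seven (x y : SD 7 2) : w1 x y = x * y := by
  have h : ((x * y)⁻¹ * (x ^ 2 * y ^ 2) ^ 59).s = 0 := by
    have key : ∀ s t : ZMod 9, -(s + t) + ((59 : ℕ) : ZMod 9) * (((2 : ℕ) : ZMod 9) * s +
      ((2 : ℕ) : ZMod 9) * t) = 0 := by decide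
    simp only [SD.mul_s, SD.inv_s, SD.pow_s]
    exact key _ _
  have h2 := SD.pow_p_eq_one _ h
  rw [w1, show (14 : ℕ) = 7 * 2 from rfl, pow_mul, h2, one_pow, mul_one]

theorem w2_seven (x y : SD 7 2) : w2 x y = x * y := by
  have h : ((x * y)⁻¹ * (x ^ 59 * y ^ 59) ^ 2).s = 0 := by
    have key : ∀ s t : ZMod 9, -(s + t) + ((2 : ℕ) : ZMod 9) * (((59 : ℕ) : ZMod 9) * s +
      ((59 : ℕ) : ZMod 9) * t) = 0 := by decide
    simp only [SD.mul_s, SD.inv_s, SD.pow_s]
    exact key _ _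
  have h2 := SD.pow_p_eq_one _ h
  rw [w2, show (14 : ℕ) = 7 * 2 from rfl, pow_mul, h2, one_pow, mul_one]

theorem w1_thirteen (x y : SD 13 3) : w1 x y = th.symm (th x * th y) := by
  have h : ((x * y)⁻¹ * (x ^ 2 * y ^ 2) ^ 59).s = 0 := by
    have key : ∀ s t : ZMod 9, -(s + t) + ((59 : ℕ) : ZMod 9) * (((2 : ℕ) : ZMod 9) * s +
      ((2 : ℕ) : ZMod 9) * t) = 0 := by decide
    simp only [SD.mul_s, SD.inv_s, SD.pow_s]
    exact key _ _
  have h2 := SD.pow_p_eq_one _ h
  have h3 : w1 x y = (x ^ 2 * y ^ 2) ^ 59 := by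
    rw [w1, show (14 : ℕ) = 13 + 1 from rfl, pow_succ, h2, one_mul]
    group
  have h4 : (th.symm (th x * th y)) ^ 2 = x ^ 2 * y ^ 2 := by
    rw [← io_th, Equiv.apply_symm_apply, map_mul, io_th, io_th]
  rw [h3, ← h4, ← pow_mul, pow118]

theorem w2_thirteen (x y : SD 13 9) : w2 x y = th (th.symm x * th.symm y) := by
  have h : ((x * y)⁻¹ * (x ^ 59 * y ^ 59) ^ 2).s = 0 := by
    have key : ∀ s t : ZMod 9, -(s + t) + ((2 : ℕ) : ZMod 9) * (((59 : ℕ) : ZMod 9) * s +
      ((59 : ℕ) : ZMod 9) * t) = 0 := by decide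
    simp only [SD.mul_s, SD.inv_s, SD.pow_s]
    exact key _ _
  have h2 := SD.pow_p_eq_one _ h
  have h3 : w2 x y = (x ^ 59 * y ^ 59) ^ 2 := by
    rw [w2, show (14 : ℕ) = 13 + 1 from rfl, pow_succ, h2, one_mul]
    group
  obtain ⟨x, rfl⟩ := th.surjective x
  obtain ⟨y, rfl⟩ := th.surjective y
  rw [h3, Equiv.symm_apply_apply, Equiv.symm_apply_apply]
  apply io_inj
  rw [io_th, map_pow, map_mul, map_pow, map_pow, io_th, io_th, ← pow_mul, ← pow_mul, pow118,
    pow118]

theorem th_symm_one : th.symm 1 = 1 := by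
  rw [Equiv.symm_apply_eq]
  ext
  · simp
  · rfl

theorem th_inv (x : SD 13 3) : th x⁻¹ = (th x)⁻¹ := by
  apply io_inj
  rw [io_th, map_inv, io_th, inv_pow]

theorem th_symm_inv (x : SD 13 9) : th.symm x⁻¹ = (th.symm x)⁻¹ := by
  rw [Equiv.symm_apply_eq, th_inv, Equiv.apply_symm_apply]

/-- The two groups. -/
abbrev G1 : Type := Gs 3
abbrev G2 : Type := Gs 9

/-- The bijection between them. -/
def Th : G1 ≃ G2 where
  toFun x := ⟨(x.1.1, th x.1.2), x.2⟩
  invFun x := ⟨(x.1.1, th.symm x.1.2), x.2⟩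
  left_inv x := by
    apply Subtype.ext
    exact Prod.ext rfl (th.symm_apply_apply _)
  right_inv x := by
    apply Subtype.ext
    exact Prod.ext rfl (th.apply_symm_apply _)

theorem Th_symm_mul (x y : G2) : Th.symm (x * y) = w1 (Th.symm x) (Th.symm y) := by
  apply Subtype.ext
  apply Prod.ext
  · have h := map_w1 ((MonoidHom.fst (SD 7 2) (SD 13 3)).comp (Gs 3).subtype)
      (Th.symm x) (Th.symm y)
    have h' : (w1 (Th.symm x) (Th.symm y)).1.1 = w1 (Th.symm x).1.1 (Th.symm y).1.1 := h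
    rw [h', w1_seven]
    rfl
  · have h := map_w1 ((MonoidHom.snd (SD 7 2) (SD 13 3)).comp (Gs 3).subtype)
      (Th.symm x) (Th.symm y)
    have h' : (w1 (Th.symm x) (Th.symm y)).1.2 = w1 (Th.symm x).1.2 (Th.symm y).1.2 := h
    rw [h', w1_thirteen]
    show th.symm (x.1.2 * y.1.2) = th.symm (th (th.symm x.1.2) * th (th.symm y.1.2))
    rw [Equiv.apply_symm_apply, Equiv.apply_symm_apply]

theorem Th_mul (x y : G1) : Th (x * y) = w2 (Th x) (Th y) := by
  apply Subtype.ext
  apply Prod.ext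
  · have h := map_w2 ((MonoidHom.fst (SD 7 2) (SD 13 9)).comp (Gs 9).subtype) (Th x) (Th y)
    have h' : (w2 (Th x) (Th y)).1.1 = w2 (Th x).1.1 (Th y).1.1 := h
    rw [h', w2_seven]
    rfl
  · have h := map_w2 ((MonoidHom.snd (SD 7 2) (SD 13 9)).comp (Gs 9).subtype) (Th x) (Th y)
    have h' : (w2 (Th x) (Th y)).1.2 = w2 (Th x).1.2 (Th y).1.2 := h
    rw [h', w2_thirteen]
    show th (x.1.2 * y.1.2) = th (th.symm (th x.1.2) * th.symm (th y.1.2))
    rw [Equiv.symm_apply_apply, Equiv.symm_apply_apply]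

theorem Th_symm_one : Th.symm 1 = 1 := by
  apply Subtype.ext
  exact Prod.ext rfl th_symm_one

theorem Th_one : Th 1 = 1 := by
  rw [← Th_symm_one, Equiv.apply_symm_apply]

theorem Th_inv (x : G1) : Th x⁻¹ = (Th x)⁻¹ := by
  apply Subtype.ext
  exact Prod.ext rfl (th_inv _)

theorem Th_symm_inv (x : G2) : Th.symm x⁻¹ = (Th.symm x)⁻¹ := by
  apply Subtype.ext
  exact Prod.ext rfl (th_symm_inv _)

section powers

variable {ι : Type}

theorem w1_apply (X Y : ι → G1) (i : ι) : w1 X Y i = w1 (X i) (Y i) :=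
  map_w1 (Pi.evalMonoidHom (fun _ => G1) i) X Y

theorem w2_apply (X Y : ι → G2) (i : ι) : w2 X Y i = w2 (X i) (Y i) :=
  map_w2 (Pi.evalMonoidHom (fun _ => G2) i) X Y

theorem w1_mem {M : Type*} [Group M] (K : Subgroup M) {x y : M} (hx : x ∈ K) (hy : y ∈ K) :
    w1 x y ∈ K := by
  unfold w1
  have h1 := K.mul_mem hx hy
  exact K.mul_mem h1 (K.pow_mem (K.mul_mem (K.inv_mem h1)
    (K.pow_mem (K.mul_mem (K.pow_mem hx 2) (K.pow_mem hy 2)) 59)) 14)

theorem w2_mem {M : Type*} [Group M] (K : Subgroup M) {x y : M} (hx : x ∈ K) (hy : y ∈ K) :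
    w2 x y ∈ K := by
  unfold w2
  have h1 := K.mul_mem hx hy
  exact K.mul_mem h1 (K.pow_mem (K.mul_mem (K.inv_mem h1)
    (K.pow_mem (K.mul_mem (K.pow_mem hx 59) (K.pow_mem hy 59)) 2)) 14)

/-- Subgroups of the power of the first group are subgroups of the power of the second one. -/
def fwd (K : Subgroup (ι → G1)) : Subgroup (ι → G2) where
  carrier := {X | (fun i => Th.symm (X i)) ∈ K}
  mul_mem' := by
    intro X Y hX hY
    simp only [Set.mem_ofPred_eq] at hX hY ⊢
    have h := w1_mem K hX hY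
    have e : (fun i => Th.symm ((X * Y) i)) =
        w1 (fun i => Th.symm (X i)) (fun i => Th.symm (Y i)) := by
      funext i
      rw [w1_apply, Pi.mul_apply, Th_symm_mul]
    rw [e]
    exact h
  one_mem' := by
    simp only [Set.mem_ofPred_eq, Pi.one_apply, Th_symm_one]
    exact K.one_mem
  inv_mem' := by
    intro X hX
    simp only [Set.mem_ofPred_eq, Pi.inv_apply, Th_symm_inv] at hX ⊢
    exact K.inv_mem hX

/-- Subgroups of the power of the second group are subgroups of the power of the first one. -/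
def bwd (K : Subgroup (ι → G2)) : Subgroup (ι → G1) where
  carrier := {X | (fun i => Th (X i)) ∈ K}
  mul_mem' := by
    intro X Y hX hY
    simp only [Set.mem_ofPred_eq] at hX hY ⊢
    have h := w2_mem K hX hY
    have e : (fun i => Th ((X * Y) i)) = w2 (fun i => Th (X i)) (fun i => Th (Y i)) := by
      funext i
      rw [w2_apply, Pi.mul_apply, Th_mul]
    rw [e]
    exact h
  one_mem' := by
    simp only [Set.mem_ofPred_eq, Pi.one_apply, Th_one]
    exact K.one_mem
  inv_mem' := by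
    intro X hX
    simp only [Set.mem_ofPred_eq, Pi.inv_apply, Th_inv] at hX ⊢
    exact K.inv_mem hX

theorem mem_fwd (K : Subgroup (ι → G1)) (X : ι → G2) :
    X ∈ fwd K ↔ (fun i => Th.symm (X i)) ∈ K := Iff.rfl

theorem mem_bwd (K : Subgroup (ι → G2)) (X : ι → G1) :
    X ∈ bwd K ↔ (fun i => Th (X i)) ∈ K := Iff.rfl

/-- The projectivity between the direct powers. -/
def proj (ι : Type) : Subgroup (ι → G1) ≃o Subgroup (ι → G2) where
  toFun := fwd
  invFun := bwd
  left_inv K := by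
    ext X
    rw [mem_bwd, mem_fwd]
    simp
  right_inv K := by
    ext X
    rw [mem_fwd, mem_bwd]
    simp
  map_rel_iff' := by
    intro K L
    constructor
    · intro h X hX
      have : (fun i => Th (X i)) ∈ fwd K := by
        rw [mem_fwd]
        simpa using hX
      have h2 : (fun i => Th (X i)) ∈ fwd L := h this
      rw [mem_fwd] at h2
      simpa using h2
    · intro h X hX
      exact h hX

end powers

theorem range_iff {n : ℕ} {M : Type} [Group M] (i : Fin n) (X : Fin n → M) :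
    X ∈ (MonoidHom.mulSingle (fun _ : Fin n => M) i).range ↔ ∀ j, j ≠ i → X j = 1 := by
  constructor
  · rintro ⟨a, rfl⟩ j hj
    simp [MonoidHom.mulSingle_apply, Pi.mulSingle_eq_of_ne hj]
  · intro h
    refine ⟨X i, ?_⟩
    funext j
    by_cases hj : j = i
    · subst hj; simp [MonoidHom.mulSingle_apply]
    · rw [MonoidHom.mulSingle_apply, Pi.mulSingle_eq_of_ne hj, h j hj]

theorem proj_range {n : ℕ} (i : Fin n) :
    proj (Fin n) (MonoidHom.mulSingle (fun _ : Fin n => G1) i).range =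
      (MonoidHom.mulSingle (fun _ : Fin n => G2) i).range := by
  ext X
  rw [range_iff]
  show (fun i => Th.symm (X i)) ∈ (MonoidHom.mulSingle (fun _ : Fin n => G1) i).range ↔ _
  rw [range_iff]
  constructor
  · intro h j hj
    have := h j hj
    rw [Equiv.symm_apply_eq, Th_one] at this
    exact this
  · intro h j hj
    show Th.symm (X j) = 1
    rw [h j hj, Th_symm_one]

/-- An invariant distinguishing the two groups. -/
def HasPair (M : Type) [Group M] : Prop :=
  ∃ y a b : M, a ^ 7 = 1 ∧ a ≠ 1 ∧ b ^ 13 = 1 ∧ b ≠ 1 ∧ y * a = a ^ 2 * y ∧ y * b = b ^ 3 * y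

theorem hasPair_G1 : HasPair G1 := by
  refine ⟨⟨(⟨0, 1⟩, ⟨0, 1⟩), rfl⟩, ⟨(⟨1, 0⟩, 1), rfl⟩, ⟨(1, ⟨1, 0⟩), rfl⟩, ?_, ?_, ?_, ?_, ?_, ?_⟩
  · apply Subtype.ext
    exact Prod.ext (SD.pow_p_eq_one _ rfl) (one_pow _)
  · intro h
    have h2 : (1 : ZMod 7) = 0 := congrArg (fun z : G1 => z.1.1.a) h
    exact absurd h2 (by decide)
  · apply Subtype.ext
    exact Prod.ext (one_pow _) (SD.pow_p_eq_one _ rfl)
  · intro h
    have h2 : (1 : ZMod 13) = 0 := congrArg (fun z : G1 => z.1.2.a) h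
    exact absurd h2 (by decide)
  · apply Subtype.ext
    refine Prod.ext ?_ ?_
    · show (⟨0, 1⟩ : SD 7 2) * ⟨1, 0⟩ = ⟨1, 0⟩ ^ 2 * ⟨0, 1⟩
      rw [pow_two]
      ext
      · show (0 : ZMod 7) + 2 ^ (1 : ZMod 9).val * 1 = (1 + 2 ^ (0 : ZMod 9).val * 1) +
          2 ^ (0 + 0 : ZMod 9).val * 0
        decide
      · show (1 : ZMod 9) + 0 = (0 + 0) + 1
        decide
    · show (⟨0, 1⟩ : SD 13 3) * 1 = 1 ^ 2 * ⟨0, 1⟩
      rw [one_pow, mul_one, one_mul]
  · apply Subtype.ext
    refine Prod.ext ?_ ?_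
    · show (⟨0, 1⟩ : SD 7 2) * 1 = 1 ^ 3 * ⟨0, 1⟩
      rw [one_pow, mul_one, one_mul]
    · show (⟨0, 1⟩ : SD 13 3) * ⟨1, 0⟩ = ⟨1, 0⟩ ^ 3 * ⟨0, 1⟩
      rw [pow_succ, pow_two]
      ext
      · show (0 : ZMod 13) + 3 ^ (1 : ZMod 9).val * 1 = ((1 + 3 ^ (0 : ZMod 9).val * 1) +
          3 ^ (0 + 0 : ZMod 9).val * 1) + 3 ^ ((0 + 0) + 0 : ZMod 9).val * 0
        decide
      · show (1 : ZMod 9) + 0 = ((0 + 0) + 0) + 1
        decide

theorem not_hasPair_G2 : ¬ HasPair G2 := by
  rintro ⟨y, a, b, ha, ha1, hb, hb1, hya, hyb⟩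
  -- `a` lies in `Z/7` and `b` in `Z/13`
  have hs7 : ∀ s : ZMod 9, ((7 : ℕ) : ZMod 9) * s = 0 → s = 0 := by decide
  have hs13 : ∀ s : ZMod 9, ((13 : ℕ) : ZMod 9) * s = 0 → s = 0 := by decide
  have has : a.1.2.s = 0 := by
    have h : (a.1.2 ^ 7).s = (1 : SD 13 9).s := congrArg (fun z : G2 => z.1.2.s) ha
    rw [SD.pow_s] at h
    exact hs7 _ h
  have has' : a.1.1.s = 0 := a.2.trans has
  have hbs : b.1.2.s = 0 := by
    have h : (b.1.2 ^ 13).s = (1 : SD 13 9).s := congrArg (fun z : G2 => z.1.2.s) hb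
    rw [SD.pow_s] at h
    exact hs13 _ h
  have hbs' : b.1.1.s = 0 := b.2.trans hbs
  have ha2 : a.1.2.a = 0 := by
    have h : (a.1.2 ^ 7).a = (1 : SD 13 9).a := congrArg (fun z : G2 => z.1.2.a) ha
    rw [SD.pow_a_of_s _ has] at h
    have key : ∀ s : ZMod 13, ((7 : ℕ) : ZMod 13) * s = 0 → s = 0 := by decide
    exact key _ h
  have hb2 : b.1.1.a = 0 := by
    have h : (b.1.1 ^ 13).a = (1 : SD 7 2).a := congrArg (fun z : G2 => z.1.1.a) hb
    rw [SD.pow_a_of_s _ hbs'] at h
    have key : ∀ s : ZMod 7, ((13 : ℕ) : ZMod 7) * s = 0 → s = 0 := by decide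
    exact key _ h
  have ha3 : a.1.1.a ≠ 0 := by
    intro h
    apply ha1
    apply Subtype.ext
    refine Prod.ext ?_ ?_
    · ext
      · exact h
      · exact has'
    · ext
      · exact ha2
      · exact has
  have hb3 : b.1.2.a ≠ 0 := by
    intro h
    apply hb1
    apply Subtype.ext
    refine Prod.ext ?_ ?_
    · ext
      · exact hb2
      · exact hbs'
    · ext
      · exact h
      · exact hbs
  have e1 : y.1.1.a + 2 ^ y.1.1.s.val * a.1.1.a =
      (a.1.1 ^ 2).a + 2 ^ (a.1.1 ^ 2).s.val * y.1.1.a :=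
    congrArg (fun z : G2 => z.1.1.a) hya
  have e2 : y.1.2.a + 9 ^ y.1.2.s.val * b.1.2.a =
      (b.1.2 ^ 3).a + 9 ^ (b.1.2 ^ 3).s.val * y.1.2.a :=
    congrArg (fun z : G2 => z.1.2.a) hyb
  rw [SD.pow_a_of_s _ has', SD.pow_s, has'] at e1
  rw [SD.pow_a_of_s _ hbs, SD.pow_s, hbs] at e2
  have hy : y.1.1.s = y.1.2.s := y.2
  rw [hy] at e1
  simp only [mul_zero, ZMod.val_zero, pow_zero, one_mul] at e1 e2
  have e1' : (2 : ZMod 7) ^ y.1.2.s.val * a.1.1.a = ((2 : ℕ) : ZMod 7) * a.1.1.a := by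
    linear_combination e1
  have e2' : (9 : ZMod 13) ^ y.1.2.s.val * b.1.2.a = ((3 : ℕ) : ZMod 13) * b.1.2.a := by
    linear_combination e2
  have c7 : ∀ u v : ZMod 7, u ≠ 0 → v * u = ((2 : ℕ) : ZMod 7) * u → v = 2 := by decide
  have c13 : ∀ u v : ZMod 13, u ≠ 0 → v * u = ((3 : ℕ) : ZMod 13) * u → v = 3 := by decide
  have f1 := c7 _ _ ha3 e1'
  have f2 := c13 _ _ hb3 e2'
  have key : ∀ s : ZMod 9, (2 : ZMod 7) ^ s.val = 2 → (9 : ZMod 13) ^ s.val = 3 → False := by
    decide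
  exact key _ f1 f2

theorem hasPair_of_equiv {M N : Type} [Group M] [Group N] (e : M ≃* N) (h : HasPair M) :
    HasPair N := by
  obtain ⟨y, a, b, h1, h2, h3, h4, h5, h6⟩ := h
  refine ⟨e y, e a, e b, ?_, ?_, ?_, ?_, ?_, ?_⟩
  · rw [← map_pow, h1, map_one]
  · simpa using h2
  · rw [← map_pow, h3, map_one]
  · simpa using h4
  · rw [← map_mul, h5, map_mul, map_pow]
  · rw [← map_mul, h6, map_mul, map_pow]

/-- The coordinate subgroup is isomorphic to the group itself. -/
theorem exists_equiv_range {n : ℕ} {M : Type} [Group M] (i : Fin n) :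
    Nonempty (M ≃* (MonoidHom.mulSingle (fun _ : Fin n => M) i).range) := by
  have hinj : Function.Injective (MonoidHom.mulSingle (fun _ : Fin n => M) i) :=
    Pi.mulSingle_injective (M := fun _ : Fin n => M) i
  exact ⟨MonoidHom.ofInjective hinj⟩

/-- The negation of the preceding statement: For every group G, every m ≥ 2 and every lattice isomorphism φ from the subgroups of G^m to the subgroups of a group H such that H is the internal direct product of the images of the coordinate subgroups, the image of the first coordinate subgroup is isomorphic to G. -/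
theorem result :
    ¬ (∀ (G : Type) [Group G] (n : ℕ) (H : Type) [Group H]
      (φ : Subgroup (Fin (n + 2) → G) ≃o Subgroup H),
      (∀ i : Fin (n + 2),
          (φ (MonoidHom.mulSingle (fun _ : Fin (n + 2) => G) i).range).Normal) →
      (⨆ i : Fin (n + 2), φ (MonoidHom.mulSingle (fun _ : Fin (n + 2) => G) i).range) = ⊤ →
      iSupIndep (fun i : Fin (n + 2) =>
          φ (MonoidHom.mulSingle (fun _ : Fin (n + 2) => G) i).range) →
      Nonempty (↥(φ (MonoidHom.mulSingle (fun _ : Fin (n + 2) => G) 0).range) ≃* G)) := by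
  intro h
  have key := h G1 0 (Fin 2 → G2) (proj (Fin 2)) ?_ ?_ ?_
  · obtain ⟨e⟩ := key
    have hr := proj_range (n := 2) 0
    obtain ⟨e2⟩ := exists_equiv_range (n := 2) (M := G2) 0
    have e3 : ↥(proj (Fin 2) (MonoidHom.mulSingle (fun _ : Fin 2 => G1) 0).range) ≃*
        ↥(MonoidHom.mulSingle (fun _ : Fin 2 => G2) 0).range := MulEquiv.subgroupCongr hr
    exact not_hasPair_G2 (hasPair_of_equiv ((e.symm.trans e3).trans e2.symm) hasPair_G1)
  · intro i
    rw [proj_range]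
    constructor
    intro X hX Y
    rw [range_iff] at hX ⊢
    intro j hj
    simp [hX j hj]
  · simp only [proj_range]
    rw [eq_top_iff]
    intro X _
    have hX : X = Pi.mulSingle 0 (X 0) * Pi.mulSingle 1 (X 1) := by
      funext j
      fin_cases j <;> simp
    rw [hX]
    exact Subgroup.mul_mem _
      (Subgroup.mem_iSup_of_mem 0 ⟨X 0, rfl⟩) (Subgroup.mem_iSup_of_mem 1 ⟨X 1, rfl⟩)
  · simp only [proj_range]
    intro i
    rw [Subgroup.disjoint_def]
    intro X hX hX2
    rw [range_iff] at hX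
    have hle : (⨆ j, ⨆ (_ : j ≠ i), (MonoidHom.mulSingle (fun _ : Fin 2 => G2) j).range) ≤
        (Pi.evalMonoidHom (fun _ : Fin 2 => G2) i).ker := by
      refine iSup_le fun j => iSup_le fun hj => ?_
      intro Y hY
      rw [range_iff] at hY
      exact hY i (Ne.symm hj)
    have hi : X i = 1 := hle hX2
    funext j
    by_cases hj : j = i
    · subst hj; exact hi
    · exact hX j hj

end Pool.Agent.S00830
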