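import Pool.Statements.S01596
import Pool.Agent.Lib.MP_5c99ad_al.Final
import Pool.Agent.Lib.MP_5c99ad_al.T1E
import Pool.Agent.Lib.MP_5c99ad_al.BCert2
import Pool.Agent.Lib.MP_5c99ad_al.LawCert
import Pool.Agent.Lib.MP_5c99ad_al.HexH

set_option autoImplicit false
open Pool Pool.MP_5c99ad_al

namespace Pool.Agent.S01596

/-- The negation of the preceding statement: For every prime p > 3, every finite group in which all elements satisfy x^p = 1 embeds, by an injective homomorphism, into the commutator subgroup of some finite group in which all elements satisfy y^p = 1. -/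
theorem result :
    ¬ (∀ p : ℕ, p.Prime → 3 < p →
      ∀ (G : Type) (_ : Group G), Finite G → (∀ x : G, x ^ p = 1) →
        ∃ (H : Type) (_ : Group H), Finite H ∧ (∀ y : H, y ^ p = 1) ∧
          ∃ f : G →* H, Function.Injective f ∧ ∀ g : G, f g ∈ commutator H) := by
  exact Pool.Agent.MP5c99ad.final Pool.Agent.MP5c99ad.T1_seven Pool.Agent.MP5c99ad.bCert2
    Pool.Agent.MP5c99ad.lawVW Pool.Agent.MP5c99ad.lawXY Pool.Agent.MP5c99ad.lawBX
    Pool.Agent.MP5c99ad.hExists

end Pool.Agent.S01596
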