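import Pool.Statements.S01951
import Pool.Agent.Lib.MP_7692ce_al.Group

set_option autoImplicit false
open Pool Pool.MP_7692ce_al

namespace Pool.Agent.S01951

open Pool.Agent.Lib.MRDP Pool.Agent.Lib.MP_7692ce_al

/-- Some nilpotent group G with a finite generating set has undecidable retract problem: no algorithm decides, from a finite list of words, whether the subgroup they generate is a retract of G. -/
theorem result :
    ∃ (G : Type) (_ : Group G), Group.IsNilpotent G ∧
      ∃ (n : ℕ) (φ : FreeGroup (Fin n) →* G), Function.Surjective φ ∧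
        ¬ ComputablePred (fun L : List (List (Fin n × Bool)) =>
          ∃ r : G →* G,
            r.range = Subgroup.closure {g : G | ∃ w ∈ L, φ (FreeGroup.mk w) = g} ∧
            ∀ h ∈ Subgroup.closure {g : G | ∃ w ∈ L, φ (FreeGroup.mk w) = g}, r h = h) := by
  obtain ⟨S, hS, hnc⟩ := exists_dioph_not_computable
  obtain ⟨γ, hγ, E, hE⟩ := dioph_system hS
  -- the set is nonempty
  have hne : ∃ a, S a := by
    by_contra hno
    push Not at hno
    apply hnc
    have h1 : ComputablePred (fun _ : ℕ => False) :=
      ⟨fun _ => isFalse not_false, by simpa using Computable.const false⟩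
    exact h1.of_eq (fun a => by simp [hno a])
  obtain ⟨a0, ha0⟩ := hne
  obtain ⟨y0, hy0⟩ := (hE a0).mp ha0
  -- the generating set
  obtain ⟨n, ⟨ε⟩⟩ := Finite.exists_equiv_fin (Gen γ)
  let ψ : FreeGroup (Fin n) →* FreeGroup (Gen γ) := FreeGroup.map ε.symm
  let φ : FreeGroup (Fin n) →* GG E := (π E).comp ψ
  have hψ : Function.Surjective ψ := by
    intro w
    refine ⟨FreeGroup.map ε w, ?_⟩
    simp only [ψ]
    rw [FreeGroup.map.comp]
    have : (ε.symm : Fin n → Gen γ) ∘ ε = id := by
      funext i
      simp
    rw [this, FreeGroup.map.id]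
  refine ⟨GG E, inferInstance, isNilpotent_of_C2 (GG_c2 E), n, φ, (π_surj E).comp hψ, ?_⟩
  intro hcomp
  apply hnc
  -- the reduction
  let le : Fin n := ε none
  let l1 : Fin n := ε (some (Sum.inl (some none)))
  let l0 : Fin n := ε (some (Sum.inl none))
  let ly : Fin n := ε (some (Sum.inr none))
  let red : ℕ → List (List (Fin n × Bool)) := fun a =>
    [(le, true) :: (((List.range (2 * a)).map (fun _ => (l1, false))) ++
      ((List.range (a * a)).map (fun _ => (l0, true)))), [(ly, true)]]
  have hred : Computable red := by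
    have hA : Primrec fun a : ℕ => (List.range (2 * a)).map (fun _ => (l1, false)) :=
      Primrec.list_map (Primrec.list_range.comp (Primrec.nat_mul.comp (Primrec.const 2) Primrec.id))
        (Primrec.const (l1, false)).to₂
    have hB : Primrec fun a : ℕ => (List.range (a * a)).map (fun _ => (l0, true)) :=
      Primrec.list_map (Primrec.list_range.comp (Primrec.nat_mul.comp Primrec.id Primrec.id))
        (Primrec.const (l0, true)).to₂
    have hC : Primrec fun a : ℕ => ((List.range (2 * a)).map (fun _ => (l1, false))) ++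
        ((List.range (a * a)).map (fun _ => (l0, true))) := Primrec.list_append.comp hA hB
    have hD : Primrec fun a : ℕ => (le, true) :: (((List.range (2 * a)).map (fun _ => (l1, false))) ++
        ((List.range (a * a)).map (fun _ => (l0, true)))) :=
      Primrec.list_cons.comp (Primrec.const (le, true)) hC
    exact (Primrec.list_cons.comp hD (Primrec.const [[(ly, true)]])).to_comp
  obtain ⟨d, hd⟩ := hcomp
  have h2 : ComputablePred fun a : ℕ => ∃ r : GG E →* GG E,
      r.range = Subgroup.closure {g : GG E | ∃ w ∈ red a, φ (FreeGroup.mk w) = g} ∧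
      ∀ h ∈ Subgroup.closure {g : GG E | ∃ w ∈ red a, φ (FreeGroup.mk w) = g}, r h = h :=
    ⟨fun a => d (red a), hd.comp hred⟩
  refine h2.of_eq (fun a => ?_)
  have hrep : ∀ (x : Fin n) (b : Bool) (m : ℕ), φ (FreeGroup.mk ((List.range m).map (fun _ => (x, b))))
      = (φ (FreeGroup.mk [(x, b)])) ^ m := by
    intro x b m
    induction m with
    | zero => simp; rfl
    | succ m ih =>
      rw [List.range_succ, List.map_append, ← FreeGroup.mul_mk, map_mul, ih, pow_succ]
      rfl
  have hle : φ (FreeGroup.mk [(le, true)]) = π E fe := by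
    change π E (FreeGroup.map ε.symm (FreeGroup.of le)) = _
    rw [FreeGroup.map.of]
    simp [le, fe]
  have hl0 : φ (FreeGroup.mk [(l0, true)]) = π E (fX none) := by
    change π E (FreeGroup.map ε.symm (FreeGroup.of l0)) = _
    rw [FreeGroup.map.of]
    simp [l0, fX]
  have hly : φ (FreeGroup.mk [(ly, true)]) = yhat E := by
    change π E (FreeGroup.map ε.symm (FreeGroup.of ly)) = _
    rw [FreeGroup.map.of]
    simp [ly, yhat, fY]
  have hl1 : φ (FreeGroup.mk [(l1, false)]) = (π E (fX (some none)))⁻¹ := by
    have : (FreeGroup.mk [(l1, false)] : FreeGroup (Fin n)) = (FreeGroup.of l1)⁻¹ := rfl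
    rw [this, map_inv]
    congr 1
    change π E (FreeGroup.map ε.symm (FreeGroup.of l1)) = _
    rw [FreeGroup.map.of]
    simp [l1, fX]
  have hw : φ (FreeGroup.mk ((le, true) :: (((List.range (2 * a)).map (fun _ => (l1, false))) ++
      ((List.range (a * a)).map (fun _ => (l0, true)))))) = ehat E a := by
    have h1 : (FreeGroup.mk ((le, true) :: (((List.range (2 * a)).map (fun _ => (l1, false))) ++
      ((List.range (a * a)).map (fun _ => (l0, true))))) : FreeGroup (Fin n)) =
      FreeGroup.mk [(le, true)] * (FreeGroup.mk ((List.range (2 * a)).map (fun _ => (l1, false))) *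
        FreeGroup.mk ((List.range (a * a)).map (fun _ => (l0, true)))) := by
      rw [FreeGroup.mul_mk, FreeGroup.mul_mk]
      rfl
    rw [h1, map_mul, map_mul, hrep, hrep, hle, hl0, hl1]
    unfold ehat
    rw [zpow_neg, ← mul_assoc]
    congr 2
    rw [inv_pow]
    norm_cast
  have hset : {g : GG E | ∃ w ∈ red a, φ (FreeGroup.mk w) = g} = {ehat E a, yhat E} := by
    ext g
    simp only [red, List.mem_cons, List.not_mem_nil, or_false, Set.mem_ofPred_eq,
      Set.mem_insert_iff, Set.mem_singleton_iff, exists_eq_or_imp, exists_eq_left]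
    rw [hw, hly]
    constructor
    · rintro (h | h)
      · exact Or.inl h.symm
      · exact Or.inr h.symm
    · rintro (h | h)
      · exact Or.inl h.symm
      · exact Or.inr h.symm
  rw [hset]
  change (∃ r : GG E →* GG E, r.range = HH E a ∧ ∀ h ∈ HH E a, r h = h) ↔ S a
  rw [hE a]
  constructor
  · rintro ⟨r, h1, h2⟩
    obtain ⟨x, hx0, hxa, hx⟩ := solution_of_retract E a (Option.elim' 1 (Option.elim' (a0 : ℤ) y0))
      rfl hy0 r h1 h2
    refine ⟨fun i => x (some (some i)), ?_⟩
    have : Option.elim' 1 (Option.elim' (a : ℤ) (fun i => x (some (some i)))) = x := by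
      funext i
      rcases i with _ | _ | i
      · exact hx0.symm
      · exact hxa.symm
      · rfl
    rw [this]
    exact hx
  · rintro ⟨y, hy⟩
    exact retract_of_solution E a (Option.elim' 1 (Option.elim' (a : ℤ) y)) rfl rfl hy

end Pool.Agent.S01951
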