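import Pool.Statements.S01976

set_option autoImplicit false
open Pool Pool.MP_783016_al

namespace Pool.Agent.S01976

open Polynomial

/-- The base ring `F_2[u][z]`. -/
abbrev S : Type := ((ZMod 2)[X])[X]

/-- The element `u`. -/
noncomputable def u : S := C X

/-- The element `z`. -/
noncomputable def z : S := X

/-- The quartic `x (x+z) (x+uz) (x+(u+1)z)`, expanded in characteristic two. -/
noncomputable def f : S[X] :=
  X ^ 4 - (C (z ^ 2 * (u ^ 2 + u + 1)) * X ^ 2 + C (z ^ 3 * (u ^ 2 + u)) * X)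

theorem f_monic : f.Monic := by
  unfold f
  monicity!

/-- The ring of the counterexample. -/
abbrev A : Type := AdjoinRoot f

theorem noeth : IsNoetherianRing A :=
  isNoetherianRing_of_surjective S[X] (AdjoinRoot f) (AdjoinRoot.mk f) AdjoinRoot.mk_surjective

/-- The generator of `J`. -/
noncomputable def x : A := AdjoinRoot.root f

/-- The generator of `I`. -/
noncomputable def Z : A := AdjoinRoot.of f z

/-- Image of `u`. -/
noncomputable def U : A := AdjoinRoot.of f u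

theorem two_S : (2 : S) = 0 := by
  have : (2 : ZMod 2) = 0 := by decide
  have h : (C (C (2 : ZMod 2)) : S) = 0 := by rw [this]; simp
  have h2 : (C (C (2 : ZMod 2)) : S) = 2 := by
    rw [map_ofNat, map_ofNat]
  rw [← h2, h]

theorem two_A : (2 : A) = 0 := by
  have h := congrArg (AdjoinRoot.of f) two_S
  rw [map_ofNat, map_zero] at h
  exact h

theorem x_pow_four : x ^ 4 = Z ^ 2 * (U ^ 2 + U + 1) * x ^ 2 + Z ^ 3 * (U ^ 2 + U) * x := by
  have h : AdjoinRoot.mk f f = 0 := AdjoinRoot.mk_self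
  have h2 : AdjoinRoot.mk f f = x ^ 4 - (Z ^ 2 * (U ^ 2 + U + 1) * x ^ 2 + Z ^ 3 * (U ^ 2 + U) * x) := by
    conv_lhs => rw [show AdjoinRoot.mk f f = AdjoinRoot.mk f (X ^ 4 - (C (z ^ 2 * (u ^ 2 + u + 1)) * X ^ 2 + C (z ^ 3 * (u ^ 2 + u)) * X)) from rfl]
    simp only [map_sub, map_add, map_mul, map_pow, AdjoinRoot.mk_X, AdjoinRoot.mk_C, x, Z, U, map_one]
  rw [h2] at h
  exact sub_eq_zero.mp h

/-- lower bound -/
theorem lower (n : ℕ) : ∃ a b c : A, x ^ (n + 3) = Z ^ n * (a * x ^ 3 + b * Z * x ^ 2 + c * Z ^ 2 * x) := by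
  induction n with
  | zero => exact ⟨1, 0, 0, by ring⟩
  | succ n ih =>
    obtain ⟨a, b, c, h⟩ := ih
    refine ⟨b, a * (U ^ 2 + U + 1) + c, a * (U ^ 2 + U), ?_⟩
    have : x ^ (n + 1 + 3) = x ^ (n + 3) * x := by ring
    rw [this, h]
    have h4 := x_pow_four
    have : Z ^ n * (a * x ^ 3 + b * Z * x ^ 2 + c * Z ^ 2 * x) * x
      = Z ^ n * (a * x ^ 4 + b * Z * x ^ 3 + c * Z ^ 2 * x ^ 2) := by ring
    rw [this, h4]
    ring

theorem lower_pow (k : ℕ) : ∃ a b : A, x ^ (2 ^ (k + 1)) = Z ^ (2 ^ (k + 1) - 2) * (a * x ^ 2 + b * Z * x) := by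
  induction k with
  | zero => exact ⟨1, 0, by simp⟩
  | succ k ih =>
    obtain ⟨a, b, h⟩ := ih
    refine ⟨a ^ 2 * (U ^ 2 + U + 1) + b ^ 2, a ^ 2 * (U ^ 2 + U), ?_⟩
    have hge : 2 ≤ 2 ^ (k + 1) := by
      calc 2 = 2 ^ 1 := rfl
        _ ≤ 2 ^ (k + 1) := Nat.pow_le_pow_right (by norm_num) (by omega)
    have e1 : 2 ^ (k + 1 + 1) = 2 ^ (k + 1) * 2 := by ring
    generalize 2 ^ (k + 1) = q at *
    have e2 : q * 2 - 2 = (q - 2) * 2 + 2 := by omega
    rw [e1, e2, pow_mul, h, pow_add, pow_mul]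
    have h4 := x_pow_four
    have : (Z ^ (q - 2) * (a * x ^ 2 + b * Z * x)) ^ 2
      = (Z ^ (q - 2)) ^ 2 * (a ^ 2 * x ^ 4 + b ^ 2 * Z ^ 2 * x ^ 2) + 2 * (Z ^ (q - 2)) ^ 2 * (a * b * Z * x ^ 3) := by ring
    rw [this, two_A, h4]
    ring

/-- The four roots. -/
noncomputable def rt : Fin 4 → S := ![0, z, u * z, (u + 1) * z]

theorem eval_rt (i : Fin 4) : f.eval₂ (RingHom.id S) (rt i) = 0 := by
  have h2 := two_S
  unfold f
  simp only [eval₂_sub, eval₂_add, eval₂_mul, eval₂_pow, eval₂_X, eval₂_C, RingHom.id_apply]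
  fin_cases i
  · simp [rt]
  · simp only [rt]
    change z ^ 4 - (z ^ 2 * (u ^ 2 + u + 1) * z ^ 2 + z ^ 3 * (u ^ 2 + u) * z) = 0
    linear_combination (-(z ^ 4) * (u ^ 2 + u)) * h2
  · change (u * z) ^ 4 - (z ^ 2 * (u ^ 2 + u + 1) * (u * z) ^ 2 + z ^ 3 * (u ^ 2 + u) * (u * z)) = 0
    linear_combination (-(z ^ 4) * (u ^ 3 + u ^ 2)) * h2
  · change ((u + 1) * z) ^ 4 - (z ^ 2 * (u ^ 2 + u + 1) * ((u + 1) * z) ^ 2 + z ^ 3 * (u ^ 2 + u) * ((u + 1) * z)) = 0
    linear_combination (0 : S) * h2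

/-- Evaluation of an element of `A` at the `i`-th root. -/
noncomputable def ev (i : Fin 4) : A →+* S := AdjoinRoot.lift (RingHom.id S) (rt i) (eval_rt i)

theorem ev_x (i : Fin 4) : ev i x = rt i := by
  unfold ev x
  exact AdjoinRoot.lift_root (eval_rt i)

theorem ev_of (i : Fin 4) (s : S) : ev i (AdjoinRoot.of f s) = s := by
  unfold ev
  rw [AdjoinRoot.lift_of]
  rfl

theorem ev_Z (i : Fin 4) : ev i Z = z := by
  unfold ev Z
  rw [AdjoinRoot.lift_of]
  rfl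

/-- Sum of the four evaluations. -/
noncomputable def phi (a : A) : S := ∑ i : Fin 4, ev i a

theorem phi_mul_Z (n : ℕ) (a : A) : phi (Z ^ n * a) = z ^ n * phi a := by
  unfold phi
  simp only [map_mul, map_pow, ev_Z, Finset.mul_sum]

theorem phi_x_pow (m : ℕ) (hm : 0 < m) : phi (x ^ m) = z ^ m * (1 + u ^ m + (u + 1) ^ m) := by
  unfold phi
  simp only [map_pow, ev_x, Fin.sum_univ_four]
  simp only [rt]
  change (0 : S) ^ m + z ^ m + (u * z) ^ m + ((u + 1) * z) ^ m = _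
  rw [zero_pow hm.ne', mul_pow, mul_pow]
  ring

theorem phi_dvd (a : A) : z ^ 3 ∣ phi a := by
  obtain ⟨g, rfl⟩ := AdjoinRoot.mk_surjective a
  induction g using Polynomial.induction_on' with
  | add p q hp hq =>
    have : phi (AdjoinRoot.mk f (p + q)) = phi (AdjoinRoot.mk f p) + phi (AdjoinRoot.mk f q) := by
      unfold phi
      simp only [map_add, Finset.sum_add_distrib]
    rw [this]
    exact dvd_add hp hq
  | monomial n s =>
    have h1 : AdjoinRoot.mk f (monomial n s) = AdjoinRoot.of f s * x ^ n := by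
      rw [← C_mul_X_pow_eq_monomial, map_mul, map_pow, AdjoinRoot.mk_X, AdjoinRoot.mk_C]
      rfl
    have h2 : phi (AdjoinRoot.of f s * x ^ n) = s * phi (x ^ n) := by
      unfold phi
      rw [Finset.mul_sum]
      refine Finset.sum_congr rfl (fun i _ => ?_)
      rw [map_mul, ev_of]
    rw [h1, h2]
    apply Dvd.dvd.mul_left
    have t2 := two_S
    rcases Nat.lt_or_ge n 3 with h | h
    · interval_cases n
      · have : phi (x ^ 0) = 0 := by
          unfold phi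
          simp only [pow_zero, map_one, Finset.sum_const, Finset.card_univ, Fintype.card_fin, nsmul_eq_mul, mul_one]
          push_cast
          linear_combination (2 : S) * t2
        rw [this]; exact dvd_zero _
      · rw [phi_x_pow 1 (by norm_num)]
        have : z ^ 1 * (1 + u ^ 1 + (u + 1) ^ 1) = 0 := by linear_combination (z * (1 + u)) * t2
        rw [this]; exact dvd_zero _
      · rw [phi_x_pow 2 (by norm_num)]
        have : z ^ 2 * (1 + u ^ 2 + (u + 1) ^ 2) = 0 := by linear_combination (z ^ 2 * (1 + u + u ^ 2)) * t2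
        rw [this]; exact dvd_zero _
    · rw [phi_x_pow n (by omega)]
      exact Dvd.dvd.mul_right (pow_dvd_pow z h) _

theorem not_dvd (m n : ℕ) (hm : 0 < m) (hn : n + 3 = m + 1)
    (hne : (1 + X ^ m + (X + 1) ^ m : (ZMod 2)[X]) ≠ 0) : ¬ Z ^ n ∣ x ^ m := by
  rintro ⟨b, hb⟩
  have h1 := phi_x_pow m hm
  rw [hb, phi_mul_Z] at h1
  obtain ⟨s, hs⟩ := phi_dvd b
  rw [hs, ← mul_assoc, ← pow_add, hn] at h1
  have hz : z ^ m ≠ 0 := pow_ne_zero _ X_ne_zero
  have h2 : z * s = 1 + u ^ m + (u + 1) ^ m := by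
    have : z ^ m * (z * s) = z ^ m * (1 + u ^ m + (u + 1) ^ m) := by
      rw [← h1]; ring
    exact mul_left_cancel₀ hz this
  have h3 : (1 + u ^ m + (u + 1) ^ m : S) = C (1 + X ^ m + (X + 1) ^ m) := by
    unfold u
    simp only [map_add, map_pow, map_one]
  rw [h3] at h2
  have h4 := congrArg (fun p : S => p.coeff 0) h2
  simp only [z, mul_coeff_zero, coeff_X_zero, zero_mul, coeff_C_zero] at h4
  exact hne h4.symm

theorem ne_zero_pow (k s : ℕ) (hs : 0 < s) (hk : s < 2 ^ k) :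
    (1 + X ^ (2 ^ k + s) + (X + 1) ^ (2 ^ k + s) : (ZMod 2)[X]) ≠ 0 := by
  intro h
  have hp : (X + 1 : (ZMod 2)[X]) ^ (2 ^ k) = X ^ (2 ^ k) + 1 := by
    rw [add_pow_char_pow]
    simp
  rw [pow_add (X + 1 : (ZMod 2)[X]), hp] at h
  have h4 := congrArg (fun p : (ZMod 2)[X] => p.coeff (2 ^ k)) h
  have hpos : 0 < 2 ^ k := by positivity
  have e1 : ((1 : (ZMod 2)[X])).coeff (2 ^ k) = 0 := by
    rw [coeff_one]; simp
  have e2 : ((X : (ZMod 2)[X]) ^ (2 ^ k + s)).coeff (2 ^ k) = 0 := by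
    rw [coeff_X_pow]; simp; omega
  have e3 : ((X ^ (2 ^ k) + 1) * (X + 1) ^ s : (ZMod 2)[X]).coeff (2 ^ k) = 1 := by
    rw [add_mul, coeff_add, one_mul]
    have : (X ^ (2 ^ k) * (X + 1) ^ s : (ZMod 2)[X]).coeff (2 ^ k) = ((X + 1) ^ s : (ZMod 2)[X]).coeff 0 := by
      conv_lhs => rw [show (2 ^ k) = 0 + 2 ^ k by omega]
      rw [zero_add]
      conv_lhs => 
        arg 2
        rw [show (2 ^ k) = 0 + 2 ^ k by omega]
      rw [coeff_X_pow_mul]
    rw [this, coeff_X_add_one_pow, coeff_X_add_one_pow]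
    rw [Nat.choose_eq_zero_of_lt hk]
    simp
  simp only [coeff_add, e1, e2, e3, coeff_zero] at h4
  simp at h4

theorem Z_pow_ne (n : ℕ) : Z ^ n ≠ 0 := by
  intro h
  have h1 := congrArg (ev 0) h
  rw [map_pow, ev_Z, map_zero] at h1
  exact pow_ne_zero n X_ne_zero h1

theorem x_pow_ne (n : ℕ) : x ^ n ≠ 0 := by
  intro h
  have h1 := congrArg (ev 1) h
  rw [map_pow, ev_x, map_zero] at h1
  have h2 : rt 1 = z := rfl
  rw [h2] at h1
  exact pow_ne_zero n X_ne_zero h1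

theorem smul_eq (s : S) (b : A) : s • b = AdjoinRoot.of f s * b := by
  rw [← AdjoinRoot.algebraMap_eq]
  exact Algebra.smul_def s b

theorem eq_zero_of_dvd (a : A) (h : ∀ n : ℕ, Z ^ n ∣ a) : a = 0 := by
  have key : AdjoinRoot.modByMonicHom f_monic a = 0 := by
    ext1 j
    rw [coeff_zero]
    ext1 d
    rw [coeff_zero]
    obtain ⟨b, hb⟩ := h (d + 1)
    have h0 : (z ^ (d + 1)) • b = AdjoinRoot.of f (z ^ (d + 1)) * b := smul_eq _ _
    have h1 : a = (z ^ (d + 1)) • b := by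
      rw [hb, h0, map_pow]
      rfl
    have h2 : (AdjoinRoot.modByMonicHom f_monic a).coeff j
        = X ^ (d + 1) * (AdjoinRoot.modByMonicHom f_monic b).coeff j := by
      rw [h1, map_smul, coeff_smul, smul_eq_mul]
      rfl
    have h3 : (X ^ (d + 1) : S) ∣ (AdjoinRoot.modByMonicHom f_monic a).coeff j := ⟨_, h2⟩
    rw [X_pow_dvd_iff] at h3
    exact h3 d (Nat.lt_succ_self d)
  have h4 := AdjoinRoot.mk_leftInverse f_monic a
  rw [key, map_zero] at h4
  exact h4.symm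

/-- The ideal `I`. -/
noncomputable def I : Ideal A := Ideal.span {Z}

/-- The ideal `J`. -/
noncomputable def J : Ideal A := Ideal.span {x}

theorem le_iff (m n : ℕ) : J ^ m ≤ I ^ n ↔ Z ^ n ∣ x ^ m := by
  unfold I J
  rw [Ideal.span_singleton_pow, Ideal.span_singleton_pow, Ideal.span_singleton_le_span_singleton]

theorem sSup_eq (m w : ℕ) (h1 : Z ^ w ∣ x ^ m) (h2 : ¬ Z ^ (w + 1) ∣ x ^ m) :
    sSup {n : ℕ | J ^ m ≤ I ^ n} = w := by
  have h3 : {n : ℕ | J ^ m ≤ I ^ n} = Set.Iic w := by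
    ext n
    rw [Set.mem_ofPred_eq, le_iff, Set.mem_Iic]
    constructor
    · intro h
      by_contra hlt
      push Not at hlt
      exact h2 ((pow_dvd_pow Z hlt).trans h)
    · intro h
      exact (pow_dvd_pow Z h).trans h1
  rw [h3, csSup_Iic]

theorem v_generic (k s : ℕ) (hk : 2 ≤ k) (hs : 0 < s) (hk' : s < 2 ^ k) :
    sSup {n : ℕ | J ^ (2 ^ k + s) ≤ I ^ n} = 2 ^ k + s - 3 := by
  have h4 : 2 ^ 2 ≤ 2 ^ k := Nat.pow_le_pow_right (by norm_num) hk
  apply sSup_eq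
  · obtain ⟨a, b, c, h⟩ := lower (2 ^ k + s - 3)
    rw [show 2 ^ k + s - 3 + 3 = 2 ^ k + s by omega] at h
    exact ⟨_, h⟩
  · apply not_dvd (2 ^ k + s) _ (by omega) (by omega)
    exact ne_zero_pow k s hs hk'

theorem v_power (k : ℕ) (hk : 2 ≤ k) :
    sSup {n : ℕ | J ^ (2 ^ k) ≤ I ^ n} = 2 ^ k - 2 := by
  have h4 : 2 ^ 2 ≤ 2 ^ k := Nat.pow_le_pow_right (by norm_num) hk
  apply sSup_eq
  · obtain ⟨a, b, h⟩ := lower_pow (k - 1)
    rw [show k - 1 + 1 = k by omega] at h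
    exact ⟨_, h⟩
  · intro h
    have h5 : Z ^ (2 ^ k - 2 + 1) ∣ x ^ (2 ^ k + 1) := by
      rw [pow_succ x]
      exact Dvd.dvd.mul_right h x
    exact not_dvd (2 ^ k + 1) _ (by omega) (by omega) (ne_zero_pow k 1 (by norm_num) (by omega)) h5

/-- The negation of the preceding statement: Let A be Noetherian, J ⊆ rad I, I not nilpotent, ⋂ Iⁿ = 0, J not nilpotent, and v(m) the largest n with Jᵐ ⊆ Iⁿ. Then some t > 0 satisfies v(m+1+t) − v(m+t) = v(m+1) − v(m) for all large m. -/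
theorem result :
    ¬ (∀ (A : Type) [CommRing A] [IsNoetherianRing A] (I J : Ideal A),
      J ≤ I.radical → (∀ n : ℕ, I ^ n ≠ ⊥) → (⨅ n : ℕ, I ^ n) = ⊥ →
      (∀ m : ℕ, J ^ m ≠ ⊥) →
      ∃ t : ℕ, 0 < t ∧ ∃ M : ℕ, ∀ m : ℕ, M ≤ m →
        ((sSup {n : ℕ | J ^ (m + 1 + t) ≤ I ^ n} : ℕ) : ℤ)
            - ((sSup {n : ℕ | J ^ (m + t) ≤ I ^ n} : ℕ) : ℤ)
          = ((sSup {n : ℕ | J ^ (m + 1) ≤ I ^ n} : ℕ) : ℤ)
            - ((sSup {n : ℕ | J ^ m ≤ I ^ n} : ℕ) : ℤ)) := by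
  intro H
  have := noeth
  have hrad : J ≤ I.radical := by
    unfold J
    rw [Ideal.span_singleton_le_iff_mem]
    refine ⟨4, ?_⟩
    rw [x_pow_four]
    unfold I
    rw [Ideal.mem_span_singleton]
    exact ⟨Z * (U ^ 2 + U + 1) * x ^ 2 + Z ^ 2 * (U ^ 2 + U) * x, by ring⟩
  have hI : ∀ n : ℕ, I ^ n ≠ ⊥ := by
    intro n h
    unfold I at h
    rw [Ideal.span_singleton_pow, Ideal.span_singleton_eq_bot] at h
    exact Z_pow_ne n h
  have hJ : ∀ n : ℕ, J ^ n ≠ ⊥ := by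
    intro n h
    unfold J at h
    rw [Ideal.span_singleton_pow, Ideal.span_singleton_eq_bot] at h
    exact x_pow_ne n h
  have hinf : (⨅ n : ℕ, I ^ n) = ⊥ := by
    rw [eq_bot_iff]
    intro a ha
    rw [Submodule.mem_bot]
    apply eq_zero_of_dvd
    intro n
    have h1 : a ∈ I ^ n := (Submodule.mem_iInf _).mp ha n
    unfold I at h1
    rw [Ideal.span_singleton_pow, Ideal.mem_span_singleton] at h1
    exact h1
  obtain ⟨t, ht, M, hM⟩ := H A I J hrad hI hinf hJ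
  set v : ℕ → ℤ := fun m => ((sSup {n : ℕ | J ^ m ≤ I ^ n} : ℕ) : ℤ) with hv
  have hM' : ∀ m, M ≤ m → v (m + t) - v m = v (M + t) - v M := by
    intro m hm
    induction m, hm using Nat.le_induction with
    | base => rfl
    | succ m hm ih =>
      have := hM m hm
      change v (m + 1 + t) - v (m + t) = v (m + 1) - v m at this
      linarith
  -- choose a large power of two
  obtain ⟨k, hk⟩ : ∃ k, M + 2 * t + 4 < 2 ^ k := ⟨M + 2 * t + 4, Nat.lt_two_pow_self⟩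
  have hk2 : 2 ≤ k := by
    by_contra hlt
    have : k = 0 ∨ k = 1 := by omega
    rcases this with rfl | rfl <;> norm_num at hk; omega
  have e1 := hM' (2 ^ k) (by omega)
  have e2 := hM' (2 ^ k + t) (by omega)
  have w0 : v (2 ^ k) = ((2 ^ k - 2 : ℕ) : ℤ) := by
    simp only [hv]
    rw [v_power k hk2]
  have w1 : v (2 ^ k + t) = ((2 ^ k + t - 3 : ℕ) : ℤ) := by
    simp only [hv]
    rw [v_generic k t hk2 ht (by omega)]
  have w2 : v (2 ^ k + t + t) = ((2 ^ k + (t + t) - 3 : ℕ) : ℤ) := by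
    simp only [hv]
    rw [add_assoc, v_generic k (t + t) hk2 (by omega) (by omega)]
  rw [w0, w1] at e1
  rw [w1, w2] at e2
  generalize 2 ^ k = q at *
  omega

end Pool.Agent.S01976
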