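import Pool.Statements.S02679
import Pool.Agent.Lib.MP_acf1dc_al.Final


set_option autoImplicit false
open Pool Pool.MP_acf1dc_al

namespace Pool.Agent.S02679

/-- There is g₀ such that every permutation group G on n points has a 2-coloring whose color-preserving subgroup has a normal series to 1 in which every factor is an alternating group or has order below g₀. -/
theorem result :
    ∃ g₀ : ℕ, ∀ (n : ℕ) (G : Subgroup (Equiv.Perm (Fin n))),
      ∃ c : Fin n → Bool, ∃ k : ℕ, ∃ f : ℕ → Subgroup (Equiv.Perm (Fin n)),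
        (∀ g : Equiv.Perm (Fin n), g ∈ f 0 ↔ (g ∈ G ∧ ∀ x : Fin n, c (g x) = c x)) ∧
        f k = ⊥ ∧
        ∀ i < k, f (i + 1) ≤ f i ∧ ((f (i + 1)).subgroupOf (f i)).Normal ∧
          (((f (i + 1)).subgroupOf (f i)).index < g₀ ∨
            ∃ m : ℕ, ∃ φ : ↥(f i) →* ↥(alternatingGroup (Fin m)),
              Function.Surjective φ ∧ φ.ker = (f (i + 1)).subgroupOf (f i)) := by
  exact Pool.Agent.Lib.MP_acf1dc_al.final_of_threshold Pool.Agent.Lib.MP_acf1dc_al.exists_threshold

end Pool.Agent.S02679
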