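import Pool.Statements.S03107
import Pool.Agent.Lib.MP_cf54d7_al.Main

set_option autoImplicit false
open Pool Pool.MP_cf54d7_al

namespace Pool.Agent.S03107

/-- For every n greater than 2, the group on generators x, y with relations x = [x,y,...,y] and y = [y,x,...,x] (n copies, left-normed, [a,b] = a⁻¹b⁻¹ab) is infinite. -/
theorem result :
    ∀ n : ℕ, 2 < n →
      Infinite (PresentedGroup
        ({(FreeGroup.of (0 : Fin 2))⁻¹ *
            Nat.iterate (fun w : FreeGroup (Fin 2) =>
              w⁻¹ * (FreeGroup.of (1 : Fin 2))⁻¹ * w * FreeGroup.of (1 : Fin 2)) n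
              (FreeGroup.of (0 : Fin 2)),
          (FreeGroup.of (1 : Fin 2))⁻¹ *
            Nat.iterate (fun w : FreeGroup (Fin 2) =>
              w⁻¹ * (FreeGroup.of (0 : Fin 2))⁻¹ * w * FreeGroup.of (0 : Fin 2)) n
              (FreeGroup.of (1 : Fin 2))} : Set (FreeGroup (Fin 2)))) := by
  intro n hn
  exact Pool.Agent.MPcf54d7.main n hn

end Pool.Agent.S03107
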