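import Pool.Statements.S03165
import Pool.Agent.Lib.MP_d35c37_al.Final

set_option autoImplicit false
open Pool Pool.MP_d35c37_al

namespace Pool.Agent.S03165

/-- For every rank n ≥ 2 there is an algorithm that, given finitely many words in a free inverse semigroup of rank n, decides whether the inverse subsemigroup they generate is isomorphic to a finitely presented inverse semigroup. -/
theorem result :
    ∀ (inv : ∀ m : ℕ, FreeSemigroup (Fin m ⊕ Fin m) → FreeSemigroup (Fin m ⊕ Fin m)),
      (∀ (m : ℕ) (w : FreeSemigroup (Fin m ⊕ Fin m)),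
        inv m w = MulOpposite.unop
          (FreeSemigroup.lift (fun a : Fin m ⊕ Fin m => MulOpposite.op (FreeSemigroup.of a.swap)) w)) →
    ∀ (W : ∀ m : ℕ, FreeSemigroup (Fin m ⊕ Fin m) → FreeSemigroup (Fin m ⊕ Fin m) → Prop),
      (∀ (m : ℕ) (u v : FreeSemigroup (Fin m ⊕ Fin m)),
        W m u v ↔ ((∃ w, u = w * inv m w * w ∧ v = w) ∨
          ∃ w w', u = w * inv m w * (w' * inv m w') ∧ v = w' * inv m w' * (w * inv m w))) →
    ∀ n : ℕ, 2 ≤ n →
      ComputablePred (fun gens : List ((Fin n ⊕ Fin n) × List (Fin n ⊕ Fin n)) =>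
        ∃ (m : ℕ) (R : List (FreeSemigroup (Fin m ⊕ Fin m) × FreeSemigroup (Fin m ⊕ Fin m))),
          Nonempty
            (↥(Subsemigroup.closure
                {x : (conGen (W n)).Quotient |
                  ∃ g ∈ gens,
                    x = ((FreeSemigroup.mk g.1 g.2 : FreeSemigroup (Fin n ⊕ Fin n)) :
                          (conGen (W n)).Quotient) ∨
                    x = ((inv n (FreeSemigroup.mk g.1 g.2) : FreeSemigroup (Fin n ⊕ Fin n)) :
                          (conGen (W n)).Quotient)}) ≃*
              (conGen (fun u v : FreeSemigroup (Fin m ⊕ Fin m) =>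
                  W m u v ∨ (u, v) ∈ R)).Quotient)) := by
  intro inv hinv W hW n _
  have e1 : inv = fun _ w => Pool.Agent.MP_d35c37.sinv w := by
    funext m w
    exact hinv m w
  subst e1
  have e3 : W = fun _ => Pool.Agent.MP_d35c37.Wrel := by
    funext m u v
    exact propext (hW m u v)
  subst e3
  refine (Pool.Agent.MP_d35c37.primrec_Dec (n := n)).computablePred.of_eq ?_
  intro gens
  exact (Pool.Agent.MP_d35c37.main_iff gens).symm

end Pool.Agent.S03165
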