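import Pool.Statements.S03602
import Pool.Agent.Lib.MP_fa0f6c_al.Cx.C20

set_option autoImplicit false
open Pool Pool.MP_fa0f6c_al

namespace Pool.Agent.S03602

/-- The negation of the preceding statement: For any two complete discrete valuation rings with finite residue fields of the same size, and all N and r, the complex group algebras of GL_N(o/p^r) and GL_N(o'/p'^r) are isomorphic as ℂ-algebras. -/
theorem result :
    ¬ (∀ (R R' : Type) [CommRing R] [IsDomain R] [IsDiscreteValuationRing R]
      [CommRing R'] [IsDomain R'] [IsDiscreteValuationRing R'],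
      IsAdicComplete (IsLocalRing.maximalIdeal R) R →
      IsAdicComplete (IsLocalRing.maximalIdeal R') R' →
      Finite (IsLocalRing.ResidueField R) →
      Finite (IsLocalRing.ResidueField R') →
      Nat.card (IsLocalRing.ResidueField R) = Nat.card (IsLocalRing.ResidueField R') →
      ∀ N r : ℕ,
        Nonempty
          (MonoidAlgebra ℂ
              (Matrix.GeneralLinearGroup (Fin N) (R ⧸ (IsLocalRing.maximalIdeal R) ^ r)) ≃ₐ[ℂ]
            MonoidAlgebra ℂ
              (Matrix.GeneralLinearGroup (Fin N) (R' ⧸ (IsLocalRing.maximalIdeal R') ^ r)))) :=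
  Pool.Agent.Lib.MP_fa0f6c_al.Cx.onn_false

end Pool.Agent.S03602
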