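import Pool.Statements.S03650
import Mathlib

set_option autoImplicit false
open Pool Pool.MP_feeeae_al

/-!
A counterexample to the bounded acyclicity of highly transitive topological full groups.

The Cantor space is `X = ℕ → Bool`, its coordinates being indexed by the rationals through an
enumeration `q`.  Let `Shift` be the group of order-preserving permutations of the rationals
commuting with `x ↦ x + 1`; it acts on `X` by permuting coordinates and fixes the constantly false
sequence `x0`.  The group `GG` consists of the homeomorphisms of `X` whose germ at `x0` is the germ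
of a member of `Shift`.  It is a topological full group, it acts highly transitively on the
complement of `x0`, and taking germs is a homomorphism of `GG` onto `Shift`.  Evaluation at `0` is
a quasimorphism on `Shift` which is not at bounded distance from a homomorphism, so the second
bounded cohomology of `GG` is not zero.
-/

namespace Pool.Agent.S03650

/-- The group of order-preserving permutations of the rationals that commute with the unit shift. -/
def Shift : Subgroup (Equiv.Perm ℚ) where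
  carrier := {A | StrictMono A ∧ ∀ x : ℚ, A (x + 1) = A x + 1}
  one_mem' := ⟨strictMono_id, fun x => rfl⟩
  mul_mem' := by
    rintro A B ⟨hA, hA'⟩ ⟨hB, hB'⟩
    refine ⟨hA.comp hB, fun x => ?_⟩
    simp only [Equiv.Perm.mul_apply, hB', hA']
  inv_mem' := by
    rintro A ⟨hA, hA'⟩
    refine ⟨fun x y hxy => ?_, fun x => ?_⟩
    · rw [← hA.lt_iff_lt]
      simpa using hxy
    · apply A.injective
      rw [hA']
      simp

/-- The building block on the unit interval. -/
def al (t : ℚ) : ℚ := if t < 1 / 3 then 2 * t else (t + 1) / 2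
/-- Its inverse. -/
def be (t : ℚ) : ℚ := if t < 2 / 3 then t / 2 else 2 * t - 1

lemma be_al (t : ℚ) : be (al t) = t := by
  unfold be al
  split_ifs <;> linarith

lemma al_be (t : ℚ) : al (be t) = t := by
  unfold be al
  split_ifs <;> linarith

lemma al_mono : StrictMono al := by
  intro s t hst
  unfold al
  split_ifs <;> linarith

lemma al_nonneg {t : ℚ} (h : 0 ≤ t) : 0 ≤ al t := by
  unfold al; split_ifs <;> linarith
lemma al_lt {t : ℚ} (h : t < 1) : al t < 1 := by
  unfold al; split_ifs <;> linarith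
lemma be_nonneg {t : ℚ} (h : 0 ≤ t) : 0 ≤ be t := by
  unfold be; split_ifs <;> linarith
lemma be_lt {t : ℚ} (h : t < 1) : be t < 1 := by
  unfold be; split_ifs <;> linarith

lemma floor_aux (n : ℤ) (t : ℚ) (h0 : 0 ≤ t) (h1 : t < 1) : ⌊(n : ℚ) + t⌋ = n := by
  rw [Int.floor_eq_iff]; constructor <;> linarith

lemma fract_aux (n : ℤ) (t : ℚ) (h0 : 0 ≤ t) (h1 : t < 1) : Int.fract ((n : ℚ) + t) = t := by
  rw [Int.fract, floor_aux n t h0 h1]; ring

/-- The piecewise linear permutation fixing all the integers. -/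
def pa : Equiv.Perm ℚ where
  toFun x := ⌊x⌋ + al (Int.fract x)
  invFun x := ⌊x⌋ + be (Int.fract x)
  left_inv x := by
    have h0 := al_nonneg (Int.fract_nonneg x)
    have h1 := al_lt (Int.fract_lt_one x)
    show (⌊(⌊x⌋ : ℚ) + al (Int.fract x)⌋ : ℚ) + be (Int.fract ((⌊x⌋ : ℚ) + al (Int.fract x))) = x
    rw [floor_aux _ _ h0 h1, fract_aux _ _ h0 h1, be_al]
    exact Int.floor_add_fract x
  right_inv x := by
    have h0 := be_nonneg (Int.fract_nonneg x)
    have h1 := be_lt (Int.fract_lt_one x)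
    show (⌊(⌊x⌋ : ℚ) + be (Int.fract x)⌋ : ℚ) + al (Int.fract ((⌊x⌋ : ℚ) + be (Int.fract x))) = x
    rw [floor_aux _ _ h0 h1, fract_aux _ _ h0 h1, al_be]
    exact Int.floor_add_fract x

lemma pa_apply (x : ℚ) : pa x = ⌊x⌋ + al (Int.fract x) := rfl

lemma pa_aux (n : ℤ) (t : ℚ) (h0 : 0 ≤ t) (h1 : t < 1) : pa ((n : ℚ) + t) = n + al t := by
  rw [pa_apply, floor_aux n t h0 h1, fract_aux n t h0 h1]

lemma pa_mem : pa ∈ Shift := by
  refine ⟨fun x y hxy => ?_, fun x => ?_⟩
  · rw [pa_apply, pa_apply]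
    rcases lt_or_ge ⌊x⌋ ⌊y⌋ with h | h
    · have h1 := al_lt (Int.fract_lt_one x)
      have h2 := al_nonneg (Int.fract_nonneg y)
      have h3 : (⌊x⌋ : ℚ) + 1 ≤ ⌊y⌋ := by exact_mod_cast h
      linarith
    · have h' : ⌊x⌋ = ⌊y⌋ := le_antisymm (Int.floor_le_floor hxy.le) h
      have : Int.fract x < Int.fract y := by
        unfold Int.fract; rw [h']; linarith
      have := al_mono this
      rw [h']; linarith
  · rw [pa_apply, pa_apply, Int.floor_add_one, Int.fract_add_one]
    push_cast; ring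

/-- Translation by one half. -/
def ph : Equiv.Perm ℚ := Equiv.addRight (1 / 2 : ℚ)

lemma ph_apply (x : ℚ) : ph x = x + 1 / 2 := rfl
lemma ph_inv_apply (x : ℚ) : ph⁻¹ x = x - 1 / 2 := by
  rw [Equiv.Perm.inv_eq_iff_eq, ph_apply]; ring

lemma ph_mem : ph ∈ Shift := by
  refine ⟨fun x y hxy => ?_, fun x => ?_⟩
  · rw [ph_apply, ph_apply]; linarith
  · rw [ph_apply, ph_apply]; ring

/-- The conjugate of `pa` by translation by one half. -/
def pb : Equiv.Perm ℚ := ph * pa * ph⁻¹

lemma pb_mem : pb ∈ Shift := Shift.mul_mem (Shift.mul_mem ph_mem pa_mem) (Shift.inv_mem ph_mem)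

lemma pb_apply (x : ℚ) : pb x = pa (x - 1 / 2) + 1 / 2 := by
  simp only [pb, Equiv.Perm.mul_apply, ph_inv_apply, ph_apply]

lemma pa_zero : pa 0 = 0 := by
  have := pa_aux 0 0 le_rfl one_pos
  norm_num [al] at this; exact this

lemma pb_half : pb (1 / 2) = 1 / 2 := by
  rw [pb_apply]; norm_num [pa_zero]

lemma pab_zero : (pa * pb) 0 = 1 / 2 := by
  have h1 := pa_aux (-1) (1 / 2) (by norm_num) (by norm_num)
  have h2 := pa_aux 0 (1 / 4) (by norm_num) (by norm_num)
  norm_num [al] at h1 h2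
  rw [Equiv.Perm.mul_apply, pb_apply]
  norm_num
  rw [h1]; norm_num
  rw [h2]

lemma pab_half : (pa * pb) (1 / 2) = 3 / 4 := by
  have h2 := pa_aux 0 (1 / 2) (by norm_num) (by norm_num)
  norm_num [al] at h2
  rw [Equiv.Perm.mul_apply, pb_half]
  exact h2

lemma pab_three_quarters : (pa * pb) (3 / 4) = 1 := by
  have h1 := pa_aux 0 (1 / 4) (by norm_num) (by norm_num)
  have h2 := pa_aux 1 0 (by norm_num) (by norm_num)
  norm_num [al] at h1 h2
  rw [Equiv.Perm.mul_apply, pb_apply]
  norm_num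
  rw [h1]; norm_num
  rw [h2]

lemma pab_cube_zero : ((pa * pb) ^ 3) 0 = 1 := by
  rw [pow_succ, pow_succ, pow_one, Equiv.Perm.mul_apply, Equiv.Perm.mul_apply, pab_zero, pab_half,
    pab_three_quarters]

lemma shift_nat {A : Equiv.Perm ℚ} (hA : A ∈ Shift) (x : ℚ) (n : ℕ) : A (x + n) = A x + n := by
  induction n with
  | zero => simp
  | succ n ih =>
    have := hA.2 (x + n)
    push_cast
    rw [← add_assoc, this, ih]; ring

lemma shift_int {A : Equiv.Perm ℚ} (hA : A ∈ Shift) (x : ℚ) (n : ℤ) : A (x + n) = A x + n := by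
  rcases Int.eq_nat_or_neg n with ⟨m, rfl | rfl⟩
  · simpa using shift_nat hA x m
  · have := shift_nat hA (x + ((-(m : ℤ) : ℤ) : ℚ)) m
    push_cast at this ⊢
    rw [neg_add_cancel_right] at this
    linarith

/-- Displacement of zero is a quasimorphism. -/
lemma quasi {A B : Equiv.Perm ℚ} (hA : A ∈ Shift) : |(A * B) 0 - A 0 - B 0| ≤ 1 := by
  rw [Equiv.Perm.mul_apply]
  set r := B 0
  have h1 : A (⌊r⌋ : ℚ) = A 0 + ⌊r⌋ := by simpa using shift_int hA 0 ⌊r⌋
  have h2 : A ((⌊r⌋ : ℚ) + 1) = A 0 + ⌊r⌋ + 1 := by rw [hA.2, h1]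
  have h3 : A (⌊r⌋ : ℚ) ≤ A r := hA.1.monotone (Int.floor_le r)
  have h4 : A r ≤ A ((⌊r⌋ : ℚ) + 1) := hA.1.monotone (Int.lt_floor_add_one r).le
  have h5 := Int.floor_le r
  have h6 := Int.lt_floor_add_one r
  rw [abs_le]
  constructor <;> linarith

lemma pow_shift (n : ℕ) : (((pa * pb) ^ 3) ^ n) 0 = n := by
  induction n with
  | zero => simp
  | succ n ih =>
    have hm : (pa * pb) ^ 3 ∈ Shift := Shift.pow_mem (Shift.mul_mem pa_mem pb_mem) 3
    rw [pow_succ', Equiv.Perm.mul_apply, ih]
    have := shift_nat hm 0 n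
    rw [zero_add, pab_cube_zero] at this
    rw [this]; push_cast; ring

lemma pa_pow (n : ℕ) : (pa ^ n) 0 = 0 := by
  induction n with
  | zero => simp
  | succ n ih => rw [pow_succ', Equiv.Perm.mul_apply, ih, pa_zero]

lemma pb_pow_half (n : ℕ) : (pb ^ n) (1 / 2) = 1 / 2 := by
  induction n with
  | zero => simp
  | succ n ih => rw [pow_succ', Equiv.Perm.mul_apply, ih, pb_half]

lemma pb_pow (n : ℕ) : |(pb ^ n) 0| ≤ 1 := by
  have hm : pb ^ n ∈ Shift := Shift.pow_mem pb_mem n
  have h1 := hm.1.monotone (show (0 : ℚ) ≤ 1 / 2 by norm_num)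
  rw [pb_pow_half] at h1
  have h2 := hm.1.monotone (show (1 / 2 : ℚ) ≤ 0 + 1 by norm_num)
  rw [pb_pow_half, hm.2] at h2
  rw [abs_le]; constructor <;> linarith


open Topology Filter

/-- The Cantor space. -/
abbrev X := ℕ → Bool

/-- The base point, the constantly false sequence. -/
def x0 : X := fun _ => false

/-- An enumeration of the rationals. -/
noncomputable def q : ℕ ≃ ℚ := (Denumerable.eqv ℚ).symm

/-- Permutation of the coordinates of the Cantor space induced by a permutation of the rationals. -/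
noncomputable def T (A : Equiv.Perm ℚ) : X ≃ₜ X where
  toFun x n := x (q.symm (A.symm (q n)))
  invFun x n := x (q.symm (A (q n)))
  left_inv x := by funext n; simp
  right_inv x := by funext n; simp
  continuous_toFun := continuous_pi fun n => continuous_apply _
  continuous_invFun := continuous_pi fun n => continuous_apply _

lemma T_apply (A : Equiv.Perm ℚ) (x : X) (n : ℕ) : T A x n = x (q.symm (A.symm (q n))) := rfl

lemma T_one : T 1 = 1 := by
  ext x n
  rw [T_apply]
  show x (q.symm (q n)) = x n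
  rw [Equiv.symm_apply_apply]

lemma T_mul (A B : Equiv.Perm ℚ) : T (A * B) = T A * T B := by
  ext x n
  rw [Homeomorph.mul_apply, T_apply, T_apply, T_apply]
  simp [Equiv.Perm.mul_def]

lemma T_inv (A : Equiv.Perm ℚ) : T (A⁻¹) = (T A)⁻¹ := by
  apply eq_inv_of_mul_eq_one_left
  rw [← T_mul, inv_mul_cancel, T_one]

lemma T_x0 (A : Equiv.Perm ℚ) : T A x0 = x0 := rfl

lemma T_tendsto (A : Equiv.Perm ℚ) : Tendsto (T A) (𝓝 x0) (𝓝 x0) := by
  have := (T A).continuous.tendsto x0
  rwa [T_x0] at this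

lemma T_single (A : Equiv.Perm ℚ) (n : ℕ) :
    T A (Function.update x0 n true) = Function.update x0 (q.symm (A (q n))) true := by
  funext m
  rw [T_apply]
  by_cases h : m = q.symm (A (q n))
  · subst h; simp
  · rw [Function.update_of_ne h, Function.update_of_ne]
    · rfl
    · intro h'
      apply h
      rw [← h']; simp

lemma tendsto_single : Tendsto (fun n : ℕ => Function.update x0 n true) atTop (𝓝 x0) := by
  rw [tendsto_pi_nhds]
  intro m
  apply tendsto_const_nhds.congr'
  filter_upwards [eventually_gt_atTop m] with n hn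
  rw [Function.update_of_ne hn.ne]

lemma germ_unique {A B : Equiv.Perm ℚ} (hA : A ∈ Shift) (hB : B ∈ Shift)
    (h : ∀ᶠ x in 𝓝 x0, T A x = T B x) : A = B := by
  have h1 := tendsto_single.eventually h
  simp only [T_single] at h1
  obtain ⟨N, hN⟩ := eventually_atTop.1 h1
  have h2 : ∀ n ≥ N, A (q n) = B (q n) := by
    intro n hn
    have h3 := congrFun (hN n hn) (q.symm (A (q n)))
    rw [Function.update_self] at h3
    by_contra hne
    rw [Function.update_of_ne] at h3
    · exact absurd h3 (by simp [x0])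
    · intro h4
      exact hne (q.symm.injective h4)
  by_contra hne
  obtain ⟨r, hr⟩ : ∃ r, A r ≠ B r := by
    by_contra hcon
    push Not at hcon
    exact hne (Equiv.ext hcon)
  have h3 : ∀ k : ℕ, q.symm (r + k) < N := by
    intro k
    by_contra hk
    have := h2 (q.symm (r + k)) (not_lt.1 hk)
    rw [Equiv.apply_symm_apply, shift_nat hA, shift_nat hB] at this
    exact hr (by linarith)
  have hinj : Function.Injective (fun k : ℕ => q.symm (r + k)) := by
    intro k l hkl
    have := q.symm.injective hkl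
    exact_mod_cast add_left_cancel this
  exact (Set.infinite_of_injective_forall_mem (s := Set.Iio N) hinj (fun k => h3 k))
    (Set.finite_Iio N)

/-- Homeomorphisms whose germ at the base point is that of a member of the shift group. -/
noncomputable def GG : Subgroup (X ≃ₜ X) where
  carrier := {g | ∃ A ∈ Shift, ∀ᶠ x in 𝓝 x0, g x = T A x}
  one_mem' := ⟨1, Shift.one_mem, by rw [T_one]; exact Eventually.of_forall fun _ => rfl⟩
  mul_mem' := by
    rintro g h ⟨A, hA, hgA⟩ ⟨B, hB, hhB⟩
    refine ⟨A * B, Shift.mul_mem hA hB, ?_⟩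
    have h1 := (T_tendsto B).eventually hgA
    filter_upwards [h1, hhB] with x hx1 hx2
    rw [Homeomorph.mul_apply, hx2, hx1, T_mul, Homeomorph.mul_apply]
  inv_mem' := by
    rintro g ⟨A, hA, hgA⟩
    refine ⟨A⁻¹, Shift.inv_mem hA, ?_⟩
    have h1 := (T_tendsto A⁻¹).eventually hgA
    filter_upwards [h1] with x hx1
    have h2 : T A (T A⁻¹ x) = x := by
      rw [← Homeomorph.mul_apply, ← T_mul, mul_inv_cancel, T_one]; rfl
    rw [h2] at hx1
    rw [Homeomorph.inv_apply, Homeomorph.symm_apply_eq, hx1]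

lemma mem_GG {g : X ≃ₜ X} : g ∈ GG ↔ ∃ A ∈ Shift, ∀ᶠ x in 𝓝 x0, g x = T A x := Iff.rfl

lemma T_mem {A : Equiv.Perm ℚ} (hA : A ∈ Shift) : T A ∈ GG :=
  ⟨A, hA, Eventually.of_forall fun _ => rfl⟩

lemma GG_x0 {g : X ≃ₜ X} (hg : g ∈ GG) : g x0 = x0 := by
  obtain ⟨A, -, h⟩ := hg
  rw [h.self_of_nhds, T_x0]

/-- The quasimorphism on the full group. -/
noncomputable def Ph (g : GG) : ℝ := (((Classical.choose g.2) 0 : ℚ) : ℝ)

lemma Ph_eq {g : GG} {A : Equiv.Perm ℚ} (hA : A ∈ Shift)
    (h : ∀ᶠ x in 𝓝 x0, (g : X ≃ₜ X) x = T A x) : Ph g = ((A 0 : ℚ) : ℝ) := by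
  have h1 := Classical.choose_spec g.2
  have : Classical.choose g.2 = A := by
    apply germ_unique h1.1 hA
    filter_upwards [h1.2, h] with x hx hx'
    rw [← hx, hx']
  unfold Ph
  rw [this]

lemma Ph_T {A : Equiv.Perm ℚ} (hA : A ∈ Shift) : Ph ⟨T A, T_mem hA⟩ = ((A 0 : ℚ) : ℝ) :=
  Ph_eq hA (Eventually.of_forall fun _ => rfl)

lemma Ph_quasi (g h : GG) : |Ph h - Ph (g * h) + Ph g| ≤ 1 := by
  obtain ⟨A, hA, hgA⟩ := g.2
  obtain ⟨B, hB, hhB⟩ := h.2
  have h1 : ∀ᶠ x in 𝓝 x0, ((g * h : GG) : X ≃ₜ X) x = T (A * B) x := by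
    have h1 := (T_tendsto B).eventually hgA
    filter_upwards [h1, hhB] with x hx1 hx2
    rw [Subgroup.coe_mul, Homeomorph.mul_apply, hx2, hx1, T_mul, Homeomorph.mul_apply]
  rw [Ph_eq hA hgA, Ph_eq hB hhB, Ph_eq (Shift.mul_mem hA hB) h1]
  have := quasi (A := A) (B := B) hA
  generalize (A * B) 0 = u at *
  generalize A 0 = v at *
  generalize B 0 = w at *
  rw [abs_le] at this ⊢
  have h2 : ((-1 : ℚ) : ℝ) ≤ ((u - v - w : ℚ) : ℝ) := by exact_mod_cast this.1
  have h3 : ((u - v - w : ℚ) : ℝ) ≤ ((1 : ℚ) : ℝ) := by exact_mod_cast this.2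
  push_cast at h2 h3
  constructor <;> linarith

/-- A homomorphism to the reals at bounded distance from the quasimorphism cannot exist. -/
lemma no_hom (h : GG → ℝ) (C : ℝ) (hC : ∀ g, |h g| ≤ C)
    (hh : ∀ g g' : GG, h g' - h (g * g') + h g = Ph g' - Ph (g * g') + Ph g) : False := by
  set ψ : GG → ℝ := fun g => Ph g - h g with hψ
  have hmul : ∀ g g' : GG, ψ (g * g') = ψ g + ψ g' := by
    intro g g'
    have := hh g g'
    simp only [hψ]
    linarith
  have hone : ψ 1 = 0 := by
    have := hmul 1 1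
    rw [one_mul] at this
    linarith
  have hpow : ∀ (g : GG) (n : ℕ), ψ (g ^ n) = n * ψ g := by
    intro g n
    induction n with
    | zero => simp [hone]
    | succ n ih => rw [pow_succ, hmul, ih]; push_cast; ring
  -- a homomorphism which is bounded on the powers of an element kills that element
  have hkill : ∀ g : GG, (∀ n : ℕ, |Ph (g ^ n)| ≤ 1) → ψ g = 0 := by
    intro g hg
    by_contra hne
    have hb : ∀ n : ℕ, (n : ℝ) * |ψ g| ≤ 1 + C := by
      intro n
      have h1 : |ψ (g ^ n)| ≤ 1 + C := by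
        have := abs_sub (Ph (g ^ n)) (h (g ^ n))
        have h2 := hg n
        have h3 := hC (g ^ n)
        simp only [hψ]
        linarith
      rw [hpow, abs_mul, Nat.abs_cast] at h1
      exact h1
    obtain ⟨n, hn⟩ := exists_nat_gt ((1 + C) / |ψ g|)
    have hpos : 0 < |ψ g| := abs_pos.2 hne
    rw [div_lt_iff₀ hpos] at hn
    linarith [hb n]
  have hTpow : ∀ (A : Equiv.Perm ℚ) (hA : A ∈ Shift) (n : ℕ),
      (⟨T A, T_mem hA⟩ : GG) ^ n = ⟨T (A ^ n), T_mem (Shift.pow_mem hA n)⟩ := by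
    intro A hA n
    induction n with
    | zero => ext1; simp [T_one]
    | succ n ih =>
      rw [pow_succ, ih]
      ext1
      simp only [Subgroup.coe_mul]
      rw [← T_mul, pow_succ]
  set a : GG := ⟨T pa, T_mem pa_mem⟩
  set b : GG := ⟨T pb, T_mem pb_mem⟩
  have ha : ψ a = 0 := by
    apply hkill
    intro n
    rw [hTpow pa pa_mem n, Ph_T (Shift.pow_mem pa_mem n), pa_pow]; simp
  have hb : ψ b = 0 := by
    apply hkill
    intro n
    rw [hTpow pb pb_mem n, Ph_T (Shift.pow_mem pb_mem n)]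
    exact_mod_cast pb_pow n
  have hab : a * b = ⟨T (pa * pb), T_mem (Shift.mul_mem pa_mem pb_mem)⟩ := by
    ext1
    show T pa * T pb = T (pa * pb)
    rw [T_mul]
  have hψab : ψ (a * b) = 0 := by rw [hmul, ha, hb, add_zero]
  obtain ⟨n, hn⟩ := exists_nat_gt C
  have h1 : ψ (((a * b) ^ 3) ^ n) = 0 := by rw [hpow, hpow, hψab]; ring
  have h2 : Ph (((a * b) ^ 3) ^ n) = n := by
    have m1 := Shift.mul_mem pa_mem pb_mem
    have m2 := Shift.pow_mem m1 3
    rw [hab, hTpow _ m1, hTpow _ m2, Ph_T (Shift.pow_mem m2 n), pow_shift]; simp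
  have h3 := hC (((a * b) ^ 3) ^ n)
  have h4 : h (((a * b) ^ 3) ^ n) = n := by
    simp only [hψ, h2] at h1
    linarith
  rw [h4, Nat.abs_cast] at h3
  linarith


/-- Pointwise exclusive or with the fixed sequence `z`. -/
def sg (z : X) : X → X := fun w i => xor (w i) (z i)

lemma sg_sg (z w : X) : sg z (sg z w) = w := by
  funext i; simp [sg]

lemma sg_cont (z : X) : Continuous (sg z) := by
  apply continuous_pi
  intro i
  exact (continuous_of_discreteTopology (f := fun b : Bool => xor b (z i))).comp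
    (continuous_apply i)

/-- The homeomorphism equal to the exclusive or with `z` on the invariant clopen set `W`
and to the identity elsewhere. -/
noncomputable def loc (z : X) (W : Set X) (hW : IsClopen W) (hinv : ∀ w, w ∈ W ↔ sg z w ∈ W) :
    X ≃ₜ X := by
  classical
  have hc : Continuous (W.piecewise (sg z) id) := by
    apply Continuous.piecewise
    · intro a ha
      rw [hW.frontier_eq] at ha
      exact ha.elim
    · exact sg_cont z
    · exact continuous_id
  have hi : ∀ w, W.piecewise (sg z) id (W.piecewise (sg z) id w) = w := by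
    intro w
    by_cases h : w ∈ W
    · rw [Set.piecewise_eq_of_mem _ _ _ h, Set.piecewise_eq_of_mem _ _ _ ((hinv w).1 h), sg_sg]
    · rw [Set.piecewise_eq_of_notMem _ _ _ h, id, Set.piecewise_eq_of_notMem _ _ _ h, id]
  exact
    { toFun := W.piecewise (sg z) id
      invFun := W.piecewise (sg z) id
      left_inv := hi
      right_inv := hi
      continuous_toFun := hc
      continuous_invFun := hc }

lemma loc_mem {z : X} {W : Set X} (hW : IsClopen W) (hinv : ∀ w, w ∈ W ↔ sg z w ∈ W) {w : X}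
    (h : w ∈ W) : loc z W hW hinv w = sg z w := by
  classical
  exact Set.piecewise_eq_of_mem _ _ _ h

lemma loc_notMem {z : X} {W : Set X} (hW : IsClopen W) (hinv : ∀ w, w ∈ W ↔ sg z w ∈ W) {w : X}
    (h : w ∉ W) : loc z W hW hinv w = w := by
  classical
  exact Set.piecewise_eq_of_notMem _ _ _ h

/-- Local swap: two points can be exchanged while fixing a finite set and the germ at the base
point. -/
lemma swap (F : Set X) (hF : F.Finite) (x y : X) (hx : x ≠ x0) (hy : y ≠ x0) (hxF : x ∉ F)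
    (hyF : y ∉ F) : ∃ g ∈ GG, g x = y ∧ ∀ w ∈ F, g w = w := by
  classical
  set z : X := fun i => xor (x i) (y i) with hz
  have hzx : sg z x = y := by funext i; simp [sg, hz]
  have hzy : sg z y = x := by rw [← hzx, sg_sg]
  set F' : Set X := (insert x0 F) ∪ sg z '' (insert x0 F) with hF'
  have hF'fin : F'.Finite := (hF.insert x0).union ((hF.insert x0).image _)
  have hxF' : x ∉ F' := by
    rintro (h | ⟨w, hw, hwx⟩)
    · rcases h with h | h
      · exact hx h
      · exact hxF h
    · have : w = y := by rw [← hzx, ← hwx, sg_sg]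
      subst this
      rcases hw with h | h
      · exact hy h
      · exact hyF h
  obtain ⟨U, hU, hxU, hUF⟩ : ∃ U : Set X, IsClopen U ∧ x ∈ U ∧ U ⊆ F'ᶜ := by
    have hopen : IsOpen (F'ᶜ) := hF'fin.isClosed.isOpen_compl
    exact compact_exists_isClopen_in_isOpen hopen hxF'
  set W : Set X := U ∪ sg z ⁻¹' U with hWdef
  have hW : IsClopen W := hU.union (hU.preimage (sg_cont z))
  have hinv : ∀ w, w ∈ W ↔ sg z w ∈ W := by
    intro w
    simp only [hWdef, Set.mem_union, Set.mem_preimage, sg_sg]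
    tauto
  have hdisj : ∀ w ∈ insert x0 F, w ∉ W := by
    rintro w hw (h | h)
    · exact hUF h (Or.inl hw)
    · exact hUF h (Or.inr ⟨w, hw, rfl⟩)
  refine ⟨loc z W hW hinv, ⟨1, Shift.one_mem, ?_⟩, ?_, ?_⟩
  · have hx0 : x0 ∈ Wᶜ := hdisj x0 (Set.mem_insert _ _)
    filter_upwards [hW.compl.isOpen.mem_nhds hx0] with w hw
    rw [loc_notMem hW hinv hw, T_one]; rfl
  · rw [loc_mem hW hinv (Or.inl hxU), hzx]
  · intro w hw
    exact loc_notMem hW hinv (hdisj w (Set.mem_insert_of_mem _ hw))

lemma high_trans (n : ℕ) : ∀ (a b : Fin n → X), Function.Injective a → Function.Injective b →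
    (∀ i, a i ≠ x0) → (∀ i, b i ≠ x0) → ∃ g ∈ GG, ∀ i, g (a i) = b i := by
  induction n with
  | zero => exact fun a b _ _ _ _ => ⟨1, GG.one_mem, fun i => i.elim0⟩
  | succ n ih =>
    intro a b ha hb ha0 hb0
    obtain ⟨g, hg, hgab⟩ := ih (fun i => a i.castSucc) (fun i => b i.castSucc)
      (fun i j hij => Fin.castSucc_injective n (ha hij))
      (fun i j hij => Fin.castSucc_injective n (hb hij)) (fun i => ha0 _) (fun i => hb0 _)
    have hgx : g (a (Fin.last n)) ≠ x0 := by
      intro h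
      rw [← GG_x0 hg] at h
      exact ha0 _ (g.injective h)
    obtain ⟨k, hk, hkx, hkF⟩ := swap (Set.range fun i : Fin n => b i.castSucc)
      (Set.finite_range _) (g (a (Fin.last n))) (b (Fin.last n)) hgx (hb0 _)
      (by
        rintro ⟨i, hi⟩
        simp only at hi
        rw [← hgab i] at hi
        have := ha (g.injective hi)
        exact absurd this (Fin.castSucc_lt_last i).ne)
      (by
        rintro ⟨i, hi⟩
        exact absurd (hb hi) (Fin.castSucc_lt_last i).ne)
    refine ⟨k * g, GG.mul_mem hk hg, fun i => ?_⟩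
    rw [Homeomorph.mul_apply]
    refine Fin.lastCases hkx (fun i => ?_) i
    rw [hgab i]
    exact hkF _ ⟨i, rfl⟩

lemma cobd1 {G : Type*} [Mul G] (k : (Fin 1 → G) → ℝ) (g : Fin (1 + 1) → G) :
    k (fun i => g i.succ) + ∑ j : Fin (1 + 1), (-1 : ℝ) ^ (j.val + 1) *
      k (Fin.contractNth j (fun a b => a * b) g)
    = k (fun _ => g 1) - k (fun _ => g 0 * g 1) + k (fun _ => g 0) := by
  have h0 : (fun i : Fin 1 => g i.succ) = fun _ => g 1 := by
    funext i; fin_cases i; rfl
  have h1 : Fin.contractNth (0 : Fin 2) (fun a b => a * b) g = fun _ => g 0 * g 1 := by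
    funext i; fin_cases i; rfl
  have h2 : Fin.contractNth (1 : Fin 2) (fun a b => a * b) g = fun _ => g 0 := by
    funext i; fin_cases i; rfl
  rw [h0]
  rw [show (∑ j : Fin (1 + 1), (-1 : ℝ) ^ (j.val + 1) *
      k (Fin.contractNth j (fun a b => a * b) g)) = (-1 : ℝ) ^ (0 + 1) *
      k (Fin.contractNth (0 : Fin 2) (fun a b => a * b) g) + (-1 : ℝ) ^ (1 + 1) *
      k (Fin.contractNth (1 : Fin 2) (fun a b => a * b) g) from Fin.sum_univ_two _]
  rw [h1, h2]
  ring

lemma cobd2 {G : Type*} [Semigroup G] (P : G → ℝ) (g : Fin (1 + 1 + 1) → G) :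
    (fun g : Fin (1 + 1) → G => P (g 1) - P (g 0 * g 1) + P (g 0)) (fun i => g i.succ) +
      ∑ j : Fin (1 + 1 + 1), (-1 : ℝ) ^ (j.val + 1) *
      (fun g : Fin (1 + 1) → G => P (g 1) - P (g 0 * g 1) + P (g 0))
        (Fin.contractNth j (fun a b => a * b) g) = 0 := by
  rw [show (∑ j : Fin (1 + 1 + 1), (-1 : ℝ) ^ (j.val + 1) *
      (fun g : Fin (1 + 1) → G => P (g 1) - P (g 0 * g 1) + P (g 0))
        (Fin.contractNth j (fun a b => a * b) g)) =
        (-1 : ℝ) ^ (0 + 1) * (P (g 2) - P ((g 0 * g 1) * g 2) + P (g 0 * g 1))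
        + (-1 : ℝ) ^ (1 + 1) * (P (g 1 * g 2) - P (g 0 * (g 1 * g 2)) + P (g 0))
        + (-1 : ℝ) ^ (2 + 1) * (P (g 1) - P (g 0 * g 1) + P (g 0)) from Fin.sum_univ_three _]
  show (P (g 2) - P (g 1 * g 2) + P (g 1)) + _ = _
  rw [mul_assoc]
  ring

lemma dense_S : Dense ({x0}ᶜ : Set X) := by
  intro x
  by_cases h : x = x0
  · subst h
    rw [mem_closure_iff_seq_limit]
    refine ⟨fun n => Function.update x0 n true, fun n => ?_, tendsto_single⟩
    intro h
    have h1 := congrFun h n
    simp [x0] at h1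
  · exact subset_closure h

/-- The negation of the preceding statement: If G is the topological full group of a group of homeomorphisms of the Cantor set and G acts highly transitively on a dense invariant set, then every bounded real cocycle of positive degree on G is the coboundary of a bounded cochain. -/
theorem result :
    ¬ (∀ (Γ G : Subgroup ((ℕ → Bool) ≃ₜ (ℕ → Bool))) (S : Set (ℕ → Bool)),
      (∀ g : (ℕ → Bool) ≃ₜ (ℕ → Bool), g ∈ G ↔
          ∀ x : ℕ → Bool, ∃ U : Set (ℕ → Bool), IsClopen U ∧ x ∈ U ∧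
            ∃ γ ∈ Γ, ∀ y ∈ U, g y = γ y) →
      Dense S →
      (∀ g ∈ G, ∀ x ∈ S, g x ∈ S) →
      (∀ (n : ℕ) (a b : Fin n → (ℕ → Bool)), Function.Injective a → Function.Injective b →
          (∀ i, a i ∈ S) → (∀ i, b i ∈ S) → ∃ g ∈ G, ∀ i, g (a i) = b i) →
      ∀ (n : ℕ) (f : (Fin (n + 1) → G) → ℝ), (∃ C : ℝ, ∀ x, |f x| ≤ C) →
        (∀ g : Fin (n + 1 + 1) → G,
            f (fun i => g i.succ) +
              ∑ j : Fin (n + 1 + 1), (-1 : ℝ) ^ (j.val + 1) *
                f (Fin.contractNth j (fun a b => a * b) g) = 0) →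
        ∃ h : (Fin n → G) → ℝ, (∃ C : ℝ, ∀ x, |h x| ≤ C) ∧
          ∀ g : Fin (n + 1) → G,
            h (fun i => g i.succ) +
              ∑ j : Fin (n + 1), (-1 : ℝ) ^ (j.val + 1) *
                h (Fin.contractNth j (fun a b => a * b) g) = f g) := by
  intro H
  have key := H GG GG {x0}ᶜ ?_ dense_S ?_ ?_ 1
    (fun g => Ph (g 1) - Ph (g 0 * g 1) + Ph (g 0)) ⟨1, fun g => Ph_quasi _ _⟩ ?_
  · obtain ⟨h, ⟨C, hC⟩, hh⟩ := key
    refine no_hom (fun g => h (fun _ => g)) C (fun g => hC _) (fun g g' => ?_)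
    have h1 := hh ![g, g']
    rw [cobd1] at h1
    exact h1
  · intro g
    constructor
    · intro hg x
      exact ⟨Set.univ, isClopen_univ, Set.mem_univ x, g, hg, fun y _ => rfl⟩
    · intro hg
      obtain ⟨U, hU, hxU, γ, ⟨A, hA, hγA⟩, hγ⟩ := hg x0
      refine ⟨A, hA, ?_⟩
      filter_upwards [hU.isOpen.mem_nhds hxU, hγA] with x hx hx'
      rw [hγ x hx, hx']
  · intro g hg x hx h
    rw [Set.mem_singleton_iff, ← GG_x0 hg] at h
    exact hx (g.injective h)
  · exact fun n a b ha hb ha' hb' => high_trans n a b ha hb ha' hb'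
  · exact fun g => cobd2 Ph g

end Pool.Agent.S03650
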