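import Pool.Statements.S04127
import Pool.Agent.Lib.MP_28b1a7_an.Final

set_option autoImplicit false
open MeasureTheory Filter Topology
open Pool Pool.MP_28b1a7_an

namespace Pool.Agent.S04127

/-- For every n ≥ 2 there is a sequence of H^2 functions on the unit ball of C^n, orthonormal in L^2 of the sphere, that is a Schauder basis of H^1 of the ball whose expansions all converge unconditionally. -/
theorem result :
  ∀ n : ℕ, 2 ≤ n →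
  ∀ B : Set (Fin n → ℂ), B = {z | ∑ i, ‖z i‖ ^ 2 < 1} →
  ∀ I : ((Fin n → ℂ) → ℂ) → ℝ → ℂ,
    I = (fun (h : (Fin n → ℂ) → ℂ) (r : ℝ) =>
      (volume B).toReal⁻¹ • ∫ x in B, h ((r / Real.sqrt (∑ i, ‖x i‖ ^ 2)) • x)) →
  ∀ H : ℝ → Set ((Fin n → ℂ) → ℂ),
    H = (fun (p : ℝ) => {f : (Fin n → ℂ) → ℂ | DifferentiableOn ℂ f B ∧
      BddAbove ((fun r : ℝ => (I (fun z => ((‖f z‖ ^ p : ℝ) : ℂ)) r).re) '' Set.Ioo 0 1)}) →
  ∀ N1 : ((Fin n → ℂ) → ℂ) → ℝ,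
    N1 = (fun (f : (Fin n → ℂ) → ℂ) =>
      sSup ((fun r : ℝ => (I (fun z => ((‖f z‖ : ℝ) : ℂ)) r).re) '' Set.Ioo 0 1)) →
  ∃ b : ℕ → (Fin n → ℂ) → ℂ,
    (∀ k, b k ∈ H 2) ∧
    (∀ j k : ℕ, Tendsto (fun r : ℝ => I (fun z => b j z * star (b k z)) r) (𝓝[<] (1 : ℝ))
        (𝓝 (if j = k then (1 : ℂ) else 0))) ∧
    (∀ f ∈ H 1, ∃! a : ℕ → ℂ,
        Tendsto (fun N : ℕ => N1 (fun z => (∑ k ∈ Finset.range N, a k * b k z) - f z)) atTop (𝓝 0)) ∧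
    (∀ f ∈ H 1, ∀ a : ℕ → ℂ,
        Tendsto (fun N : ℕ => N1 (fun z => (∑ k ∈ Finset.range N, a k * b k z) - f z)) atTop (𝓝 0) →
        Tendsto (fun s : Finset ℕ => N1 (fun z => (∑ k ∈ s, a k * b k z) - f z)) atTop (𝓝 0)) := by
  intro n hn
  have : NeZero n := ⟨by omega⟩
  exact Pool.Agent.MP28b1a7.target n

end Pool.Agent.S04127
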