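import Pool.Statements.S04148
import Pool.Agent.Lib.MP_2964cc_an.Space

set_option autoImplicit false
open scoped ComplexOrder
open Pool Pool.MP_2964cc_an

/-
Counterexample. Let `E = span {cos, sin}` as a subspace of `C([0, pi/2])`, that is `C^2` with the norm
`N(a,b) = sup {|a p + b q| : p, q >= 0, p^2 + q^2 = 1}`. We show `alpha(E) = 1`, i.e. every matrix over
`E` of minimal norm `< 1` factors as `a diag(d) b` with contractive `a, b` and `d_k` in the unit ball,
and that `E` is isometric to none of `C`, `l_1^2`, `l_infty^2`.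

Steps. If `A, B` are `n x n` matrices with `|| p A + q B || < 1` for all such `p, q`, then (matrix valued
Fejer-Riesz on an arc, proved by Hahn-Banach and a Riccati equation, file `Sep`) there is `K` with
`[[1 - A A*, K], [K*, 1 - B B*]] > 0` and `Re (A B* + K) < 0`. The truncated matrix moment problem on
`[-1,1]` (file `Moment`) then yields commuting (diagonal) data and the factorisation (file `Factor`).
-/

namespace Pool.Agent.S04148

/-- The negation of the preceding statement: A nonzero complex normed space whose maximal operator-space matrix norms never exceed its minimal ones (i.e. alpha(E)=1) must be linearly isometric to C, to l1 of dimension 2, or to l-infinity of dimension 2. -/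
theorem result :
    ¬ (∀ (E : Type) [NormedAddCommGroup E] [NormedSpace ℂ E], Nontrivial E →
    (∀ (n : ℕ) (x : Matrix (Fin n) (Fin n) E) (s t : ℝ), 0 ≤ s → s < t →
      (∀ f : E →L[ℂ] ℂ, ‖f‖ ≤ 1 →
        (((s ^ 2 : ℝ) : ℂ) • (1 : Matrix (Fin n) (Fin n) ℂ) -
          (Matrix.of fun i j => f (x i j)) *
            (Matrix.of fun i j => f (x i j)).conjTranspose).PosSemidef) →
      ∃ (N : ℕ) (a : Matrix (Fin n) (Fin N) ℂ) (b : Matrix (Fin N) (Fin n) ℂ)
        (d : Fin N → E),
        (∀ k, ‖d k‖ ≤ 1) ∧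
        (∀ i j, x i j = ∑ k, (a i k * b k j) • d k) ∧
        (((t : ℂ) • (1 : Matrix (Fin n) (Fin n) ℂ) - a * a.conjTranspose).PosSemidef) ∧
        (((t : ℂ) • (1 : Matrix (Fin n) (Fin n) ℂ) - b.conjTranspose * b).PosSemidef)) →
    (Nonempty (E ≃ₗᵢ[ℂ] ℂ) ∨
      Nonempty (E ≃ₗᵢ[ℂ] PiLp 1 (fun _ : Fin 2 => ℂ)) ∨
      Nonempty (E ≃ₗᵢ[ℂ] (Fin 2 → ℂ)))) := by
  intro h
  rcases h Pool.Agent.MP2964cc.E Pool.Agent.MP2964cc.E_nontrivial
    Pool.Agent.MP2964cc.E_unique with h1 | h1 | h1
  · exact Pool.Agent.MP2964cc.not_C h1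
  · exact Pool.Agent.MP2964cc.not_l1 h1
  · exact Pool.Agent.MP2964cc.not_linf h1

end Pool.Agent.S04148
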