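import Pool.Statements.S04474

set_option autoImplicit false
open MeasureTheory
open Pool Pool.MP_41f43f_an

namespace Pool.Agent.S04474


/-- the window -/
noncomputable def g (t : ℝ) : ℂ :=
  Set.indicator (Set.Ioc (-(1/2) : ℝ) (1/2)) (fun s => ((Real.sin (2 * Real.pi * s) : ℝ) : ℂ)) t

lemma g_odd (t : ℝ) : g (-t) = - g t := by
  unfold g
  by_cases h1 : t ∈ Set.Ioc (-(1/2) : ℝ) (1/2)
  · by_cases h2 : t = 1/2
    · subst h2
      have : (2 * Real.pi * (1/2)) = Real.pi := by ring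
      rw [Set.indicator_of_mem h1, this, Set.indicator_of_notMem (by norm_num)]
      simp
    · have h3 : -t ∈ Set.Ioc (-(1/2) : ℝ) (1/2) := by
        constructor
        · have := h1.2
          have : t < 1/2 := lt_of_le_of_ne this h2
          linarith
        · linarith [h1.1]
      rw [Set.indicator_of_mem h1, Set.indicator_of_mem h3]
      have : 2 * Real.pi * (-t) = - (2 * Real.pi * t) := by ring
      rw [this, Real.sin_neg]; push_cast; ring
  · rw [Set.indicator_of_notMem h1]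
    by_cases h3 : -t ∈ Set.Ioc (-(1/2) : ℝ) (1/2)
    · have h4 : t = -(1/2) := by
        by_contra hne
        apply h1
        constructor
        · have : -(1/2) ≤ t := by linarith [h3.2]
          exact lt_of_le_of_ne this (Ne.symm hne)
        · linarith [h3.1]
      rw [Set.indicator_of_mem h3, h4]
      have : 2 * Real.pi * (- -(1/2)) = Real.pi := by ring
      rw [this]; simp
    · rw [Set.indicator_of_notMem h3]; simp

lemma g_measurable : Measurable g := by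
  unfold g
  apply Measurable.indicator _ measurableSet_Ioc
  fun_prop

lemma g_norm_le (t : ℝ) : ‖g t‖ ≤ 1 := by
  unfold g
  refine (norm_indicator_le_norm_self _ _).trans ?_
  rw [Complex.norm_real]
  exact Real.abs_sin_le_one _

lemma g_memLp (p : ENNReal) : MemLp g p volume := by
  have h : g = Set.indicator (Set.Ioc (-(1/2) : ℝ) (1/2)) g := by
    ext t
    by_cases h1 : t ∈ Set.Ioc (-(1/2) : ℝ) (1/2)
    · rw [Set.indicator_of_mem h1]
    · rw [Set.indicator_of_notMem h1]; unfold g; rw [Set.indicator_of_notMem h1]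
  rw [h]
  rw [memLp_indicator_iff_restrict measurableSet_Ioc]
  refine MemLp.of_bound g_measurable.aestronglyMeasurable 1 ?_
  exact Filter.Eventually.of_forall g_norm_le

lemma g_integrable : Integrable g volume := by
  rw [← memLp_one_iff_integrable]; exact g_memLp 1



/-- index map -/
noncomputable def F (p : (Bool × ℤ) × ℤ) : ℝ × ℝ :=
  ((p.1.2 : ℝ) + (if p.1.1 then 1/4 else 0), (p.2 : ℝ))

lemma F_inj : Function.Injective F := by
  rintro ⟨⟨b, m⟩, n⟩ ⟨⟨b', m'⟩, n'⟩ h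
  unfold F at h
  simp only [Prod.mk.injEq, Int.cast_inj] at h
  obtain ⟨h1, h2⟩ := h
  subst h2
  cases b <;> cases b' <;> simp only [if_true, if_false, Bool.false_eq_true, add_zero] at h1
  · have : m = m' := by exact_mod_cast h1
    rw [this]
  · exfalso
    have h3 : (((m - m') * 4 : ℤ) : ℝ) = ((1 : ℤ) : ℝ) := by push_cast; linarith
    have h4 : (m - m') * 4 = 1 := by exact_mod_cast h3
    omega
  · exfalso
    have h3 : (((m' - m) * 4 : ℤ) : ℝ) = ((1 : ℤ) : ℝ) := by push_cast; linarith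
    have h4 : (m' - m) * 4 = 1 := by exact_mod_cast h3
    omega
  · have : m = m' := by
      have : (m : ℝ) = m' := by linarith
      exact_mod_cast this
    rw [this]

/-- coefficient as Fourier coefficient -/
lemma coef_eq (f : ℝ → ℂ) (a : ℝ) (n : ℤ) (hab : a - 1/2 < a + 1/2) :
    (∫ t : ℝ, f t * (starRingEnd ℂ)
          (Complex.exp (2 * (Real.pi : ℂ) * Complex.I * ((n : ℝ) : ℂ) * (t : ℂ)) * g (t - a)))
    = fourierCoeffOn hab (fun t => f t * ((Real.sin (2 * Real.pi * (t - a)) : ℝ) : ℂ)) n := by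
  rw [fourierCoeffOn_eq_integral]
  have hlen : (a + 1/2 - (a - 1/2)) = 1 := by ring
  rw [hlen, intervalIntegral.integral_of_le hab.le, ← integral_indicator measurableSet_Ioc]
  simp only [one_div, inv_one, one_smul]
  congr 1
  ext t
  by_cases ht : t ∈ Set.Ioc (a - 2⁻¹) (a + 2⁻¹)
  · rw [Set.indicator_of_mem ht]
    have ht' : t - a ∈ Set.Ioc (-(1/2) : ℝ) (1/2) := by
      constructor
      · have := ht.1; linarith
      · have := ht.2; linarith
    unfold g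
    rw [Set.indicator_of_mem ht', map_mul, Complex.conj_ofReal, ← Complex.exp_conj]
    rw [fourier_coe_apply]
    have : (starRingEnd ℂ) (2 * (Real.pi : ℂ) * Complex.I * ((n : ℝ) : ℂ) * (t : ℂ))
        = 2 * (Real.pi : ℂ) * Complex.I * ((-n : ℤ) : ℂ) * (t : ℂ) / ((a + 1/2 - (a - 1/2) : ℝ) : ℂ) := by
      rw [hlen]
      simp only [map_mul, Complex.conj_I, Complex.conj_ofReal, map_ofNat]
      push_cast
      ring
    rw [this]
    simp only [smul_eq_mul, one_div]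
    ring_nf
  · rw [Set.indicator_of_notMem ht]
    have ht' : t - a ∉ Set.Ioc (-(1/2) : ℝ) (1/2) := by
      intro h
      apply ht
      constructor
      · have := h.1; linarith
      · have := h.2; linarith
    unfold g
    rw [Set.indicator_of_notMem ht']
    simp

lemma hasSum_n (f : ℝ → ℂ) (hf : MemLp f 2 volume) (a : ℝ) :
    HasSum (fun n : ℤ => ‖∫ t : ℝ, f t * (starRingEnd ℂ)
          (Complex.exp (2 * (Real.pi : ℂ) * Complex.I * ((n : ℝ) : ℂ) * (t : ℂ)) * g (t - a))‖ ^ 2)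
    (∫ t in (a - 1/2)..(a + 1/2), ‖f t‖ ^ 2 * (Real.sin (2 * Real.pi * (t - a))) ^ 2) := by
  have hab : a - 1/2 < a + 1/2 := by linarith
  simp_rw [coef_eq f a _ hab]
  have hL2 : MemLp (fun t => f t * ((Real.sin (2 * Real.pi * (t - a)) : ℝ) : ℂ)) 2
      (volume.restrict (Set.Ioc (a - 1/2) (a + 1/2))) := by
    have h1 : MemLp f 2 (volume.restrict (Set.Ioc (a - 1/2) (a + 1/2))) := hf.restrict _
    refine MemLp.of_le_mul (c := 1) h1 ?_ ?_
    · refine h1.1.mul ?_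
      apply Continuous.aestronglyMeasurable
      fun_prop
    · refine Filter.Eventually.of_forall fun t => ?_
      rw [norm_mul, Complex.norm_real, one_mul]
      calc ‖f t‖ * ‖Real.sin (2 * Real.pi * (t - a))‖ ≤ ‖f t‖ * 1 := by
            apply mul_le_mul_of_nonneg_left _ (norm_nonneg _)
            exact Real.abs_sin_le_one _
        _ = ‖f t‖ := mul_one _
  have h := hasSum_sq_fourierCoeffOn hab hL2
  have hlen : (a + 1/2 - (a - 1/2)) = 1 := by ring
  rw [hlen] at h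
  simp only [inv_one, one_smul] at h
  convert h using 1
  congr 1
  ext t
  rw [norm_mul, mul_pow, Complex.norm_real, Real.norm_eq_abs, sq_abs]

lemma integrable_sq (f : ℝ → ℂ) (hf : MemLp f 2 volume) : Integrable (fun t => ‖f t‖ ^ 2) volume := by
  have := hf.integrable_norm_pow (by norm_num : (2 : ℕ) ≠ 0)
  simpa using this

lemma integrable_sq_mul (f : ℝ → ℂ) (hf : MemLp f 2 volume) (φ : ℝ → ℝ) (hφ : Continuous φ)
    (hb : ∀ t, |φ t| ≤ 1) :
    Integrable (fun t => ‖f t‖ ^ 2 * (φ t) ^ 2) volume := by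
  refine Integrable.mono (integrable_sq f hf) ?_ ?_
  · exact (integrable_sq f hf).1.mul (by fun_prop)
  · refine Filter.Eventually.of_forall fun t => ?_
    rw [norm_mul]
    calc ‖‖f t‖ ^ 2‖ * ‖(φ t) ^ 2‖ ≤ ‖‖f t‖ ^ 2‖ * 1 := by
          apply mul_le_mul_of_nonneg_left _ (norm_nonneg _)
          rw [Real.norm_eq_abs, abs_pow]
          exact pow_le_one₀ (abs_nonneg _) (hb t)
      _ = _ := mul_one _

lemma hasSum_m (f : ℝ → ℂ) (hf : MemLp f 2 volume) (c : ℝ) :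
    HasSum (fun m : ℤ => ∫ t in ((m : ℝ) + c - 1/2)..((m : ℝ) + c + 1/2),
        ‖f t‖ ^ 2 * (Real.sin (2 * Real.pi * (t - ((m : ℝ) + c)))) ^ 2)
      (∫ t : ℝ, ‖f t‖ ^ 2 * (Real.sin (2 * Real.pi * (t - c))) ^ 2) := by
  have h := (integrable_sq_mul f hf (fun t => Real.sin (2 * Real.pi * (t - c))) (by fun_prop)
    (fun t => Real.abs_sin_le_one _)).hasSum_intervalIntegral (c - 1/2)
  have key : (fun m : ℤ => ∫ t in ((m : ℝ) + c - 1/2)..((m : ℝ) + c + 1/2),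
        ‖f t‖ ^ 2 * (Real.sin (2 * Real.pi * (t - ((m : ℝ) + c)))) ^ 2) =
      (fun n : ℤ => ∫ x in (c - 1/2 + (n : ℝ))..(c - 1/2 + (n : ℝ) + 1),
        ‖f x‖ ^ 2 * (Real.sin (2 * Real.pi * (x - c))) ^ 2) := by
    funext m
    have e1 : (m : ℝ) + c - 1/2 = c - 1/2 + m := by ring
    have e2 : (m : ℝ) + c + 1/2 = c - 1/2 + m + 1 := by ring
    rw [e1, e2]
    congr 1
    ext t
    have : 2 * Real.pi * (t - (m + c)) = 2 * Real.pi * (t - c) - m * (2 * Real.pi) := by ring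
    rw [this, Real.sin_sub_int_mul_two_pi]
  rw [key]
  exact h

lemma frame_hasSum (f : ℝ → ℂ) (hf : MemLp f 2 volume) :
    HasSum (fun p : (Bool × ℤ) × ℤ => ‖∫ t : ℝ, f t * (starRingEnd ℂ)
          (Complex.exp (2 * (Real.pi : ℂ) * Complex.I * (((F p).2 : ℝ) : ℂ) * (t : ℂ))
            * g (t - (F p).1))‖ ^ 2)
      (∫ t : ℝ, ‖f t‖ ^ 2) := by
  set S : (Bool × ℤ) × ℤ → ℝ := fun p => ‖∫ t : ℝ, f t * (starRingEnd ℂ)
          (Complex.exp (2 * (Real.pi : ℂ) * Complex.I * (((F p).2 : ℝ) : ℂ) * (t : ℂ))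
            * g (t - (F p).1))‖ ^ 2 with hS
  have hn : ∀ q : Bool × ℤ, HasSum (fun n : ℤ => S (q, n))
      (∫ t in ((q.2 : ℝ) + (if q.1 then 1/4 else 0) - 1/2)..((q.2 : ℝ) + (if q.1 then 1/4 else 0) + 1/2),
        ‖f t‖ ^ 2 * (Real.sin (2 * Real.pi * (t - ((q.2 : ℝ) + (if q.1 then 1/4 else 0))))) ^ 2) := by
    intro q
    exact hasSum_n f hf ((q.2 : ℝ) + (if q.1 then 1/4 else 0))
  have hm : ∀ b : Bool, HasSum (fun m : ℤ => ∫ t in ((m : ℝ) + (if b then 1/4 else 0) - 1/2)..((m : ℝ) + (if b then 1/4 else 0) + 1/2),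
        ‖f t‖ ^ 2 * (Real.sin (2 * Real.pi * (t - ((m : ℝ) + (if b then 1/4 else 0))))) ^ 2)
      (∫ t : ℝ, ‖f t‖ ^ 2 * (Real.sin (2 * Real.pi * (t - (if b then 1/4 else 0)))) ^ 2) := by
    intro b
    exact hasSum_m f hf (if b then 1/4 else 0)
  have hnn : 0 ≤ S := fun p => by positivity
  -- summability over (b, m)
  have hT : ∀ q : Bool × ℤ, ∑' n : ℤ, S (q, n) = 
      (∫ t in ((q.2 : ℝ) + (if q.1 then 1/4 else 0) - 1/2)..((q.2 : ℝ) + (if q.1 then 1/4 else 0) + 1/2),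
        ‖f t‖ ^ 2 * (Real.sin (2 * Real.pi * (t - ((q.2 : ℝ) + (if q.1 then 1/4 else 0))))) ^ 2) :=
    fun q => (hn q).tsum_eq
  have hTnn : 0 ≤ (fun q : Bool × ℤ => ∑' n : ℤ, S (q, n)) := fun q => tsum_nonneg fun n => hnn _
  have hsumq : Summable (fun q : Bool × ℤ => ∑' n : ℤ, S (q, n)) := by
    rw [summable_prod_of_nonneg hTnn]
    refine ⟨fun b => ?_, ?_⟩
    · simp_rw [hT]
      exact (hm b).summable
    · exact Summable.of_finite
  have hsum : Summable S := by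
    rw [summable_prod_of_nonneg hnn]
    exact ⟨fun q => (hn q).summable, hsumq⟩
  have htot : ∑' p, S p = ∫ t : ℝ, ‖f t‖ ^ 2 := by
    rw [hsum.tsum_prod' (fun q => (hn q).summable)]
    rw [hsumq.tsum_prod' (fun b => by simp_rw [hT]; exact (hm b).summable)]
    simp_rw [hT]
    rw [tsum_fintype, Fintype.sum_bool, (hm true).tsum_eq, (hm false).tsum_eq, ← integral_add]
    · congr 1
      ext t
      have : 2 * Real.pi * (t - 1/4) = 2 * Real.pi * t - Real.pi / 2 := by ring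
      simp only [if_true, Bool.false_eq_true, if_false, sub_zero, this, Real.sin_sub_pi_div_two]
      have := Real.sin_sq_add_cos_sq (2 * Real.pi * t)
      rw [neg_sq, ← mul_add, add_comm, this, mul_one]
    · exact integrable_sq_mul f hf _ (by fun_prop) (fun t => Real.abs_sin_le_one _)
    · exact integrable_sq_mul f hf _ (by fun_prop) (fun t => Real.abs_sin_le_one _)
  rw [← htot]
  exact hsum.hasSum

/-- count of integers -/
noncomputable def cnt (z R : ℝ) : Finset ℤ := Finset.Ico ⌈z⌉ ⌈z + R⌉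

lemma mem_cnt (z R : ℝ) (m : ℤ) : m ∈ cnt z R ↔ z ≤ m ∧ (m : ℝ) < z + R := by
  unfold cnt
  rw [Finset.mem_Ico, Int.ceil_le, Int.lt_ceil]

lemma cnt_card_le (z R : ℝ) (hR : 0 ≤ R) : ((cnt z R).card : ℝ) ≤ R + 1 := by
  unfold cnt
  rw [Int.card_Ico]
  have h1 := Int.ceil_lt_add_one (z + R)
  have h2 := Int.le_ceil z
  have h0 : 0 ≤ ⌈z + R⌉ - ⌈z⌉ := by
    have := Int.ceil_mono (show z ≤ z + R by linarith)
    omega
  have h3 : (((⌈z + R⌉ - ⌈z⌉).toNat : ℕ) : ℝ) = ((⌈z + R⌉ - ⌈z⌉ : ℤ) : ℝ) := by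
    rw [← Int.cast_natCast, Int.toNat_of_nonneg h0]
  rw [h3]; push_cast; linarith

lemma cnt_card_ge (z R : ℝ) : R - 1 ≤ ((cnt z R).card : ℝ) := by
  unfold cnt
  rw [Int.card_Ico]
  have h1 := Int.le_ceil (z + R)
  have h2 := Int.ceil_lt_add_one z
  have h3 : ((⌈z + R⌉ - ⌈z⌉ : ℤ) : ℝ) ≤ (((⌈z + R⌉ - ⌈z⌉).toNat : ℕ) : ℝ) := by
    have := Int.self_le_toNat (⌈z + R⌉ - ⌈z⌉)
    rw [← Int.cast_natCast]
    exact Int.cast_le.mpr this
  push_cast at h3; linarith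

/-- finset of indices in a box -/
noncomputable def T (z : ℝ × ℝ) (R : ℝ) : Finset ((Bool × ℤ) × ℤ) :=
  ((({false} : Finset Bool) ×ˢ cnt z.1 R) ∪ (({true} : Finset Bool) ×ˢ cnt (z.1 - 1/4) R)) ×ˢ cnt z.2 R

lemma T_card (z : ℝ × ℝ) (R : ℝ) :
    (T z R).card = ((cnt z.1 R).card + (cnt (z.1 - 1/4) R).card) * (cnt z.2 R).card := by
  unfold T
  rw [Finset.card_product, Finset.card_union_of_disjoint, Finset.card_product, Finset.card_product]
  · simp
  · rw [Finset.disjoint_left]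
    rintro ⟨b, m⟩ h1 h2
    simp only [Finset.mem_product, Finset.mem_singleton] at h1 h2
    have := h1.1.symm.trans h2.1
    simp at this

lemma inter_eq (z : ℝ × ℝ) (R : ℝ) :
    (Set.range F ∩ (Set.Ico z.1 (z.1 + R) ×ˢ Set.Ico z.2 (z.2 + R))) = F '' (T z R : Set _) := by
  ext p
  constructor
  · rintro ⟨⟨⟨⟨b, m⟩, n⟩, rfl⟩, hp⟩
    refine ⟨((b, m), n), ?_, rfl⟩
    simp only [F, Set.mem_prod, Set.mem_Ico] at hp
    obtain ⟨⟨h1, h2⟩, h3, h4⟩ := hp
    unfold T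
    simp only [Finset.coe_product, Finset.coe_union, Set.mem_prod, Set.mem_union, Finset.mem_coe,
      Finset.mem_singleton, mem_cnt]
    refine ⟨?_, h3, h4⟩
    cases b
    · left
      simp only [Bool.false_eq_true, if_false, add_zero] at h1 h2
      exact ⟨rfl, h1, h2⟩
    · right
      simp only [if_true] at h1 h2
      exact ⟨rfl, by linarith, by linarith⟩
  · rintro ⟨⟨⟨b, m⟩, n⟩, h, rfl⟩
    unfold T at h
    simp only [Finset.coe_product, Finset.coe_union, Set.mem_prod, Set.mem_union, Finset.mem_coe,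
      Finset.mem_singleton, mem_cnt] at h
    obtain ⟨h1, h3, h4⟩ := h
    refine ⟨⟨_, rfl⟩, ?_⟩
    simp only [F, Set.mem_prod, Set.mem_Ico]
    refine ⟨?_, h3, h4⟩
    rcases h1 with ⟨rfl, h5, h6⟩ | ⟨rfl, h5, h6⟩
    · simp only [Bool.false_eq_true, if_false, add_zero]
      exact ⟨h5, h6⟩
    · simp only [if_true]
      exact ⟨by linarith, by linarith⟩

lemma ncard_eq (z : ℝ × ℝ) (R : ℝ) :
    (Set.range F ∩ (Set.Ico z.1 (z.1 + R) ×ˢ Set.Ico z.2 (z.2 + R))).ncard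
      = ((cnt z.1 R).card + (cnt (z.1 - 1/4) R).card) * (cnt z.2 R).card := by
  rw [inter_eq, Set.ncard_image_of_injective _ F_inj, Set.ncard_coe_finset, T_card]

lemma separated : ∃ C : ℕ, ∀ z : ℝ × ℝ,
      (Set.range F ∩ (Set.Ico z.1 (z.1 + 1) ×ˢ Set.Ico z.2 (z.2 + 1))).Finite ∧
      (Set.range F ∩ (Set.Ico z.1 (z.1 + 1) ×ˢ Set.Ico z.2 (z.2 + 1))).ncard ≤ C := by
  refine ⟨8, fun z => ⟨?_, ?_⟩⟩
  · rw [inter_eq]
    exact (Finset.finite_toSet _).image _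
  · rw [ncard_eq]
    have h : ∀ z : ℝ, (cnt z 1).card ≤ 2 := by
      intro z
      have := cnt_card_le z 1 (by norm_num)
      have h2 : ((cnt z 1).card : ℝ) ≤ ((2 : ℕ) : ℝ) := by push_cast; linarith
      exact_mod_cast h2
    calc _ ≤ (2 + 2) * 2 := Nat.mul_le_mul (Nat.add_le_add (h _) (h _)) (h _)
      _ = 8 := by norm_num

lemma density : Filter.liminf (fun R : ℝ => ⨅ z : ℝ × ℝ,
        ((Set.range F ∩ (Set.Ico z.1 (z.1 + R) ×ˢ Set.Ico z.2 (z.2 + R))).ncard : ℝ) / R ^ 2)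
      Filter.atTop = 2 := by
  apply Filter.Tendsto.liminf_eq
  have hlow : Filter.Tendsto (fun R : ℝ => 2 * (1 - R⁻¹) ^ 2) Filter.atTop (nhds 2) := by
    have h1 : Filter.Tendsto (fun R : ℝ => 2 * (1 - R⁻¹) ^ 2) Filter.atTop (nhds (2 * (1 - 0) ^ 2)) :=
      ((tendsto_const_nhds.sub tendsto_inv_atTop_zero).pow 2).const_mul 2
    simpa using h1
  have hup : Filter.Tendsto (fun R : ℝ => 2 * (1 + R⁻¹) ^ 2) Filter.atTop (nhds 2) := by
    have h1 : Filter.Tendsto (fun R : ℝ => 2 * (1 + R⁻¹) ^ 2) Filter.atTop (nhds (2 * (1 + 0) ^ 2)) :=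
      ((tendsto_const_nhds.add tendsto_inv_atTop_zero).pow 2).const_mul 2
    simpa using h1
  refine tendsto_of_tendsto_of_tendsto_of_le_of_le' hlow hup ?_ ?_
  · filter_upwards [Filter.eventually_ge_atTop (1 : ℝ)] with R hR
    apply le_ciInf
    intro z
    rw [ncard_eq, le_div_iff₀ (by positivity)]
    push_cast
    have h1 := cnt_card_ge z.1 R
    have h2 := cnt_card_ge (z.1 - 1/4) R
    have h3 := cnt_card_ge z.2 R
    have e : 2 * (1 - R⁻¹) ^ 2 * R ^ 2 = ((R - 1) + (R - 1)) * (R - 1) := by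
      field_simp
      ring
    rw [e]
    apply mul_le_mul (by linarith) h3 (by linarith) (by linarith)
  · filter_upwards [Filter.eventually_ge_atTop (1 : ℝ)] with R hR
    refine (ciInf_le ⟨0, ?_⟩ (0, 0)).trans ?_
    · rintro _ ⟨z, rfl⟩
      positivity
    rw [ncard_eq, div_le_iff₀ (by positivity)]
    push_cast
    have h1 := cnt_card_le (0, 0).1 R (by linarith)
    have h2 := cnt_card_le ((0, 0).1 - 1/4) R (by linarith)
    have h3 := cnt_card_le (0, 0).2 R (by linarith)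
    have e : 2 * (1 + R⁻¹) ^ 2 * R ^ 2 = ((R + 1) + (R + 1)) * (R + 1) := by
      field_simp
      ring
    rw [e]
    apply mul_le_mul (by linarith) h3 (by positivity) (by linarith)

noncomputable def G (x t : ℝ) : ℝ := Real.exp (-Real.pi * (t - x) ^ 2)
noncomputable def h0 (x t : ℝ) : ℝ := Real.sin (2 * Real.pi * t) * G x t
noncomputable def h1 (x t : ℝ) : ℝ :=
  (2 * Real.pi * Real.cos (2 * Real.pi * t) - 2 * Real.pi * (t - x) * Real.sin (2 * Real.pi * t)) * G x t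
noncomputable def h2 (x t : ℝ) : ℝ :=
  (-4 * Real.pi ^ 2 * Real.sin (2 * Real.pi * t) - 8 * Real.pi ^ 2 * (t - x) * Real.cos (2 * Real.pi * t)
    + (4 * Real.pi ^ 2 * (t - x) ^ 2 - 2 * Real.pi) * Real.sin (2 * Real.pi * t)) * G x t

lemma hasDerivAt_G (x t : ℝ) : HasDerivAt (G x) (-2 * Real.pi * (t - x) * G x t) t := by
  have h : HasDerivAt (fun t => -Real.pi * (t - x) ^ 2) (-Real.pi * (2 * (t - x))) t := by
    have h1 : HasDerivAt (fun t : ℝ => t - x) 1 t := (hasDerivAt_id' t).sub_const x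
    have h2 : HasDerivAt (fun t : ℝ => (t - x) ^ 2) (2 * (t - x)) t := by
      refine (h1.pow 2).congr_deriv ?_
      norm_num
    exact h2.const_mul (-Real.pi)
  refine h.exp.congr_deriv ?_
  unfold G
  ring

lemma hasDerivAt_lin (t : ℝ) : HasDerivAt (fun t : ℝ => 2 * Real.pi * t) (2 * Real.pi) t := by
  refine ((hasDerivAt_id' t).const_mul (2 * Real.pi)).congr_deriv ?_
  ring

lemma hasDerivAt_s (t : ℝ) : HasDerivAt (fun t : ℝ => Real.sin (2 * Real.pi * t)) (2 * Real.pi * Real.cos (2 * Real.pi * t)) t := by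
  refine (hasDerivAt_lin t).sin.congr_deriv ?_
  ring

lemma hasDerivAt_c (t : ℝ) : HasDerivAt (fun t : ℝ => Real.cos (2 * Real.pi * t)) (-(2 * Real.pi) * Real.sin (2 * Real.pi * t)) t := by
  refine (hasDerivAt_lin t).cos.congr_deriv ?_
  ring

lemma hasDerivAt_h0 (x t : ℝ) : HasDerivAt (h0 x) (h1 x t) t := by
  refine ((hasDerivAt_s t).mul (hasDerivAt_G x t)).congr_deriv ?_
  unfold h1
  ring

lemma hasDerivAt_h1 (x t : ℝ) : HasDerivAt (h1 x) (h2 x t) t := by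
  have hl : HasDerivAt (fun t : ℝ => 2 * Real.pi * (t - x)) (2 * Real.pi) t := by
    refine (((hasDerivAt_id' t).sub_const x).const_mul (2 * Real.pi)).congr_deriv ?_
    ring
  refine ((((hasDerivAt_c t).const_mul (2 * Real.pi)).sub (hl.mul (hasDerivAt_s t))).mul (hasDerivAt_G x t)).congr_deriv ?_
  simp only [Pi.sub_apply, Pi.mul_apply]
  unfold h2
  ring

/-- bound -/
noncomputable def M (x : ℝ) : ℝ := (40 * Real.pi ^ 2 * Real.exp (Real.pi / 4)) * ((1 + x ^ 2) * Real.exp (-(Real.pi / 2) * x ^ 2))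

lemma G_le (x t : ℝ) (ht : |t| ≤ 1/2) : G x t ≤ Real.exp (Real.pi / 4) * Real.exp (-(Real.pi / 2) * x ^ 2) := by
  unfold G
  rw [← Real.exp_add]
  apply Real.exp_le_exp.mpr
  have h1 : t ^ 2 ≤ 1/4 := by
    have := sq_le_sq' (by linarith [neg_abs_le t, abs_nonneg t] : -(1/2) ≤ |t|) ht
    rw [sq_abs] at this; linarith
  have h2 : x ^ 2 / 2 - 1/4 ≤ (t - x) ^ 2 := by nlinarith [sq_nonneg (x - 2 * t)]
  have := mul_le_mul_of_nonneg_left h2 Real.pi_pos.le
  nlinarith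

lemma G_pos (x t : ℝ) : 0 < G x t := Real.exp_pos _

lemma poly_bound (x t a : ℝ) (ht : |t| ≤ 1/2) (ha : |a| ≤ 40 * Real.pi ^ 2 * (1 + x ^ 2)) :
    |a * G x t| ≤ M x := by
  rw [abs_mul, abs_of_pos (G_pos x t)]
  unfold M
  calc |a| * G x t ≤ (40 * Real.pi ^ 2 * (1 + x ^ 2)) * (Real.exp (Real.pi / 4) * Real.exp (-(Real.pi / 2) * x ^ 2)) := by
        apply mul_le_mul ha (G_le x t ht) (G_pos x t).le (by positivity)
    _ = _ := by ring

lemma pi_sq_ge : 9 ≤ Real.pi ^ 2 := by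
  have := Real.pi_gt_three
  nlinarith

lemma pi_le_sq : Real.pi ≤ Real.pi ^ 2 / 3 := by
  have := Real.pi_gt_three
  nlinarith

lemma t_sub_sq (x t : ℝ) (ht : |t| ≤ 1/2) : (t - x) ^ 2 ≤ 1/2 + 2 * x ^ 2 := by
  have h1 : t ^ 2 ≤ 1/4 := by
    have := sq_le_sq' (by linarith [neg_abs_le t, abs_nonneg t] : -(1/2) ≤ |t|) ht
    rw [sq_abs] at this; linarith
  nlinarith [sq_nonneg (t + x)]

lemma t_sub_abs (x t : ℝ) : |t - x| ≤ (1 + (t - x) ^ 2) / 2 := by
  rw [← sq_abs (t - x)]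
  nlinarith [sq_nonneg (|t - x| - 1)]

lemma h0_le (x t : ℝ) (ht : |t| ≤ 1/2) : |h0 x t| ≤ M x := by
  apply poly_bound x t _ ht
  have h1 := Real.abs_sin_le_one (2 * Real.pi * t)
  have := pi_sq_ge
  have h2 := mul_nonneg (sq_nonneg Real.pi) (sq_nonneg x)
  nlinarith

lemma h1_le (x t : ℝ) (ht : |t| ≤ 1/2) : |h1 x t| ≤ M x := by
  apply poly_bound x t _ ht
  have hs := Real.abs_sin_le_one (2 * Real.pi * t)
  have hc := Real.abs_cos_le_one (2 * Real.pi * t)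
  have hp := Real.pi_pos
  have h3 := pi_le_sq
  have h4 := t_sub_sq x t ht
  have h5 := t_sub_abs x t
  have h6 : |2 * Real.pi * Real.cos (2 * Real.pi * t)| ≤ 2 * Real.pi := by
    rw [abs_mul, abs_of_pos (by positivity : (0:ℝ) < 2 * Real.pi)]
    nlinarith
  have h7 : |2 * Real.pi * (t - x) * Real.sin (2 * Real.pi * t)| ≤ 2 * Real.pi * |t - x| := by
    rw [abs_mul, abs_mul, abs_of_pos (by positivity : (0:ℝ) < 2 * Real.pi)]
    have := mul_le_mul_of_nonneg_left hs (by positivity : 0 ≤ 2 * Real.pi * |t - x|)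
    linarith
  have h8 := abs_sub (2 * Real.pi * Real.cos (2 * Real.pi * t)) (2 * Real.pi * (t - x) * Real.sin (2 * Real.pi * t))
  have h9 : 2 * Real.pi * |t - x| ≤ 2 * Real.pi * ((1 + (1/2 + 2 * x ^ 2)) / 2) := by
    apply mul_le_mul_of_nonneg_left _ (by positivity)
    linarith
  have h10 : Real.pi * x ^ 2 ≤ Real.pi ^ 2 / 3 * x ^ 2 := mul_le_mul_of_nonneg_right h3 (sq_nonneg x)
  have h11 := mul_nonneg (sq_nonneg Real.pi) (sq_nonneg x)
  nlinarith

lemma h2_le (x t : ℝ) (ht : |t| ≤ 1/2) : |h2 x t| ≤ M x := by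
  apply poly_bound x t _ ht
  have hs := Real.abs_sin_le_one (2 * Real.pi * t)
  have hc := Real.abs_cos_le_one (2 * Real.pi * t)
  have hp := Real.pi_pos
  have h3 := pi_le_sq
  have h4 := t_sub_sq x t ht
  have h5 := t_sub_abs x t
  have h6 : |-4 * Real.pi ^ 2 * Real.sin (2 * Real.pi * t)| ≤ 4 * Real.pi ^ 2 := by
    rw [abs_mul, abs_mul, abs_of_pos (by positivity : (0:ℝ) < Real.pi ^ 2)]
    norm_num
    nlinarith [sq_nonneg Real.pi]
  have h7 : |8 * Real.pi ^ 2 * (t - x) * Real.cos (2 * Real.pi * t)| ≤ 8 * Real.pi ^ 2 * |t - x| := by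
    rw [abs_mul, abs_mul, abs_of_pos (by positivity : (0:ℝ) < 8 * Real.pi ^ 2)]
    have := mul_le_mul_of_nonneg_left hc (by positivity : 0 ≤ 8 * Real.pi ^ 2 * |t - x|)
    linarith
  have h8 : |(4 * Real.pi ^ 2 * (t - x) ^ 2 - 2 * Real.pi) * Real.sin (2 * Real.pi * t)| ≤
      4 * Real.pi ^ 2 * (t - x) ^ 2 + 2 * Real.pi := by
    rw [abs_mul]
    have h81 := abs_sub (4 * Real.pi ^ 2 * (t - x) ^ 2) (2 * Real.pi)
    rw [abs_of_nonneg (by positivity : (0:ℝ) ≤ 4 * Real.pi ^ 2 * (t - x) ^ 2), abs_of_pos (by positivity : (0:ℝ) < 2 * Real.pi)] at h81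
    calc _ ≤ |4 * Real.pi ^ 2 * (t - x) ^ 2 - 2 * Real.pi| * 1 := by
          apply mul_le_mul_of_nonneg_left hs (abs_nonneg _)
      _ ≤ _ := by rw [mul_one]; exact h81
  have h9 : 8 * Real.pi ^ 2 * |t - x| ≤ 8 * Real.pi ^ 2 * ((1 + (1/2 + 2 * x ^ 2)) / 2) := by
    apply mul_le_mul_of_nonneg_left _ (by positivity)
    linarith
  have h10 : 4 * Real.pi ^ 2 * (t - x) ^ 2 ≤ 4 * Real.pi ^ 2 * (1/2 + 2 * x ^ 2) := by
    apply mul_le_mul_of_nonneg_left h4 (by positivity)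
  have h11 := mul_nonneg (sq_nonneg Real.pi) (sq_nonneg x)
  have h12 := abs_add_le (-4 * Real.pi ^ 2 * Real.sin (2 * Real.pi * t) - 8 * Real.pi ^ 2 * (t - x) * Real.cos (2 * Real.pi * t))
    ((4 * Real.pi ^ 2 * (t - x) ^ 2 - 2 * Real.pi) * Real.sin (2 * Real.pi * t))
  have h13 := abs_sub (-4 * Real.pi ^ 2 * Real.sin (2 * Real.pi * t)) (8 * Real.pi ^ 2 * (t - x) * Real.cos (2 * Real.pi * t))
  nlinarith


/-- the short-time Fourier transform of the window against the Gaussian -/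
noncomputable def V (p : ℝ × ℝ) : ℂ := ∫ t : ℝ, g t
        * Complex.exp (-(Real.pi : ℂ) * (((t - p.1) ^ 2 : ℝ) : ℂ))
        * Complex.exp (-2 * (Real.pi : ℂ) * Complex.I * (p.2 : ℂ) * (t : ℂ))

lemma V_eq (x w : ℝ) : V (x, w) = ∫ t in (-(1/2) : ℝ)..(1/2),
    ((h0 x t : ℝ) : ℂ) * Complex.exp ((-2 * (Real.pi : ℂ) * Complex.I * (w : ℂ)) * (t : ℂ)) := by
  rw [intervalIntegral.integral_of_le (by norm_num), ← integral_indicator measurableSet_Ioc]
  unfold V
  congr 1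
  ext t
  by_cases ht : t ∈ Set.Ioc (-(1/2) : ℝ) (1/2)
  · rw [Set.indicator_of_mem ht]
    unfold g h0 G
    rw [Set.indicator_of_mem ht]
    push_cast
    ring
  · rw [Set.indicator_of_notMem ht]
    unfold g
    rw [Set.indicator_of_notMem ht]
    simp

lemma h0_end (x : ℝ) : h0 x (1/2) = 0 ∧ h0 x (-(1/2)) = 0 := by
  unfold h0
  constructor
  · rw [show 2 * Real.pi * (1/2) = Real.pi by ring]; simp
  · rw [show 2 * Real.pi * (-(1/2)) = -Real.pi by ring]; simp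

lemma h2_cont (x : ℝ) : Continuous (h2 x) := by
  unfold h2 G
  fun_prop

lemma h0_cont (x : ℝ) : Continuous (h0 x) := by
  unfold h0 G
  fun_prop

lemma parts (x w : ℝ) :
    (4 * (Real.pi : ℂ) ^ 2 * (w : ℂ) ^ 2) * (∫ t in (-(1/2) : ℝ)..(1/2),
      ((h0 x t : ℝ) : ℂ) * Complex.exp ((-2 * (Real.pi : ℂ) * Complex.I * (w : ℂ)) * (t : ℂ)))
    = ((h1 x (1/2) : ℝ) : ℂ) * Complex.exp ((-2 * (Real.pi : ℂ) * Complex.I * (w : ℂ)) * ((1/2 : ℝ) : ℂ))
      - ((h1 x (-(1/2)) : ℝ) : ℂ) * Complex.exp ((-2 * (Real.pi : ℂ) * Complex.I * (w : ℂ)) * ((-(1/2) : ℝ) : ℂ))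
      - ∫ t in (-(1/2) : ℝ)..(1/2),
        ((h2 x t : ℝ) : ℂ) * Complex.exp ((-2 * (Real.pi : ℂ) * Complex.I * (w : ℂ)) * (t : ℂ)) := by
  set c : ℂ := -2 * (Real.pi : ℂ) * Complex.I * (w : ℂ) with hc
  have hE : ∀ t : ℝ, HasDerivAt (fun t : ℝ => Complex.exp (c * (t : ℂ))) (c * Complex.exp (c * (t : ℂ))) t := by
    intro t
    have h1 : HasDerivAt (fun t : ℝ => c * (t : ℂ)) c t := by
      refine ((Complex.ofRealCLM.hasDerivAt (x := t)).const_mul c).congr_deriv ?_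
      simp
    refine h1.cexp.congr_deriv ?_
    ring
  have hA : ∀ t : ℝ, HasDerivAt (fun t : ℝ => ((h0 x t : ℝ) : ℂ)) ((h1 x t : ℝ) : ℂ) t :=
    fun t => (hasDerivAt_h0 x t).ofReal_comp
  have hB : ∀ t : ℝ, HasDerivAt (fun t : ℝ => ((h1 x t : ℝ) : ℂ)) ((h2 x t : ℝ) : ℂ) t :=
    fun t => (hasDerivAt_h1 x t).ofReal_comp
  have hPhi : ∀ t : ℝ, HasDerivAt (fun t : ℝ => ((h1 x t : ℝ) : ℂ) * Complex.exp (c * (t : ℂ))
      - c * (((h0 x t : ℝ) : ℂ) * Complex.exp (c * (t : ℂ))))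
      (((h2 x t : ℝ) : ℂ) * Complex.exp (c * (t : ℂ)) - c ^ 2 * (((h0 x t : ℝ) : ℂ) * Complex.exp (c * (t : ℂ)))) t := by
    intro t
    refine (((hB t).mul (hE t)).sub (((hA t).mul (hE t)).const_mul c)).congr_deriv ?_
    ring
  have i1 : IntervalIntegrable (fun t : ℝ => ((h2 x t : ℝ) : ℂ) * Complex.exp (c * (t : ℂ))) volume (-(1/2)) (1/2) := by
    apply Continuous.intervalIntegrable
    have := h2_cont x
    fun_prop
  have i2 : IntervalIntegrable (fun t : ℝ => c ^ 2 * (((h0 x t : ℝ) : ℂ) * Complex.exp (c * (t : ℂ)))) volume (-(1/2)) (1/2) := by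
    apply Continuous.intervalIntegrable
    have := h0_cont x
    fun_prop
  have h := intervalIntegral.integral_eq_sub_of_hasDerivAt (fun t _ => hPhi t) (i1.sub i2)
  rw [intervalIntegral.integral_sub i1 i2, intervalIntegral.integral_const_mul] at h
  have hc2 : c ^ 2 = - (4 * (Real.pi : ℂ) ^ 2 * (w : ℂ) ^ 2) := by
    rw [hc]
    have := Complex.I_sq
    linear_combination (4 * (Real.pi : ℂ) ^ 2 * (w : ℂ) ^ 2) * this
  rw [hc2] at h
  rw [(h0_end x).1, (h0_end x).2] at h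
  simp only [Complex.ofReal_zero, zero_mul, mul_zero, sub_zero] at h
  linear_combination h

lemma exp_norm (w t : ℝ) : ‖Complex.exp ((-2 * (Real.pi : ℂ) * Complex.I * (w : ℂ)) * (t : ℂ))‖ = 1 := by
  have : (-2 * (Real.pi : ℂ) * Complex.I * (w : ℂ)) * (t : ℂ) = ((-2 * Real.pi * w * t : ℝ) : ℂ) * Complex.I := by
    push_cast; ring
  rw [this, Complex.norm_exp_ofReal_mul_I]

lemma M_nonneg (x : ℝ) : 0 ≤ M x := by unfold M; positivity

lemma int_le (x w : ℝ) (h : ℝ → ℝ) (hh : ∀ t, |t| ≤ 1/2 → |h t| ≤ M x) :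
    ‖∫ t in (-(1/2) : ℝ)..(1/2),
        ((h t : ℝ) : ℂ) * Complex.exp ((-2 * (Real.pi : ℂ) * Complex.I * (w : ℂ)) * (t : ℂ))‖ ≤ M x := by
  have := intervalIntegral.norm_integral_le_of_norm_le_const (a := -(1/2)) (b := 1/2) (C := M x)
    (f := fun t : ℝ => ((h t : ℝ) : ℂ) * Complex.exp ((-2 * (Real.pi : ℂ) * Complex.I * (w : ℂ)) * (t : ℂ))) ?_
  · refine this.trans ?_
    norm_num
  · intro t ht
    rw [Set.uIoc_of_le (by norm_num)] at ht
    rw [norm_mul, exp_norm, mul_one, Complex.norm_real]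
    apply hh
    rw [abs_le]
    exact ⟨by linarith [ht.1], ht.2⟩

lemma V_bound (p : ℝ × ℝ) : ‖V p‖ ≤ 4 * M p.1 * (1 + p.2 ^ 2)⁻¹ := by
  obtain ⟨x, w⟩ := p
  rw [← div_eq_mul_inv, le_div_iff₀ (by positivity)]
  have hp := congrArg norm (parts x w)
  rw [norm_mul, ← V_eq] at hp
  have e1 : ‖(4 * (Real.pi : ℂ) ^ 2 * (w : ℂ) ^ 2)‖ = 4 * Real.pi ^ 2 * w ^ 2 := by
    have : (4 * (Real.pi : ℂ) ^ 2 * (w : ℂ) ^ 2) = ((4 * Real.pi ^ 2 * w ^ 2 : ℝ) : ℂ) := by push_cast; ring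
    rw [this, Complex.norm_real, Real.norm_eq_abs, abs_of_nonneg (by positivity)]
  rw [e1] at hp
  have e2 : ‖V (x, w)‖ ≤ M x := by
    rw [V_eq]; exact int_le x w (h0 x) (fun t ht => h0_le x t ht)
  have e3 : 4 * Real.pi ^ 2 * w ^ 2 * ‖V (x, w)‖ ≤ 3 * M x := by
    rw [hp]
    refine (norm_sub_le _ _).trans ?_
    refine (add_le_add (norm_sub_le _ _) (int_le x w (h2 x) (fun t ht => h2_le x t ht))).trans ?_
    rw [norm_mul, norm_mul, exp_norm, exp_norm, mul_one, mul_one, Complex.norm_real, Complex.norm_real]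
    have a1 := h1_le x (1/2) (by rw [abs_of_pos (by norm_num)])
    have a2 := h1_le x (-(1/2)) (by rw [abs_neg, abs_of_pos (by norm_num)])
    rw [Real.norm_eq_abs, Real.norm_eq_abs]
    linarith
  have e4 : w ^ 2 * ‖V (x, w)‖ ≤ 4 * Real.pi ^ 2 * w ^ 2 * ‖V (x, w)‖ := by
    have := pi_sq_ge
    have h := mul_nonneg (sq_nonneg w) (norm_nonneg (V (x, w)))
    nlinarith
  calc ‖V (x, w)‖ * (1 + (x, w).2 ^ 2) = ‖V (x, w)‖ + w ^ 2 * ‖V (x, w)‖ := by ring
    _ ≤ M x + 3 * M x := by linarith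
    _ = 4 * M (x, w).1 := by ring

lemma M_integrable : Integrable M volume := by
  unfold M
  apply Integrable.const_mul
  have hb : 0 < Real.pi / 2 := by positivity
  have i1 : Integrable (fun x : ℝ => Real.exp (-(Real.pi / 2) * x ^ 2)) := integrable_exp_neg_mul_sq hb
  have i2 : Integrable (fun x : ℝ => x ^ 2 * Real.exp (-(Real.pi / 2) * x ^ 2)) := by
    have := integrable_rpow_mul_exp_neg_mul_sq hb (s := 2) (by norm_num)
    simpa using this
  refine (i1.add i2).congr ?_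
  refine Filter.Eventually.of_forall fun x => ?_
  simp only [Pi.add_apply]
  ring

lemma V_meas : AEStronglyMeasurable V (volume : Measure (ℝ × ℝ)) := by
  have h : StronglyMeasurable (fun q : (ℝ × ℝ) × ℝ => g q.2
        * Complex.exp (-(Real.pi : ℂ) * (((q.2 - q.1.1) ^ 2 : ℝ) : ℂ))
        * Complex.exp (-2 * (Real.pi : ℂ) * Complex.I * (q.1.2 : ℂ) * (q.2 : ℂ))) := by
    apply Measurable.stronglyMeasurable
    apply Measurable.mul
    · apply Measurable.mul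
      · exact g_measurable.comp measurable_snd
      · fun_prop
    · fun_prop
  exact (h.integral_prod_right' (ν := volume)).aestronglyMeasurable

lemma V_integrable : Integrable V (volume : Measure (ℝ × ℝ)) := by
  have h : Integrable (fun p : ℝ × ℝ => (4 * M p.1) * (1 + p.2 ^ 2)⁻¹) (volume : Measure (ℝ × ℝ)) := by
    exact (M_integrable.const_mul 4).mul_prod integrable_inv_one_add_sq
  refine h.mono' V_meas ?_
  exact Filter.Eventually.of_forall V_bound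

/-- The negation of the preceding statement: For n ≥ 1, every odd window g in the Feichtinger algebra and every relatively separated set Γ in the plane with lower Beurling density (n+1)/n, the Gabor system of g over Γ is not a frame for L²(ℝ). -/
theorem result :
    ¬ (∀ n : ℕ, 1 ≤ n →
  ∀ g : ℝ → ℂ, MemLp g 2 volume →
    Integrable g volume →
    Integrable (fun p : ℝ × ℝ => ∫ t : ℝ, g t
        * Complex.exp (-(Real.pi : ℂ) * (((t - p.1) ^ 2 : ℝ) : ℂ))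
        * Complex.exp (-2 * (Real.pi : ℂ) * Complex.I * (p.2 : ℂ) * (t : ℂ)))
      (volume : Measure (ℝ × ℝ)) →
    (∀ t : ℝ, g (-t) = -g t) →
  ∀ Γ : Set (ℝ × ℝ),
    (∃ C : ℕ, ∀ z : ℝ × ℝ,
      (Γ ∩ (Set.Ico z.1 (z.1 + 1) ×ˢ Set.Ico z.2 (z.2 + 1))).Finite ∧
      (Γ ∩ (Set.Ico z.1 (z.1 + 1) ×ˢ Set.Ico z.2 (z.2 + 1))).ncard ≤ C) →
    Filter.liminf (fun R : ℝ => ⨅ z : ℝ × ℝ,
        ((Γ ∩ (Set.Ico z.1 (z.1 + R) ×ˢ Set.Ico z.2 (z.2 + R))).ncard : ℝ) / R ^ 2)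
      Filter.atTop = ((n : ℝ) + 1) / (n : ℝ) →
    ¬ ∃ A B : ℝ, 0 < A ∧ 0 < B ∧ ∀ f : ℝ → ℂ, MemLp f 2 volume →
      Summable (fun γ : Γ => ‖∫ t : ℝ, f t * (starRingEnd ℂ)
          (Complex.exp (2 * (Real.pi : ℂ) * Complex.I * (((γ : ℝ × ℝ).2 : ℝ) : ℂ) * (t : ℂ))
            * g (t - (γ : ℝ × ℝ).1))‖ ^ 2) ∧
      A * (∫ t : ℝ, ‖f t‖ ^ 2) ≤ (∑' γ : Γ, ‖∫ t : ℝ, f t * (starRingEnd ℂ)
          (Complex.exp (2 * (Real.pi : ℂ) * Complex.I * (((γ : ℝ × ℝ).2 : ℝ) : ℂ) * (t : ℂ))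
            * g (t - (γ : ℝ × ℝ).1))‖ ^ 2) ∧
      (∑' γ : Γ, ‖∫ t : ℝ, f t * (starRingEnd ℂ)
          (Complex.exp (2 * (Real.pi : ℂ) * Complex.I * (((γ : ℝ × ℝ).2 : ℝ) : ℂ) * (t : ℂ))
            * g (t - (γ : ℝ × ℝ).1))‖ ^ 2) ≤ B * (∫ t : ℝ, ‖f t‖ ^ 2)) := by
  intro H
  refine H 1 le_rfl g (g_memLp 2) g_integrable V_integrable g_odd (Set.range F) separated ?_
    ⟨1, 1, one_pos, one_pos, fun f hf => ?_⟩
  · rw [density]; norm_num
  · have h := frame_hasSum f hf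
    have h' : HasSum (fun γ : Set.range F => ‖∫ t : ℝ, f t * (starRingEnd ℂ)
          (Complex.exp (2 * (Real.pi : ℂ) * Complex.I * (((γ : ℝ × ℝ).2 : ℝ) : ℂ) * (t : ℂ))
            * g (t - (γ : ℝ × ℝ).1))‖ ^ 2) (∫ t : ℝ, ‖f t‖ ^ 2) := by
      rw [← (Equiv.ofInjective F F_inj).hasSum_iff]
      exact h
    refine ⟨h'.summable, ?_, ?_⟩
    · rw [h'.tsum_eq, one_mul]
    · rw [h'.tsum_eq, one_mul]

end Pool.Agent.S04474
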