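import Pool.Statements.S04558
-- import your own Pool.Agent.* helpers here
import Pool.Agent.Lib.MP_48d627_an.Kernel

set_option autoImplicit false
open Pool Pool.MP_48d627_an

namespace Pool.Agent.S04558

open Pool.Agent.Lib.MP_48d627_an in
/-- membership in the frozen `H` in terms of `InH` -/
lemma mem_iff (f : ℂ → ℂ) :
    (DifferentiableOn ℂ f (Metric.ball (0:ℂ) 1) ∧
           (∀ z : ℂ, z ∉ Metric.ball (0:ℂ) 1 → f z = 0) ∧
           ∃ M : ℝ, ∀ r : ℝ, 0 ≤ r → r < 1 →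
             intervalIntegral
               (fun θ : ℝ => ‖f ((r:ℂ) * Complex.exp ((θ:ℂ) * Complex.I))‖ ^ 2)
               0 (2 * Real.pi) MeasureTheory.volume ≤ M) ↔
      (InH f ∧ ∀ z : ℂ, z ∉ Metric.ball (0:ℂ) 1 → f z = 0) := by
  have e : ∀ (r θ : ℝ), circleMap 0 r θ = (r:ℂ) * Complex.exp ((θ:ℂ) * Complex.I) := by
    intro r θ
    simp [circleMap]
  unfold InH HB
  simp only [e]
  constructor
  · rintro ⟨h1, h2, h3⟩
    exact ⟨⟨h1, h3⟩, h2⟩
  · rintro ⟨⟨h1, h3⟩, h2⟩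
    exact ⟨h1, h2, h3⟩

open Pool.Agent.Lib.MP_48d627_an in
/-- The negation of the preceding statement: For every analytic selfmap φ of the unit disc with no fixed point in the disc, and every μ, the map C_φ − μ on H² is bijective exactly when it is Fredholm. That is, the spectrum of C_φ on H² equals its essential spectrum. -/
theorem result :
    ¬ (∀ φ : ℂ → ℂ, DifferentiableOn ℂ φ (Metric.ball (0:ℂ) 1) →
      Set.MapsTo φ (Metric.ball (0:ℂ) 1) (Metric.ball (0:ℂ) 1) →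
      (∀ z ∈ Metric.ball (0:ℂ) 1, φ z ≠ z) →
      ∀ H : Set (ℂ → ℂ),
        (∀ f : ℂ → ℂ, f ∈ H ↔
          (DifferentiableOn ℂ f (Metric.ball (0:ℂ) 1) ∧
           (∀ z : ℂ, z ∉ Metric.ball (0:ℂ) 1 → f z = 0) ∧
           ∃ M : ℝ, ∀ r : ℝ, 0 ≤ r → r < 1 →
             intervalIntegral
               (fun θ : ℝ => ‖f ((r:ℂ) * Complex.exp ((θ:ℂ) * Complex.I))‖ ^ 2)
               0 (2 * Real.pi) MeasureTheory.volume ≤ M)) →
      ∀ μ : ℂ,
        (∀ g ∈ H, ∃! f : ℂ → ℂ, f ∈ H ∧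
            (Metric.ball (0:ℂ) 1).indicator (f ∘ φ) - μ • f = g) ↔
        ((∃ n : ℕ, ∃ e : Fin n → ℂ → ℂ, ∀ f ∈ H,
            (Metric.ball (0:ℂ) 1).indicator (f ∘ φ) = μ • f →
            ∃ c : Fin n → ℂ, f = ∑ i, c i • e i) ∧
         (∃ n : ℕ, ∃ e : Fin n → ℂ → ℂ, ∀ g ∈ H, ∃ c : Fin n → ℂ, ∃ f ∈ H,
            g = (Metric.ball (0:ℂ) 1).indicator (f ∘ φ) - μ • f + ∑ i, c i • e i))) := by
  intro h
  have hmaps : Set.MapsTo (Phi 1) (Metric.ball (0:ℂ) 1) (Metric.ball (0:ℂ) 1) :=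
    fun z hz => Phi_mem one_mem_Sc hz
  have hfix : ∀ z ∈ Metric.ball (0:ℂ) 1, Phi 1 z ≠ z := by
    intro z hz h0
    have h1 := W_Phi one_mem_Sc hz
    rw [h0] at h1
    have h2 : (1:ℂ) = 0 := by linear_combination -h1
    exact one_ne_zero h2
  have hiff := h (Phi 1) (Phi_diff one_mem_Sc) hmaps hfix
    {f | InH f ∧ ∀ z : ℂ, z ∉ Metric.ball (0:ℂ) 1 → f z = 0}
    (fun f => by rw [mem_iff]; rfl) (Complex.exp (-1))
  -- an indicator of a function in `InH` is in `H`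
  have hind : ∀ f : ℂ → ℂ, InH f → InH ((Metric.ball (0:ℂ) 1).indicator f) := by
    intro f hf
    exact hf.congr (fun z hz => Set.indicator_of_mem hz f)
  have hF : ((∃ n : ℕ, ∃ e : Fin n → ℂ → ℂ, ∀ f ∈
        ({f | InH f ∧ ∀ z : ℂ, z ∉ Metric.ball (0:ℂ) 1 → f z = 0} : Set (ℂ → ℂ)),
            (Metric.ball (0:ℂ) 1).indicator (f ∘ Phi 1) = Complex.exp (-1) • f →
            ∃ c : Fin n → ℂ, f = ∑ i, c i • e i) ∧
         (∃ n : ℕ, ∃ e : Fin n → ℂ → ℂ, ∀ g ∈
           ({f | InH f ∧ ∀ z : ℂ, z ∉ Metric.ball (0:ℂ) 1 → f z = 0} : Set (ℂ → ℂ)),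
           ∃ c : Fin n → ℂ, ∃ f ∈
            ({f | InH f ∧ ∀ z : ℂ, z ∉ Metric.ball (0:ℂ) 1 → f z = 0} : Set (ℂ → ℂ)),
            g = (Metric.ball (0:ℂ) 1).indicator (f ∘ Phi 1) - Complex.exp (-1) • f +
              ∑ i, c i • e i)) := by
    constructor
    · refine ⟨1, fun _ => (Metric.ball (0:ℂ) 1).indicator (fun z => Complex.exp (-W z)), ?_⟩
      rintro f ⟨hf, hf0⟩ heq
      have h1 : ∀ z ∈ Metric.ball (0:ℂ) 1, f (Phi 1 z) = Complex.exp (-1) * f z := by
        intro z hz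
        have h2 := congrFun heq z
        rw [Set.indicator_of_mem hz] at h2
        simpa using h2
      obtain ⟨c, hc⟩ := kernel hf h1
      refine ⟨fun _ => c, ?_⟩
      funext z
      simp only [Finset.univ_unique, Finset.sum_singleton, Pi.smul_apply, smul_eq_mul]
      by_cases hz : z ∈ Metric.ball (0:ℂ) 1
      · rw [Set.indicator_of_mem hz, hc z hz]
      · rw [Set.indicator_of_notMem hz, hf0 z hz, mul_zero]
    · refine ⟨0, Fin.elim0, ?_⟩
      rintro g ⟨hg, hg0⟩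
      obtain ⟨f, hf, hfg⟩ := surj hg
      refine ⟨Fin.elim0, (Metric.ball (0:ℂ) 1).indicator f,
        ⟨hind f hf, fun z hz => Set.indicator_of_notMem hz f⟩, ?_⟩
      funext z
      simp only [Finset.univ_eq_empty, Finset.sum_empty, add_zero, Pi.sub_apply, Pi.smul_apply,
        smul_eq_mul]
      by_cases hz : z ∈ Metric.ball (0:ℂ) 1
      · rw [Set.indicator_of_mem hz, Set.indicator_of_mem hz, Function.comp_apply,
          Set.indicator_of_mem (hmaps hz), hfg z hz]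
      · rw [Set.indicator_of_notMem hz, Set.indicator_of_notMem hz, hg0 z hz]
        simp
  have hbij := hiff.mpr hF
  -- `0` has two preimages
  have hzero : (0 : ℂ → ℂ) ∈
      ({f | InH f ∧ ∀ z : ℂ, z ∉ Metric.ball (0:ℂ) 1 → f z = 0} : Set (ℂ → ℂ)) := by
    refine ⟨?_, fun z _ => rfl⟩
    have h1 := eigen_InH.const_mul 0
    exact h1.congr (fun z _ => by simp)
  obtain ⟨f₀, _, huniq⟩ := hbij 0 hzero
  have e1 := huniq 0 ⟨hzero, by
    funext z
    by_cases hz : z ∈ Metric.ball (0:ℂ) 1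
    · simp [Set.indicator_of_mem hz]
    · simp [Set.indicator_of_notMem hz]⟩
  have e2 := huniq ((Metric.ball (0:ℂ) 1).indicator (fun z => Complex.exp (-W z)))
    ⟨⟨hind _ eigen_InH, fun z hz => Set.indicator_of_notMem hz _⟩, by
      funext z
      simp only [Pi.sub_apply, Pi.smul_apply, smul_eq_mul, Pi.zero_apply]
      by_cases hz : z ∈ Metric.ball (0:ℂ) 1
      · rw [Set.indicator_of_mem hz, Set.indicator_of_mem hz, Function.comp_apply,
          Set.indicator_of_mem (hmaps hz), W_Phi one_mem_Sc hz, ← Complex.exp_add, sub_eq_zero]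
        congr 1
        ring
      · rw [Set.indicator_of_notMem hz, Set.indicator_of_notMem hz]
        simp⟩
  have e3 := congrFun (e2.trans e1.symm) 0
  rw [Set.indicator_of_mem (Metric.mem_ball_self one_pos)] at e3
  exact Complex.exp_ne_zero _ e3

end Pool.Agent.S04558
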