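import Pool.Statements.S04793
import Pool.Agent.Lib.MP_5d8c24_an.Final

set_option autoImplicit false
open MeasureTheory
open Pool Pool.MP_5d8c24_an

namespace Pool.Agent.S04793

/-- For a comeager set of measure-preserving automorphisms T (weak topology) of an atomless standard probability space, every T-invariant sub-σ-algebra containing a set of measure strictly between 0 and 1 contains a strictly smaller such one. -/
theorem result :
    ∀ (α : Type) (mα : MeasurableSpace α) (_ : StandardBorelSpace α) (μ : Measure α),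
      IsProbabilityMeasure μ → NoAtoms μ →
      Filter.Eventually
        (fun T : {e : α ≃ᵐ α // MeasurePreserving e.toFun μ μ} =>
          ∀ F : MeasurableSpace α, F ≤ mα →
            (∀ s, MeasurableSet[F] s →
              (∃ t, MeasurableSet[F] t ∧ μ (symmDiff (Set.preimage T.1.toFun s) t) = 0) ∧
              (∃ t, MeasurableSet[F] t ∧ μ (symmDiff (Set.preimage T.1.invFun s) t) = 0)) →
            (∃ s, MeasurableSet[F] s ∧ 0 < μ s ∧ μ s < 1) →
            ∃ G : MeasurableSpace α, G ≤ F ∧
              (∀ s, MeasurableSet[G] s →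
                (∃ t, MeasurableSet[G] t ∧ μ (symmDiff (Set.preimage T.1.toFun s) t) = 0) ∧
                (∃ t, MeasurableSet[G] t ∧ μ (symmDiff (Set.preimage T.1.invFun s) t) = 0)) ∧
              (∃ s, MeasurableSet[G] s ∧ 0 < μ s ∧ μ s < 1) ∧
              ∃ s, MeasurableSet[F] s ∧ ∀ t, MeasurableSet[G] t → μ (symmDiff s t) ≠ 0)
        (@residual {e : α ≃ᵐ α // MeasurePreserving e.toFun μ μ}
          (⨅ (A : Set α) (B : Set α) (_ : MeasurableSet A) (_ : MeasurableSet B),
            TopologicalSpace.induced
              (fun T : {e : α ≃ᵐ α // MeasurePreserving e.toFun μ μ} =>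
                μ (symmDiff (Set.preimage T.1.toFun A) B))
              inferInstance)) := by
  intro α mα hstd μ hprob hatom
  have hatom' : NullSingletonClass μ := hatom
  refine Filter.Eventually.mono (Pool.Agent.Lib.MP_5d8c24_an.main_pred μ) ?_
  intro T hG F hF hinv hnt
  have hSA : @Pool.Agent.Lib.MP_5d8c24_an.SA α mα (fun s : Set α => MeasurableSet[F] s) :=
    @Pool.Agent.Lib.MP_5d8c24_an.SA.mk α mα _ F.measurableSet_empty F.measurableSet_compl
      F.measurableSet_iUnion (fun s hs => hF s hs)
  obtain ⟨N, hN, hNM, hNI, hN1, hN2⟩ := hG (fun s : Set α => MeasurableSet[F] s) hSA hinv hnt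
  exact ⟨@MeasurableSpace.mk α N (@Pool.Agent.Lib.MP_5d8c24_an.SA.empty α mα N hN)
    (@Pool.Agent.Lib.MP_5d8c24_an.SA.compl α mα N hN)
    (@Pool.Agent.Lib.MP_5d8c24_an.SA.iUnion α mα N hN), hNM, hNI, hN1, hN2⟩

end Pool.Agent.S04793
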