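import Pool.Statements.S05059
import Pool.Agent.Lib.MP_74947d_an.Final

set_option autoImplicit false
open Filter
open Pool Pool.MP_74947d_an

namespace Pool.Agent.S05059

/-- There is a non-polynomial entire function whose set of points with iterates tending to infinity is connected, while its complement contains a closed, connected, unbounded subset of the plane. -/
theorem result :
    ∃ f : ℂ → ℂ, Differentiable ℂ f ∧
      (¬ ∃ p : Polynomial ℂ, ∀ z : ℂ, f z = p.eval z) ∧
      IsConnected {z : ℂ | Tendsto (fun n : ℕ => f^[n] z) atTop (cocompact ℂ)} ∧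
      ∃ K : Set ℂ, IsClosed K ∧ IsConnected K ∧ ¬ Bornology.IsBounded K ∧
        K ⊆ {z : ℂ | Tendsto (fun n : ℕ => f^[n] z) atTop (cocompact ℂ)}ᶜ := by
  refine ⟨Pool.Agent.Lib.MP_74947d_an.f, Pool.Agent.Lib.MP_74947d_an.differentiable_f,
    Pool.Agent.Lib.MP_74947d_an.not_poly, ?_, ?_⟩
  · exact Pool.Agent.Lib.MP_74947d_an.isConnected_Esc
  · exact Pool.Agent.Lib.MP_74947d_an.exists_K

end Pool.Agent.S05059
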