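import Pool.Statements.S05064
import Pool.Agent.Lib.MP_74c692_an.MaxFinal
import Pool.Agent.Lib.MP_74c692_an.Arc

set_option autoImplicit false
open Pool Pool.MP_74c692_an

namespace Pool.Agent.S05064

open Pool.Agent.Lib.MP_74c692_an

lemma cA_bound_aux {w g : ℂ → ℂ} {C M : ℝ} (hw : ∀ s, ‖s‖ = 1 / 4 → ‖w s‖ ≤ C)
    (hg : ∀ z : ℂ, ‖z‖ ≤ 1 / 4 → ‖g z‖ ≤ M) : ‖cA (fun s => w s * g s)‖ ≤ C * M :=
  cA_norm_le fun s hs => norm_mul_le_of_le (hw s hs) (hg s hs.le)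

/-- The linear functional attached to a weight on the circle of radius `1/4`. -/
lemma exists_functional {w : ℂ → ℂ} (hw : ContinuousOn w (Metric.sphere 0 (1 / 4))) :
    ∃ L : (ℂ → ℂ) →ₗ[ℂ] ℂ, ∀ g : ℂ → ℂ, DifferentiableOn ℂ g (Metric.ball (0 : ℂ) 1) →
      L g = cA (fun s => w s * g s) := by
  let V : Submodule ℂ (ℂ → ℂ) :=
    { carrier := {g | DifferentiableOn ℂ g (Metric.ball (0 : ℂ) 1)}
      add_mem' := fun {a b} ha hb => DifferentiableOn.add ha hb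
      zero_mem' := differentiableOn_const 0
      smul_mem' := fun c a ha => DifferentiableOn.const_smul ha c }
  have hc : ∀ g ∈ V, ContinuousOn (fun s => w s * g s) (Metric.sphere 0 (1 / 4)) := by
    intro g hg
    have hg' : DifferentiableOn ℂ g (Metric.ball (0 : ℂ) 1) := hg
    exact hw.mul (hg'.continuousOn.mono sphere_sub)
  let L₀ : V →ₗ[ℂ] ℂ :=
    { toFun := fun g => cA (fun s => w s * (g : ℂ → ℂ) s)
      map_add' := fun a b => by
        rw [← cA_add (hc a a.2) (hc b b.2)]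
        exact cA_congr fun s _ => by
          rw [Submodule.coe_add, Pi.add_apply]; ring
      map_smul' := fun c a => by
        rw [RingHom.id_apply, smul_eq_mul, ← cA_mul]
        exact cA_congr fun s _ => by
          rw [Submodule.coe_smul, Pi.smul_apply, smul_eq_mul]; ring }
  obtain ⟨L, hL⟩ := LinearMap.exists_extend L₀
  refine ⟨L, fun g hg => ?_⟩
  have := LinearMap.congr_fun hL ⟨g, hg⟩
  simpa [L₀] using this

/-- The negation of the preceding statement: For every support point f of the normalized univalent class S, and any regular parametrization of the omitted arc running out to infinity, the angle arg(dw/w) along the arc is monotone and tends to 0. -/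
theorem result :
    ¬ (∀ f : ℂ → ℂ, DifferentiableOn ℂ f (Metric.ball (0 : ℂ) 1) → Set.InjOn f (Metric.ball (0 : ℂ) 1) →
    f 0 = 0 → deriv f 0 = 1 →
    (∃ L : (ℂ → ℂ) →ₗ[ℂ] ℂ, ∃ r : ℝ, ∃ C : ℝ, 0 ≤ r ∧ r < 1 ∧
      (∀ g : ℂ → ℂ, DifferentiableOn ℂ g (Metric.ball (0 : ℂ) 1) →
        ∀ M : ℝ, (∀ z : ℂ, ‖z‖ ≤ r → ‖g z‖ ≤ M) → ‖L g‖ ≤ C * M) ∧
      (∃ g h : ℂ → ℂ,
        (DifferentiableOn ℂ g (Metric.ball (0 : ℂ) 1) ∧ Set.InjOn g (Metric.ball (0 : ℂ) 1) ∧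
          g 0 = 0 ∧ deriv g 0 = 1) ∧
        (DifferentiableOn ℂ h (Metric.ball (0 : ℂ) 1) ∧ Set.InjOn h (Metric.ball (0 : ℂ) 1) ∧
          h 0 = 0 ∧ deriv h 0 = 1) ∧
        L g ≠ L h) ∧
      (∀ g : ℂ → ℂ,
        (DifferentiableOn ℂ g (Metric.ball (0 : ℂ) 1) ∧ Set.InjOn g (Metric.ball (0 : ℂ) 1) ∧
          g 0 = 0 ∧ deriv g 0 = 1) →
        (L g).re ≤ (L f).re)) →
    ∀ γ : ℝ → ℂ, ContinuousOn γ (Set.Ici 0) → Set.InjOn γ (Set.Ici 0) →
      γ '' Set.Ici 0 = (f '' Metric.ball (0 : ℂ) 1)ᶜ →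
      (∀ t : ℝ, 0 < t → DifferentiableAt ℝ γ t ∧ deriv γ t ≠ 0) →
      Filter.Tendsto (fun t : ℝ => ‖γ t‖) Filter.atTop Filter.atTop →
      (MonotoneOn (fun t : ℝ => Complex.arg (deriv γ t / γ t)) (Set.Ioi 0) ∨
        AntitoneOn (fun t : ℝ => Complex.arg (deriv γ t / γ t)) (Set.Ioi 0)) ∧
      Filter.Tendsto (fun t : ℝ => Complex.arg (deriv γ t / γ t)) Filter.atTop (nhds 0)) := by
  intro hmain
  -- the parameter
  set ε : ℝ := 1 / 1000000000 with hεdef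
  have hε : 0 < ε := by rw [hεdef]; norm_num
  have hε1 : 1000000000 * ε ≤ 1 := by rw [hεdef]; norm_num
  obtain ⟨K, y₁, y₂, h⟩ := exists_KData hε.le (by linarith : 2000 * ε ≤ 1)
  have hε2 : 100000 * ε ≤ 1 := by linarith
  -- the extremal function is in the class
  have hfd := h.ff_diff hε.le hε2
  have hfi := h.ff_inj hε.le hε2
  have hf0 := ff_zero K
  have hf1 := h.ff_deriv
  -- the functional
  have hww : ContinuousOn (ww ε K y₁ y₂) (Metric.sphere 0 (1 / 4)) := by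
    have hK := h.diff.continuousOn.mono sphere_sub
    unfold ww CC PP2 A4
    exact ContinuousOn.div (by fun_prop) (by fun_prop) fun s hs => pow_ne_zero _ (sphere_ne hs)
  obtain ⟨L, hL⟩ := exists_functional hww
  obtain ⟨C, hC⟩ := (isCompact_sphere (0 : ℂ) (1 / 4)).exists_bound_of_continuousOn hww
  -- extremality
  have key : ∀ g : ℂ → ℂ, DifferentiableOn ℂ g (Metric.ball (0 : ℂ) 1) →
      Set.InjOn g (Metric.ball (0 : ℂ) 1) → g 0 = 0 → deriv g 0 = 1 →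
      ∃ G : ℂ → ℂ, (∀ s, ‖s‖ < 1 → G s ^ 2 * g s = s) ∧ ∀ s₀ : ℂ, ‖s₀‖ = 1 / 4 →
        2 * ((L g).re - (L (ff K)).re) ≤ -7 * ‖G s₀ - K s₀‖ ^ 2 := by
    intro g hg hgi hg0 hg1
    obtain ⟨G, hGd, hG0, hGne, hGg, hGp, hGn⟩ := exists_Kg hg hgi hg0 hg1
    have hG : GData G := ⟨hGd, hG0, hGne, hGp, hGn⟩
    refine ⟨G, hGg, fun s₀ hs₀ => ?_⟩
    have h1 := h.maximal hε.le hε1 hG hs₀
    have h2 : cA (fun s => ww ε K y₁ y₂ s * (s / G s ^ 2)) = L g := by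
      rw [hL g hg]
      refine cA_congr fun s hs => ?_
      have hs1 : ‖s‖ < 1 := by rw [hs]; norm_num
      have e1 := hGg s hs1
      have e2 : s / G s ^ 2 = g s := by
        rw [div_eq_iff (pow_ne_zero 2 (hGne s hs1))]
        linear_combination -e1
      rw [e2]
    have h3 : cA (fun s => ww ε K y₁ y₂ s * ff K s) = L (ff K) := (hL _ hfd).symm
    rw [h2, h3, Complex.sub_re] at h1
    exact h1
  have hid : DifferentiableOn ℂ (fun z : ℂ => z) (Metric.ball (0 : ℂ) 1) := differentiableOn_id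
  have hidi : Set.InjOn (fun z : ℂ => z) (Metric.ball (0 : ℂ) 1) := fun _ _ _ _ h => h
  have hid1 : deriv (fun z : ℂ => z) 0 = 1 := deriv_id _
  have hne : L (fun z => z) ≠ L (ff K) := by
    intro heq
    obtain ⟨G, hGg, hG⟩ := key (fun z => z) hid hidi rfl hid1
    have hs : ‖((1 / 4 : ℝ) : ℂ)‖ = 1 / 4 := by
      rw [Complex.norm_real]; norm_num
    have h1 := hG _ hs
    rw [heq, sub_self, mul_zero] at h1
    have h2 : ‖G ((1 / 4 : ℝ) : ℂ) - K ((1 / 4 : ℝ) : ℂ)‖ = 0 := by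
      have := norm_nonneg (G ((1 / 4 : ℝ) : ℂ) - K ((1 / 4 : ℝ) : ℂ))
      nlinarith
    have h3 := sub_eq_zero.mp (norm_eq_zero.mp h2)
    have h4 := hGg _ (by rw [hs]; norm_num : ‖((1 / 4 : ℝ) : ℂ)‖ < 1)
    have h5 : G ((1 / 4 : ℝ) : ℂ) ^ 2 = 1 := by
      have h6 : ((1 / 4 : ℝ) : ℂ) ≠ 0 := by
        rw [← norm_pos_iff, hs]; norm_num
      exact mul_right_cancel₀ h6 (by rw [h4, one_mul])
    rw [h3] at h5
    have h6 := h.near ((1 / 4 : ℝ) : ℂ) (by rw [hs]; norm_num)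
    have h7 : ‖K ((1 / 4 : ℝ) : ℂ)‖ = 1 := by
      have h8 := congrArg norm h5
      rw [norm_pow, norm_one] at h8
      exact (pow_eq_one_iff_of_nonneg (norm_nonneg _) two_ne_zero).mp h8
    have h8 : ‖(1 : ℂ) - ((1 / 4 : ℝ) : ℂ)‖ = 3 / 4 := by
      rw [← Complex.ofReal_one, ← Complex.ofReal_sub, Complex.norm_real]; norm_num
    have h9 := norm_sub_norm_le (K ((1 / 4 : ℝ) : ℂ)) (1 - ((1 / 4 : ℝ) : ℂ))
    rw [h7, h8] at h9
    linarith
  have hsupp := hmain (ff K) hfd hfi hf0 hf1 ⟨L, 1 / 4, C, by norm_num, by norm_num,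
    fun g hg M hM => by
      rw [hL g hg]
      exact cA_bound_aux (fun s hs => hC s (by simpa using hs)) hM,
    ⟨fun z => z, ff K, ⟨hid, hidi, rfl, hid1⟩, ⟨hfd, hfi, hf0, hf1⟩, hne⟩,
    fun g hg => by
      obtain ⟨G, -, hG⟩ := key g hg.1 hg.2.1 hg.2.2.1 hg.2.2.2
      have hs : ‖((1 / 4 : ℝ) : ℂ)‖ = 1 / 4 := by
        rw [Complex.norm_real]; norm_num
      have h1 := hG _ hs
      have := sq_nonneg ‖G ((1 / 4 : ℝ) : ℂ) - K ((1 / 4 : ℝ) : ℂ)‖
      linarith⟩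
  obtain ⟨y₀, hy0, hy1, hcompl⟩ := h.compl_image hε.le hε2
  obtain ⟨γ, g1, g2, g3, g4, g5, g6⟩ := arc_contra hε (by linarith) hy0 hy1 hcompl
  exact g6 (hsupp γ g1 g2 g3 g4 g5)

end Pool.Agent.S05064
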