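import Pool.Statements.S05346
import Pool.Agent.Lib.MP_8d1505_an.Core

set_option autoImplicit false
open Pool Pool.MP_8d1505_an

namespace Pool.Agent.S05346

open Pool.Agent.Lib.MP_8d1505_an

/-- point masses in the dual ball -/
noncomputable def pointMass (l : L) : M :=
  ⟨StrongDual.toWeakDual (ContinuousMap.evalCLM ℝ l : C(L, ℝ) →L[ℝ] ℝ), by
    intro f hf
    have hf1 : ‖f‖ ≤ 1 := by simpa using hf
    exact (f.norm_coe_le_norm l).trans hf1⟩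

lemma numradius_T : sSup {r : ℝ | ∃ (z : C(K, ℝ)) (h : C(K, ℝ) →L[ℝ] ℝ),
    ‖z‖ = 1 ∧ ‖h‖ = 1 ∧ h z = 1 ∧ r = |h (T z)|} = 1 := by
  have h1 : ‖(1 : C(K, ℝ))‖ = 1 := norm_one
  apply IsGreatest.csSup_eq
  constructor
  · refine ⟨1, ContinuousMap.evalCLM ℝ (Sum.inr (pointMass (OnePoint.infty, OnePoint.infty))),
      h1, norm_eval _, by simp, ?_⟩
    have : T (1 : C(K, ℝ)) (Sum.inr (pointMass (OnePoint.infty, OnePoint.infty))) = 1 := by
      rw [T_inr]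
      rfl
    rw [ContinuousMap.evalCLM_apply, this, abs_one]
  · rintro r ⟨z, h, hz, hh, _, rfl⟩
    have e1 := h.le_opNorm (T z)
    have e2 := T.le_opNorm z
    rw [Real.norm_eq_abs, hh, one_mul] at e1
    rw [hz, mul_one] at e2
    exact e1.trans (e2.trans norm_T_le)

lemma le_of_numradius (S : C(K, ℝ) →L[ℝ] C(K, ℝ))
    (hS : sSup {r : ℝ | ∃ (z : C(K, ℝ)) (h : C(K, ℝ) →L[ℝ] ℝ),
      ‖z‖ = 1 ∧ ‖h‖ = 1 ∧ h z = 1 ∧ r = |h (S z)|} = 1)
    (z : C(K, ℝ)) (h : C(K, ℝ) →L[ℝ] ℝ) (hz : ‖z‖ = 1) (hh : ‖h‖ = 1) (hhz : h z = 1) :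
    |h (S z)| ≤ 1 := by
  refine le_trans ?_ hS.le
  apply le_csSup
  · refine ⟨‖S‖, ?_⟩
    rintro r ⟨z, h, hz, hh, _, rfl⟩
    have e1 := h.le_opNorm (S z)
    have e2 := S.le_opNorm z
    rw [Real.norm_eq_abs, hh, one_mul] at e1
    rw [hz, mul_one] at e2
    exact e1.trans e2
  · exact ⟨z, h, hz, hh, hhz, rfl⟩

/-- The negation of the preceding statement: For every compact Hausdorff K, real C(K) has the Bishop–Phelps–Bollobás property for numerical radius: operators of numerical radius 1 nearly attaining it at a state are ε-close to an operator attaining numerical radius 1 at an ε-close state. -/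
theorem result :
    ¬ (∀ (K : Type) [TopologicalSpace K] [CompactSpace K] [T2Space K],
      ∀ ε : ℝ, 0 < ε → ∃ η : ℝ, 0 < η ∧
        ∀ (T : C(K, ℝ) →L[ℝ] C(K, ℝ)) (x : C(K, ℝ)) (f : C(K, ℝ) →L[ℝ] ℝ),
          sSup {r : ℝ | ∃ (z : C(K, ℝ)) (h : C(K, ℝ) →L[ℝ] ℝ),
              ‖z‖ = 1 ∧ ‖h‖ = 1 ∧ h z = 1 ∧ r = |h (T z)|} = 1 →
          ‖x‖ = 1 → ‖f‖ = 1 → f x = 1 →
          1 - η < |f (T x)| →
          ∃ (S : C(K, ℝ) →L[ℝ] C(K, ℝ)) (y : C(K, ℝ)) (g : C(K, ℝ) →L[ℝ] ℝ),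
            sSup {r : ℝ | ∃ (z : C(K, ℝ)) (h : C(K, ℝ) →L[ℝ] ℝ),
                ‖z‖ = 1 ∧ ‖h‖ = 1 ∧ h z = 1 ∧ r = |h (S z)|} = 1 ∧
            ‖y‖ = 1 ∧ ‖g‖ = 1 ∧ g y = 1 ∧
            |g (S y)| = 1 ∧
            ‖x - y‖ < ε ∧ ‖f - g‖ < ε ∧ ‖T - S‖ < ε) := by
  intro H
  obtain ⟨η, hη, H⟩ := H K (1 / 10) (by norm_num)
  obtain ⟨n, hn⟩ := exists_nat_gt (2 / η)
  set m : ℕ := max n 18 with hm
  have hm18 : 18 ≤ m := le_max_right _ _
  have hmn : n ≤ m := le_max_left _ _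
  have hmη : 2 / η < m := lt_of_lt_of_le hn (by exact_mod_cast hmn)
  have hmpos : (0 : ℝ) < (m : ℝ) + 2 := by positivity
  have i₀ : Fin m := ⟨0, by omega⟩
  set σ₀ : M := conf m i₀ (fun _ => OnePoint.infty, OnePoint.infty) with hσ₀
  set f : C(K, ℝ) →L[ℝ] ℝ := ContinuousMap.evalCLM ℝ (Sum.inr σ₀) with hf
  have hT1 : T (1 : C(K, ℝ)) (Sum.inr σ₀) = m / (m + 2) := by
    rw [T_inr, hσ₀, conf_apply]
    have h1 : ∀ l : L, resL (1 : C(K, ℝ)) l = 1 := fun l => rfl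
    simp only [h1]
    rw [Finset.sum_const, Finset.card_univ, Fintype.card_fin, nsmul_eq_mul]
    field_simp
    ring
  have hfT : 1 - η < |f (T 1)| := by
    rw [hf, ContinuousMap.evalCLM_apply, hT1, abs_of_nonneg (by positivity), lt_div_iff₀ hmpos]
    rw [div_lt_iff₀ hη] at hmη
    nlinarith
  obtain ⟨S, y, g, hS, hy, hg, hgy, hgS, hxy, hfg, hTS⟩ :=
    H T 1 f numradius_T norm_one (norm_eval _) (by simp [hf]) hfT
  have hS1 : ∀ z : C(K, ℝ), ‖z‖ ≤ 1 → ∀ k, |S z k| ≤ 1 :=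
    le_one_of_numradius S (le_of_numradius S hS)
  have hSy : ‖S y‖ ≤ 1 := by
    rw [ContinuousMap.norm_le _ zero_le_one]
    exact hS1 y hy.le
  have hfg1 : ‖(ContinuousMap.evalCLM ℝ (Sum.inr σ₀) : C(K, ℝ) →L[ℝ] ℝ) - g‖ < 1 := by
    refine lt_trans hfg (by norm_num)
  have hclose : |T 1 (Sum.inr σ₀) - S y (Sum.inr σ₀)| ≤ 2 / 10 := by
    have h1 : T 1 - S y = T (1 - y) + (T - S) y := by
      rw [map_sub, _root_.sub_apply]; abel
    have h2 : ‖T 1 - S y‖ ≤ 2 / 10 := by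
      rw [h1]
      refine (norm_add_le _ _).trans ?_
      have e1 := T.le_opNorm (1 - y)
      have e2 := (T - S).le_opNorm y
      rw [hy, mul_one] at e2
      have e3 : ‖T‖ * ‖1 - y‖ ≤ 1 * (1 / 10) :=
        mul_le_mul norm_T_le hxy.le (norm_nonneg _) zero_le_one
      linarith
    have h3 := (T 1 - S y).norm_coe_le_norm (Sum.inr σ₀)
    rw [Real.norm_eq_abs, ContinuousMap.sub_apply] at h3
    exact h3.trans h2
  have hbig : (9 : ℝ) / 10 ≤ (m : ℝ) / (m + 2) := by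
    have : (18 : ℝ) ≤ m := by exact_mod_cast hm18
    rw [div_le_div_iff₀ (by norm_num) (by positivity)]
    linarith
  have hpeak : S y (Sum.inr σ₀) = 1 := by
    rcases (abs_eq (zero_le_one)).1 hgS with h1 | h1
    · exact peak (S y) hSy g hg.le h1 (Sum.inr σ₀) hfg1
    · exfalso
      have h2 := peak (-(S y)) (by rw [norm_neg]; exact hSy) g hg.le (by rw [map_neg, h1, neg_neg])
        (Sum.inr σ₀) hfg1
      rw [ContinuousMap.neg_apply] at h2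
      have h3 := (abs_le.1 hclose).2
      rw [hT1] at h3
      linarith
  exact core S y hS1 hy.le hxy.le hTS.le m hm18 i₀ hpeak

end Pool.Agent.S05346
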