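import Pool.Statements.S05795
import Pool.Agent.Lib.MP_ad5d82_an.h24.Z.Z4

set_option autoImplicit false
open Pool Pool.MP_ad5d82_an

namespace Pool.Agent.S05795

/-- For every finite-type Cartan matrix K of rank at least 2, every λ>0 and all vortex points, both the system with K and with its transpose have a distributional solution, smooth off the points, with every exp(u_a) tending to 0 at infinity. -/
theorem result :
  ∀ r : ℕ, 2 ≤ r → ∀ K : Matrix (Fin r) (Fin r) ℤ,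
    (∀ a, K a a = 2) → (∀ a b, a ≠ b → K a b ≤ 0) →
    (∃ d : Fin r → ℝ, (∀ a, 0 < d a) ∧
      (Matrix.of fun a b => d a * (K a b : ℝ)).PosDef) →
    ∀ lam : ℝ, 0 < lam → ∀ N : Fin r → ℕ, ∀ p : (a : Fin r) → Fin (N a) → ℝ × ℝ,
    ∀ M : Matrix (Fin r) (Fin r) ℤ, (M = K ∨ M = K.transpose) →
    ∃ u : Fin r → ℝ × ℝ → ℝ,
      (∀ a, ContDiffOn ℝ ((⊤ : ℕ∞) : WithTop ℕ∞) (u a)
          {x | ∀ (b : Fin r) (j : Fin (N b)), x ≠ p b j}) ∧
      (∀ a, MeasureTheory.LocallyIntegrable (u a) MeasureTheory.volume) ∧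
      (∀ a, MeasureTheory.LocallyIntegrable
          (fun x => ∑ b, ∑ c, (M a b : ℝ) * Real.exp (u b x) * (M b c : ℝ) * Real.exp (u c x)
              - ∑ b, (M a b : ℝ) * Real.exp (u b x)) MeasureTheory.volume) ∧
      (∀ a, ∀ φ : ℝ × ℝ → ℝ, ContDiff ℝ ((⊤ : ℕ∞) : WithTop ℕ∞) φ → HasCompactSupport φ →
        ∫ x, u a x * (iteratedFDeriv ℝ 2 φ x (![((1 : ℝ), (0 : ℝ)), ((1 : ℝ), (0 : ℝ))] : Fin 2 → ℝ × ℝ)
            + iteratedFDeriv ℝ 2 φ x (![((0 : ℝ), (1 : ℝ)), ((0 : ℝ), (1 : ℝ))] : Fin 2 → ℝ × ℝ)) =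
        (∫ x, lam * (∑ b, ∑ c, (M a b : ℝ) * Real.exp (u b x) * (M b c : ℝ) * Real.exp (u c x)
              - ∑ b, (M a b : ℝ) * Real.exp (u b x)) * φ x)
          + 4 * Real.pi * ∑ j : Fin (N a), φ (p a j)) ∧
      (∀ a, Filter.Tendsto (fun x => Real.exp (u a x)) (Filter.cocompact (ℝ × ℝ)) (nhds 0)) := by
  intro r _ K h1 h2 h3 lam hlam N p M hM
  have hK : Eig.IsFT K := ⟨h1, h2, h3⟩
  have hM' : Eig.IsFT M := by
    rcases hM with rfl | rfl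
    · exact hK
    · exact Pool.MP_ad5d82_an.Wl.ft_transpose hK
  obtain ⟨u, hu⟩ := Pool.MP_ad5d82_an.Wl.all_planar M hM' lam hlam N p
  exact ⟨u, hu.smooth, hu.li, hu.li', hu.eq, hu.lim⟩

end Pool.Agent.S05795
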