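import Pool.Statements.S05885
import Pool.Agent.Lib.MP_b608a7_an.Main

set_option autoImplicit false
open Pool Pool.MP_b608a7_an

namespace Pool.Agent.S05885

/-- For the Gauss-Kuzmin-Wirsing operator on functions continuous on ∣x-1∣≤3/2 and analytic inside, every nonzero eigenvalue has a generalized eigenspace of dimension at most one, and distinct nonzero eigenvalues have distinct absolute values. -/
theorem result :
    (∀ l : ℂ, l ≠ 0 → ∀ f g : ℂ → ℂ,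
      ContinuousOn f (Metric.closedBall (1 : ℂ) (3 / 2 : ℝ)) →
      DifferentiableOn ℂ f (Metric.ball (1 : ℂ) (3 / 2 : ℝ)) →
      ContinuousOn g (Metric.closedBall (1 : ℂ) (3 / 2 : ℝ)) →
      DifferentiableOn ℂ g (Metric.ball (1 : ℂ) (3 / 2 : ℝ)) →
      (∃ k : ℕ, ∀ x ∈ Metric.closedBall (1 : ℂ) (3 / 2 : ℝ),
        (fun h : ℂ → ℂ => fun y : ℂ =>
          (∑' m : ℕ, ((y + ((m : ℂ) + 1)) ^ 2)⁻¹ * h (1 / (y + ((m : ℂ) + 1)))) - l * h y)^[k] f x = 0) →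
      (∃ k : ℕ, ∀ x ∈ Metric.closedBall (1 : ℂ) (3 / 2 : ℝ),
        (fun h : ℂ → ℂ => fun y : ℂ =>
          (∑' m : ℕ, ((y + ((m : ℂ) + 1)) ^ 2)⁻¹ * h (1 / (y + ((m : ℂ) + 1)))) - l * h y)^[k] g x = 0) →
      ∃ c : ℂ, (∀ x ∈ Metric.closedBall (1 : ℂ) (3 / 2 : ℝ), f x = c * g x) ∨
               (∀ x ∈ Metric.closedBall (1 : ℂ) (3 / 2 : ℝ), g x = c * f x)) ∧
    (∀ l μ : ℂ, l ≠ 0 → μ ≠ 0 →
      (∃ f : ℂ → ℂ, ContinuousOn f (Metric.closedBall (1 : ℂ) (3 / 2 : ℝ)) ∧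
        DifferentiableOn ℂ f (Metric.ball (1 : ℂ) (3 / 2 : ℝ)) ∧
        (∃ x ∈ Metric.closedBall (1 : ℂ) (3 / 2 : ℝ), f x ≠ 0) ∧
        ∀ x ∈ Metric.closedBall (1 : ℂ) (3 / 2 : ℝ),
          (∑' m : ℕ, ((x + ((m : ℂ) + 1)) ^ 2)⁻¹ * f (1 / (x + ((m : ℂ) + 1)))) = l * f x) →
      (∃ g : ℂ → ℂ, ContinuousOn g (Metric.closedBall (1 : ℂ) (3 / 2 : ℝ)) ∧
        DifferentiableOn ℂ g (Metric.ball (1 : ℂ) (3 / 2 : ℝ)) ∧
        (∃ x ∈ Metric.closedBall (1 : ℂ) (3 / 2 : ℝ), g x ≠ 0) ∧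
        ∀ x ∈ Metric.closedBall (1 : ℂ) (3 / 2 : ℝ),
          (∑' m : ℕ, ((x + ((m : ℂ) + 1)) ^ 2)⁻¹ * g (1 / (x + ((m : ℂ) + 1)))) = μ * g x) →
      ‖l‖ = ‖μ‖ → l = μ) := by
  refine ⟨?_, ?_⟩
  · intro l hl f g hfc hfd hgc hgd hf hg
    exact Pool.Agent.GKW.part_one l hl f g hfc hfd hgc hgd hf hg
  · intro l μ hl hμ hf hg h
    exact Pool.Agent.GKW.part_two l μ hl hμ hf hg h

end Pool.Agent.S05885
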