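-- Proof of frozen statement S06745; the mathematics is in Pool/Agent/Lib/MP_f761d9_an/.
import Pool.Statements.S06745
import Pool.Agent.Lib.MP_f761d9_an.Main

set_option autoImplicit false
open Pool Pool.MP_f761d9_an

namespace Pool.Agent.S06745

/-- Every separable infinite-dimensional real Banach space with a C^∞ function of nonempty bounded support is linearly homeomorphic to the kernel of each nonzero continuous linear functional, i.e. to its closed hyperplanes. -/
theorem result :
    ∀ (X : Type) [NormedAddCommGroup X] [NormedSpace ℝ X] [CompleteSpace X],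
      TopologicalSpace.SeparableSpace X →
      ¬ FiniteDimensional ℝ X →
      (∃ f : X → ℝ, ContDiff ℝ ((⊤ : ℕ∞) : WithTop ℕ∞) f ∧
          (Function.support f).Nonempty ∧ Bornology.IsBounded (Function.support f)) →
      ∀ φ : X →L[ℝ] ℝ, φ ≠ 0 →
        Nonempty (X ≃L[ℝ] ↥(LinearMap.ker φ.toLinearMap)) := by
  intro X _ _ _ hsep hinf ⟨f, hf, hne, hbd⟩ φ hφ
  exact Pool.Agent.Lib.MP_f761d9_an.equiv_ker_of_bump hinf f hf hne hbd φ hφ

end Pool.Agent.S06745
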