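import Pool.Statements.S06909
import Pool.Agent.Lib.MP_02973f_co.Shape

set_option autoImplicit false
open Pool Pool.MP_02973f_co

namespace Pool.Agent.S06909

/-- For r≥2 and any tight r-tree T on ℓ vertices, for all large n every r-uniform hypergraph on n vertices containing no copy of T has at most (ℓ−r)/r · C(n, r−1) edges. -/
theorem result :
    ∀ r : ℕ, 2 ≤ r → ∀ ℓ m : ℕ, ∀ e : ℕ → Finset (Fin ℓ),
      0 < m →
      (e 0).card = r →
      (∀ i : ℕ, 0 < i → i < m →
        ∃ j : ℕ, j < i ∧ ∃ S : Finset (Fin ℓ), S ⊆ e j ∧ S.card = r - 1 ∧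
          ∃ v : Fin ℓ, v ∉ (Finset.range i).biUnion e ∧ e i = insert v S) →
      (Finset.range m).biUnion e = Finset.univ →
      ∃ N : ℕ, ∀ n : ℕ, N ≤ n →
        ∀ H : Finset (Finset (Fin n)),
          (∀ E ∈ H, E.card = r) →
          (¬ ∃ f : Fin ℓ ↪ Fin n, ∀ i : ℕ, i < m → (e i).map f ∈ H) →
          (H.card : ℝ) ≤ (((ℓ : ℝ) - (r : ℝ)) / (r : ℝ)) * ((n.choose (r - 1) : ℕ) : ℝ) := by
  intro r hr ℓ m e hm he0 he hcov
  obtain ⟨m, rfl⟩ : ∃ m', m = m' + 1 := ⟨m - 1, by omega⟩
  -- the root edge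
  have hroot : ∃ a : Fin r → Fin ℓ, Function.Injective a ∧ Finset.univ.image a = e 0 := by
    refine ⟨fun i => (e 0).orderEmbOfFin he0 i, ?_, ?_⟩
    · exact ((e 0).orderEmbOfFin he0).injective
    · ext w
      simp only [Finset.mem_image, Finset.mem_univ, true_and]
      rw [← Finset.mem_coe, ← Finset.range_orderEmbOfFin (e 0) he0, Set.mem_range]
  obtain ⟨a, ha, ha0⟩ := hroot
  obtain ⟨T, N, hT, hR, hN⟩ := Lib.MP_02973f_co.exists_shape e a ha ha0 m (by
    intro i hi hi'
    obtain ⟨j, hj, S, hS, hSr, v, hv, hev⟩ := he i hi hi'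
    exact ⟨j, hj, S, hS, by omega, v, hv, hev⟩)
  have hcard : ℓ = r + m := by
    have h1 := Lib.MP_02973f_co.Rz_card T a N _ hR
    have h2 := Lib.MP_02973f_co.Rz_disjoint hR
    have h3 : (Finset.univ.image a ∪ N).card = ℓ := by
      rw [← hN, hcov, Finset.card_univ, Fintype.card_fin]
    rw [Finset.card_union_of_disjoint h2.symm, Finset.card_image_of_injective _ ha,
      Finset.card_univ, Fintype.card_fin] at h3
    omega
  refine ⟨0, fun n _ H hH hfree => ?_⟩
  by_cases hn : r ≤ n
  · have key := Lib.MP_02973f_co.kalai_shape H (by omega : 0 < r) hH T a N _ hR ha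
      (by rw [Fintype.card_fin]; exact hn) (by
        rintro ⟨f, hf, hfE⟩
        apply hfree
        rw [← hN, hcov, Finset.coe_univ, Set.injOn_univ] at hf
        refine ⟨⟨f, hf⟩, fun i hi => ?_⟩
        have := hfE (e i) (Finset.mem_image_of_mem _ (Finset.mem_range.mpr hi))
        rw [Finset.map_eq_image]
        exact this)
    rw [hT, Fintype.card_fin] at key
    have hr' : (0 : ℝ) < r := by
      have : 0 < r := by omega
      exact_mod_cast this
    rw [hcard]
    push_cast at key ⊢
    rw [div_mul_eq_mul_div, le_div_iff₀ hr']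
    linarith
  · have hH0 : H = ∅ := by
      rw [Finset.eq_empty_iff_forall_notMem]
      intro E hE
      have h1 := hH E hE
      have h2 : E.card ≤ n := by simpa using Finset.card_le_univ E
      omega
    rw [hH0, hcard]
    simp only [Finset.card_empty, Nat.cast_zero]
    have : (0 : ℝ) ≤ (((r + m : ℕ) : ℝ) - r) / r := by
      apply div_nonneg
      · push_cast; linarith [Nat.cast_nonneg (α := ℝ) m]
      · exact Nat.cast_nonneg _
    positivity

end Pool.Agent.S06909
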