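import Pool.Statements.S07966

set_option autoImplicit false
open Pool Pool.MP_31d2fb_co

namespace Pool.Agent.S07966

/-- first end of each edge of the truncated Petersen graph -/
def sA : List (Fin 30) :=
  [0, 4, 7, 10, 13, 2, 5, 8, 11, 14, 16, 19, 23, 26, 29, 0, 1, 2, 3, 4, 5, 6, 7, 8, 9, 10, 11, 12,
   13, 14, 15, 16, 17, 18, 19, 20, 21, 22, 23, 24, 25, 26, 27, 28, 29]

/-- second end of each edge of the truncated Petersen graph -/
def tA : List (Fin 30) :=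
  [3, 6, 9, 12, 1, 15, 18, 21, 24, 27, 22, 25, 28, 17, 20, 1, 2, 0, 4, 5, 3, 7, 8, 6, 10, 11, 9,
   13, 14, 12, 16, 17, 15, 19, 20, 18, 22, 23, 21, 25, 26, 24, 28, 29, 27]

def s (e : Fin 45) : Fin 30 := sA.getD e.val 0
def t (e : Fin 45) : Fin 30 := tA.getD e.val 0

/-- a flow value (as a number below 8) for each edge -/
def fA : List ℕ :=
  [1, 2, 1, 2, 4, 5, 3, 3, 3, 6, 1, 7, 2, 4, 4, 5, 1, 4, 3, 1, 2, 3, 2, 1, 3, 1, 2, 6, 2, 4, 4, 5,
   1, 4, 3, 7, 2, 3, 1, 4, 3, 7, 4, 6, 2]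

def f (e : Fin 45) : Fin 3 → ZMod 2 :=
  fun i => if (fA.getD e.val 0).testBit i.val then 1 else 0

/-- the three edges at each vertex -/
def incA : List (Fin 45 × Fin 45 × Fin 45) :=
  [(0, 15, 17), (4, 15, 16), (5, 16, 17), (0, 18, 20), (1, 18, 19), (6, 19, 20), (1, 21, 23),
   (2, 21, 22), (7, 22, 23), (2, 24, 26), (3, 24, 25), (8, 25, 26), (3, 27, 29), (4, 27, 28),
   (9, 28, 29), (5, 30, 32), (10, 30, 31), (13, 31, 32), (6, 33, 35), (11, 33, 34), (14, 34, 35),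
   (7, 36, 38), (10, 36, 37), (12, 37, 38), (8, 39, 41), (11, 39, 40), (13, 40, 41), (9, 42, 44),
   (12, 42, 43), (14, 43, 44)]

def inc (v : Fin 30) : Fin 45 × Fin 45 × Fin 45 := incA.getD v.val (0, 0, 0)

set_option maxRecDepth 100000

theorem hloop : ∀ e, s e ≠ t e := by decide +kernel

theorem hinc : ∀ v : Fin 30, (Finset.univ.filter (fun e : Fin 45 => s e = v ∨ t e = v)) =
    {(inc v).1, (inc v).2.1, (inc v).2.2} := by decide +kernel

theorem hdist : ∀ v : Fin 30, (inc v).1 ≠ (inc v).2.1 ∧ (inc v).1 ≠ (inc v).2.2 ∧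
    (inc v).2.1 ≠ (inc v).2.2 := by decide +kernel

theorem hcubic : ∀ v : Fin 30,
    (Finset.univ.filter (fun e : Fin 45 => s e = v ∨ t e = v)).card = 3 := by decide +kernel

theorem hf0 : ∀ e, f e ≠ 0 := by decide +kernel

theorem hfsum : ∀ v : Fin 30,
    ∑ e ∈ Finset.univ.filter (fun e : Fin 45 => s e = v ∨ t e = v), f e = 0 := by decide +kernel

theorem hlines : ((Finset.univ : Finset (Fin 30)).image
    (fun v : Fin 30 => (Finset.univ.filter (fun e : Fin 45 => s e = v ∨ t e = v)).image f)).card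
      ≤ 5 := by decide +kernel

/-- the ten triangles -/
def C0 : Finset (Fin 45) := Finset.univ.filter (fun e => 15 ≤ e.val)

theorem hC0 : ∀ v : Fin 30, (C0.filter (fun e : Fin 45 => s e = v ∨ t e = v)).card = 2 := by
  decide +kernel

/-- indicator in `ZMod 2` -/
def ind (C : Finset (Fin 45)) (e : Fin 45) : ZMod 2 := if e ∈ C then 1 else 0

theorem ind_sum (C : Finset (Fin 45)) (v : Fin 30)
    (h : Even (C.filter (fun e : Fin 45 => s e = v ∨ t e = v)).card) :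
    ind C (inc v).1 + ind C (inc v).2.1 + ind C (inc v).2.2 = 0 := by
  have h1 : ((C.filter (fun e : Fin 45 => s e = v ∨ t e = v)).card : ZMod 2) = 0 := by
    rw [ZMod.natCast_eq_zero_iff_even]; exact h
  have h2 : C.filter (fun e : Fin 45 => s e = v ∨ t e = v) =
      (Finset.univ.filter (fun e : Fin 45 => s e = v ∨ t e = v)).filter (· ∈ C) := by
    ext e; simp [and_comm]
  rw [h2, hinc v, Finset.card_filter] at h1
  push_cast at h1
  obtain ⟨h3, h4, h5⟩ := hdist v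
  rw [Finset.sum_insert (by simp [h3, h4]), Finset.sum_insert (by simp [h5]),
    Finset.sum_singleton] at h1
  simpa [ind, add_assoc] using h1

theorem tri (a b c x y z : ZMod 2) (h1 : a + x + z = 0) (h2 : b + x + y = 0)
    (h3 : c + y + z = 0) : a + b + c = 0 := by
  revert a b c x y z; decide

/-- An even subgraph of the truncated graph, restricted to the edges of the Petersen graph,
is even there. -/
theorem petersen_even (C : Finset (Fin 45))
    (h : ∀ v : Fin 30, Even (C.filter (fun e : Fin 45 => s e = v ∨ t e = v)).card) :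
    (ind C 0 + ind C 4 + ind C 5 = 0) ∧ (ind C 0 + ind C 1 + ind C 6 = 0) ∧
    (ind C 1 + ind C 2 + ind C 7 = 0) ∧ (ind C 2 + ind C 3 + ind C 8 = 0) ∧
    (ind C 3 + ind C 4 + ind C 9 = 0) ∧ (ind C 5 + ind C 10 + ind C 13 = 0) ∧
    (ind C 6 + ind C 11 + ind C 14 = 0) ∧ (ind C 7 + ind C 10 + ind C 12 = 0) ∧
    (ind C 8 + ind C 11 + ind C 13 = 0) ∧ (ind C 9 + ind C 12 + ind C 14 = 0) := by
  refine ⟨?_, ?_, ?_, ?_, ?_, ?_, ?_, ?_, ?_, ?_⟩
  · exact tri _ _ _ _ _ _ (ind_sum C 0 (h 0)) (ind_sum C 1 (h 1)) (ind_sum C 2 (h 2))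
  · exact tri _ _ _ _ _ _ (ind_sum C 3 (h 3)) (ind_sum C 4 (h 4)) (ind_sum C 5 (h 5))
  · exact tri _ _ _ _ _ _ (ind_sum C 6 (h 6)) (ind_sum C 7 (h 7)) (ind_sum C 8 (h 8))
  · exact tri _ _ _ _ _ _ (ind_sum C 9 (h 9)) (ind_sum C 10 (h 10)) (ind_sum C 11 (h 11))
  · exact tri _ _ _ _ _ _ (ind_sum C 12 (h 12)) (ind_sum C 13 (h 13)) (ind_sum C 14 (h 14))
  · exact tri _ _ _ _ _ _ (ind_sum C 15 (h 15)) (ind_sum C 16 (h 16)) (ind_sum C 17 (h 17))
  · exact tri _ _ _ _ _ _ (ind_sum C 18 (h 18)) (ind_sum C 19 (h 19)) (ind_sum C 20 (h 20))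
  · exact tri _ _ _ _ _ _ (ind_sum C 21 (h 21)) (ind_sum C 22 (h 22)) (ind_sum C 23 (h 23))
  · exact tri _ _ _ _ _ _ (ind_sum C 24 (h 24)) (ind_sum C 25 (h 25)) (ind_sum C 26 (h 26))
  · exact tri _ _ _ _ _ _ (ind_sum C 27 (h 27)) (ind_sum C 28 (h 28)) (ind_sum C 29 (h 29))

theorem zmod2_eq (a b c : ZMod 2) (h : a + b + c = 0) : c = a + b := by
  revert a b c; decide

set_option synthInstance.maxSize 100000 in
/-- The Petersen graph is not the union of two even subgraphs (coordinates of the cycle space). -/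
theorem petersen_check : ∀ x0 x1 x2 x3 x4 x10 y0 y1 y2 y3 y4 y10 : ZMod 2,
    ¬ ((x0 = 1 ∨ y0 = 1) ∧ (x1 = 1 ∨ y1 = 1) ∧ (x2 = 1 ∨ y2 = 1) ∧ (x3 = 1 ∨ y3 = 1) ∧
      (x4 = 1 ∨ y4 = 1) ∧ (x0 + x4 = 1 ∨ y0 + y4 = 1) ∧ (x0 + x1 = 1 ∨ y0 + y1 = 1) ∧
      (x1 + x2 = 1 ∨ y1 + y2 = 1) ∧ (x2 + x3 = 1 ∨ y2 + y3 = 1) ∧ (x3 + x4 = 1 ∨ y3 + y4 = 1) ∧
      (x10 = 1 ∨ y10 = 1) ∧ (x0 + x4 + x10 = 1 ∨ y0 + y4 + y10 = 1) ∧
      (x1 + x2 + x10 = 1 ∨ y1 + y2 + y10 = 1) ∧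
      (x2 + x3 + (x0 + x4 + x10) = 1 ∨ y2 + y3 + (y0 + y4 + y10) = 1) ∧
      (x0 + x1 + (x2 + x3 + (x0 + x4 + x10)) = 1 ∨
        y0 + y1 + (y2 + y3 + (y0 + y4 + y10)) = 1)) := by
  decide +kernel

theorem ind_eq_one (C : Finset (Fin 45)) (e : Fin 45) : ind C e = 1 ↔ e ∈ C := by
  unfold ind; split_ifs with h <;> simp [h]

/-- The negation of the preceding statement: For every finite loopless cubic multigraph with a nowhere-zero Z2^3 flow using at most 5 distinct vertex lines, every 2-factor C0 extends by a second 2-factor C1 and an even subgraph C2 so that C0, C1, C2 together cover all edges. -/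
theorem result :
    ¬ (∀ (n m : ℕ) (s t : Fin m → Fin n), (∀ e, s e ≠ t e) →
      (∀ v : Fin n, (Finset.univ.filter (fun e : Fin m => s e = v ∨ t e = v)).card = 3) →
      (∃ f : Fin m → (Fin 3 → ZMod 2), (∀ e, f e ≠ 0) ∧
        (∀ v : Fin n, ∑ e ∈ Finset.univ.filter (fun e : Fin m => s e = v ∨ t e = v), f e = 0) ∧
        ((Finset.univ : Finset (Fin n)).image
          (fun v : Fin n => (Finset.univ.filter (fun e : Fin m => s e = v ∨ t e = v)).image f)).card ≤ 5) →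
      ∀ C0 : Finset (Fin m),
        (∀ v : Fin n, (C0.filter (fun e : Fin m => s e = v ∨ t e = v)).card = 2) →
        ∃ C1 C2 : Finset (Fin m),
          (∀ v : Fin n, (C1.filter (fun e : Fin m => s e = v ∨ t e = v)).card = 2) ∧
          (∀ v : Fin n, Even (C2.filter (fun e : Fin m => s e = v ∨ t e = v)).card) ∧
          C0 ∪ C1 ∪ C2 = Finset.univ) := by
  intro H
  obtain ⟨C1, C2, h1, h2, h3⟩ := H 30 45 s t hloop hcubic ⟨f, hf0, hfsum, hlines⟩ C0 hC0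
  have h1' : ∀ v : Fin 30, Even (C1.filter (fun e : Fin 45 => s e = v ∨ t e = v)).card := by
    intro v; rw [h1 v]; exact even_two
  have hcov : ∀ e : Fin 45, e.val < 15 → (ind C1 e = 1 ∨ ind C2 e = 1) := by
    intro e he
    have : e ∈ C0 ∪ C1 ∪ C2 := by rw [h3]; exact Finset.mem_univ _
    rw [Finset.mem_union, Finset.mem_union] at this
    rw [ind_eq_one, ind_eq_one]
    rcases this with (h | h) | h
    · exfalso
      rw [C0, Finset.mem_filter] at h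
      omega
    · exact Or.inl h
    · exact Or.inr h
  obtain ⟨a0, a1, a2, a3, a4, a5, a6, a7, a8, -⟩ := petersen_even C1 h1'
  obtain ⟨b0, b1, b2, b3, b4, b5, b6, b7, b8, -⟩ := petersen_even C2 h2
  have a5' := zmod2_eq _ _ _ a5
  have b5' := zmod2_eq _ _ _ b5
  have e5 := zmod2_eq _ _ _ a0
  have e6 := zmod2_eq _ _ _ a1
  have e7 := zmod2_eq _ _ _ a2
  have e8 := zmod2_eq _ _ _ a3
  have e9 := zmod2_eq _ _ _ a4
  have g5 := zmod2_eq _ _ _ b0
  have g6 := zmod2_eq _ _ _ b1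
  have g7 := zmod2_eq _ _ _ b2
  have g8 := zmod2_eq _ _ _ b3
  have g9 := zmod2_eq _ _ _ b4
  have e12 := zmod2_eq _ _ _ a7
  have g12 := zmod2_eq _ _ _ b7
  have e11 := zmod2_eq (ind C1 8) (ind C1 13) (ind C1 11) (by rw [← a8]; ring)
  have g11 := zmod2_eq (ind C2 8) (ind C2 13) (ind C2 11) (by rw [← b8]; ring)
  have e14 := zmod2_eq _ _ _ a6
  have g14 := zmod2_eq _ _ _ b6
  refine petersen_check (ind C1 0) (ind C1 1) (ind C1 2) (ind C1 3) (ind C1 4) (ind C1 10)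
    (ind C2 0) (ind C2 1) (ind C2 2) (ind C2 3) (ind C2 4) (ind C2 10)
    ⟨hcov 0 (by decide), hcov 1 (by decide), hcov 2 (by decide), hcov 3 (by decide),
      hcov 4 (by decide), ?_, ?_, ?_, ?_, ?_, hcov 10 (by decide), ?_, ?_, ?_, ?_⟩
  · rw [← e5, ← g5]; exact hcov 5 (by decide)
  · rw [← e6, ← g6]; exact hcov 6 (by decide)
  · rw [← e7, ← g7]; exact hcov 7 (by decide)
  · rw [← e8, ← g8]; exact hcov 8 (by decide)
  · rw [← e9, ← g9]; exact hcov 9 (by decide)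
  · rw [← e5, ← g5, ← a5', ← b5']; exact hcov 13 (by decide)
  · rw [← e7, ← g7, ← e12, ← g12]; exact hcov 12 (by decide)
  · rw [← e5, ← g5, ← e8, ← g8, ← a5', ← b5', ← e11, ← g11]; exact hcov 11 (by decide)
  · rw [← e5, ← g5, ← e8, ← g8, ← a5', ← b5', ← e11, ← g11, ← e6, ← g6, ← e14, ← g14]
    exact hcov 14 (by decide)

end Pool.Agent.S07966
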