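import Pool.Statements.S08052
import Pool.Agent.Lib.MP_350a38_co.Chi

set_option autoImplicit false
open Pool Pool.MP_350a38_co

namespace Pool.Agent.S08052

open Pool.Agent.Lib.MP_350a38_co

/-- A triple whose flip keeps the exchange condition has adjacent crossings on each of its three lines. -/
theorem adj_of_flip {i j k x a b : Fin 64} (hset : ({x, a, b} : Finset (Fin 64)) = {i, j, k})
    (hxa : x ≠ a) (hxb : x ≠ b) (hab : a ≠ b)
    (hflip : ∀ x a b c d : Fin 64, [x, a, b, c, d].Nodup →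
      ¬ ((if ({x, a, b} : Finset (Fin 64)) = {i, j, k} then -X x.1 a.1 b.1 else X x.1 a.1 b.1) *
          (if ({x, c, d} : Finset (Fin 64)) = {i, j, k} then -X x.1 c.1 d.1 else X x.1 c.1 d.1) =
          -((if ({x, a, c} : Finset (Fin 64)) = {i, j, k} then -X x.1 a.1 c.1 else X x.1 a.1 c.1) *
            (if ({x, b, d} : Finset (Fin 64)) = {i, j, k} then -X x.1 b.1 d.1 else X x.1 b.1 d.1)) ∧
         -((if ({x, a, c} : Finset (Fin 64)) = {i, j, k} then -X x.1 a.1 c.1 else X x.1 a.1 c.1) *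
            (if ({x, b, d} : Finset (Fin 64)) = {i, j, k} then -X x.1 b.1 d.1 else X x.1 b.1 d.1)) =
          (if ({x, a, d} : Finset (Fin 64)) = {i, j, k} then -X x.1 a.1 d.1 else X x.1 a.1 d.1) *
            (if ({x, b, c} : Finset (Fin 64)) = {i, j, k} then -X x.1 b.1 c.1 else X x.1 b.1 c.1))) :
    Adj (pos x.1 a.1) (pos x.1 b.1) := by
  have v1 : x.1 ≠ a.1 := fun h => hxa (Fin.ext h)
  have v2 : x.1 ≠ b.1 := fun h => hxb (Fin.ext h)
  have v3 : a.1 ≠ b.1 := fun h => hab (Fin.ext h)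
  refine adj_of x.2 a.2 b.2 v1 v2 v3 ?_
  intro l m hl hm hlx hla hlb hmx hma hmb hlm
  obtain ⟨L, rfl⟩ : ∃ L : Fin 64, L.1 = l := ⟨⟨l, hl⟩, rfl⟩
  obtain ⟨M, rfl⟩ : ∃ M : Fin 64, M.1 = m := ⟨⟨m, hm⟩, rfl⟩
  have w1 : L ≠ x := fun h => hlx (by rw [h])
  have w2 : L ≠ a := fun h => hla (by rw [h])
  have w3 : L ≠ b := fun h => hlb (by rw [h])
  have w4 : M ≠ x := fun h => hmx (by rw [h])
  have w5 : M ≠ a := fun h => hma (by rw [h])
  have w6 : M ≠ b := fun h => hmb (by rw [h])
  have w7 : L ≠ M := fun h => hlm (by rw [h])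
  have hL : ∀ s t : Fin 64, ¬ (({s, t, L} : Finset (Fin 64)) = {i, j, k}) := by
    intro s t h
    have : L ∈ ({s, t, L} : Finset (Fin 64)) := by simp
    rw [h, ← hset] at this
    simp only [Finset.mem_insert, Finset.mem_singleton] at this
    rcases this with h | h | h
    · exact w1 h
    · exact w2 h
    · exact w3 h
  have hM : ∀ s t : Fin 64, ¬ (({s, t, M} : Finset (Fin 64)) = {i, j, k}) := by
    intro s t h
    have : M ∈ ({s, t, M} : Finset (Fin 64)) := by simp
    rw [h, ← hset] at this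
    simp only [Finset.mem_insert, Finset.mem_singleton] at this
    rcases this with h | h | h
    · exact w4 h
    · exact w5 h
    · exact w6 h
  have hf := hflip x a b L M (by
    simp only [List.nodup_cons, List.mem_cons, List.not_mem_nil, or_false, not_or,
      List.nodup_nil, not_false_eq_true, and_true]
    exact ⟨⟨hxa, hxb, w1.symm, w4.symm⟩, ⟨hab, w2.symm, w5.symm⟩, ⟨w3.symm, w6.symm⟩, w7⟩)
  rw [if_pos hset, if_neg (hM x L), if_neg (hL x a), if_neg (hM x b), if_neg (hM x a),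
    if_neg (hL x b)] at hf
  exact hf

/-- The negation of the preceding statement: For every uniform rank-3 chirotope on n ≥ 3 elements and every red/blue coloring using both colors, some triple whose sign flip yields again a chirotope (a mutation, i.e. a triangle) is not monochromatic. -/
theorem result :
    ¬ (∀ (n : ℕ), 3 ≤ n →
    ∀ (χ : Fin n → Fin n → Fin n → ℤ),
      (∀ a b c : Fin n, a ≠ b → b ≠ c → a ≠ c → (χ a b c = 1 ∨ χ a b c = -1)) →
      (∀ a b c : Fin n, χ b a c = -χ a b c ∧ χ a c b = -χ a b c) →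
      (∀ x a b c d : Fin n, [x, a, b, c, d].Nodup →
        ¬ (χ x a b * χ x c d = -(χ x a c * χ x b d) ∧
           -(χ x a c * χ x b d) = χ x a d * χ x b c)) →
      ∀ col : Fin n → Bool, (∃ p q : Fin n, col p ≠ col q) →
      ∃ i j k : Fin n, i ≠ j ∧ j ≠ k ∧ i ≠ k ∧
        ¬ (col i = col j ∧ col j = col k) ∧
        ∀ χ' : Fin n → Fin n → Fin n → ℤ,
          (∀ a b c : Fin n, χ' a b c =
            if ({a, b, c} : Finset (Fin n)) = {i, j, k} then -χ a b c else χ a b c) →
          ∀ x a b c d : Fin n, [x, a, b, c, d].Nodup →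
            ¬ (χ' x a b * χ' x c d = -(χ' x a c * χ' x b d) ∧
               -(χ' x a c * χ' x b d) = χ' x a d * χ' x b c)) := by
  intro H
  have f : ∀ {u v : Fin 64}, u ≠ v → u.1 ≠ v.1 := fun h h' => h (Fin.ext h')
  obtain ⟨i, j, k, hij, hjk, hik, hmono, hflip⟩ := H 64 (by norm_num)
    (fun a b c => X a.1 b.1 c.1)
    (by
      intro a b c hab hbc hac
      exact X_pm a.2 b.2 c.2 (f hab) (f hac) (f hbc))
    (by
      intro a b c
      exact ⟨X_swap12 a.2 b.2 c.2, X_swap a.1 b.1 c.1⟩)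
    (by
      intro x a b c d hnd
      simp only [List.nodup_cons, List.mem_cons, List.not_mem_nil, or_false, not_or,
        List.nodup_nil, not_false_eq_true, and_true] at hnd
      obtain ⟨⟨h1, h2, h3, h4⟩, ⟨h5, h6, h7⟩, ⟨h8, h9⟩, h10⟩ := hnd
      exact X_gp (f h1) (f h2) (f h3) (f h4) (pos_ne x.2 a.2 b.2 (f h1) (f h2) (f h5))
        (pos_ne x.2 c.2 d.2 (f h3) (f h4) (f h10)))
    (fun a => col a.1) ⟨⟨0, by norm_num⟩, ⟨8, by norm_num⟩, by decide⟩
  have hfl := hflip (fun a b c => if ({a, b, c} : Finset (Fin 64)) = {i, j, k} then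
    -X a.1 b.1 c.1 else X a.1 b.1 c.1) (fun a b c => rfl)
  have e2 : ({j, i, k} : Finset (Fin 64)) = {i, j, k} := by
    ext t; simp only [Finset.mem_insert, Finset.mem_singleton]; tauto
  have e3 : ({k, i, j} : Finset (Fin 64)) = {i, j, k} := by
    ext t; simp only [Finset.mem_insert, Finset.mem_singleton]; tauto
  have a1 := adj_of_flip (i := i) (j := j) (k := k) rfl hij hik hjk hfl
  have a2 := adj_of_flip (i := i) (j := j) (k := k) e2 hij.symm hjk hik hfl
  have a3 := adj_of_flip (i := i) (j := j) (k := k) e3 hik.symm hjk.symm hij hfl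
  exact hmono (mono_of_adj i.2 j.2 k.2 (f hij) (f hjk) (f hik) a1 a2 a3)

end Pool.Agent.S08052
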