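import Pool.Statements.S08327
import Pool.Agent.Lib.MP_405c89_co.Transfer

set_option autoImplicit false
open Pool Pool.MP_405c89_co

namespace Pool.Agent.S08327

/-- Take a finite matroid where every rank-size set is a basis or meets a stressed set in more than that set's rank. Then any two n-tuples of bases with the same multiset union are joined by finitely many symmetric exchanges on pairs. -/
theorem result :
    ∀ (α : Type) [Fintype α] [DecidableEq α] (M : Matroid α),
      (∀ (B0 S : Set α), M.IsBase B0 → S ⊆ M.E → S.ncard = B0.ncard →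
        (M.IsBase S ∨
          ∃ (A I : Set α), A ⊆ M.E ∧
            (∀ X Y : Set α, (M.restrict A).IsBase X → Y ⊆ (M.restrict A).E →
              Y.ncard = X.ncard → (M.restrict A).IsBase Y) ∧
            (∀ X Y : Set α, (M.contract A).IsBase X → Y ⊆ (M.contract A).E →
              Y.ncard = X.ncard → (M.contract A).IsBase Y) ∧
            M.IsBasis I A ∧ I.ncard < (S ∩ A).ncard)) →
      ∀ (n : ℕ) (B B' : Fin n → Finset α),
        (∀ i, M.IsBase (↑(B i) : Set α)) →
        (∀ i, M.IsBase (↑(B' i) : Set α)) →
        (Finset.univ.sum (fun i => (B i).val)) = (Finset.univ.sum (fun i => (B' i).val)) →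
        Relation.ReflTransGen
          (fun T T' : Fin n → Finset α =>
            ∃ (i j : Fin n) (a b : α), i ≠ j ∧
              a ∈ T i ∧ a ∉ T j ∧ b ∈ T j ∧ b ∉ T i ∧
              M.IsBase (↑(insert b ((T i).erase a)) : Set α) ∧
              M.IsBase (↑(insert a ((T j).erase b)) : Set α) ∧
              T' = Function.update (Function.update T i (insert b ((T i).erase a))) j
                (insert a ((T j).erase b)))
          B B' := by
  classical
  intro α _ inst M h n B B' hB hB' hsum
  obtain ⟨B0, hB0⟩ := M.exists_isBase
  set r := B0.ncard with hr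
  let ι : Type := {A : Finset α // (A : Set α) ⊆ M.E ∧ Pool.Agent.MP405c89.Stressed M (A : Set α) ∧
    ∃ I : Set α, M.IsBasis I (A : Set α) ∧ I.ncard < A.card ∧ I.ncard < r}
  have hc : ∀ p : ι, ∃ I : Set α, M.IsBasis I (p.1 : Set α) ∧ I.ncard < p.1.card ∧ I.ncard < r :=
    fun p => p.2.2.2
  choose I hI using hc
  let S : Pool.Agent.MP405c89.Sys α ι :=
    { r := r
      H := fun p => p.1
      c := fun p => (I p).ncard
      cross := by
        intro p q hpq
        have hne : (p.1 : Set α) ≠ (q.1 : Set α) := by
          intro h1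
          apply hpq
          apply Subtype.ext
          exact_mod_cast h1
        have h1 := Pool.Agent.MP405c89.cross_stressed p.2.1 q.2.1 p.2.2.1 q.2.2.1 (hI p).1
          (hI q).1 hB0 (by rw [Set.ncard_coe_finset]; exact (hI p).2.1)
          (by rw [Set.ncard_coe_finset]; exact (hI q).2.1) (hI p).2.2 (hI q).2.2 hne
        rwa [← Finset.coe_inter, Set.ncard_coe_finset] at h1 }
  have hbas : ∀ X : Finset α, M.IsBase (X : Set α) → S.Bas X := by
    intro X hX
    refine ⟨?_, fun p => ?_⟩
    · rw [← Set.ncard_coe_finset]
      exact hX.ncard_eq_ncard_of_isBase hB0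
    · have h1 := Pool.Agent.MP405c89.ncard_le_of_indep (hI p).1
        (hX.indep.subset (Set.inter_subset_left (t := (p.1 : Set α)))) Set.inter_subset_right
      rwa [← Finset.coe_inter, Set.ncard_coe_finset] at h1
  have hbas' : ∀ X : Finset α, (X : Set α) ⊆ M.E → S.Bas X → M.IsBase (X : Set α) := by
    intro X hXE hX
    have hcard : (X : Set α).ncard = B0.ncard := by
      rw [Set.ncard_coe_finset]; exact hX.1
    rcases h B0 (X : Set α) hB0 hXE hcard with h1 | ⟨A, J, hAE, hA1, hA2, hJ, hlt⟩
    · exact h1
    · exfalso
      have hAf : ((A.toFinset : Finset α) : Set α) = A := Set.coe_toFinset A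
      have hAlt : J.ncard < A.ncard :=
        lt_of_lt_of_le hlt (Set.ncard_le_ncard Set.inter_subset_right (Set.toFinite _))
      have hrlt : J.ncard < r := by
        refine lt_of_lt_of_le hlt ?_
        rw [hr, ← hcard]
        exact Set.ncard_le_ncard Set.inter_subset_left (Set.toFinite _)
      have hst : Pool.Agent.MP405c89.Stressed M A := ⟨hA1, hA2⟩
      let p : ι := ⟨A.toFinset, by rw [hAf]; exact hAE, by rw [hAf]; exact hst, J,
        by rw [hAf]; exact hJ, by rw [← Set.ncard_coe_finset, hAf]; exact hAlt, hrlt⟩
      have h2 := hX.2 p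
      have h3 : (S.H p : Finset α) = A.toFinset := rfl
      have h4 : S.c p = (I p).ncard := rfl
      have h5 : M.IsBasis (I p) A := by
        have := (hI p).1
        rwa [show ((p.1 : Finset α) : Set α) = A from hAf] at this
      have h6 : (I p).ncard = J.ncard :=
        h5.isBase_restrict.ncard_eq_ncard_of_isBase hJ.isBase_restrict
      rw [h3, h4, h6, ← Set.ncard_coe_finset, Finset.coe_inter, hAf] at h2
      omega
  have hAB : S.AllB B := fun k => hbas _ (hB k)
  have hAB' : S.AllB B' := fun k => hbas _ (hB' k)
  have hU : Pool.Agent.MP405c89.Sys.SameU (Finset.univ : Finset (Fin n)) B B' := by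
    intro A
    have h1 : ∀ X : Finset α, (X ∩ A).card = Multiset.countP (fun e => e ∈ A) X.val := by
      intro X
      rw [Multiset.countP_eq_card_filter, ← Finset.filter_mem_eq_inter]
      rfl
    have h2 : ∀ C : Fin n → Finset α, ∑ k, (C k ∩ A).card =
        Multiset.countP (fun e => e ∈ A) (∑ k, (C k).val) := by
      intro C
      rw [← Multiset.coe_countPAddMonoidHom, map_sum]
      apply Finset.sum_congr rfl
      intro k _
      rw [h1]
      rfl
    rw [h2, h2, hsum]
  have hreach := Pool.Agent.MP405c89.Sys.white (S := S) (Finset.univ : Finset (Fin n)) B B' hAB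
    hAB' (fun k hk => absurd (Finset.mem_univ k) hk) hU
  have key : ∀ T : Fin n → Finset α, S.Reach Finset.univ B T →
      (∀ k, M.IsBase (T k : Set α)) ∧ Relation.ReflTransGen
          (fun T T' : Fin n → Finset α =>
            ∃ (i j : Fin n) (a b : α), i ≠ j ∧
              a ∈ T i ∧ a ∉ T j ∧ b ∈ T j ∧ b ∉ T i ∧
              M.IsBase (↑(insert b ((T i).erase a)) : Set α) ∧
              M.IsBase (↑(insert a ((T j).erase b)) : Set α) ∧
              T' = Function.update (Function.update T i (insert b ((T i).erase a))) j
                (insert a ((T j).erase b)))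
          B T := by
    intro T hT
    induction hT with
    | refl => exact ⟨hB, Relation.ReflTransGen.refl⟩
    | tail _ hstep ih =>
      rename_i T1 T2 _
      obtain ⟨ih1, ih2⟩ := ih
      obtain ⟨i, -, j, -, hij, a, b, ha, ha', hb, hb', h1, h2, h3⟩ := hstep
      have hsub : ∀ (k l : Fin n) (u v : α), v ∈ T1 l →
          ((Pool.Agent.MP405c89.sw (T1 k) u v : Finset α) : Set α) ⊆ M.E := by
        intro k l u v hv e he
        rw [Finset.mem_coe, Pool.Agent.MP405c89.mem_sw] at he
        rcases he with rfl | ⟨-, he⟩
        · exact (ih1 l).subset_ground hv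
        · exact (ih1 k).subset_ground he
      have g1 : M.IsBase (↑(insert b ((T1 i).erase a)) : Set α) :=
        hbas' _ (hsub i j a b hb) h1
      have g2 : M.IsBase (↑(insert a ((T1 j).erase b)) : Set α) :=
        hbas' _ (hsub j i b a ha) h2
      refine ⟨?_, ih2.tail ⟨i, j, a, b, hij, ha, ha', hb, hb', g1, g2, h3⟩⟩
      intro k
      rw [h3]
      by_cases hkj : k = j
      · rw [hkj, Function.update_self]; exact g2
      · rw [Function.update_of_ne hkj]
        by_cases hki : k = i
        · rw [hki, Function.update_self]; exact g1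
        · rw [Function.update_of_ne hki]; exact ih1 k
  exact (key B' hreach).2

end Pool.Agent.S08327
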