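import Pool.Statements.S08621
import Pool.Agent.Lib.MP_4beb96_co.EMT.Slab
import Pool.Agent.Lib.MP_4beb96_co.EMT.Transfer

set_option autoImplicit false
open Pool Pool.MP_4beb96_co

namespace Pool.Agent.S08621

/-- There are ε>0 and N such that every planar set of at least N points with no three collinear has at least (1+ε)n² triangles spanned by its points that contain no other point of the set, where n is the number of points. -/
theorem result :
    ∃ ε : ℝ, 0 < ε ∧ ∃ N : ℕ, ∀ P : Finset (ℝ × ℝ), N ≤ P.card →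
      (∀ a ∈ P, ∀ b ∈ P, ∀ c ∈ P, a ≠ b → a ≠ c → b ≠ c →
        ¬ Collinear ℝ ({a, b, c} : Set (ℝ × ℝ))) →
      (1 + ε) * ((P.card : ℝ) ^ 2) ≤
        (({T : Finset (ℝ × ℝ) | T ⊆ P ∧ T.card = 3 ∧
            ∀ p ∈ P, p ∉ T → p ∉ convexHull ℝ (T : Set (ℝ × ℝ))}.ncard : ℕ) : ℝ) := by
  obtain ⟨ε, hε, N, hN⟩ := ET.Sig.main_X
  refine ⟨ε, hε, N, fun P hP hcol => ?_⟩
  obtain ⟨σ, hσ⟩ := ET.transfer P hcol
  exact (hN σ P.card hP).trans hσ

end Pool.Agent.S08621
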