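import Pool.Statements.S08725

set_option autoImplicit false
open Classical
open Pool Pool.MP_507ed2_co

namespace Pool.Agent.S08725

/-- Neighbour finsets in a graph of bounded degree. -/
lemma exists_nbr {V : Type} (G : SimpleGraph V) (D : ℕ)
    (hD : ∀ v : V, (G.neighborSet v).encard ≤ (D : ℕ∞)) :
    ∃ N : V → Finset V, (∀ v u, u ∈ N v ↔ G.Adj v u) ∧ ∀ v, (N v).card ≤ D := by
  have hfin : ∀ v, (G.neighborSet v).Finite := fun v =>
    Set.finite_of_encard_le_coe (hD v)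
  refine ⟨fun v => (hfin v).toFinset, fun v u => by simp, fun v => ?_⟩
  have := hD v
  rw [(hfin v).encard_eq_coe_toFinset_card] at this
  exact_mod_cast this

/-- Balls are finite, with a uniform bound on their size. -/
lemma exists_ball {V : Type} (G : SimpleGraph V) (hG : G.Connected) (D : ℕ) (N : V → Finset V)
    (hN : ∀ v u, u ∈ N v ↔ G.Adj v u) (hD : ∀ v, (N v).card ≤ D) (n : ℕ) (x : V) :
    ∃ s : Finset V, (∀ u, u ∈ s ↔ G.dist x u ≤ n) ∧ s.card ≤ (D + 1) ^ n := by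
  induction n with
  | zero =>
    refine ⟨{x}, fun u => ?_, by simp⟩
    simp [hG.dist_eq_zero_iff, eq_comm]
  | succ n ih =>
    obtain ⟨s, hs, hc⟩ := ih
    refine ⟨s.biUnion (fun v => insert v (N v)), fun u => ?_, ?_⟩
    · simp only [Finset.mem_biUnion, Finset.mem_insert, hN, hs]
      constructor
      · rintro ⟨v, hv, rfl | h⟩
        · omega
        · have h0 := hG.dist_triangle (u := x) (v := v) (w := u)
          have h1 : G.dist v u ≤ 1 := by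
            have := SimpleGraph.dist_le (SimpleGraph.Walk.cons h SimpleGraph.Walk.nil)
            simpa using this
          omega
      · intro h
        by_cases h' : G.dist x u ≤ n
        · exact ⟨u, h', Or.inl rfl⟩
        · obtain ⟨p, hp⟩ := hG.exists_walk_length_eq_dist u x
          rw [SimpleGraph.dist_comm] at hp
          cases p with
          | nil => simp at h'
          | @cons _ v _ hadj q =>
            refine ⟨v, ?_, Or.inr hadj.symm⟩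
            have h2 := SimpleGraph.dist_le q
            have h3 : G.dist v x = G.dist x v := SimpleGraph.dist_comm
            have h4 : G.dist x u ≤ n + 1 := h
            rw [SimpleGraph.Walk.length_cons] at hp
            omega
    · calc _ ≤ ∑ v ∈ s, (insert v (N v)).card := Finset.card_biUnion_le
        _ ≤ ∑ v ∈ s, (D + 1) := Finset.sum_le_sum fun v _ =>
            (Finset.card_insert_le _ _).trans (by have := hD v; omega)
        _ ≤ _ := by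
            rw [Finset.sum_const, smul_eq_mul, pow_succ]
            exact Nat.mul_le_mul_right _ hc

/-- The graph of all edges with at least one endpoint in `U`. -/
def trunc {V : Type} (G : SimpleGraph V) (U : Finset V) : SimpleGraph V where
  Adj x y := G.Adj x y ∧ (x ∈ U ∨ y ∈ U)
  symm := ⟨fun _ _ h => ⟨h.1.symm, h.2.symm⟩⟩
  loopless := ⟨fun x h => G.loopless.irrefl x h.1⟩

lemma walk_in {V : Type} {G : SimpleGraph V} {U : Finset V} {x y : V} (p : G.Walk x y)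
    (h : ∀ u ∈ p.support, u ∈ U) : ∃ q : (trunc G U).Walk x y, q.length = p.length := by
  induction p with
  | nil => exact ⟨SimpleGraph.Walk.nil, rfl⟩
  | cons hadj q ih =>
    rename_i u v w
    obtain ⟨r, hr⟩ := ih (fun a ha => h a (by simp [ha]))
    have hadj' : (trunc G U).Adj u v := ⟨hadj, Or.inl (h u (by simp))⟩
    exact ⟨SimpleGraph.Walk.cons hadj' r, by simp [hr]⟩

lemma walk_out {V : Type} {G : SimpleGraph V} {U : Finset V} {x y : V}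
    (p : (trunc G U).Walk x y) : G.dist x y ≤ p.length := by
  have hle : trunc G U ≤ G := fun _ _ h => h.1
  have := SimpleGraph.dist_le (p.mapLe hle)
  simpa using this

lemma walk_bound {V : Type} {H : SimpleGraph V} (f : V → ℝ) (δ : ℝ) {x y : V} (p : H.Walk x y)
    (h : ∀ u v, u ∈ p.support → v ∈ p.support → H.Adj u v → |f u - f v| ≤ δ) :
    |f x - f y| ≤ p.length * δ := by
  induction p with
  | nil => simp
  | cons hadj q ih =>
    rename_i u v w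
    have h1 : |f u - f v| ≤ δ := h _ _ (by simp) (by simp) hadj
    have h2 : |f v - f w| ≤ q.length * δ :=
      ih (fun a b ha hb hab => h a b (by simp [ha]) (by simp [hb]) hab)
    calc |f u - f w| ≤ |f u - f v| + |f v - f w| := abs_sub_le _ _ _
      _ ≤ δ + q.length * δ := add_le_add h1 h2
      _ = _ := by push_cast [SimpleGraph.Walk.length_cons]; ring

/-- Energy estimate along a family of walks. -/
lemma sum_walk_bound {V ι : Type} (G : SimpleGraph V) (N : V → Finset V)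
    (hN : ∀ v u, u ∈ N v ↔ G.Adj v u) (U : Finset V) (f : V → ℝ)
    (I : Finset ι) (s t : ι → V) (n M : ℕ)
    (hw : ∀ i ∈ I, ∃ p : (trunc G U).Walk (s i) (t i), p.length ≤ n)
    (hM : ∀ u, (I.filter (fun i => G.dist (s i) u ≤ n)).card ≤ M) :
    ∑ i ∈ I, (f (s i) - f (t i)) ^ 2 ≤
      (n : ℝ) ^ 2 * M * ∑ u ∈ U, ∑ y ∈ N u, (f u - f y) ^ 2 := by
  set w : V → ℝ := fun u => ∑ y ∈ N u, (f u - f y) ^ 2 with hwdef
  have hw0 : ∀ u, 0 ≤ w u := fun u => Finset.sum_nonneg fun y _ => sq_nonneg _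
  have key : ∀ i ∈ I, (f (s i) - f (t i)) ^ 2 ≤
      (n : ℝ) ^ 2 * ∑ u ∈ U, (if G.dist (s i) u ≤ n then w u else 0) := by
    intro i hi
    obtain ⟨p, hp⟩ := hw i hi
    set T : ℝ := ∑ u ∈ U, (if G.dist (s i) u ≤ n then w u else 0) with hT
    have hT0 : 0 ≤ T := Finset.sum_nonneg fun u _ => by split_ifs <;> simp [hw0]
    have hsup : ∀ u ∈ p.support, G.dist (s i) u ≤ n := by
      intro u hu
      have h1 := walk_out (p.takeUntil u hu)
      have h2 := p.length_takeUntil_le_length hu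
      omega
    have hTu : ∀ u ∈ U, u ∈ p.support → w u ≤ T := by
      intro u huU hu
      have := Finset.single_le_sum (f := fun u => (if G.dist (s i) u ≤ n then w u else 0))
        (fun v _ => by split_ifs <;> simp [hw0]) huU
      simpa [hsup u hu] using this
    have hedge : ∀ u v, u ∈ p.support → v ∈ p.support → (trunc G U).Adj u v →
        |f u - f v| ≤ Real.sqrt T := by
      intro u v hu hv huv
      apply Real.abs_le_sqrt
      rcases huv.2 with h | h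
      · refine le_trans ?_ (hTu u h hu)
        exact Finset.single_le_sum (f := fun y => (f u - f y) ^ 2)
          (fun y _ => sq_nonneg _) ((hN u v).2 huv.1)
      · refine le_trans ?_ (hTu v h hv)
        have := Finset.single_le_sum (f := fun y => (f v - f y) ^ 2)
          (fun y _ => sq_nonneg _) ((hN v u).2 huv.1.symm)
        calc (f u - f v) ^ 2 = (f v - f u) ^ 2 := by ring
          _ ≤ _ := this
    have hb := walk_bound f (Real.sqrt T) p hedge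
    have hb2 : |f (s i) - f (t i)| ≤ n * Real.sqrt T :=
      hb.trans (mul_le_mul_of_nonneg_right (by exact_mod_cast hp) (Real.sqrt_nonneg _))
    calc (f (s i) - f (t i)) ^ 2 = |f (s i) - f (t i)| ^ 2 := (sq_abs _).symm
      _ ≤ (n * Real.sqrt T) ^ 2 := pow_le_pow_left₀ (abs_nonneg _) hb2 2
      _ = (n : ℝ) ^ 2 * T := by rw [mul_pow, Real.sq_sqrt hT0]
  calc ∑ i ∈ I, (f (s i) - f (t i)) ^ 2
      ≤ ∑ i ∈ I, (n : ℝ) ^ 2 * ∑ u ∈ U, (if G.dist (s i) u ≤ n then w u else 0) :=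
        Finset.sum_le_sum key
    _ = (n : ℝ) ^ 2 * ∑ u ∈ U, ∑ i ∈ I, (if G.dist (s i) u ≤ n then w u else 0) := by
        rw [← Finset.mul_sum, Finset.sum_comm]
    _ ≤ (n : ℝ) ^ 2 * ∑ u ∈ U, (M : ℝ) * w u := by
        refine mul_le_mul_of_nonneg_left (Finset.sum_le_sum fun u _ => ?_) (sq_nonneg _)
        rw [← Finset.sum_filter, Finset.sum_const, nsmul_eq_mul]
        exact mul_le_mul_of_nonneg_right (by exact_mod_cast hM u) (hw0 u)
    _ = _ := by rw [← Finset.mul_sum]; ring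


/-- The energy in the frozen statement is at most the sum of local energies. -/
lemma energy_le {V : Type} (G : SimpleGraph V) (N : V → Finset V)
    (hN : ∀ v u, u ∈ N v ↔ G.Adj v u) (Ω B : Finset V) (hdis : ∀ v ∈ B, v ∉ Ω) (f : V → ℝ) :
    (∑ x ∈ Ω, ∑ y ∈ Ω, (if G.Adj x y then (f x - f y) ^ 2 else 0)) / 2 +
      (∑ x ∈ Ω, ∑ y ∈ B, (if G.Adj x y then (f x - f y) ^ 2 else 0)) ≤
      ∑ x ∈ Ω, ∑ y ∈ N x, (f x - f y) ^ 2 := by
  have hd : Disjoint Ω B := by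
    rw [Finset.disjoint_left]; intro a ha hb; exact hdis a hb ha
  have h0 : 0 ≤ ∑ x ∈ Ω, ∑ y ∈ Ω, (if G.Adj x y then (f x - f y) ^ 2 else 0) :=
    Finset.sum_nonneg fun x _ => Finset.sum_nonneg fun y _ => by
      split_ifs
      · exact sq_nonneg _
      · exact le_rfl
  have h1 : (∑ x ∈ Ω, ∑ y ∈ Ω, (if G.Adj x y then (f x - f y) ^ 2 else 0)) +
      (∑ x ∈ Ω, ∑ y ∈ B, (if G.Adj x y then (f x - f y) ^ 2 else 0)) ≤
      ∑ x ∈ Ω, ∑ y ∈ N x, (f x - f y) ^ 2 := by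
    rw [← Finset.sum_add_distrib]
    refine Finset.sum_le_sum fun x _ => ?_
    rw [← Finset.sum_union hd, ← Finset.sum_filter]
    refine Finset.sum_le_sum_of_subset_of_nonneg ?_ fun y _ _ => sq_nonneg _
    intro y hy
    rw [Finset.mem_filter] at hy
    exact (hN x y).2 hy.2
  linarith

/-- Lower bound for the energy of the punctured domain. -/
lemma energy_ge {V : Type} (G : SimpleGraph V) (N : V → Finset V)
    (hN : ∀ v u, u ∈ N v ↔ G.Adj v u) (U H B : Finset V) (hHU : H ⊆ U) (hHB : H ⊆ B)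
    (hdis : ∀ v ∈ B, v ∉ U \ H)
    (h1 : ∀ u ∈ U \ H, ∀ y ∈ N u, y ∈ (U \ H) ∪ B) (h2 : ∀ u ∈ H, ∀ y ∈ N u, y ∈ U \ H)
    (f : V → ℝ) :
    ∑ x ∈ U, ∑ y ∈ N x, (f x - f y) ^ 2 ≤
      3 * ((∑ x ∈ U \ H, ∑ y ∈ U \ H, (if G.Adj x y then (f x - f y) ^ 2 else 0)) / 2 +
      (∑ x ∈ U \ H, ∑ y ∈ B, (if G.Adj x y then (f x - f y) ^ 2 else 0))) := by
  set Ω := U \ H with hΩ
  have hd : Disjoint Ω B := by
    rw [Finset.disjoint_left]; intro a ha hb; exact hdis a hb ha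
  have h0 : 0 ≤ ∑ x ∈ Ω, ∑ y ∈ Ω, (if G.Adj x y then (f x - f y) ^ 2 else 0) :=
    Finset.sum_nonneg fun x _ => Finset.sum_nonneg fun y _ => by
      split_ifs
      · exact sq_nonneg _
      · exact le_rfl
  have h0' : 0 ≤ ∑ x ∈ Ω, ∑ y ∈ B, (if G.Adj x y then (f x - f y) ^ 2 else 0) :=
    Finset.sum_nonneg fun x _ => Finset.sum_nonneg fun y _ => by
      split_ifs
      · exact sq_nonneg _
      · exact le_rfl
  have hA : ∑ x ∈ Ω, ∑ y ∈ N x, (f x - f y) ^ 2 ≤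
      (∑ x ∈ Ω, ∑ y ∈ Ω, (if G.Adj x y then (f x - f y) ^ 2 else 0)) +
      (∑ x ∈ Ω, ∑ y ∈ B, (if G.Adj x y then (f x - f y) ^ 2 else 0)) := by
    rw [← Finset.sum_add_distrib]
    refine Finset.sum_le_sum fun x hx => ?_
    rw [← Finset.sum_union hd, ← Finset.sum_filter]
    refine Finset.sum_le_sum_of_subset_of_nonneg ?_ fun y _ _ => sq_nonneg _
    intro y hy
    rw [Finset.mem_filter]
    exact ⟨h1 x hx y hy, (hN x y).1 hy⟩
  have hB : ∑ x ∈ H, ∑ y ∈ N x, (f x - f y) ^ 2 ≤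
      ∑ x ∈ Ω, ∑ y ∈ B, (if G.Adj x y then (f x - f y) ^ 2 else 0) := by
    calc ∑ x ∈ H, ∑ y ∈ N x, (f x - f y) ^ 2
        ≤ ∑ x ∈ H, ∑ y ∈ Ω, (if G.Adj x y then (f x - f y) ^ 2 else 0) := by
          refine Finset.sum_le_sum fun x hx => ?_
          rw [← Finset.sum_filter]
          refine Finset.sum_le_sum_of_subset_of_nonneg ?_ fun y _ _ => sq_nonneg _
          intro y hy
          rw [Finset.mem_filter]
          exact ⟨h2 x hx y hy, (hN x y).1 hy⟩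
      _ ≤ ∑ x ∈ B, ∑ y ∈ Ω, (if G.Adj x y then (f x - f y) ^ 2 else 0) := by
          refine Finset.sum_le_sum_of_subset_of_nonneg hHB fun x _ _ => ?_
          exact Finset.sum_nonneg fun y _ => by
            split_ifs
            · exact sq_nonneg _
            · exact le_rfl
      _ = _ := by
          rw [Finset.sum_comm]
          refine Finset.sum_congr rfl fun x _ => Finset.sum_congr rfl fun y _ => ?_
          by_cases h : G.Adj x y
          · rw [if_pos h, if_pos h.symm]; ring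
          · rw [if_neg h, if_neg (fun h' => h h'.symm)]
  have hsplit : ∑ x ∈ U, ∑ y ∈ N x, (f x - f y) ^ 2 =
      (∑ x ∈ Ω, ∑ y ∈ N x, (f x - f y) ^ 2) + ∑ x ∈ H, ∑ y ∈ N x, (f x - f y) ^ 2 := by
    rw [hΩ, Finset.sum_sdiff hHU]
  rw [hsplit]
  linarith

/-- Existence of a maximal admissible set of holes. -/
lemma exists_holes {V : Type} (G : SimpleGraph V) (P E : Finset V) :
    ∃ H : Finset V, H ⊆ P ∧ (∀ h ∈ H, ∀ h' ∈ H, ¬ G.Adj h h') ∧ (∀ h ∈ H, ∀ e ∈ E, ¬ G.Adj h e) ∧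
      ∀ p ∈ P, ∃ x ∈ E ∪ H, p = x ∨ G.Adj p x := by
  let Q : Finset V → Prop := fun H =>
    (∀ h ∈ H, ∀ h' ∈ H, ¬ G.Adj h h') ∧ (∀ h ∈ H, ∀ e ∈ E, ¬ G.Adj h e)
  have hne : (P.powerset.filter Q).Nonempty := by
    refine ⟨∅, ?_⟩
    simp [Q]
  obtain ⟨H, hH, hmax⟩ := Finset.exists_max_image (P.powerset.filter Q) Finset.card hne
  rw [Finset.mem_filter, Finset.mem_powerset] at hH
  obtain ⟨hHP, hH1, hH2⟩ := hH
  refine ⟨H, hHP, hH1, hH2, fun p hp => ?_⟩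
  by_contra hcon
  push Not at hcon
  have hpH : p ∉ H := fun h => (hcon p (Finset.mem_union_right _ h)).1 rfl
  have hQ : insert p H ∈ P.powerset.filter Q := by
    rw [Finset.mem_filter, Finset.mem_powerset]
    refine ⟨Finset.insert_subset hp hHP, ?_, ?_⟩
    · intro h hh h' hh'
      rw [Finset.mem_insert] at hh hh'
      rcases hh with rfl | hh <;> rcases hh' with rfl | hh'
      · exact G.loopless.irrefl _
      · exact (hcon h' (Finset.mem_union_right _ hh')).2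
      · exact fun h' => (hcon h (Finset.mem_union_right _ hh)).2 h'.symm
      · exact hH1 h hh h' hh'
    · intro h hh e he
      rw [Finset.mem_insert] at hh
      rcases hh with rfl | hh
      · exact (hcon e (Finset.mem_union_left _ he)).2
      · exact hH2 h hh e he
  have := hmax _ hQ
  rw [Finset.card_insert_of_notMem hpH] at this
  omega

/-- The trivial bound. -/
lemma trivial_bound {V : Type} (G : SimpleGraph V) (N : V → Finset V)
    (hN : ∀ v u, u ∈ N v ↔ G.Adj v u) (D : ℕ) (hD : ∀ v, (N v).card ≤ D)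
    (Ω B : Finset V) (hdis : ∀ v ∈ B, v ∉ Ω) (hB : 2 ≤ B.card) :
    ∃ f : V → ℝ, ∑ x ∈ B, f x = 0 ∧ 0 < ∑ x ∈ B, f x ^ 2 ∧
      (∑ x ∈ Ω, ∑ y ∈ Ω, (if G.Adj x y then (f x - f y) ^ 2 else 0)) / 2 +
        (∑ x ∈ Ω, ∑ y ∈ B, (if G.Adj x y then (f x - f y) ^ 2 else 0))
        ≤ (D : ℝ) * ∑ x ∈ B, f x ^ 2 := by
  obtain ⟨p, hp, q, hq, hpq⟩ := Finset.one_lt_card.1 (show 1 < B.card by omega)
  refine ⟨fun x => (if x = p then 1 else 0) - (if x = q then 1 else 0), ?_, ?_, ?_⟩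
  · rw [Finset.sum_sub_distrib]; simp [hp, hq]
  · refine Finset.sum_pos' (fun x _ => sq_nonneg _) ⟨p, hp, ?_⟩
    simp [hpq]
  · set f : V → ℝ := fun x => (if x = p then 1 else 0) - (if x = q then 1 else 0) with hf
    have hfΩ : ∀ x ∈ Ω, f x = 0 := by
      intro x hx
      have h1 : x ≠ p := fun h => hdis p hp (h ▸ hx)
      have h2 : x ≠ q := fun h => hdis q hq (h ▸ hx)
      simp [hf, h1, h2]
    have hA : ∑ x ∈ Ω, ∑ y ∈ Ω, (if G.Adj x y then (f x - f y) ^ 2 else 0) = 0 := by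
      refine Finset.sum_eq_zero fun x hx => Finset.sum_eq_zero fun y hy => ?_
      rw [hfΩ x hx, hfΩ y hy]; simp
    have hBB : ∑ x ∈ Ω, ∑ y ∈ B, (if G.Adj x y then (f x - f y) ^ 2 else 0) ≤
        ∑ y ∈ B, (D : ℝ) * f y ^ 2 := by
      rw [Finset.sum_comm]
      refine Finset.sum_le_sum fun y _ => ?_
      calc ∑ x ∈ Ω, (if G.Adj x y then (f x - f y) ^ 2 else 0)
          = ∑ x ∈ Ω.filter (fun x => G.Adj x y), f y ^ 2 := by
            rw [Finset.sum_filter]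
            refine Finset.sum_congr rfl fun x hx => ?_
            rw [hfΩ x hx]; simp
        _ = ((Ω.filter (fun x => G.Adj x y)).card : ℝ) * f y ^ 2 := by
            rw [Finset.sum_const, nsmul_eq_mul]
        _ ≤ (D : ℝ) * f y ^ 2 := by
            refine mul_le_mul_of_nonneg_right ?_ (sq_nonneg _)
            have : (Ω.filter (fun x => G.Adj x y)).card ≤ (N y).card := by
              refine Finset.card_le_card ?_
              intro x hx
              rw [Finset.mem_filter] at hx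
              exact (hN y x).2 hx.2.symm
            exact_mod_cast this.trans (hD y)
    rw [hA, ← Finset.mul_sum] at *
    linarith


lemma lip {V W : Type} (G : SimpleGraph V) (K : SimpleGraph W) (hG : G.Connected)
    (hK : K.Connected) (ψ : V → W) (L : ℕ)
    (h : ∀ z z', G.Adj z z' → K.dist (ψ z) (ψ z') ≤ L) (x y : V) :
    K.dist (ψ x) (ψ y) ≤ L * G.dist x y := by
  have key : ∀ {a b : V} (p : G.Walk a b), K.dist (ψ a) (ψ b) ≤ L * p.length := by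
    intro a b p
    induction p with
    | nil => simp
    | @cons u v w hadj q ih =>
      have h1 := h u v hadj
      have h2 := hK.dist_triangle (u := ψ u) (v := ψ v) (w := ψ w)
      rw [SimpleGraph.Walk.length_cons, Nat.mul_add, Nat.mul_one]
      omega
  obtain ⟨p, hp⟩ := hG.exists_walk_length_eq_dist x y
  rw [← hp]
  exact key p

lemma exists_adj {V : Type} (G : SimpleGraph V) (hG : G.Connected) [Infinite V] (x : V) :
    ∃ y, G.Adj x y := by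
  obtain ⟨y, hy⟩ := exists_ne x
  obtain ⟨p, _⟩ := hG.exists_walk_length_eq_dist x y
  cases p with
  | nil => exact absurd rfl hy
  | @cons _ v _ hadj q => exact ⟨v, hadj⟩

/-- The main construction: from a finite domain in `G₂` build a punctured domain in `G₁`. -/
lemma construct {V₁ V₂ : Type} [Infinite V₁] (G₁ : SimpleGraph V₁) (G₂ : SimpleGraph V₂)
    (hG₁ : G₁.Connected) (hG₂ : G₂.Connected)
    (N₁ : V₁ → Finset V₁) (hN₁ : ∀ v u, u ∈ N₁ v ↔ G₁.Adj v u)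
    (D : ℕ) (hD₁ : ∀ v, (N₁ v).card ≤ D)
    (φ : V₁ → V₂) (ψ : V₂ → V₁) (L : ℕ)
    (hφ : ∀ x x', G₁.Adj x x' → G₂.dist (φ x) (φ x') ≤ L)
    (hψ : ∀ z z', G₂.Adj z z' → G₁.dist (ψ z) (ψ z') ≤ L)
    (hφψ : ∀ z, G₂.dist (φ (ψ z)) z ≤ L) (hψφ : ∀ x, G₁.dist (ψ (φ x)) x ≤ L)
    (Ω₂ B₂ : Finset V₂) (hB₂ : ∀ v : V₂, v ∈ B₂ ↔ v ∉ Ω₂ ∧ ∃ u ∈ Ω₂, G₂.Adj u v) :
    ∃ U H B₁ : Finset V₁, (∀ v : V₁, v ∈ B₁ ↔ v ∉ U \ H ∧ ∃ u ∈ U \ H, G₁.Adj u v) ∧
      H ⊆ U ∧ H ⊆ B₁ ∧ (∀ u ∈ H, ∀ y ∈ N₁ u, y ∈ U \ H) ∧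
      (∀ z ∈ Ω₂, ∀ z', G₂.Adj z z' → ∃ p : (trunc G₁ U).Walk (ψ z) (ψ z'), p.length ≤ L) ∧
      (∀ x ∈ B₁, ∃ b ∈ B₂, ∃ p : (trunc G₁ U).Walk x (ψ b),
        p.length ≤ (L + 1) + (L + L * (L + 1)) * L) ∧
      (∀ b ∈ B₂, ∃ x ∈ B₁, G₁.dist (ψ b) x ≤ 1) := by
  choose ball hball _ using fun v => exists_ball G₁ hG₁ D N₁ hN₁ hD₁ L v
  set U : Finset V₁ := Ω₂.biUnion (fun z => ball (ψ z)) with hU
  have hmemU : ∀ x, x ∈ U ↔ ∃ z ∈ Ω₂, G₁.dist (ψ z) x ≤ L := by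
    intro x; simp [hU, hball]
  set E : Finset V₁ := (U.biUnion N₁) \ U with hE
  have hmemE : ∀ x, x ∈ E ↔ x ∉ U ∧ ∃ u ∈ U, G₁.Adj u x := by
    intro x; simp [hE, hN₁, and_comm]
  clear_value E
  obtain ⟨H, hHP, hH1, hH2, hH3⟩ := exists_holes G₁ (B₂.image ψ) E
  -- `ψ b` is in `U` for `b ∈ B₂`
  have hψU : ∀ b ∈ B₂, ψ b ∈ U := by
    intro b hb
    obtain ⟨_, u, hu, hadj⟩ := (hB₂ b).1 hb
    exact (hmemU _).2 ⟨u, hu, hψ u b hadj⟩
  have hHU : H ⊆ U := by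
    intro h hh
    obtain ⟨b, hb, rfl⟩ := Finset.mem_image.1 (hHP hh)
    exact hψU b hb
  have hHN : ∀ u ∈ H, ∀ y, G₁.Adj u y → y ∈ U \ H := by
    intro u hu y hy
    rw [Finset.mem_sdiff]
    refine ⟨?_, fun hyH => hH1 u hu y hyH hy⟩
    by_contra hyU
    exact hH2 u hu y ((hmemE y).2 ⟨hyU, u, hHU hu, hy⟩) hy
  -- walks inside `U`
  have hstep : ∀ z ∈ Ω₂, ∀ y, G₁.dist (ψ z) y ≤ L →
      ∃ p : (trunc G₁ U).Walk (ψ z) y, p.length ≤ L := by
    intro z hz y hy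
    obtain ⟨p, hp⟩ := hG₁.exists_walk_length_eq_dist (ψ z) y
    obtain ⟨q, hq⟩ := walk_in (U := U) p (by
      intro u hu
      refine (hmemU u).2 ⟨z, hz, ?_⟩
      have h1 := SimpleGraph.dist_le (p.takeUntil u hu)
      have h2 := p.length_takeUntil_le_length hu
      omega)
    exact ⟨q, by omega⟩
  have hchain : ∀ {a y : V₂} (p : G₂.Walk a y), a ∈ Ω₂ → y ∉ Ω₂ →
      ∃ b ∈ B₂, ∃ q : (trunc G₁ U).Walk (ψ a) (ψ b), q.length ≤ p.length * L := by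
    intro a y p
    induction p with
    | nil => intro h1 h2; exact absurd h1 h2
    | @cons u v w hadj q ih =>
      intro h1 h2
      obtain ⟨r, hr⟩ := hstep u h1 (ψ v) (hψ u v hadj)
      by_cases hv : v ∈ Ω₂
      · obtain ⟨b, hb, r', hr'⟩ := ih hv h2
        refine ⟨b, hb, r.append r', ?_⟩
        rw [SimpleGraph.Walk.length_append, SimpleGraph.Walk.length_cons, Nat.add_mul]
        omega
      · refine ⟨v, (hB₂ v).2 ⟨hv, u, h1, hadj⟩, r, ?_⟩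
        rw [SimpleGraph.Walk.length_cons, Nat.add_mul]
        omega
  refine ⟨U, H, E ∪ H, ?_, hHU, Finset.subset_union_right, ?_, ?_, ?_, ?_⟩
  · intro v
    rw [Finset.mem_union, Finset.mem_sdiff]
    constructor
    · rintro (hv | hv)
      · obtain ⟨hvU, u, hu, hadj⟩ := (hmemE v).1 hv
        refine ⟨fun h => hvU h.1, u, ?_, hadj⟩
        rw [Finset.mem_sdiff]
        exact ⟨hu, fun huH => hH2 u huH v hv hadj⟩
      · refine ⟨fun h => h.2 hv, ?_⟩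
        obtain ⟨y, hy⟩ := exists_adj G₁ hG₁ v
        exact ⟨y, hHN v hv y hy, hy.symm⟩
    · rintro ⟨h1, u, hu, hadj⟩
      rw [Finset.mem_sdiff] at hu
      by_cases hvU : v ∈ U
      · right; by_contra hvH; exact h1 ⟨hvU, hvH⟩
      · left; exact (hmemE v).2 ⟨hvU, u, hu.1, hadj⟩
  · intro u hu y hy
    exact hHN u hu y ((hN₁ u y).1 hy)
  · intro z hz z' hadj
    exact hstep z hz (ψ z') (hψ z z' hadj)
  · intro x hx
    rw [Finset.mem_union] at hx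
    rcases hx with hx | hx
    · obtain ⟨hxU, x', hx', hadj⟩ := (hmemE x).1 hx
      obtain ⟨z, hz, hzx'⟩ := (hmemU x').1 hx'
      obtain ⟨p, hp⟩ := hstep z hz x' hzx'
      have hadj' : (trunc G₁ U).Adj x' x := ⟨hadj, Or.inl hx'⟩
      have hφx : φ x ∉ Ω₂ := by
        intro h
        exact hxU ((hmemU x).2 ⟨φ x, h, hψφ x⟩)
      have hdist : G₂.dist z (φ x) ≤ L + L * (L + 1) := by
        have h1 := hG₂.dist_triangle (u := z) (v := φ (ψ z)) (w := φ x)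
        have h2 : G₂.dist z (φ (ψ z)) ≤ L := by rw [SimpleGraph.dist_comm]; exact hφψ z
        have h3 := lip G₁ G₂ hG₁ hG₂ φ L hφ (ψ z) x
        have h4 : G₁.dist (ψ z) x ≤ L + 1 := by
          have h5 := hG₁.dist_triangle (u := ψ z) (v := x') (w := x)
          have h6 : G₁.dist x' x ≤ 1 := by
            have := SimpleGraph.dist_le (SimpleGraph.Walk.cons hadj SimpleGraph.Walk.nil)
            simpa using this
          omega
        have h5 : L * G₁.dist (ψ z) x ≤ L * (L + 1) := Nat.mul_le_mul_left L h4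
        omega
      obtain ⟨q, hq⟩ := hG₂.exists_walk_length_eq_dist z (φ x)
      obtain ⟨b, hb, r, hr⟩ := hchain q hz hφx
      refine ⟨b, hb, (SimpleGraph.Walk.cons hadj'.symm p.reverse).append r, ?_⟩
      rw [SimpleGraph.Walk.length_append, SimpleGraph.Walk.length_cons,
        SimpleGraph.Walk.length_reverse]
      have h6 : q.length * L ≤ (L + L * (L + 1)) * L := Nat.mul_le_mul_right L (by omega)
      omega
    · obtain ⟨b, hb, rfl⟩ := Finset.mem_image.1 (hHP hx)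
      exact ⟨b, hb, SimpleGraph.Walk.nil, by simp⟩
  · intro b hb
    obtain ⟨x, hx, hbx⟩ := hH3 (ψ b) (Finset.mem_image_of_mem ψ hb)
    refine ⟨x, hx, ?_⟩
    rcases hbx with rfl | hadj
    · simp
    · have := SimpleGraph.dist_le (SimpleGraph.Walk.cons hadj SimpleGraph.Walk.nil)
      simpa using this


lemma fiber_sum {ι κ : Type} (A : Finset ι) (B : Finset κ) (b : ι → κ) (hb : ∀ x ∈ A, b x ∈ B)
    (M : ℕ) (hM : ∀ y ∈ B, (A.filter (fun x => b x = y)).card ≤ M) (F : κ → ℝ)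
    (hF : ∀ y, 0 ≤ F y) : ∑ x ∈ A, F (b x) ≤ M * ∑ y ∈ B, F y := by
  rw [← Finset.sum_fiberwise_of_maps_to hb, Finset.mul_sum]
  refine Finset.sum_le_sum fun y hy => ?_
  rw [Finset.sum_congr rfl (g := fun _ => F y)
    (by intro x hx; rw [(Finset.mem_filter.1 hx).2]), Finset.sum_const, nsmul_eq_mul]
  exact mul_le_mul_of_nonneg_right (by exact_mod_cast hM y hy) (hF y)

lemma preimage_card {V₁ V₂ : Type} (G₁ : SimpleGraph V₁) (G₂ : SimpleGraph V₂)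
    (hG₁ : G₁.Connected) (hG₂ : G₂.Connected)
    (N₂ : V₂ → Finset V₂) (hN₂ : ∀ v u, u ∈ N₂ v ↔ G₂.Adj v u)
    (D : ℕ) (hD₂ : ∀ v, (N₂ v).card ≤ D)
    (φ : V₁ → V₂) (ψ : V₂ → V₁) (L : ℕ)
    (hφ : ∀ x x', G₁.Adj x x' → G₂.dist (φ x) (φ x') ≤ L)
    (hφψ : ∀ z, G₂.dist (φ (ψ z)) z ≤ L) (r : ℕ) (S : Finset V₂) (u : V₁) :
    (S.filter (fun z => G₁.dist (ψ z) u ≤ r)).card ≤ (D + 1) ^ (2 * L + L * (2 * r)) := by
  rcases (S.filter (fun z => G₁.dist (ψ z) u ≤ r)).eq_empty_or_nonempty with h | ⟨z₀, hz₀⟩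
  · rw [h]; simp
  · obtain ⟨s, hs, hc⟩ := exists_ball G₂ hG₂ D N₂ hN₂ hD₂ (2 * L + L * (2 * r)) z₀
    refine le_trans (Finset.card_le_card ?_) hc
    intro z hz
    rw [hs]
    rw [Finset.mem_filter] at hz hz₀
    have h1 := hG₁.dist_triangle (u := ψ z₀) (v := u) (w := ψ z)
    have h2 : G₁.dist u (ψ z) = G₁.dist (ψ z) u := SimpleGraph.dist_comm
    have h3 := lip G₁ G₂ hG₁ hG₂ φ L hφ (ψ z₀) (ψ z)
    have h4 : L * G₁.dist (ψ z₀) (ψ z) ≤ L * (2 * r) := Nat.mul_le_mul_left L (by omega)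
    have h5 := hG₂.dist_triangle (u := z₀) (v := φ (ψ z₀)) (w := z)
    have h6 := hG₂.dist_triangle (u := φ (ψ z₀)) (v := φ (ψ z)) (w := z)
    have h7 := hφψ z
    have h8 : G₂.dist z₀ (φ (ψ z₀)) ≤ L := by rw [SimpleGraph.dist_comm]; exact hφψ z₀
    omega

/-- The Steklov upper bound with exponent `α` and constant `C`. -/
def SB {V : Type} (G : SimpleGraph V) (α C : ℝ) : Prop :=
  ∀ Ω B : Finset V, (∀ v : V, v ∈ B ↔ v ∉ Ω ∧ ∃ u ∈ Ω, G.Adj u v) →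
    2 ≤ B.card → ∃ f : V → ℝ, ∑ x ∈ B, f x = 0 ∧ 0 < ∑ x ∈ B, f x ^ 2 ∧
      (∑ x ∈ Ω, ∑ y ∈ Ω, (if G.Adj x y then (f x - f y) ^ 2 else 0)) / 2 +
        (∑ x ∈ Ω, ∑ y ∈ B, (if G.Adj x y then (f x - f y) ^ 2 else 0))
        ≤ C / (B.card : ℝ) ^ α * ∑ x ∈ B, f x ^ 2

theorem core {V₁ V₂ : Type} [Infinite V₁] (G₁ : SimpleGraph V₁) (G₂ : SimpleGraph V₂)
    (hG₁ : G₁.Connected) (hG₂ : G₂.Connected)
    (N₁ : V₁ → Finset V₁) (hN₁ : ∀ v u, u ∈ N₁ v ↔ G₁.Adj v u)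
    (N₂ : V₂ → Finset V₂) (hN₂ : ∀ v u, u ∈ N₂ v ↔ G₂.Adj v u)
    (D : ℕ) (hD₁ : ∀ v, (N₁ v).card ≤ D) (hD₂ : ∀ v, (N₂ v).card ≤ D)
    (φ : V₁ → V₂) (ψ : V₂ → V₁) (L : ℕ)
    (hφ : ∀ x x', G₁.Adj x x' → G₂.dist (φ x) (φ x') ≤ L)
    (hψ : ∀ z z', G₂.Adj z z' → G₁.dist (ψ z) (ψ z') ≤ L)
    (hφψ : ∀ z, G₂.dist (φ (ψ z)) z ≤ L) (hψφ : ∀ x, G₁.dist (ψ (φ x)) x ≤ L)
    (α : ℝ) (hα : 0 < α) (C₁ : ℝ) (hC₁ : 0 ≤ C₁) (hS : SB G₁ α C₁) :
    ∃ C : ℝ, SB G₂ α C := by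
  have : Nonempty V₂ := hG₂.nonempty
  obtain ⟨n, hn⟩ : ∃ n : ℕ, n = (L + 1) + (L + L * (L + 1)) * L := ⟨_, rfl⟩
  obtain ⟨β, hβ⟩ : ∃ β : ℕ, β = (D + 1) ^ n := ⟨_, rfl⟩
  obtain ⟨M, hM⟩ : ∃ M : ℕ, M = (D + 1) ^ (2 * L + L * (2 * L)) := ⟨_, rfl⟩
  obtain ⟨K, hK⟩ : ∃ K : ℕ, K = (D + 1) ^ (2 * L + L * (2 * 1)) := ⟨_, rfl⟩
  set a₁ : ℝ := 12 * (L : ℝ) ^ 2 * M * D * β * C₁ * (K : ℝ) ^ α with ha₁
  set a₂ : ℝ := 12 * D * (n : ℝ) ^ 2 * β * C₁ * (K : ℝ) ^ α with ha₂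
  set a₃ : ℝ := D * (K : ℝ) ^ α with ha₃
  have hKα : 0 ≤ (K : ℝ) ^ α := Real.rpow_nonneg (by positivity) _
  have ha₁0 : 0 ≤ a₁ := by positivity
  have ha₂0 : 0 ≤ a₂ := by positivity
  have ha₃0 : 0 ≤ a₃ := by positivity
  refine ⟨a₁ + a₂ + a₃, fun Ω₂ B₂ hB₂ hcard => ?_⟩
  obtain ⟨U, H, B₁, hB₁, hHU, hHB, hHN, hw1, hw2, hw3⟩ :=
    construct G₁ G₂ hG₁ hG₂ N₁ hN₁ D hD₁ φ ψ L hφ hψ hφψ hψφ Ω₂ B₂ hB₂
  rw [← hn] at hw2
  have hdis₂ : ∀ v ∈ B₂, v ∉ Ω₂ := fun v hv => ((hB₂ v).1 hv).1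
  have hdis₁ : ∀ v ∈ B₁, v ∉ U \ H := fun v hv => ((hB₁ v).1 hv).1
  have hb2pos : (0 : ℝ) < (B₂.card : ℝ) ^ α :=
    Real.rpow_pos_of_pos (by exact_mod_cast (by omega : 0 < B₂.card)) _
  -- `|B₂| ≤ K |B₁|`
  have hcount : B₂.card ≤ K * B₁.card := by
    choose! ξ hξ1 hξ2 using hw3
    have h1 : B₂.card ≤ K * (B₂.image ξ).card := by
      refine Finset.card_le_mul_card_image B₂ K fun a _ => ?_
      rw [hK]
      refine le_trans (Finset.card_le_card ?_)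
        (preimage_card G₁ G₂ hG₁ hG₂ N₂ hN₂ D hD₂ φ ψ L hφ hφψ 1 B₂ a)
      intro z hz
      rw [Finset.mem_filter] at hz ⊢
      exact ⟨hz.1, by rw [← hz.2]; exact hξ2 z hz.1⟩
    refine h1.trans (Nat.mul_le_mul_left K (Finset.card_le_card ?_))
    intro x hx
    obtain ⟨z, hz, rfl⟩ := Finset.mem_image.1 hx
    exact hξ1 z hz
  have hcountR : (B₂.card : ℝ) ^ α ≤ (K : ℝ) ^ α * (B₁.card : ℝ) ^ α := by
    rw [← Real.mul_rpow (by positivity) (by positivity)]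
    exact Real.rpow_le_rpow (by positivity) (by exact_mod_cast hcount) hα.le
  -- the trivial bound is enough whenever `|B₂|^α` is bounded
  have htriv : D * (B₂.card : ℝ) ^ α ≤ a₁ + a₂ + a₃ →
      ∃ f : V₂ → ℝ, ∑ x ∈ B₂, f x = 0 ∧ 0 < ∑ x ∈ B₂, f x ^ 2 ∧
      (∑ x ∈ Ω₂, ∑ y ∈ Ω₂, (if G₂.Adj x y then (f x - f y) ^ 2 else 0)) / 2 +
        (∑ x ∈ Ω₂, ∑ y ∈ B₂, (if G₂.Adj x y then (f x - f y) ^ 2 else 0))
        ≤ (a₁ + a₂ + a₃) / (B₂.card : ℝ) ^ α * ∑ x ∈ B₂, f x ^ 2 := by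
    intro h
    obtain ⟨f, h1, h2, h3⟩ := trivial_bound G₂ N₂ hN₂ D hD₂ Ω₂ B₂ hdis₂ hcard
    refine ⟨f, h1, h2, h3.trans (mul_le_mul_of_nonneg_right ?_ h2.le)⟩
    rw [le_div_iff₀ hb2pos]
    exact h
  by_cases hB₁card : 2 ≤ B₁.card
  swap
  · apply htriv
    have h1 : (B₂.card : ℝ) ≤ K := by
      have : B₂.card ≤ K * 1 := hcount.trans (Nat.mul_le_mul_left K (by omega))
      rw [Nat.mul_one] at this
      exact_mod_cast this
    have h2 : (B₂.card : ℝ) ^ α ≤ (K : ℝ) ^ α := Real.rpow_le_rpow (by positivity) h1 hα.le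
    have h3 : D * (B₂.card : ℝ) ^ α ≤ a₃ := mul_le_mul_of_nonneg_left h2 (by positivity)
    linarith
  obtain ⟨f, hf0, hfpos, hfE⟩ := hS (U \ H) B₁ hB₁ hB₁card
  set En : ℝ := (∑ x ∈ U \ H, ∑ y ∈ U \ H, (if G₁.Adj x y then (f x - f y) ^ 2 else 0)) / 2 +
        (∑ x ∈ U \ H, ∑ y ∈ B₁, (if G₁.Adj x y then (f x - f y) ^ 2 else 0)) with hEn
  set W : ℝ := ∑ u ∈ U, ∑ y ∈ N₁ u, (f u - f y) ^ 2 with hW
  have hWEn : W ≤ 3 * En := by
    refine energy_ge G₁ N₁ hN₁ U H B₁ hHU hHB hdis₁ ?_ hHN f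
    intro u hu y hy
    rw [Finset.mem_union]
    by_cases hyU : y ∈ U \ H
    · exact Or.inl hyU
    · exact Or.inr ((hB₁ y).2 ⟨hyU, u, hu, (hN₁ u y).1 hy⟩)
  have hW0 : 0 ≤ W := Finset.sum_nonneg fun u _ => Finset.sum_nonneg fun y _ => sq_nonneg _
  set V : ℝ := ∑ x ∈ B₁, f x ^ 2 with hV
  set S : ℝ := C₁ / (B₁.card : ℝ) ^ α with hSdef
  have hb1pos : (0 : ℝ) < (B₁.card : ℝ) ^ α :=
    Real.rpow_pos_of_pos (by exact_mod_cast (by omega : 0 < B₁.card)) _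
  have hS0 : 0 ≤ S := div_nonneg hC₁ hb1pos.le
  have hWSV : W ≤ 3 * (S * V) := hWEn.trans (by linarith)
  -- the test function
  set c : ℝ := (∑ z ∈ B₂, f (ψ z)) / B₂.card with hc
  set g : V₂ → ℝ := fun z => f (ψ z) - c with hg
  have hb2 : (B₂.card : ℝ) ≠ 0 := by
    have : 0 < B₂.card := by omega
    exact_mod_cast this.ne'
  have hg0 : ∑ z ∈ B₂, g z = 0 := by
    simp only [hg, Finset.sum_sub_distrib, Finset.sum_const, nsmul_eq_mul, hc]
    field_simp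
    ring
  set G2 : ℝ := ∑ z ∈ B₂, g z ^ 2 with hG2
  have hG20 : 0 ≤ G2 := Finset.sum_nonneg fun z _ => sq_nonneg _
  -- energy estimate
  have hEg : (∑ x ∈ Ω₂, ∑ y ∈ Ω₂, (if G₂.Adj x y then (g x - g y) ^ 2 else 0)) / 2 +
        (∑ x ∈ Ω₂, ∑ y ∈ B₂, (if G₂.Adj x y then (g x - g y) ^ 2 else 0)) ≤
        (L : ℝ) ^ 2 * (M * D) * W := by
    refine (energy_le G₂ N₂ hN₂ Ω₂ B₂ hdis₂ g).trans ?_
    rw [Finset.sum_sigma']
    have h1 := sum_walk_bound G₁ N₁ hN₁ U f (Ω₂.sigma N₂) (fun i => ψ i.1) (fun i => ψ i.2)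
      L (M * D) (by
        intro i hi
        rw [Finset.mem_sigma] at hi
        exact hw1 i.1 hi.1 i.2 ((hN₂ _ _).1 hi.2)) (by
        intro u
        have hsub : (Ω₂.sigma N₂).filter (fun i => G₁.dist (ψ i.1) u ≤ L) ⊆
            (Ω₂.filter (fun z => G₁.dist (ψ z) u ≤ L)).sigma N₂ := by
          intro i hi
          rw [Finset.mem_filter, Finset.mem_sigma] at hi
          rw [Finset.mem_sigma, Finset.mem_filter]
          exact ⟨⟨hi.1.1, hi.2⟩, hi.1.2⟩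
        refine (Finset.card_le_card hsub).trans ?_
        rw [Finset.card_sigma]
        refine (Finset.sum_le_sum (fun z _ => hD₂ z)).trans ?_
        rw [Finset.sum_const, smul_eq_mul, hM]
        exact Nat.mul_le_mul_right D
          (preimage_card G₁ G₂ hG₁ hG₂ N₂ hN₂ D hD₂ φ ψ L hφ hφψ L Ω₂ u))
    refine le_trans (le_of_eq ?_) (h1.trans (le_of_eq ?_))
    · refine Finset.sum_congr rfl fun i _ => ?_
      simp only [hg]; ring
    · push_cast; ring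
  -- variance estimate
  have hVar : V ≤ 2 * ((n : ℝ) ^ 2 * β * W) + 2 * (β * G2) := by
    choose! b hb1 hb2 using hw2
    have hballcard : ∀ u, (B₁.filter (fun x => G₁.dist x u ≤ n)).card ≤ β := by
      intro u
      obtain ⟨s, hs, hcs⟩ := exists_ball G₁ hG₁ D N₁ hN₁ hD₁ n u
      rw [← hβ] at hcs
      refine (Finset.card_le_card ?_).trans hcs
      intro x hx
      rw [Finset.mem_filter] at hx
      rw [hs, SimpleGraph.dist_comm]
      exact hx.2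
    have h1 : V ≤ ∑ x ∈ B₁, (f x - c) ^ 2 := by
      have : ∑ x ∈ B₁, (f x - c) ^ 2 = V - 2 * c * (∑ x ∈ B₁, f x) + B₁.card * c ^ 2 := by
        rw [hV, Finset.mul_sum, ← Finset.sum_sub_distrib, ← nsmul_eq_mul, ← Finset.sum_const,
          ← Finset.sum_add_distrib]
        exact Finset.sum_congr rfl fun x _ => by ring
      rw [this, hf0]
      have : 0 ≤ (B₁.card : ℝ) * c ^ 2 := by positivity
      linarith
    have h2 : ∑ x ∈ B₁, (f x - c) ^ 2 ≤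
        2 * (∑ x ∈ B₁, (f x - f (ψ (b x))) ^ 2) + 2 * ∑ x ∈ B₁, g (b x) ^ 2 := by
      rw [Finset.mul_sum, Finset.mul_sum, ← Finset.sum_add_distrib]
      refine Finset.sum_le_sum fun x _ => ?_
      simp only [hg]
      nlinarith [sq_nonneg ((f x - f (ψ (b x))) - (f (ψ (b x)) - c))]
    have h3 : ∑ x ∈ B₁, (f x - f (ψ (b x))) ^ 2 ≤ (n : ℝ) ^ 2 * β * W :=
      sum_walk_bound G₁ N₁ hN₁ U f B₁ (fun x => x) (fun x => ψ (b x)) n β hb2 hballcard
    have h4 : ∑ x ∈ B₁, g (b x) ^ 2 ≤ β * G2 := by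
      refine fiber_sum B₁ B₂ b hb1 β (fun z hz => ?_) (fun z => g z ^ 2) fun z => sq_nonneg _
      refine (Finset.card_le_card ?_).trans (hballcard (ψ z))
      intro x hx
      rw [Finset.mem_filter] at hx ⊢
      refine ⟨hx.1, ?_⟩
      obtain ⟨p, hp⟩ := hb2 x hx.1
      have h9 : G₁.dist x (ψ (b x)) ≤ n := (walk_out p).trans hp
      rw [hx.2] at h9
      exact h9
    linarith
  by_cases hsmall : 6 * (n : ℝ) ^ 2 * β * S ≤ 1 / 2
  · -- main case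
    have h1 : V ≤ 4 * β * G2 := by
      have h2 : 2 * ((n : ℝ) ^ 2 * β * W) ≤ (6 * (n : ℝ) ^ 2 * β * S) * V := by
        have h5 : (n : ℝ) ^ 2 * β * W ≤ (n : ℝ) ^ 2 * β * (3 * (S * V)) :=
          mul_le_mul_of_nonneg_left hWSV (by positivity)
        calc 2 * ((n : ℝ) ^ 2 * β * W) ≤ 2 * ((n : ℝ) ^ 2 * β * (3 * (S * V))) :=
              mul_le_mul_of_nonneg_left h5 (by norm_num)
          _ = _ := by ring
      have h3 : (6 * (n : ℝ) ^ 2 * β * S) * V ≤ 1 / 2 * V :=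
        mul_le_mul_of_nonneg_right hsmall hfpos.le
      linarith
    have hG2pos : 0 < G2 := by
      rcases hG20.lt_or_eq with h | h
      · exact h
      · rw [← h] at h1; linarith
    refine ⟨g, hg0, hG2pos, hEg.trans ?_⟩
    have h2 : (L : ℝ) ^ 2 * (M * D) * W ≤ (L : ℝ) ^ 2 * (M * D) * (3 * (S * (4 * β * G2))) := by
      refine mul_le_mul_of_nonneg_left (hWSV.trans ?_) (by positivity)
      have := mul_le_mul_of_nonneg_left h1 hS0
      linarith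
    have h3 : S ≤ C₁ * (K : ℝ) ^ α / (B₂.card : ℝ) ^ α := by
      rw [hSdef, div_le_div_iff₀ hb1pos hb2pos]
      have := mul_le_mul_of_nonneg_left hcountR hC₁
      linarith
    have h4 : (L : ℝ) ^ 2 * (M * D) * (3 * (S * (4 * β * G2))) ≤
        a₁ / (B₂.card : ℝ) ^ α * G2 := by
      have h5 : (12 * (L : ℝ) ^ 2 * M * D * β * G2) * S ≤
          (12 * (L : ℝ) ^ 2 * M * D * β * G2) * (C₁ * (K : ℝ) ^ α / (B₂.card : ℝ) ^ α) :=
        mul_le_mul_of_nonneg_left h3 (by positivity)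
      calc (L : ℝ) ^ 2 * (M * D) * (3 * (S * (4 * β * G2)))
          = (12 * (L : ℝ) ^ 2 * M * D * β * G2) * S := by ring
        _ ≤ _ := h5
        _ = a₁ / (B₂.card : ℝ) ^ α * G2 := by rw [ha₁]; ring
    have h5 : a₁ / (B₂.card : ℝ) ^ α * G2 ≤ (a₁ + a₂ + a₃) / (B₂.card : ℝ) ^ α * G2 := by
      refine mul_le_mul_of_nonneg_right ?_ hG20
      exact div_le_div_of_nonneg_right (by linarith) hb2pos.le
    exact (h2.trans h4).trans h5
  · -- bounded case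
    apply htriv
    push Not at hsmall
    have h1 : (B₁.card : ℝ) ^ α ≤ 12 * (n : ℝ) ^ 2 * β * C₁ := by
      rw [hSdef] at hsmall
      have h2 : 1 / 2 * (B₁.card : ℝ) ^ α <
          6 * (n : ℝ) ^ 2 * β * (C₁ / (B₁.card : ℝ) ^ α) * (B₁.card : ℝ) ^ α :=
        mul_lt_mul_of_pos_right hsmall hb1pos
      have h3 : 6 * (n : ℝ) ^ 2 * β * (C₁ / (B₁.card : ℝ) ^ α) * (B₁.card : ℝ) ^ α =
          6 * (n : ℝ) ^ 2 * β * C₁ := by
        rw [mul_assoc, div_mul_cancel₀ _ hb1pos.ne']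
      rw [h3] at h2
      linarith
    have h2 : D * (B₂.card : ℝ) ^ α ≤ a₂ := by
      calc D * (B₂.card : ℝ) ^ α ≤ D * ((K : ℝ) ^ α * (B₁.card : ℝ) ^ α) :=
            mul_le_mul_of_nonneg_left hcountR (by positivity)
        _ ≤ D * ((K : ℝ) ^ α * (12 * (n : ℝ) ^ 2 * β * C₁)) :=
            mul_le_mul_of_nonneg_left (mul_le_mul_of_nonneg_left h1 hKα) (by positivity)
        _ = a₂ := by rw [ha₂]; ring
    linarith


/-- For infinite connected bounded-degree graphs G1, G2 roughly quasi-isometric, if every finite vertex set of G1 with boundary B (∣B∣≥2) has first Steklov eigenvalue ≤ C/∣B∣^α, then some constant gives the same bound with the same α for G2. -/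
theorem result :
    ∀ (V₁ V₂ : Type) (G₁ : SimpleGraph V₁) (G₂ : SimpleGraph V₂) (α : ℝ), 0 < α →
      Infinite V₁ → Infinite V₂ → G₁.Connected → G₂.Connected →
      (∃ D : ℕ, ∀ v : V₁, (G₁.neighborSet v).encard ≤ (D : ℕ∞)) →
      (∃ D : ℕ, ∀ v : V₂, (G₂.neighborSet v).encard ≤ (D : ℕ∞)) →
      (∃ φ : V₁ → V₂, ∃ a b c : ℝ, 1 ≤ a ∧ 0 ≤ b ∧ 0 ≤ c ∧
        (∀ x y : V₁, (G₁.dist x y : ℝ) / a - b ≤ (G₂.dist (φ x) (φ y) : ℝ) ∧
          (G₂.dist (φ x) (φ y) : ℝ) ≤ a * (G₁.dist x y : ℝ) + b) ∧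
        ∀ z : V₂, ∃ x : V₁, (G₂.dist (φ x) z : ℝ) ≤ c) →
      (∃ C : ℝ, ∀ Ω B : Finset V₁, (∀ v : V₁, v ∈ B ↔ v ∉ Ω ∧ ∃ u ∈ Ω, G₁.Adj u v) →
        2 ≤ B.card → ∃ f : V₁ → ℝ, ∑ x ∈ B, f x = 0 ∧ 0 < ∑ x ∈ B, f x ^ 2 ∧
          (∑ x ∈ Ω, ∑ y ∈ Ω, (if G₁.Adj x y then (f x - f y) ^ 2 else 0)) / 2 +
            (∑ x ∈ Ω, ∑ y ∈ B, (if G₁.Adj x y then (f x - f y) ^ 2 else 0))
            ≤ C / (B.card : ℝ) ^ α * ∑ x ∈ B, f x ^ 2) →
      (∃ C : ℝ, ∀ Ω B : Finset V₂, (∀ v : V₂, v ∈ B ↔ v ∉ Ω ∧ ∃ u ∈ Ω, G₂.Adj u v) →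
        2 ≤ B.card → ∃ f : V₂ → ℝ, ∑ x ∈ B, f x = 0 ∧ 0 < ∑ x ∈ B, f x ^ 2 ∧
          (∑ x ∈ Ω, ∑ y ∈ Ω, (if G₂.Adj x y then (f x - f y) ^ 2 else 0)) / 2 +
            (∑ x ∈ Ω, ∑ y ∈ B, (if G₂.Adj x y then (f x - f y) ^ 2 else 0))
            ≤ C / (B.card : ℝ) ^ α * ∑ x ∈ B, f x ^ 2) := by
  intro V₁ V₂ G₁ G₂ α hα hinf₁ _ hG₁ hG₂ ⟨D₁, hD₁⟩ ⟨D₂, hD₂⟩ ⟨φ, a, b, c, ha, hb, hc, hφ, hsurj⟩
    ⟨C, hC⟩
  obtain ⟨N₁, hN₁, hN₁c⟩ := exists_nbr G₁ D₁ hD₁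
  obtain ⟨N₂, hN₂, hN₂c⟩ := exists_nbr G₂ D₂ hD₂
  choose ψ hψ using hsurj
  obtain ⟨L, hL⟩ := exists_nat_ge (a * (2 * c + 1 + b) + a + b + c)
  have ha0 : 0 < a := by linarith
  have hab : 0 ≤ a * b := mul_nonneg ha0.le hb
  have hac : 0 ≤ a * c := mul_nonneg ha0.le hc
  -- lower quasi-isometry bound in multiplied form
  have hlow : ∀ x y : V₁, (G₁.dist x y : ℝ) ≤ a * ((G₂.dist (φ x) (φ y) : ℝ) + b) := by
    intro x y
    have h := (hφ x y).1
    have h1 : (G₁.dist x y : ℝ) / a ≤ (G₂.dist (φ x) (φ y) : ℝ) + b := by linarith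
    rw [div_le_iff₀ ha0] at h1
    linarith
  have hdist1 : ∀ {V : Type} (G : SimpleGraph V) (x y : V), G.Adj x y → G.dist x y ≤ 1 := by
    intro V G x y h
    have := SimpleGraph.dist_le (SimpleGraph.Walk.cons h SimpleGraph.Walk.nil)
    simpa using this
  have h1 : ∀ x x', G₁.Adj x x' → G₂.dist (φ x) (φ x') ≤ L := by
    intro x x' h
    have h2 := (hφ x x').2
    have h3 : (G₁.dist x x' : ℝ) ≤ 1 := by exact_mod_cast hdist1 G₁ x x' h
    have h4 : a * (G₁.dist x x' : ℝ) ≤ a * 1 := mul_le_mul_of_nonneg_left h3 ha0.le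
    have h5 : (G₂.dist (φ x) (φ x') : ℝ) ≤ L := by nlinarith
    exact_mod_cast h5
  have h2 : ∀ z z', G₂.Adj z z' → G₁.dist (ψ z) (ψ z') ≤ L := by
    intro z z' h
    have h3 := hlow (ψ z) (ψ z')
    have h4 : G₂.dist (φ (ψ z)) (φ (ψ z')) ≤
        G₂.dist (φ (ψ z)) z + (G₂.dist z z' + G₂.dist z' (φ (ψ z'))) :=
      hG₂.dist_triangle.trans (Nat.add_le_add_left hG₂.dist_triangle _)
    have h5 : (G₂.dist (φ (ψ z)) (φ (ψ z')) : ℝ) ≤
        G₂.dist (φ (ψ z)) z + (G₂.dist z z' + G₂.dist z' (φ (ψ z'))) := by exact_mod_cast h4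
    have h6 : (G₂.dist z z' : ℝ) ≤ 1 := by exact_mod_cast hdist1 G₂ z z' h
    have h7 := hψ z
    have h8 : (G₂.dist z' (φ (ψ z')) : ℝ) ≤ c := by
      rw [SimpleGraph.dist_comm]; exact hψ z'
    have h9 : a * ((G₂.dist (φ (ψ z)) (φ (ψ z')) : ℝ) + b) ≤ a * (2 * c + 1 + b) :=
      mul_le_mul_of_nonneg_left (by linarith) ha0.le
    have h10 : (G₁.dist (ψ z) (ψ z') : ℝ) ≤ L := by linarith
    exact_mod_cast h10
  have h3 : ∀ z, G₂.dist (φ (ψ z)) z ≤ L := by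
    intro z
    have h4 := hψ z
    have h5 : (G₂.dist (φ (ψ z)) z : ℝ) ≤ L := by nlinarith
    exact_mod_cast h5
  have h4 : ∀ x, G₁.dist (ψ (φ x)) x ≤ L := by
    intro x
    have h5 := hlow (ψ (φ x)) x
    have h6 := hψ (φ x)
    have h7 : a * ((G₂.dist (φ (ψ (φ x))) (φ x) : ℝ) + b) ≤ a * (c + b) :=
      mul_le_mul_of_nonneg_left (by linarith) ha0.le
    have h8 : (G₁.dist (ψ (φ x)) x : ℝ) ≤ L := by nlinarith
    exact_mod_cast h8
  refine core G₁ G₂ hG₁ hG₂ N₁ hN₁ N₂ hN₂ (max D₁ D₂)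
    (fun v => (hN₁c v).trans (le_max_left _ _)) (fun v => (hN₂c v).trans (le_max_right _ _))
    φ ψ L h1 h2 h3 h4 α hα (max C 0) (le_max_right _ _) ?_
  intro Ω B hB hcard
  obtain ⟨f, hf0, hf1, hf2⟩ := hC Ω B hB hcard
  refine ⟨f, hf0, hf1, hf2.trans (mul_le_mul_of_nonneg_right ?_ hf1.le)⟩
  exact div_le_div_of_nonneg_right (le_max_left _ _) (Real.rpow_nonneg (by positivity) _)

end Pool.Agent.S08725
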