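import Pool.Statements.S08752
import Pool.Agent.Lib.MP_51ebd4_co.HAE.Final

set_option autoImplicit false
open Pool Pool.MP_51ebd4_co

namespace Pool.Agent.S08752

/-- The negation of the preceding statement: Take pairwise disjoint nonempty layers 0..k of size-d multisets over [n]. Suppose that whenever layers i ≤ j both have a facet containing a multiset S, every layer between them does too. Then k ≤ d(n−1). -/
theorem result :
    ¬ (∀ (n d k : ℕ) (L : ℕ → Finset (Multiset (Fin n))),
      (∀ i, i ≤ k → (L i).Nonempty) →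
      (∀ i, i ≤ k → ∀ F ∈ L i, Multiset.card F = d) →
      (∀ i j, i ≤ k → j ≤ k → i ≠ j → Disjoint (L i) (L j)) →
      (∀ (S : Multiset (Fin n)) (i j l : ℕ), i ≤ l → l ≤ j → j ≤ k →
        (∃ F ∈ L i, S ≤ F) → (∃ F ∈ L j, S ≤ F) → ∃ F ∈ L l, S ≤ F) →
      k ≤ d * (n - 1)) := by
  exact Pool.Agent.HAE.not_conj

end Pool.Agent.S08752
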