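import Pool.Statements.S09371
import Pool.Agent.Lib.MP_6da058_co.Final

set_option autoImplicit false
set_option maxHeartbeats 4000000
open Pool Pool.MP_6da058_co

namespace Pool.Agent.S09371

/-- For every r at least 3 there is n such that if G and H are r-graphs with at least n vertices each, whose Lagrangian density equals r! times the Lagrangian of the complete r-graph on one fewer vertex, then their disjoint union has the same property. -/
theorem result :
  ∀ r : ℕ, 3 ≤ r →
  ∀ lam : (m : ℕ) → Finset (Finset (Fin m)) → ℝ,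
    (∀ (m : ℕ) (E : Finset (Finset (Fin m))),
      lam m E = sSup {y : ℝ | ∃ x : Fin m → ℝ, (∀ i, 0 ≤ x i) ∧ ∑ i, x i = 1 ∧
        y = ∑ e ∈ E, ∏ i ∈ e, x i}) →
  ∀ perfect : (t : ℕ) → Finset (Finset (Fin t)) → Prop,
    (∀ (t : ℕ) (F : Finset (Finset (Fin t))), perfect t F ↔
      sSup {y : ℝ | ∃ m : ℕ, ∃ G : Finset (Finset (Fin m)), (∀ e ∈ G, e.card = r) ∧
          (¬ ∃ f : Fin t → Fin m, Function.Injective f ∧ ∀ e ∈ F, e.image f ∈ G) ∧
          y = (r.factorial : ℝ) * lam m G}
        = (r.factorial : ℝ) * lam (t - 1) (Finset.powersetCard r (Finset.univ : Finset (Fin (t - 1))))) →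
  ∃ n : ℕ, ∀ (a b : ℕ) (G : Finset (Finset (Fin a))) (H : Finset (Finset (Fin b))),
    (∀ e ∈ G, e.card = r) → (∀ e ∈ H, e.card = r) → n ≤ a → n ≤ b →
    perfect a G → perfect b H →
    perfect (a + b) (G.image (fun e => e.image (Fin.castAdd b)) ∪
      H.image (fun e => e.image (Fin.natAdd a))) := by
  intro r hr lam hlam perfect hperf
  obtain ⟨n, hn1, hn⟩ := Pool.Agent.Lib.MP_6da058_co.partition_thm r hr
  refine ⟨n, ?_⟩
  intro a b G H hG hH ha hb pG pH
  have hlam' : ∀ (m : ℕ) (E : Finset (Finset (Fin m))),
      lam m E = sSup (Pool.Agent.Lib.MP_6da058_co.vals m E) := hlam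
  have hfact : (0 : ℝ) < r.factorial := by positivity
  -- boundedness
  have hbdd : ∀ (t : ℕ) (F : Finset (Finset (Fin t))),
      BddAbove {y : ℝ | ∃ m : ℕ, ∃ G : Finset (Finset (Fin m)), (∀ e ∈ G, e.card = r) ∧
          (¬ ∃ f : Fin t → Fin m, Function.Injective f ∧ ∀ e ∈ F, e.image f ∈ G) ∧
          y = (r.factorial : ℝ) * lam m G} := by
    intro t F
    refine ⟨1, ?_⟩
    rintro y ⟨m, E, hE, _, rfl⟩
    rw [hlam']
    exact Pool.Agent.Lib.MP_6da058_co.fact_sSup_le_one hE
  -- perfect graphs are contained in dense hypergraphs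
  have hcont : ∀ (t : ℕ) (F : Finset (Finset (Fin t))), n ≤ t → perfect t F →
      ∀ (s : ℕ) (E : Finset (Finset (Fin s))), (∀ e ∈ E, e.card = r) →
        Pool.Agent.Lib.MP_6da058_co.U r (1 / ((t - 1 : ℕ) : ℝ))
          < (r.factorial : ℝ) * sSup (Pool.Agent.Lib.MP_6da058_co.vals s E) →
        ∃ f : Fin t → Fin s, Function.Injective f ∧ ∀ e ∈ F, e.image f ∈ E := by
    intro t F ht hp s E hE hlt
    by_contra hcon
    rw [hperf] at hp
    have h1 := le_csSup (hbdd t F) ⟨s, E, hE, hcon, rfl⟩
    rw [hp, hlam', hlam'] at h1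
    have h2 := Pool.Agent.Lib.MP_6da058_co.complete_le (m := t - 1) (r := r) (by omega) (by omega)
    linarith
  rw [hperf]
  apply le_antisymm
  · -- upper bound
    apply csSup_le
    · refine ⟨_, 0, ∅, by simp, ?_, rfl⟩
      rintro ⟨f, _, _⟩
      exact (f ⟨0, by omega⟩).elim0
    · rintro y ⟨m, P, hP, hfree, rfl⟩
      by_contra hcon
      push Not at hcon
      apply hfree
      rw [hlam', hlam'] at hcon
      have hge := Pool.Agent.Lib.MP_6da058_co.complete_ge (m := a + b - 1) (r := r)
        (by omega) (by omega)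
      have hgt := lt_of_le_of_lt hge hcon
      have hU0 : 0 ≤ Pool.Agent.Lib.MP_6da058_co.U r (1 / ((a + b - 1 : ℕ) : ℝ)) :=
        Pool.Agent.Lib.MP_6da058_co.U_nonneg
          (Pool.Agent.Lib.MP_6da058_co.kcond (by omega) (by omega))
      have hm : 0 < m := by
        rcases Nat.eq_zero_or_pos m with h0 | h0
        · exfalso
          subst h0
          have : Pool.Agent.Lib.MP_6da058_co.vals 0 P = ∅ := by
            ext y
            simp only [Pool.Agent.Lib.MP_6da058_co.vals, Set.mem_setOf_eq,
              Set.mem_empty_iff_false, iff_false]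
            rintro ⟨x, _, hs, _⟩
            simp at hs
          rw [this, Real.sSup_empty, mul_zero] at hgt
          linarith
        · exact h0
      obtain ⟨w, o⟩ := Pool.Agent.Lib.MP_6da058_co.exists_opt P hm
      have hsup : sSup (Pool.Agent.Lib.MP_6da058_co.vals m P)
          ≤ Pool.Agent.Lib.MP_6da058_co.ff P w := by
        apply Real.sSup_le
        · rintro y ⟨x, hx, hs, rfl⟩
          exact o.max x hx hs
        · exact Pool.Agent.Lib.MP_6da058_co.ff_nonneg o.nonneg
      have hΛ : Pool.Agent.Lib.MP_6da058_co.U r (1 / ((a + b - 1 : ℕ) : ℝ))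
          < (r.factorial : ℝ) * Pool.Agent.Lib.MP_6da058_co.ff P w :=
        lt_of_lt_of_le hgt (mul_le_mul_of_nonneg_left hsup hfact.le)
      obtain ⟨S, T, hST, bS, bT⟩ := hn m P w hP o a b ha hb hΛ
      obtain ⟨ES, hES1, hES2, hES3⟩ :=
        Pool.Agent.Lib.MP_6da058_co.transport hP o.nonneg bS
      obtain ⟨ET, hET1, hET2, hET3⟩ :=
        Pool.Agent.Lib.MP_6da058_co.transport hP o.nonneg bT
      obtain ⟨f, finj, hf⟩ := hcont a G ha pG S.card ES hES1 hES3
      obtain ⟨g, ginj, hg⟩ := hcont b H hb pH T.card ET hET1 hET3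
      refine ⟨Fin.addCases (fun i => S.orderEmbOfFin rfl (f i))
        (fun i => T.orderEmbOfFin rfl (g i)), ?_, ?_⟩
      · intro x y
        refine Fin.addCases (fun i => ?_) (fun i => ?_) x <;>
        refine Fin.addCases (fun k => ?_) (fun k => ?_) y
        · intro h
          simp only [Fin.addCases_left] at h
          rw [finj ((S.orderEmbOfFin rfl).injective h)]
        · intro h
          simp only [Fin.addCases_left, Fin.addCases_right] at h
          exfalso
          exact (Finset.disjoint_left.1 hST) (Finset.orderEmbOfFin_mem S rfl (f i))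
            (h ▸ Finset.orderEmbOfFin_mem T rfl (g k))
        · intro h
          simp only [Fin.addCases_left, Fin.addCases_right] at h
          exfalso
          exact (Finset.disjoint_left.1 hST) (Finset.orderEmbOfFin_mem S rfl (f k))
            (h ▸ Finset.orderEmbOfFin_mem T rfl (g i))
        · intro h
          simp only [Fin.addCases_right] at h
          rw [ginj ((T.orderEmbOfFin rfl).injective h)]
      · intro e he
        rcases Finset.mem_union.1 he with he | he
        · obtain ⟨e', he', rfl⟩ := Finset.mem_image.1 he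
          rw [Finset.image_image]
          have : ((Fin.addCases (fun i => S.orderEmbOfFin rfl (f i))
              (fun i => T.orderEmbOfFin rfl (g i)) : Fin (a + b) → Fin m) ∘ Fin.castAdd b)
              = (S.orderEmbOfFin rfl) ∘ f := by
            funext i; simp
          rw [this, ← Finset.image_image]
          exact hES2 _ (hf e' he')
        · obtain ⟨e', he', rfl⟩ := Finset.mem_image.1 he
          rw [Finset.image_image]
          have : ((Fin.addCases (fun i => S.orderEmbOfFin rfl (f i))
              (fun i => T.orderEmbOfFin rfl (g i)) : Fin (a + b) → Fin m) ∘ Fin.natAdd a)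
              = (T.orderEmbOfFin rfl) ∘ g := by
            funext i; simp
          rw [this, ← Finset.image_image]
          exact hET2 _ (hg e' he')
  · -- lower bound
    apply le_csSup (hbdd _ _)
    refine ⟨a + b - 1, _, ?_, ?_, rfl⟩
    · intro e he
      exact (Finset.mem_powersetCard.1 he).2
    · rintro ⟨f, finj, _⟩
      have := Fintype.card_le_of_injective f finj
      simp only [Fintype.card_fin] at this
      omega

end Pool.Agent.S09371
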