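import Pool.Statements.S09473
import Pool.Agent.Lib.MP_72f7ea_co.Crit
import Pool.Agent.Lib.MP_72f7ea_co.Poly

set_option autoImplicit false
open Pool Pool.MP_72f7ea_co

namespace Pool.Agent.S09473

/-- For every finite claw-free graph whose stable set polytope is cut out by nonnegativity, clique and odd-cycle inequalities, every integer point of k times that polytope (k ≥ 1) is a sum of k integer points of the polytope. -/
theorem result :
  ∀ (V : Type) [Fintype V] [DecidableEq V] (G : SimpleGraph V) (P : Set (V → ℝ)),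
    P = convexHull ℝ {y : V → ℝ | ∃ S : Finset V, G.IsIndepSet (S : Set V) ∧
          y = fun v => if v ∈ S then (1 : ℝ) else 0} →
    (∀ c a b d : V, G.Adj c a → G.Adj c b → G.Adj c d → a ≠ b → a ≠ d → b ≠ d →
        G.Adj a b ∨ G.Adj a d ∨ G.Adj b d) →
    P = {x : V → ℝ | (∀ v, 0 ≤ x v) ∧
          (∀ K : Finset V, G.IsClique (K : Set V) → ∑ v ∈ K, x v ≤ 1) ∧
          (∀ (u : V) (p : G.Walk u u), p.IsCycle → Odd p.length →
              ∑ v ∈ p.support.toFinset, x v ≤ ((p.length : ℝ) - 1) / 2)} →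
    ∀ k : ℕ, 1 ≤ k → ∀ x : V → ℤ, (∃ z ∈ P, ∀ v, (x v : ℝ) = (k : ℝ) * z v) →
      ∃ y : Fin k → V → ℤ, (∀ i, (fun v => (y i v : ℝ)) ∈ P) ∧ ∀ v, ∑ i, y i v = x v := by
  exact Idp.result_of_main (fun V _ _ G hc hP k w hw => Idp.main hc hP k w hw)

end Pool.Agent.S09473
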