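import Pool.Statements.S09816
import Pool.Agent.Lib.MP_832c97_co.Slit.Main

set_option autoImplicit false
open Pool Pool.MP_832c97_co

namespace Pool.Agent.S09816

/-- The negation of the preceding statement: There is a constant C such that for all k ≥ 1, every straight-line graph on n points in general position in the plane with more than Ckn edges has a simple path of 2k−1 edges in which no two non-consecutive edges intersect. -/
theorem result :
    ¬ (∃ C : ℝ, ∀ (n k : ℕ) (P : Fin n → ℝ × ℝ) (G : SimpleGraph (Fin n)),
      1 ≤ k →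
      Function.Injective P →
      (∀ a b c : Fin n, a ≠ b → b ≠ c → a ≠ c →
        ¬ Collinear ℝ ({P a, P b, P c} : Set (ℝ × ℝ))) →
      (G.edgeSet.ncard : ℝ) > C * (k : ℝ) * (n : ℝ) →
      ∃ f : ℕ → Fin n,
        (∀ i j : ℕ, i < 2 * k → j < 2 * k → f i = f j → i = j) ∧
        (∀ i : ℕ, i + 1 < 2 * k → G.Adj (f i) (f (i + 1))) ∧
        (∀ i j : ℕ, i + 1 < j → j + 1 < 2 * k →
          Disjoint (segment ℝ (P (f i)) (P (f (i + 1))))
                   (segment ℝ (P (f j)) (P (f (j + 1)))))) :=
  Pool.Agent.Lib.MP_832c97_co.Slit.main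

end Pool.Agent.S09816
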