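import Pool.Statements.S09828

set_option autoImplicit false
open Pool Pool.MP_83775f_co

namespace Pool.Agent.S09828

/-- Vertices of the `D`-ary tree of depth `L`: lists of length at most `L`. -/
abbrev TV (D L : ℕ) : Type := {l : List (Fin D) // l.length ≤ L}

noncomputable instance (D L : ℕ) : Fintype (TV D L) :=
  (List.finite_length_le (Fin D) L).fintype

/-- The `D`-ary tree of depth `L`. -/
def T (D L : ℕ) : SimpleGraph (TV D L) where
  Adj x y := (∃ a, x.1 = a :: y.1) ∨ (∃ a, y.1 = a :: x.1)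
  symm := ⟨fun x y h => h.symm⟩
  loopless := ⟨fun x h => by
    rcases h with ⟨a, h⟩ | ⟨a, h⟩ <;> simpa using congrArg List.length h⟩

variable {D L : ℕ}

lemma cross_edge (v x y : TV D L) (hxy : (T D L).Adj x y) (hx : v.1 <:+ x.1)
    (hy : ¬ v.1 <:+ y.1) : x = v ∧ ∃ a, v.1 = a :: y.1 := by
  rcases hxy with ⟨a, h⟩ | ⟨a, h⟩
  · rw [h, List.suffix_cons_iff] at hx
    rcases hx with hx | hx
    · exact ⟨Subtype.ext (h.trans hx.symm), a, hx⟩
    · exact absurd hx hy
  · exact absurd (hx.trans (h ▸ List.suffix_cons a x.1)) hy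

lemma cross_walk (v : TV D L) {x y : TV D L} (q : (T D L).Walk x y) (hx : v.1 <:+ x.1)
    (hy : ¬ v.1 <:+ y.1) : v ∈ q.support ∧ ∃ z ∈ q.support, ∃ a, v.1 = a :: z.1 := by
  induction q with
  | nil => exact absurd hx hy
  | @cons x y z h q ih =>
    by_cases hy' : v.1 <:+ y.1
    · obtain ⟨h1, w, hw, hw'⟩ := ih hy' hy
      exact ⟨List.mem_cons_of_mem _ h1, w, List.mem_cons_of_mem _ hw, hw'⟩
    · obtain ⟨h1, a, ha⟩ := cross_edge v x y h hx hy'
      subst h1
      refine ⟨List.mem_cons_self, y, ?_, a, ha⟩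
      rw [SimpleGraph.Walk.support_cons]
      exact List.mem_cons_of_mem _ q.start_mem_support

lemma length_walk {x y : TV D L} (q : (T D L).Walk x y) :
    y.1.length ≤ x.1.length + q.length := by
  induction q with
  | nil => simp
  | @cons x y z h q ih =>
    rw [SimpleGraph.Walk.length_cons]
    have : y.1.length ≤ x.1.length + 1 := by
      rcases h with ⟨a, h⟩ | ⟨a, h⟩ <;> rw [h] <;> simp only [List.length_cons] <;> omega
    omega

/-- The tree has no fat triangle minor. -/
lemma no_fat_triangle (D L : ℕ) :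
    ¬ ∃ (B : Fin 3 → Set (TV D L)) (P : Fin 3 → Fin 3 → Set (TV D L)),
          (∀ w, (B w).Nonempty ∧
              ∀ x ∈ B w, ∀ y ∈ B w, ∃ q : (T D L).Walk x y, ∀ z ∈ q.support, z ∈ B w) ∧
          (∀ a b, (⊤ : SimpleGraph (Fin 3)).Adj a b →
              ∃ x ∈ B a, ∃ y ∈ B b, ∃ q : (T D L).Walk x y, ∀ z ∈ q.support, z ∈ P a b) ∧
          (∀ v w, v ≠ w → ∀ x ∈ B v, ∀ y ∈ B w, (3 : ℕ∞) ≤ (T D L).edist x y) ∧
          (∀ a b, (⊤ : SimpleGraph (Fin 3)).Adj a b → ∀ v, v ≠ a → v ≠ b →
              ∀ x ∈ P a b, ∀ y ∈ B v, (3 : ℕ∞) ≤ (T D L).edist x y) ∧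
          (∀ a b c e, (⊤ : SimpleGraph (Fin 3)).Adj a b → (⊤ : SimpleGraph (Fin 3)).Adj c e →
              s(a, b) ≠ s(c, e) →
              ∀ x ∈ P a b, ∀ y ∈ P c e, (3 : ℕ∞) ≤ (T D L).edist x y) := by
  rintro ⟨B, P, h1, h2, h3, -, h5⟩
  -- disjointness
  have hdisj : ∀ v w, v ≠ w → ∀ x ∈ B v, x ∉ B w := by
    intro v w hvw x hx hx'
    have := h3 v w hvw x hx x hx'
    rw [SimpleGraph.edist_self] at this
    simp at this
  -- the top vertex of each branch set
  have htop : ∀ w, ∃ t ∈ B w, ∀ x ∈ B w, t.1 <:+ x.1 := by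
    intro w
    obtain ⟨t, ht, hmin⟩ := Set.exists_min_image (B w) (fun t => t.1.length) (Set.toFinite _)
      (h1 w).1
    refine ⟨t, ht, fun x hx => ?_⟩
    by_contra hcon
    obtain ⟨q, hq⟩ := (h1 w).2 t ht x hx
    obtain ⟨-, z, hz, a, ha⟩ := cross_walk t q (List.suffix_refl _) hcon
    have := hmin z (hq z hz)
    rw [ha] at this
    simp at this
  choose t ht hsuf using htop
  obtain ⟨w, -, hw⟩ := Set.exists_max_image Set.univ (fun w : Fin 3 => (t w).1.length)
    (Set.toFinite _) ⟨0, trivial⟩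
  -- other branch sets are outside the subtree at `t w`
  have hout : ∀ v, v ≠ w → ∀ x ∈ B v, ¬ (t w).1 <:+ x.1 := by
    intro v hv x hx hcon
    have h0 : ¬ (t w).1 <:+ (t v).1 := by
      intro hs
      have hlen := hw v trivial
      have := hs.eq_of_length_le hlen
      have h' : t w = t v := Subtype.ext this
      exact hdisj v w hv (t v) (ht v) (h' ▸ ht w)
    obtain ⟨q, hq⟩ := (h1 v).2 x hx (t v) (ht v)
    obtain ⟨hmem, -⟩ := cross_walk (t w) q hcon h0
    exact hdisj v w hv (t w) (hq _ hmem) (ht w)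
  have hP : ∀ v, v ≠ w → t w ∈ P w v := by
    intro v hv
    obtain ⟨x, hx, y, hy, q, hq⟩ := h2 w v (by simpa using hv.symm)
    obtain ⟨hmem, -⟩ := cross_walk (t w) q (hsuf w x hx) (hout v hv y hy)
    exact hq _ hmem
  obtain ⟨a, b, ha, hb, hab⟩ : ∃ a b : Fin 3, a ≠ w ∧ b ≠ w ∧ a ≠ b := by
    fin_cases w
    · exact ⟨1, 2, by decide, by decide, by decide⟩
    · exact ⟨0, 2, by decide, by decide, by decide⟩
    · exact ⟨0, 1, by decide, by decide, by decide⟩
  have := h5 w a w b (by simpa using ha.symm) (by simpa using hb.symm) (by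
    intro h
    rw [Sym2.eq_iff] at h
    rcases h with ⟨-, h⟩ | ⟨h, -⟩
    · exact hab h
    · exact hb h.symm) (t w) (hP a ha) (t w) (hP b hb)
  rw [SimpleGraph.edist_self] at this
  simp at this

/-- In the `(p+1)`-ary tree of depth `d+1` there is no sparse connected partition. -/
lemma no_partition (p d : ℕ) (f : TV (p + 1) (d + 1) → TV (p + 1) (d + 1))
    (hf1 : ∀ x y, f x = f y → ∃ q : (T (p + 1) (d + 1)).Walk x y, ∀ z ∈ q.support, f z = f x)
    (hf2 : ∀ x y, f x = f y → (T (p + 1) (d + 1)).edist x y ≤ (d : ℕ∞))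
    (hf3 : ∀ u, {i | ∃ v, (T (p + 1) (d + 1)).edist u v ≤ 2 ∧ f v = i}.ncard ≤ p) : False := by
  set root : TV (p + 1) (d + 1) := ⟨[], by simp⟩ with hroot
  -- a chain of vertices in the cluster of the root
  have chain : ∀ j : ℕ, j ≤ d + 1 → ∃ v : TV (p + 1) (d + 1), v.1.length = j ∧ f v = f root := by
    intro j
    induction j with
    | zero => intro _; exact ⟨root, rfl, rfl⟩
    | succ j ih =>
      intro hj
      obtain ⟨v, hv, hfv⟩ := ih (by omega)
      by_contra hcon
      push Not at hcon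
      -- the children of `v`
      let c : Fin (p + 1) → TV (p + 1) (d + 1) := fun a => ⟨a :: v.1, by
        simp only [List.length_cons]; omega⟩
      have hc : ∀ a, f (c a) ≠ f v := by
        intro a h
        exact hcon (c a) (by simp [c, hv]) (h.trans hfv)
      have hinj : Function.Injective (fun a => f (c a)) := by
        intro a b hab
        by_contra hne
        obtain ⟨q, hq⟩ := hf1 (c a) (c b) hab
        have hns : ¬ (c a).1 <:+ (c b).1 := by
          intro hs
          have := hs.eq_of_length (by simp [c])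
          simp only [c, List.cons.injEq, and_true] at this
          exact hne this
        obtain ⟨-, z, hz, a', ha'⟩ := cross_walk (c a) q (List.suffix_refl _) hns
        simp only [c, List.cons.injEq] at ha'
        have hzv : z = v := Subtype.ext ha'.2.symm
        have := hq z hz
        rw [hzv] at this
        exact hc a this.symm
      have hsub : Set.range (fun a => f (c a)) ⊆
          {i | ∃ u, (T (p + 1) (d + 1)).edist v u ≤ 2 ∧ f u = i} := by
        rintro _ ⟨a, rfl⟩
        refine ⟨c a, ?_, rfl⟩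
        have hadj : (T (p + 1) (d + 1)).Adj v (c a) := Or.inr ⟨a, rfl⟩
        have : (T (p + 1) (d + 1)).edist v (c a) ≤ 1 := by
          have := SimpleGraph.edist_le (SimpleGraph.Walk.cons hadj SimpleGraph.Walk.nil)
          simpa using this
        exact this.trans (by norm_num)
      have h1 := Set.ncard_le_ncard hsub (Set.toFinite _)
      have h2 : (Set.range (fun a => f (c a))).ncard = p + 1 := by
        rw [← Set.image_univ, Set.ncard_image_of_injective _ hinj, Set.ncard_univ]
        simp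
      have h3 := hf3 v
      omega
  obtain ⟨v, hv, hfv⟩ := chain (d + 1) le_rfl
  have h := hf2 root v hfv.symm
  obtain ⟨q, hq⟩ := hf1 root v hfv.symm
  have hreach : (T (p + 1) (d + 1)).Reachable root v := ⟨q⟩
  obtain ⟨w, hw⟩ := hreach.exists_walk_length_eq_edist
  rw [← hw] at h
  have h' : w.length ≤ d := by exact_mod_cast h
  have h'' := length_walk w
  rw [hv] at h''
  simp [hroot] at h''
  omega

/-- The negation of the preceding statement: For every finite graph H there are p,d such that every finite graph G with no 3-fat H-minor has a partition into connected parts, each of weak diameter at most d, such that every radius-2 ball meets at most p parts. -/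
theorem result :
    ¬ (∀ (W : Type) [Fintype W] (H : SimpleGraph W), ∃ p d : ℕ,
    ∀ (V : Type) [Fintype V] (G : SimpleGraph V),
      (¬ ∃ (B : W → Set V) (P : W → W → Set V),
          (∀ w, (B w).Nonempty ∧
              ∀ x ∈ B w, ∀ y ∈ B w, ∃ q : G.Walk x y, ∀ z ∈ q.support, z ∈ B w) ∧
          (∀ a b, H.Adj a b →
              ∃ x ∈ B a, ∃ y ∈ B b, ∃ q : G.Walk x y, ∀ z ∈ q.support, z ∈ P a b) ∧
          (∀ v w, v ≠ w → ∀ x ∈ B v, ∀ y ∈ B w, (3 : ℕ∞) ≤ G.edist x y) ∧
          (∀ a b, H.Adj a b → ∀ v, v ≠ a → v ≠ b →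
              ∀ x ∈ P a b, ∀ y ∈ B v, (3 : ℕ∞) ≤ G.edist x y) ∧
          (∀ a b c e, H.Adj a b → H.Adj c e → s(a, b) ≠ s(c, e) →
              ∀ x ∈ P a b, ∀ y ∈ P c e, (3 : ℕ∞) ≤ G.edist x y)) →
      ∃ f : V → V,
        (∀ x y, f x = f y → ∃ q : G.Walk x y, ∀ z ∈ q.support, f z = f x) ∧
        (∀ x y, f x = f y → G.edist x y ≤ (d : ℕ∞)) ∧
        (∀ u, {i : V | ∃ v, G.edist u v ≤ 2 ∧ f v = i}.ncard ≤ p)) := by
  intro h
  obtain ⟨p, d, h⟩ := h (Fin 3) ⊤
  obtain ⟨f, hf1, hf2, hf3⟩ := h (TV (p + 1) (d + 1)) (T (p + 1) (d + 1))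
    (no_fat_triangle (p + 1) (d + 1))
  exact no_partition p d f hf1 hf2 hf3

end Pool.Agent.S09828
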