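import Pool.Statements.S09950
import Pool.Agent.Lib.MP_88b929_co.Numeric

set_option autoImplicit false
open Pool Pool.MP_88b929_co

namespace Pool.Agent.S09950

open Filter Pool.Agent.Lib.MP_88b929_co in
/-- Numerical choice of the parameter `s`. -/
lemma exists_s (C : ℝ) (N₀ : ℕ) : ∃ s : ℕ, N₀ ≤ s ∧ 2 ≤ s ∧
    (4 * s + 1) * (4 * s) ^ 8 ≤ 2 ^ s ∧ Real.log (8 * (s : ℝ)) ≤ s / 22 ∧ C < (s : ℝ) / 11 := by
  have h1 : ∀ᶠ s : ℕ in atTop, (4 * s + 1) * (4 * s) ^ 8 ≤ 2 ^ s := by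
    have ht := tendsto_pow_const_div_const_pow_of_one_lt 9 (r := (2 : ℝ)) (by norm_num)
    have h2 := ht.eventually_lt_const (u := (1 : ℝ) / 5 ^ 9) (by positivity)
    filter_upwards [h2, eventually_ge_atTop 1] with s hs hs1
    rw [div_lt_div_iff₀ (by positivity) (by positivity)] at hs
    have h3 : 5 ^ 9 * s ^ 9 ≤ 2 ^ s := by
      have h4 : ((5 ^ 9 * s ^ 9 : ℕ) : ℝ) ≤ ((2 ^ s : ℕ) : ℝ) := by
        push_cast
        linarith
      exact_mod_cast h4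
    calc (4 * s + 1) * (4 * s) ^ 8 ≤ (5 * s) * (5 * s) ^ 8 :=
          Nat.mul_le_mul (by omega) (Nat.pow_le_pow_left (by omega) 8)
      _ = 5 ^ 9 * s ^ 9 := by ring
      _ ≤ 2 ^ s := h3
  have h2 : ∀ᶠ s : ℕ in atTop, Real.log (8 * (s : ℝ)) ≤ s / 22 := by
    have hb := Real.isLittleO_log_id_atTop.bound (c := 1 / 176) (by norm_num)
    have ht : Tendsto (fun s : ℕ => 8 * (s : ℝ)) atTop atTop :=
      Tendsto.const_mul_atTop (by norm_num) tendsto_natCast_atTop_atTop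
    filter_upwards [ht.eventually hb, eventually_ge_atTop 1] with s hs hs1
    have hs0 : (0 : ℝ) ≤ 8 * (s : ℝ) := by positivity
    have h3 : ‖id (8 * (s : ℝ))‖ = 8 * (s : ℝ) := by
      rw [id, Real.norm_eq_abs, abs_of_nonneg hs0]
    rw [h3] at hs
    have h4 := le_trans (Real.le_norm_self _) hs
    linarith
  have h3 : ∀ᶠ s : ℕ in atTop, C < (s : ℝ) / 11 := by
    have ht : Tendsto (fun s : ℕ => (s : ℝ) / 11) atTop atTop :=
      Tendsto.atTop_div_const (by norm_num) tendsto_natCast_atTop_atTop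
    exact ht.eventually_gt_atTop C
  obtain ⟨s, hs⟩ := (h1.and (h2.and (h3.and ((eventually_ge_atTop N₀).and
    (eventually_ge_atTop 2))))).exists
  exact ⟨s, hs.2.2.2.1, hs.2.2.2.2, hs.1, hs.2.1, hs.2.2.1⟩

/-- The negation of the preceding statement: There is a constant C such that for all large N, whenever the two-colour coalition has a winning strategy in the (2:1) game on K_N for a red or white K_q, then q is at most 2 log_3 N − 2 log_3 log_3 N + C. -/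
theorem result :
    ¬ (∃ C : ℝ, ∃ N₀ : ℕ, ∀ N : ℕ, N₀ ≤ N → ∀ q : ℕ,
    (∀ S : Set (Set (Fin N × Fin N) × Set (Fin N × Fin N) × Set (Fin N × Fin N)),
      (∀ R W B : Set (Fin N × Fin N),
        ((∃ e f : Fin N × Fin N, e.1 < e.2 ∧ f.1 < f.2 ∧ e ≠ f ∧ e ∉ R ∧ e ∉ W ∧ e ∉ B ∧
            f ∉ R ∧ f ∉ W ∧ f ∉ B ∧
            ((∃ K : Finset (Fin N), K.card = q ∧
                ∀ x ∈ K, ∀ y ∈ K, x < y → (x, y) ∈ insert e R) ∨
             (∃ K : Finset (Fin N), K.card = q ∧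
                ∀ x ∈ K, ∀ y ∈ K, x < y → (x, y) ∈ insert f W) ∨
             ((∃ g : Fin N × Fin N, g.1 < g.2 ∧ g ∉ R ∧ g ∉ W ∧ g ∉ B ∧ g ≠ e ∧ g ≠ f) ∧
              ∀ g : Fin N × Fin N, g.1 < g.2 → g ∉ R → g ∉ W → g ∉ B → g ≠ e → g ≠ f →
                (insert e R, insert f W, insert g B) ∈ S))) ∨
         (∃ e : Fin N × Fin N, e.1 < e.2 ∧ e ∉ R ∧ e ∉ W ∧ e ∉ B ∧
            (∀ f : Fin N × Fin N, f.1 < f.2 → f ∉ R → f ∉ W → f ∉ B → f = e) ∧
            ((∃ K : Finset (Fin N), K.card = q ∧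
                ∀ x ∈ K, ∀ y ∈ K, x < y → (x, y) ∈ insert e R) ∨
             (∃ K : Finset (Fin N), K.card = q ∧
                ∀ x ∈ K, ∀ y ∈ K, x < y → (x, y) ∈ insert e W)))) →
        (R, W, B) ∈ S) →
      ((∅ : Set (Fin N × Fin N)), (∅ : Set (Fin N × Fin N)), (∅ : Set (Fin N × Fin N))) ∈ S) →
    (q : ℝ) ≤ 2 * Real.logb 3 (N : ℝ) - 2 * Real.logb 3 (Real.logb 3 (N : ℝ)) + C) := by
  rintro ⟨C, N₀, H⟩
  obtain ⟨s, hsN, hs2, hs, hlog, hC⟩ := exists_s C N₀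
  have hpow : 1 ≤ 2 ^ (3 * s) := Nat.one_le_two_pow
  have hNle : s ≤ 2 * (4 * s * 2 ^ (3 * s)) := by
    calc s ≤ 2 * (4 * s * 1) := by omega
      _ ≤ 2 * (4 * s * 2 ^ (3 * s)) := Nat.mul_le_mul_left _ (Nat.mul_le_mul_left _ hpow)
  have h := H (2 * (4 * s * 2 ^ (3 * s))) (le_trans hsN hNle) (4 * s)
    (fun S hS => Pool.Agent.Lib.MP_88b929_co.coalition_wins hs hs2 S hS)
  -- numerical contradiction
  have hs1 : (2 : ℝ) ≤ (s : ℝ) := by exact_mod_cast hs2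
  have hcast : ((2 * (4 * s * 2 ^ (3 * s)) : ℕ) : ℝ) = (8 * (s : ℝ)) * 2 ^ (3 * s) := by
    push_cast; ring
  rw [hcast] at h
  have hlog3 : 1 < Real.log 3 := by
    rw [Real.lt_log_iff_exp_lt (by norm_num)]
    exact lt_trans Real.exp_one_lt_d9 (by norm_num)
  have hlog3pos : 0 < Real.log 3 := by linarith
  have hx : (0 : ℝ) < 8 * (s : ℝ) := by linarith
  have hy : (0 : ℝ) < (2 : ℝ) ^ (3 * s) := by positivity
  have hlogN : Real.log ((8 * (s : ℝ)) * 2 ^ (3 * s)) = Real.log (8 * s) + 3 * s * Real.log 2 := by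
    rw [Real.log_mul hx.ne' hy.ne', Real.log_pow]
    push_cast
    ring
  -- `log 2 / log 3 ≤ 7 / 11`
  have h23 : 11 * Real.log 2 ≤ 7 * Real.log 3 := by
    have h1 : Real.log ((2 : ℝ) ^ 11) ≤ Real.log ((3 : ℝ) ^ 7) :=
      Real.log_le_log (by norm_num) (by norm_num)
    rw [Real.log_pow, Real.log_pow] at h1
    exact_mod_cast h1
  have hlogx : 0 ≤ Real.log (8 * s) := Real.log_nonneg (by linarith)
  have hL : Real.logb 3 ((8 * (s : ℝ)) * 2 ^ (3 * s)) ≤ s / 22 + 3 * s * (7 / 11) := by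
    rw [Real.logb, hlogN, div_le_iff₀ hlog3pos]
    nlinarith
  have hone : 1 ≤ Real.logb 3 ((8 * (s : ℝ)) * 2 ^ (3 * s)) := by
    rw [Real.le_logb_iff_rpow_le (by norm_num) (by positivity), Real.rpow_one]
    have : (1 : ℝ) ≤ (2 : ℝ) ^ (3 * s) := one_le_pow₀ (by norm_num)
    nlinarith
  have hll : 0 ≤ Real.logb 3 (Real.logb 3 ((8 * (s : ℝ)) * 2 ^ (3 * s))) :=
    Real.logb_nonneg (by norm_num) hone
  have hq : ((4 * s : ℕ) : ℝ) = 4 * (s : ℝ) := by push_cast; ring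
  rw [hq] at h
  linarith

end Pool.Agent.S09950
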