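-- Hand-in for the frozen statement S10015 (problem MP_8be780_co).
import Pool.Statements.S10015
import Pool.Agent.Lib.MP_8be780_co.Main

set_option autoImplicit false
open N3e647761
open scoped Pointwise
open Pool Pool.MP_8be780_co

namespace Pool.Agent.S10015

/-- The real supremum over finite A ⊆ ℤ of log∣A−A∣/log∣A+A∣ (degenerate A give 0/0=0, harmless; set bounded by Freiman–Pigaev so sSup is genuine) is strictly less than 4/3. -/
theorem result :
    C3e < 4 / 3 := by
  have h : C3e ≤ 965 / 724 := by
    refine csSup_le ⟨_, ⟨∅, rfl⟩⟩ ?_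
    rintro _ ⟨A, rfl⟩
    exact Pool.Agent.Lib.MP_8be780_co.ratio_le A
  exact lt_of_le_of_lt h (by norm_num)

end Pool.Agent.S10015
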