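-- Proof of the statement: the Turan density of the complete 4-graph on five vertices is 11/16.
-- The lower bound is the known construction. For the upper bound, an identity of local functions of a
-- 4-graph, of the even 4-graphs near it and of the links of its vertices is verified row by row.
import Pool.Statements.S10819
import Pool.Agent.Lib.MP_afdd4d_co.K10.Main

set_option autoImplicit false
open Pool Pool.MP_afdd4d_co

namespace Pool.Agent.S10819

/-- The max number of edges in a 4-uniform hypergraph on n vertices with no 5 vertices spanning all their 4-sets, divided by C(n,4), tends to 11/16 as n grows. -/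
theorem result :
    ∀ ε : ℝ, 0 < ε → ∃ N : ℕ, ∀ n : ℕ, N ≤ n →
      (∃ H : Finset (Finset (Fin n)),
          (∀ e ∈ H, e.card = 4) ∧
          (∀ S : Finset (Fin n), S.card = 5 → ∃ e ∈ S.powersetCard 4, e ∉ H) ∧
          ((11 / 16 : ℝ) - ε) * ((n.choose 4 : ℕ) : ℝ) ≤ (H.card : ℝ)) ∧
      (∀ H : Finset (Finset (Fin n)),
          (∀ e ∈ H, e.card = 4) →
          (∀ S : Finset (Fin n), S.card = 5 → ∃ e ∈ S.powersetCard 4, e ∉ H) →
          (H.card : ℝ) ≤ ((11 / 16 : ℝ) + ε) * ((n.choose 4 : ℕ) : ℝ)) := by
  exact Pool.Agent.Lib.MP_afdd4d_co.K10.main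

end Pool.Agent.S10819
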