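import Pool.Statements.S11219
import Pool.Agent.Lib.MP_c11385_co.X.Final

set_option autoImplicit false
open Pool Pool.MP_c11385_co

namespace Pool.Agent.S11219

/-- There are ε>0 and C such that for every perfect matching on n ordered vertices whose edges all cross one cut point, any red/blue colouring of K_N with N ≥ C·n^(2−ε) has an order-preserving red copy of the matching or a blue triangle. -/
theorem result :
    ∃ ε : ℝ, 0 < ε ∧ ∃ C : ℝ, ∀ n : ℕ, ∀ M : SimpleGraph (Fin n),
      (∀ v : Fin n, ∃! w : Fin n, M.Adj v w) →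
      (∃ k : ℕ, ∀ i j : Fin n, M.Adj i j → (i.val < k ↔ k ≤ j.val)) →
      ∀ N : ℕ, C * (n : ℝ) ^ (2 - ε) ≤ (N : ℝ) →
        ∀ R : SimpleGraph (Fin N),
          (∃ f : Fin n → Fin N, StrictMono f ∧ ∀ i j : Fin n, M.Adj i j → R.Adj (f i) (f j)) ∨
          (∃ a b c : Fin N, a < b ∧ b < c ∧ ¬ R.Adj a b ∧ ¬ R.Adj b c ∧ ¬ R.Adj a c) :=
  OTree.final

end Pool.Agent.S11219
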