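import Pool.Statements.S11245
import Pool.Agent.Lib.MP_c21bd4_co.Final

set_option autoImplicit false
open Pool Pool.MP_c21bd4_co

namespace Pool.Agent.S11245

/-- For each q in (0,1)∪(1,32/27) there is an increasing sequence of self-dual negative intervals, with endpoints tending to q/v⁺ and v⁺, such that every 2-connected multigraph with ≥m edges and weights in I_m has (−1)^(n+α)Z > 0. -/
theorem result :
  ∀ q : ℝ, ((0 < q ∧ q < 1) ∨ (1 < q ∧ q < 32/27)) →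
  ∀ vp : ℝ, vp < 0 → vp ^ 3 - 2 * q * vp - q ^ 2 = 0 →
    (∃ w : ℝ, w < vp ∧ w ^ 3 - 2 * q * w - q ^ 2 = 0) →
  ∃ I : ℕ → Set ℝ,
    (∀ m : ℕ, 2 ≤ m → (I m).Nonempty ∧ (I m).OrdConnected ∧ BddBelow (I m) ∧
        I m ⊆ Set.Iio 0 ∧ ∀ v ∈ I m, q / v ∈ I m) ∧
    (∀ m : ℕ, 2 ≤ m → I m ⊆ I (m + 1)) ∧
    Filter.Tendsto (fun m => sInf (I m)) Filter.atTop (nhds (q / vp)) ∧
    Filter.Tendsto (fun m => sSup (I m)) Filter.atTop (nhds vp) ∧
    ∀ m : ℕ, 2 ≤ m → ∀ n N : ℕ, ∀ s t : Fin N → Fin n,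
      (∀ e, s e ≠ t e) → 2 ≤ N → m ≤ N →
      (SimpleGraph.fromRel fun x y => ∃ e, s e = x ∧ t e = y).Connected →
      (∀ u : Fin n, (SimpleGraph.induce {w : Fin n | w ≠ u}
          (SimpleGraph.fromRel fun x y => ∃ e, s e = x ∧ t e = y)).Connected) →
      ∀ v : Fin N → ℝ, (∀ e, v e ∈ I m) →
      0 < (-1 : ℝ) ^ (n + if q < 1 then 1 else 0) *
        ∑ A : Finset (Fin N),
          q ^ Nat.card (SimpleGraph.fromRel fun x y => ∃ e ∈ A, s e = x ∧ t e = y).ConnectedComponent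
            * ∏ e ∈ A, v e := by
  
  intro q hq vp hvp hroot hw
  exact Pool.Agent.Lib.MP_c21bd4_co.main_thm q hq vp hvp hroot hw

end Pool.Agent.S11245
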