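import Pool.Statements.S11260
import Pool.Agent.Lib.MP_c27c22_co.Config
import Pool.Agent.Lib.MP_c27c22_co.Homogenise
import Pool.Agent.Lib.MP_c27c22_co.Core

set_option autoImplicit false
open Pool Pool.MP_c27c22_co

namespace Pool.Agent.S11260

/-!
Proof outline.  For `n = 2k+4` the dimension is `3k` and there are `3k+6` relevant edges, so a
realization of `Δ_{2k+4,k}` has a Gale dual: one vector of `ℝ^5` for each relevant edge (`Gale`).
The relevant edges `(b+1,b+k+2)`, `(b,b+k+2)`, `(b,b+k+3)` are the letters `0,1,2` of block `b ≤ k`.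
For each reduced word of the longest element of `S_4` and each choice of six increasing blocks, the
complement of the six edges is a facet (`Cliques`, `RedWords`), which forces the five-by-five
minors of the six vectors to alternate in sign (`Config`).  By Ramsey's theorem we may suppose that
the signs of all minors, and all comparisons of the absolute values of the monomials of the
three-term Grassmann-Pluecker relations, depend only on the letters (`Homogenise`).  A finite
computation (`Core`, with the certificate in `Data`: 244 products of inequalities obtained from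
the Grassmann-Pluecker relations on words with 8 letters, 43 sign conditions of reduced words and
a propositional refutation tree with 25 leaves) shows that no such homogeneous configuration
exists.
-/

/-- The negation of the preceding statement: For all k≥1, n≥2k+2 the k-relevant edges of the n-gon can be placed in R^{k(n-2k-1)} so that a set of them is (k+1)-crossing-free exactly when its points are precisely the points on some supporting hyperplane of their convex hull. -/
theorem result :
    ¬ (∀ n k : ℕ, 1 ≤ k → 2 * k + 2 ≤ n →
      ∃ p : Fin n × Fin n → (Fin (k * (n - 2 * k - 1)) → ℝ),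
        ∀ S : Finset (Fin n × Fin n),
          (∀ e ∈ S, e.1 < e.2 ∧ k + 1 ≤ (e.2 : ℕ) - (e.1 : ℕ) ∧
              k + 1 ≤ n + (e.1 : ℕ) - (e.2 : ℕ)) →
          ((¬ ∃ T : Finset (Fin n × Fin n), T ⊆ S ∧ T.card = k + 1 ∧
                ∀ e ∈ T, ∀ f ∈ T, e ≠ f →
                  ((e.1 < f.1 ∧ f.1 < e.2 ∧ e.2 < f.2) ∨
                   (f.1 < e.1 ∧ e.1 < f.2 ∧ f.2 < e.2))) ↔
            ∃ w : Fin (k * (n - 2 * k - 1)) → ℝ, w ≠ 0 ∧ ∃ c : ℝ,
              ∀ e : Fin n × Fin n,
                (e.1 < e.2 ∧ k + 1 ≤ (e.2 : ℕ) - (e.1 : ℕ) ∧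
                  k + 1 ≤ n + (e.1 : ℕ) - (e.2 : ℕ)) →
                ((∑ i, w i * p e i) ≤ c ∧ ((∑ i, w i * p e i) = c ↔ e ∈ S)))) := by
  intro H
  obtain ⟨y, χ, κ, hy, h0⟩ := Pool.Agent.Lib.MP_c27c22_co.homogenise (fun k hk ↦ by
    obtain ⟨p, hp⟩ := H (2 * k + 4) k hk (by omega)
    exact Pool.Agent.Lib.MP_c27c22_co.exists_config k hk p hp)
  exact Pool.Agent.Lib.MP_c27c22_co.core y χ κ hy h0
end Pool.Agent.S11260
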