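import Pool.Statements.S11735
import Pool.Agent.Lib.MP_d7b81d_co.Linear

set_option autoImplicit false
open Pool Pool.MP_d7b81d_co

namespace Pool.Agent.S11735

/-- For every d ≥ 1, any 2d+1 distinct points in R^d split into two nonempty parts whose convex hulls meet, with the intersection's affine dimension at least the smaller of the two hulls' dimensions. -/
theorem result :
    ∀ d : ℕ, 1 ≤ d →
      ∀ S : Finset (EuclideanSpace ℝ (Fin d)), S.card = 2 * d + 1 →
        ∃ S₁ S₂ : Finset (EuclideanSpace ℝ (Fin d)),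
          S₁ ∪ S₂ = S ∧ Disjoint S₁ S₂ ∧ S₁.Nonempty ∧ S₂.Nonempty ∧
          (convexHull ℝ (S₁ : Set (EuclideanSpace ℝ (Fin d))) ∩
            convexHull ℝ (S₂ : Set (EuclideanSpace ℝ (Fin d)))).Nonempty ∧
          min (Module.finrank ℝ
                (vectorSpan ℝ (convexHull ℝ (S₁ : Set (EuclideanSpace ℝ (Fin d))))))
              (Module.finrank ℝ
                (vectorSpan ℝ (convexHull ℝ (S₂ : Set (EuclideanSpace ℝ (Fin d))))))
            ≤ Module.finrank ℝ
                (vectorSpan ℝ (convexHull ℝ (S₁ : Set (EuclideanSpace ℝ (Fin d))) ∩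
                  convexHull ℝ (S₂ : Set (EuclideanSpace ℝ (Fin d))))) := by
  classical
  intro d hd S hS
  let v : EuclideanSpace ℝ (Fin d) → EuclideanSpace ℝ (Fin d) × ℝ := fun x => (x, 1)
  have hinj : Function.Injective v := fun x y hxy => (Prod.mk.inj hxy).1
  have hrk : Pool.Agent.Lib.MP_d7b81d_co.rk v S ≤ d + 1 := by
    have h1 := Submodule.finrank_le
      (Submodule.span ℝ (v '' (S : Set (EuclideanSpace ℝ (Fin d)))))
    rw [Module.finrank_prod, finrank_euclideanSpace_fin, Module.finrank_self] at h1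
    exact h1
  obtain ⟨A, B, w, hAS, hBS, hAB, hBne, hwA, hwB, hsum, hspan⟩ :=
    Pool.Agent.Lib.MP_d7b81d_co.thmL v (LinearMap.snd ℝ _ ℝ) hinj S.card S rfl
      (fun x _ => rfl) (by omega) (by omega)
  have hs1 : ∑ x ∈ A, w x • x = ∑ x ∈ B, w x • x := by
    have := congrArg Prod.fst hsum
    rw [Prod.fst_sum, Prod.fst_sum] at this
    exact this
  have hs2 : ∑ x ∈ A, w x = ∑ x ∈ B, w x := by
    have := congrArg Prod.snd hsum
    rw [Prod.snd_sum, Prod.snd_sum] at this
    simpa [v] using this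
  set W : ℝ := ∑ x ∈ B, w x with hW
  have hWpos : 0 < W := Finset.sum_pos hwB hBne
  have hAne : A.Nonempty := by
    by_contra hne
    rw [Finset.not_nonempty_iff_eq_empty] at hne
    rw [hne, Finset.sum_empty] at hs2
    linarith
  have hA1 : A ⊆ S \ B := fun x hx => Finset.mem_sdiff.mpr
    ⟨hAS hx, fun hxB => Finset.disjoint_left.mp hAB hx hxB⟩
  have hcA : ∀ x ∈ A, x ∈ convexHull ℝ ((S \ B : Finset _) : Set (EuclideanSpace ℝ (Fin d))) :=
    fun x hx => subset_convexHull ℝ _ (by exact_mod_cast hA1 hx)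
  have hcB : ∀ x ∈ B, x ∈ convexHull ℝ (B : Set (EuclideanSpace ℝ (Fin d))) :=
    fun x hx => subset_convexHull ℝ _ (by exact_mod_cast hx)
  obtain ⟨z, hz⟩ : ∃ z, z = W⁻¹ • ∑ x ∈ B, w x • x := ⟨_, rfl⟩
  have hzB : z ∈ convexHull ℝ (B : Set (EuclideanSpace ℝ (Fin d))) := by
    rw [hz, Finset.smul_sum]
    simp only [smul_smul]
    apply (convex_convexHull ℝ _).sum_mem
    · intro i hi; exact mul_nonneg (inv_nonneg.mpr hWpos.le) (hwB i hi).le
    · rw [← Finset.mul_sum, ← hW, inv_mul_cancel₀ hWpos.ne']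
    · exact hcB
  have hzA : z ∈ convexHull ℝ ((S \ B : Finset _) : Set (EuclideanSpace ℝ (Fin d))) := by
    rw [hz, ← hs1, Finset.smul_sum]
    simp only [smul_smul]
    apply (convex_convexHull ℝ _).sum_mem
    · intro i hi; exact mul_nonneg (inv_nonneg.mpr hWpos.le) (hwA i hi).le
    · rw [← Finset.mul_sum, hs2, inv_mul_cancel₀ hWpos.ne']
    · exact hcA
  refine ⟨S \ B, B, ?_, ?_, ?_, hBne, ⟨z, hzA, hzB⟩, ?_⟩
  · exact Finset.sdiff_union_of_subset hBS
  · exact Finset.sdiff_disjoint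
  · exact hAne.mono hA1
  refine (min_le_right _ _).trans ?_
  apply Submodule.finrank_mono
  set D := vectorSpan ℝ (convexHull ℝ ((S \ B : Finset _) : Set (EuclideanSpace ℝ (Fin d))) ∩
                  convexHull ℝ (B : Set (EuclideanSpace ℝ (Fin d)))) with hD
  have key : ∀ b ∈ B, b - z ∈ D := by
    intro b hb
    have h1 := hspan b hb
    rw [Submodule.mem_span_image_finset_iff_exists_fun'] at h1
    obtain ⟨β, hβ⟩ := h1
    have hβ1 : ∑ x ∈ A, β x • x = b := by
      have := congrArg Prod.fst hβ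
      rw [Prod.fst_sum] at this
      exact this
    have hβ2 : ∑ x ∈ A, β x = 1 := by
      have := congrArg Prod.snd hβ
      rw [Prod.snd_sum] at this
      simpa [v] using this
    obtain ⟨t, ht0, ht⟩ : ∃ t : ℝ, 0 ≤ t ∧ ∀ a ∈ A, 0 ≤ t * w a + β a := by
      refine ⟨∑ a ∈ A, |β a| / w a, Finset.sum_nonneg (fun a ha =>
        div_nonneg (abs_nonneg _) (hwA a ha).le), ?_⟩
      intro a ha
      have h2 : |β a| / w a ≤ ∑ a ∈ A, |β a| / w a :=
        Finset.single_le_sum (f := fun a => |β a| / w a)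
          (fun a ha => div_nonneg (abs_nonneg _) (hwA a ha).le) ha
      have h3 : |β a| ≤ (∑ a ∈ A, |β a| / w a) * w a := by
        rwa [div_le_iff₀ (hwA a ha)] at h2
      have h4 := neg_abs_le (β a)
      linarith
    have hT : 0 < t * W + 1 := by positivity
    obtain ⟨q, hq⟩ : ∃ q, q = (t * W + 1)⁻¹ • ((t * W) • z + b) := ⟨_, rfl⟩
    have hqB : q ∈ convexHull ℝ (B : Set (EuclideanSpace ℝ (Fin d))) := by
      have h5 : q = ((t * W + 1)⁻¹ * (t * W)) • z + (t * W + 1)⁻¹ • b := by
        rw [hq, smul_add, smul_smul]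
      rw [h5]
      apply (convex_convexHull ℝ _) hzB (hcB b hb)
      · positivity
      · positivity
      · field_simp
    have hqA : q ∈ convexHull ℝ ((S \ B : Finset _) : Set (EuclideanSpace ℝ (Fin d))) := by
      have h5 : q = ∑ x ∈ A, ((t * W + 1)⁻¹ * (t * w x + β x)) • x := by
        rw [hq, hz, ← hs1, ← hβ1]
        rw [smul_smul, mul_assoc, mul_inv_cancel₀ hWpos.ne', mul_one, Finset.smul_sum,
          ← Finset.sum_add_distrib, Finset.smul_sum]
        apply Finset.sum_congr rfl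
        intro x _
        rw [smul_smul, ← add_smul, smul_smul]
      rw [h5]
      apply (convex_convexHull ℝ _).sum_mem
      · intro i hi; exact mul_nonneg (inv_nonneg.mpr hT.le) (ht i hi)
      · rw [← Finset.mul_sum, Finset.sum_add_distrib, ← Finset.mul_sum, hs2, hβ2,
          inv_mul_cancel₀ hT.ne']
      · exact hcA
    have hqz : q -ᵥ z ∈ D := vsub_mem_vectorSpan ℝ ⟨hqA, hqB⟩ ⟨hzA, hzB⟩
    have h6 : b - z = (t * W + 1) • (q -ᵥ z) := by
      rw [vsub_eq_sub, smul_sub, hq, smul_smul, mul_inv_cancel₀ hT.ne', one_smul, add_smul,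
        one_smul]
      abel
    rw [h6]
    exact D.smul_mem _ hqz
  rw [← direction_affineSpan, affineSpan_convexHull, direction_affineSpan, vectorSpan_def,
    Submodule.span_le]
  rintro _ ⟨b, hb, b', hb', rfl⟩
  have h7 := D.sub_mem (key b hb) (key b' hb')
  have h8 : b -ᵥ b' = (b - z) - (b' - z) := by rw [vsub_eq_sub]; abel
  show b -ᵥ b' ∈ D
  rw [h8]
  exact h7

end Pool.Agent.S11735
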