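import Pool.Statements.S12783

set_option autoImplicit false
open Pool Pool.MP_133c96_gt

namespace Pool.Agent.S12783

open Set

/-- Countable closure of the empty set under finitary countable-valued operations. -/
lemma exists_countable_closed {α : Type*} (Φ : (n : ℕ) → (Fin n → α) → Set α)
    (hΦ : ∀ n v, (Φ n v).Countable) :
    ∃ S : Set α, S.Countable ∧ ∀ n (v : Fin n → α), (∀ i, v i ∈ S) → Φ n v ⊆ S := by
  classical
  let step : Set α → Set α := fun S => S ∪ ⋃ (n : ℕ), ⋃ (v : Fin n → S), Φ n (fun i => (v i : α))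
  obtain ⟨T, hT0, hTs⟩ : ∃ T : ℕ → Set α, T 0 = ∅ ∧ ∀ k, T (k+1) = step (T k) :=
    ⟨fun k => Nat.rec ∅ (fun _ S => step S) k, rfl, fun _ => rfl⟩
  have hcount : ∀ k, (T k).Countable := by
    intro k
    induction k with
    | zero => rw [hT0]; exact Set.countable_empty
    | succ k ih =>
      rw [hTs]
      have hcT : Countable ↥(T k) := Set.Countable.to_subtype ih
      have hcF : ∀ n : ℕ, Countable (Fin n → ↥(T k)) := fun n => inferInstance
      refine ih.union ?_
      refine Set.countable_iUnion fun n => ?_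
      exact Set.countable_iUnion fun v => hΦ _ _
  have hmono : Monotone T := by
    apply monotone_nat_of_le_succ
    intro k
    rw [hTs]
    exact Set.subset_union_left
  refine ⟨⋃ k, T k, Set.countable_iUnion hcount, ?_⟩
  intro n v hv
  have hv' : ∀ i, ∃ k, v i ∈ T k := fun i => Set.mem_iUnion.1 (hv i)
  choose k hk using hv'
  let m := Finset.univ.sup k
  have hm : ∀ i, v i ∈ T m := fun i => hmono (Finset.le_sup (Finset.mem_univ i)) (hk i)
  refine Set.Subset.trans ?_ (Set.subset_iUnion T (m+1))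
  rw [hTs]
  refine Set.Subset.trans ?_ Set.subset_union_right
  refine Set.Subset.trans ?_ (Set.subset_iUnion _ n)
  exact Set.subset_iUnion_of_subset (fun i => ⟨v i, hm i⟩) (by simp)

/-- A scattered space has an injective rank function with open initial segments. -/
lemma exists_rank {K : Type} [TopologicalSpace K]
    (hs : ∀ S : Set K, S.Nonempty → ∃ x ∈ S, ∃ U : Set K, IsOpen U ∧ U ∩ S = {x}) :
    ∃ ρ : K → Ordinal.{0}, Function.Injective ρ ∧ ∀ β, IsOpen {y | ρ y ≤ β} := by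
  classical
  rcases isEmpty_or_nonempty K with hK | hK
  · refine ⟨fun x => (hK.false x).elim, fun x => (hK.false x).elim, fun β => ?_⟩
    have : {y : K | (fun x => (hK.false x).elim : K → Ordinal.{0}) y ≤ β} = ∅ :=
      Set.eq_empty_of_isEmpty _
    rw [this]; exact isOpen_empty
  have hex : ∀ S : Set K, ∃ x, S.Nonempty → x ∈ S ∧ ∃ U : Set K, IsOpen U ∧ U ∩ S = {x} := by
    intro S
    by_cases h : S.Nonempty
    · obtain ⟨x, hx, U, hU⟩ := hs S h
      exact ⟨x, fun _ => ⟨hx, U, hU⟩⟩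
    · exact ⟨Classical.arbitrary K, fun h' => absurd h' h⟩
  choose p hp using hex
  let g : Ordinal.{0} → K := WellFounded.fix (r := (· < ·)) (C := fun _ => K)
    (IsWellFounded.wf) (fun α ih => p ({x | ∃ β, ∃ h : β < α, ih β h = x}ᶜ))
  have hg : ∀ α, g α = p ((g '' Set.Iio α)ᶜ) := by
    intro α
    have h1 : g α = p ({x | ∃ β, ∃ _ : β < α, g β = x}ᶜ) := WellFounded.fix_eq _ _ _
    rw [h1]
    congr 2
    ext x
    simp [Set.mem_image]
  have hopen : ∀ α, IsOpen (g '' Set.Iio α) := by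
    intro α
    induction α using WellFoundedLT.induction with
    | ind α ih =>
      have hU : ∀ β < α, ∃ U : Set K, IsOpen U ∧ g β ∈ U ∧ U ⊆ g '' Set.Iio α := by
        intro β hβ
        by_cases hne : ((g '' Set.Iio β)ᶜ).Nonempty
        · obtain ⟨hmem, U, hUo, hUS⟩ := hp _ hne
          rw [← hg] at hmem hUS
          refine ⟨U, hUo, ?_, ?_⟩
          · have : g β ∈ U ∩ (g '' Set.Iio β)ᶜ := by rw [hUS]; exact Set.mem_singleton _
            exact this.1
          · intro y hy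
            by_cases hy' : y ∈ g '' Set.Iio β
            · exact Set.image_mono (Set.Iio_subset_Iio hβ.le) hy'
            · have : y ∈ U ∩ (g '' Set.Iio β)ᶜ := ⟨hy, hy'⟩
              rw [hUS] at this
              rw [Set.mem_singleton_iff.1 this]
              exact Set.mem_image_of_mem _ hβ
        · have huniv : g '' Set.Iio β = Set.univ := by
            rw [Set.not_nonempty_iff_eq_empty] at hne
            rw [← compl_compl (g '' Set.Iio β), hne, Set.compl_empty]
          refine ⟨Set.univ, isOpen_univ, Set.mem_univ _, ?_⟩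
          rw [← huniv]
          exact Set.image_mono (Set.Iio_subset_Iio hβ.le)
      rw [isOpen_iff_forall_mem_open]
      rintro x ⟨β, hβ, rfl⟩
      obtain ⟨U, hUo, hmem, hsub⟩ := hU β hβ
      exact ⟨U, hsub, hUo, hmem⟩
  have hsurj : ∀ x, ∃ α, g α = x := by
    by_contra hcon
    push Not at hcon
    obtain ⟨x, hx⟩ := hcon
    refine not_injective_of_ordinal g ?_
    have hne : ∀ α, ((g '' Set.Iio α)ᶜ).Nonempty := by
      intro α
      refine ⟨x, ?_⟩
      rintro ⟨β, _, hβ⟩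
      exact hx β hβ
    have hlt : ∀ α β, β < α → g β ≠ g α := by
      intro α β hβ heq
      have h1 := (hp _ (hne α)).1
      rw [← hg] at h1
      exact h1 ⟨β, hβ, heq⟩
    intro α β hab
    rcases lt_trichotomy α β with h | h | h
    · exact absurd hab (hlt _ _ h)
    · exact h
    · exact absurd hab.symm (hlt _ _ h)
  let ρ : K → Ordinal.{0} := fun x => sInf {α | g α = x}
  have hρ : ∀ x, g (ρ x) = x := fun x => csInf_mem (s := {α | g α = x}) (hsurj x)
  refine ⟨ρ, fun x y hxy => by rw [← hρ x, ← hρ y, hxy], fun β => ?_⟩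
  have : {y | ρ y ≤ β} = g '' Set.Iio (Order.succ β) := by
    ext y
    simp only [Set.mem_ofPred_eq, Set.mem_image, Set.mem_Iio, Order.lt_succ_iff]
    constructor
    · intro h
      exact ⟨ρ y, h, hρ y⟩
    · rintro ⟨γ, hγ, rfl⟩
      exact le_trans (csInf_le' rfl) hγ
  rw [this]
  exact hopen _

/-- Nonempty compact sets have points of maximal rank. -/
lemma exists_max {K : Type} [TopologicalSpace K] (ρ : K → Ordinal.{0})
    (hρ : ∀ β, IsOpen {y | ρ y ≤ β}) (b : Set K) (hb : IsCompact b) (hne : b.Nonempty) :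
    ∃ x ∈ b, ∀ y ∈ b, ρ y ≤ ρ x := by
  classical
  obtain ⟨t, htb, hcov⟩ := hb.elim_finite_subcover_image (b := b) (c := fun x => {y | ρ y ≤ ρ x})
    (fun x _ => hρ _) (fun x hx => Set.mem_biUnion hx (le_refl (ρ x)))
  obtain ⟨htf, hcov⟩ := hcov
  have htne : t.Nonempty := by
    obtain ⟨y, hy⟩ := hne
    obtain ⟨x, hx, _⟩ := Set.mem_iUnion₂.1 (hcov hy)
    exact ⟨x, hx⟩
  obtain ⟨x, hx, hmax⟩ := Set.exists_max_image t ρ htf htne
  refine ⟨x, htb hx, fun y hy => ?_⟩
  obtain ⟨z, hz, hyz⟩ := Set.mem_iUnion₂.1 (hcov hy)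
  exact le_trans hyz (hmax z hz)

/-- A scattered Hausdorff (even T1) space is totally disconnected. -/
lemma totallyDisconnected_of_scattered {K : Type} [TopologicalSpace K] [T2Space K]
    (hs : ∀ S : Set K, S.Nonempty → ∃ x ∈ S, ∃ U : Set K, IsOpen U ∧ U ∩ S = {x}) :
    TotallyDisconnectedSpace K := by
  refine ⟨fun S _ hS => ?_⟩
  intro a ha b hb
  by_contra hab
  obtain ⟨x, hx, U, hU, hUS⟩ := hs S ⟨a, ha⟩
  have hxU : x ∈ U := by
    have : x ∈ U ∩ S := by rw [hUS]; exact Set.mem_singleton _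
    exact this.1
  have h2 : (S ∩ {x}ᶜ).Nonempty := by
    by_cases hax : a = x
    · refine ⟨b, hb, fun h => hab ?_⟩
      rw [hax, Set.mem_singleton_iff.1 h]
    · exact ⟨a, ha, hax⟩
  have hcover : S ⊆ U ∪ {x}ᶜ := by
    intro y _
    by_cases hy : y = x
    · left; rw [hy]; exact hxU
    · right; exact hy
  obtain ⟨z, hzS, hzU, hzx⟩ := hS U {x}ᶜ hU isOpen_compl_singleton hcover ⟨x, hx, hxU⟩ h2
  have : z ∈ U ∩ S := ⟨hzU, hzS⟩
  rw [hUS] at this
  exact hzx this

theorem result :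
    ∀ (K : Type) [TopologicalSpace K] [CompactSpace K] [T2Space K]
      (X : Type) [tX : TopologicalSpace X] (e : X ≃ K),
      (∀ S : Set K, S.Nonempty → ∃ x ∈ S, ∃ U : Set K, IsOpen U ∧ U ∩ S = {x}) →
      tX = TopologicalSpace.generateFrom
        {S : Set X | ∃ U : ℕ → Set K, (∀ n, IsOpen (U n)) ∧ S = e ⁻¹' (⋂ n, U n)} →
      ∀ F : (n : ℕ) → Set (Fin n → X), (∀ n, IsClosed (F n)) →
        ∃ f : X → X, Continuous f ∧
          (∃ N : Set (Set X), N.Countable ∧
            ∀ x ∈ Set.range f, ∀ U : Set X, IsOpen U → x ∈ U →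
              ∃ A ∈ N, x ∈ A ∧ A ⊆ Set.range f ∩ U) ∧
          ∀ n : ℕ, ∀ x ∈ F n, (fun i => f (x i)) ∈ F n := by
  classical
  intro K _ _ _ X tX e hs htX F hF
  rcases isEmpty_or_nonempty K with hK | hK
  · have hX : IsEmpty X := e.isEmpty
    exact ⟨id, continuous_id, ⟨∅, Set.countable_empty, fun x => (hX.false x).elim⟩,
      fun n x hx => hx⟩
  have htd := totallyDisconnected_of_scattered hs
  obtain ⟨ρ, hρinj, hρ⟩ := exists_rank hs
  -- neighbourhoods in the omega-modification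
  have hnhds : ∀ V : Set X, IsOpen V → ∀ x ∈ V, ∃ c : ℕ → Set K,
      (∀ m, IsClopen (c m) ∧ e x ∈ c m) ∧ e ⁻¹' (⋂ m, c m) ⊆ V := by
    intro V hV
    rw [htX] at hV
    change TopologicalSpace.GenerateOpen _ V at hV
    induction hV with
    | basic V hV =>
      obtain ⟨U, hU, rfl⟩ := hV
      intro x hx
      have hx' : ∀ n, e x ∈ U n := by
        intro n
        exact Set.mem_iInter.1 hx n
      have hc : ∀ n, ∃ c : Set K, IsClopen c ∧ e x ∈ c ∧ c ⊆ U n := fun n =>
        compact_exists_isClopen_in_isOpen (hU n) (hx' n)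
      choose c hc1 hc2 hc3 using hc
      refine ⟨c, fun m => ⟨hc1 m, hc2 m⟩, ?_⟩
      exact Set.preimage_mono (Set.iInter_mono hc3)
    | univ => intro x _; exact ⟨fun _ => Set.univ, fun m => ⟨isClopen_univ, Set.mem_univ _⟩,
        Set.subset_univ _⟩
    | inter V W _ _ ihV ihW =>
      intro x hx
      obtain ⟨c, hc, hcV⟩ := ihV x hx.1
      obtain ⟨d, hd, hdW⟩ := ihW x hx.2
      refine ⟨fun m => c m ∩ d m, fun m => ⟨(hc m).1.inter (hd m).1, (hc m).2, (hd m).2⟩, ?_⟩
      refine Set.subset_inter (Set.Subset.trans ?_ hcV) (Set.Subset.trans ?_ hdW)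
      · exact Set.preimage_mono (Set.iInter_mono fun m => Set.inter_subset_left)
      · exact Set.preimage_mono (Set.iInter_mono fun m => Set.inter_subset_right)
    | sUnion S _ ih =>
      rintro x ⟨V, hVS, hxV⟩
      obtain ⟨c, hc, hcV⟩ := ih V hVS x hxV
      exact ⟨c, hc, hcV.trans (Set.subset_sUnion_of_mem hVS)⟩
  -- boxes missing F n
  have hbox : ∀ n (y : Fin n → K), ∃ c : Fin n → ℕ → Set K,
      (∀ i m, IsClopen (c i m)) ∧ ((fun i => e.symm (y i)) ∉ F n →
        (∀ i m, y i ∈ c i m) ∧ ∀ x ∈ F n, ¬ ∀ i m, e (x i) ∈ c i m) := by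
    intro n y
    by_cases hy : (fun i => e.symm (y i)) ∈ F n
    · exact ⟨fun _ _ => Set.univ, fun _ _ => isClopen_univ, fun h => absurd hy h⟩
    · have ho : IsOpen (F n)ᶜ := (hF n).isOpen_compl
      rw [isOpen_pi_iff'] at ho
      obtain ⟨V, hV, hVF⟩ := ho _ hy
      have hc : ∀ i, ∃ c : ℕ → Set K, (∀ m, IsClopen (c m) ∧ e (e.symm (y i)) ∈ c m) ∧
          e ⁻¹' (⋂ m, c m) ⊆ V i := fun i => hnhds (V i) (hV i).1 _ (hV i).2
      choose c hc1 hc2 using hc
      refine ⟨c, fun i m => (hc1 i m).1, fun _ => ⟨fun i m => by simpa using (hc1 i m).2, ?_⟩⟩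
      intro x hx hall
      have : x ∈ (F n)ᶜ := hVF (fun i _ => hc2 i (Set.mem_iInter.2 fun m => hall i m))
      exact this hx
  choose C hCclopen hC using hbox
  -- maxima
  have hmx : ∀ b : Set K, ∃ x, IsClopen b → b.Nonempty → x ∈ b ∧ ∀ y ∈ b, ρ y ≤ ρ x := by
    intro b
    by_cases h : IsClopen b ∧ b.Nonempty
    · obtain ⟨x, hx, hmax⟩ := exists_max ρ hρ b h.1.1.isCompact h.2
      exact ⟨x, fun _ _ => ⟨hx, hmax⟩⟩
    · exact ⟨Classical.arbitrary K, fun h1 h2 => absurd ⟨h1, h2⟩ h⟩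
  choose mx hmx using hmx
  -- the countable algebra of clopen sets
  obtain ⟨B₀, hB₀count, hB₀⟩ := exists_countable_closed (α := Set K)
    (fun n v => {Set.univ} ∪ (⋃ i, {(v i)ᶜ}) ∪ (⋃ i, ⋃ j, {v i ∩ v j}) ∪
      (⋃ i, ⋃ m, {C n (fun i => mx (v i)) i m}))
    (by
      intro n v
      refine ((Set.Countable.union ?_ ?_).union ?_).union ?_
      · exact Set.countable_singleton _
      · exact Set.countable_iUnion fun i => Set.countable_singleton _
      · exact Set.countable_iUnion fun i => Set.countable_iUnion fun j => Set.countable_singleton _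
      · exact Set.countable_iUnion fun i => Set.countable_iUnion fun j => Set.countable_singleton _)
  let B : Set (Set K) := {b | b ∈ B₀ ∧ IsClopen b}
  have hBcount : B.Countable := hB₀count.mono fun b hb => hb.1
  have hBuniv : Set.univ ∈ B := by
    refine ⟨hB₀ 0 Fin.elim0 (fun i => i.elim0) ?_, isClopen_univ⟩
    simp
  have hBcompl : ∀ b ∈ B, bᶜ ∈ B := by
    intro b hb
    refine ⟨hB₀ 1 (fun _ => b) (fun i => hb.1) ?_, hb.2.compl⟩
    simp
  have hBinter : ∀ b ∈ B, ∀ c ∈ B, b ∩ c ∈ B := by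
    intro b hb c hc
    refine ⟨hB₀ 2 ![b, c] (fun i => ?_) ?_, hb.2.inter hc.2⟩
    · fin_cases i
      · exact hb.1
      · exact hc.1
    · left; right
      refine Set.mem_iUnion.2 ⟨0, Set.mem_iUnion.2 ⟨1, ?_⟩⟩
      simp
  have hBsep : ∀ n (v : Fin n → Set K), (∀ i, v i ∈ B) → ∀ i m,
      C n (fun i => mx (v i)) i m ∈ B := by
    intro n v hv i m
    refine ⟨hB₀ n v (fun i => (hv i).1) ?_, hCclopen _ _ _ _⟩
    right
    exact Set.mem_iUnion.2 ⟨i, Set.mem_iUnion.2 ⟨m, rfl⟩⟩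
  -- the retraction
  have hmin : ∀ x : K, ∃ b ∈ B, x ∈ b ∧ ∀ c ∈ B, x ∈ c → ρ (mx b) ≤ ρ (mx c) := by
    intro x
    let A : Set Ordinal.{0} := {α | ∃ b ∈ B, x ∈ b ∧ ρ (mx b) = α}
    have hA : A.Nonempty := ⟨ρ (mx Set.univ), Set.univ, hBuniv, Set.mem_univ _, rfl⟩
    obtain ⟨b, hb, hxb, hρb⟩ := csInf_mem hA
    refine ⟨b, hb, hxb, fun c hc hxc => ?_⟩
    rw [hρb]
    exact csInf_le' ⟨c, hc, hxc, rfl⟩
  choose s hsB hxs hsmin using hmin
  let r : K → K := fun x => mx (s x)
  have hr1 : ∀ x, ∀ c ∈ B, x ∈ c → r x ∈ c := by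
    intro x c hc hxc
    have h1 : x ∈ s x ∩ c := ⟨hxs x, hxc⟩
    have h2 := hBinter _ (hsB x) c hc
    have h3 := hmx _ h2.2 ⟨x, h1⟩
    have h4 := hmx _ (hsB x).2 ⟨x, hxs x⟩
    have h5 : ρ (mx (s x)) ≤ ρ (mx (s x ∩ c)) := hsmin x _ h2 h1
    have h6 : ρ (mx (s x ∩ c)) ≤ ρ (mx (s x)) := h4.2 _ h3.1.1
    have h7 : mx (s x) = mx (s x ∩ c) := hρinj (le_antisymm h5 h6)
    change mx (s x) ∈ c
    rw [h7]
    exact h3.1.2
  have hr2 : ∀ x, ∀ c ∈ B, r x ∈ c → x ∈ c := by
    intro x c hc hrc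
    by_contra hx
    exact hr1 x cᶜ (hBcompl c hc) hx hrc
  have hr3 : ∀ x y, (∀ c ∈ B, x ∈ c ↔ y ∈ c) → r x = r y := by
    intro x y hxy
    apply hρinj
    apply le_antisymm
    · exact hsmin x _ (hsB y) ((hxy _ (hsB y)).2 (hxs y))
    · exact hsmin y _ (hsB x) ((hxy _ (hsB x)).1 (hxs x))
  refine ⟨fun x => e.symm (r (e x)), ?_, ?_, ?_⟩
  · -- continuity
    obtain ⟨b, hb⟩ := hBcount.exists_eq_range ⟨_, hBuniv⟩
    rw [continuous_def]
    intro V _
    rw [isOpen_iff_forall_mem_open]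
    intro x hx
    refine ⟨e ⁻¹' (⋂ n, (if e x ∈ b n then b n else (b n)ᶜ)), ?_, ?_, ?_⟩
    · intro y hy
      have hy' : ∀ n, e y ∈ (if e x ∈ b n then b n else (b n)ᶜ) := fun n =>
        Set.mem_iInter.1 hy n
      have hxy : ∀ c ∈ B, e y ∈ c ↔ e x ∈ c := by
        intro c hc
        rw [hb] at hc
        obtain ⟨n, rfl⟩ := hc
        have := hy' n
        by_cases h : e x ∈ b n
        · rw [if_pos h] at this
          exact ⟨fun _ => h, fun _ => this⟩
        · rw [if_neg h] at this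
          exact ⟨fun h' => absurd h' this, fun h' => absurd h' h⟩
      change e.symm (r (e y)) ∈ V
      rw [hr3 _ _ hxy]
      exact hx
    · rw [htX]
      refine TopologicalSpace.isOpen_generateFrom_of_mem ⟨_, ?_, rfl⟩
      intro n
      have hbn : b n ∈ B := by rw [hb]; exact Set.mem_range_self n
      split_ifs
      · exact hbn.2.isOpen
      · exact hbn.2.compl.isOpen
    · refine Set.mem_iInter.2 fun n => ?_
      by_cases h : e x ∈ b n
      · simp [h]
      · simp [h]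
  · -- countable network
    refine ⟨(fun x => {x}) '' Set.range (fun x => e.symm (r (e x))), ?_, ?_⟩
    · refine Set.Countable.image ?_ _
      refine (hBcount.image (fun b => e.symm (mx b))).mono ?_
      rintro _ ⟨x, rfl⟩
      exact ⟨s (e x), hsB _, rfl⟩
    · intro x hx U _ hxU
      refine ⟨{x}, Set.mem_image_of_mem _ hx, rfl, ?_⟩
      rintro y rfl
      exact ⟨hx, hxU⟩
  · intro n x hx
    by_contra hcon
    have h1 := hC n (fun i => r (e (x i))) hcon
    refine h1.2 x hx fun i m => ?_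
    exact hr2 _ _ (hBsep n (fun i => s (e (x i))) (fun i => hsB _) i m) (h1.1 i m)

end Pool.Agent.S12783
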