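import Pool.Statements.S12910
import Pool.Agent.Lib.MP_26fc11_gt.Final

set_option autoImplicit false
open Pool Pool.MP_26fc11_gt

namespace Pool.Agent.S12910

/-- The negation of the preceding statement: There is an absolute constant C such that for every n ≥ 1 and every centrally symmetric convex body K in R^n, some unit direction u has vol of the polar of the Steiner symmetral of K along u at most C times vol of the polar of K. -/
theorem result :
    ¬ (∃ C : ℝ, ∀ n : ℕ, 1 ≤ n → ∀ K : Set (EuclideanSpace ℝ (Fin n)),
      IsCompact K → Convex ℝ K → (interior K).Nonempty → (∀ x ∈ K, -x ∈ K) →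
      ∃ u : EuclideanSpace ℝ (Fin n), ‖u‖ = 1 ∧
        MeasureTheory.volume
          {y : EuclideanSpace ℝ (Fin n) |
            ∀ x ∈ {z : EuclideanSpace ℝ (Fin n) |
                (∃ s : ℝ, z + s • u ∈ K) ∧
                ENNReal.ofReal (2 * |inner ℝ z u|) ≤
                  MeasureTheory.volume {s : ℝ | z + s • u ∈ K}},
              inner ℝ x y ≤ (1 : ℝ)}
        ≤ ENNReal.ofReal C *
          MeasureTheory.volume
            {y : EuclideanSpace ℝ (Fin n) | ∀ x ∈ K, inner ℝ x y ≤ (1 : ℝ)}) := by
  exact Pool.Agent.Lib.MP_26fc11_gt.disproof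

end Pool.Agent.S12910
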