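import Pool.Statements.S13721
import Pool.Agent.Lib.MP_a813f9_gt.Full

set_option autoImplicit false
open Pool Pool.MP_a813f9_gt

namespace Pool.Agent.S13721

/-- For countable groups G, H with proper left-invariant metrics and a homomorphism f from G to H, if H and ker f (subspace metric) have asymptotic property C, then G has asymptotic property C. -/
theorem result :
  ∀ (G H : Type) [Group G] [Group H] [Countable G] [Countable H]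
    (f : G →* H) (dG : G → G → ℝ) (dH : H → H → ℝ),
    (∀ x, dG x x = 0) → (∀ x y, dG x y = dG y x) →
    (∀ x y z, dG x z ≤ dG x y + dG y z) → (∀ x y, dG x y = 0 → x = y) →
    (∀ g x y, dG (g * x) (g * y) = dG x y) → (∀ r : ℝ, Set.Finite {x : G | dG 1 x ≤ r}) →
    (∀ x, dH x x = 0) → (∀ x y, dH x y = dH y x) →
    (∀ x y z, dH x z ≤ dH x y + dH y z) → (∀ x y, dH x y = 0 → x = y) →
    (∀ g x y, dH (g * x) (g * y) = dH x y) → (∀ r : ℝ, Set.Finite {x : H | dH 1 x ≤ r}) →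
    (∀ R : ℕ → ℝ, (∀ i, 0 < R i) → ∃ n : ℕ, ∃ U : ℕ → Set (Set H),
      (∀ i < n, ∃ B : ℝ, ∀ V ∈ U i, ∀ x ∈ V, ∀ y ∈ V, dH x y ≤ B) ∧
      (∀ i < n, ∀ V ∈ U i, ∀ W ∈ U i, V ≠ W → ∀ x ∈ V, ∀ y ∈ W, R i < dH x y) ∧
      (∀ x : H, ∃ i < n, ∃ V ∈ U i, x ∈ V)) →
    (∀ R : ℕ → ℝ, (∀ i, 0 < R i) → ∃ n : ℕ, ∃ U : ℕ → Set (Set G),
      (∀ i < n, ∀ V ∈ U i, V ⊆ (f.ker : Set G)) ∧
      (∀ i < n, ∃ B : ℝ, ∀ V ∈ U i, ∀ x ∈ V, ∀ y ∈ V, dG x y ≤ B) ∧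
      (∀ i < n, ∀ V ∈ U i, ∀ W ∈ U i, V ≠ W → ∀ x ∈ V, ∀ y ∈ W, R i < dG x y) ∧
      (∀ x ∈ (f.ker : Set G), ∃ i < n, ∃ V ∈ U i, x ∈ V)) →
    (∀ R : ℕ → ℝ, (∀ i, 0 < R i) → ∃ n : ℕ, ∃ U : ℕ → Set (Set G),
      (∀ i < n, ∃ B : ℝ, ∀ V ∈ U i, ∀ x ∈ V, ∀ y ∈ V, dG x y ≤ B) ∧
      (∀ i < n, ∀ V ∈ U i, ∀ W ∈ U i, V ≠ W → ∀ x ∈ V, ∀ y ∈ W, R i < dG x y) ∧
      (∀ x : G, ∃ i < n, ∃ V ∈ U i, x ∈ V)) := by
  intro G H _ _ _ _ f dG dH g1 g2 g3 g4 g5 g6 h1 h2 h3 h4 h5 h6 hH hK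
  have hGp : Pool.Agent.Lib.MP_a813f9_gt.IsProperLeftInvariant dG := ⟨g1, g2, g3, g4, g5, g6⟩
  have hHp : Pool.Agent.Lib.MP_a813f9_gt.IsProperLeftInvariant dH := ⟨h1, h2, h3, h4, h5, h6⟩
  have hKC : Pool.Agent.Lib.MP_a813f9_gt.PropertyC (fun a b : f.ker => dG a b) := by
    intro R hR
    obtain ⟨n, U, u0, u1, u2, u3⟩ := hK R hR
    refine ⟨n, fun i => {V | ∃ W ∈ U i, V = Subtype.val ⁻¹' W}, ?_, ?_, ?_⟩
    · intro i hi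
      obtain ⟨B, hB⟩ := u1 i hi
      refine ⟨B, ?_⟩
      rintro V ⟨W, hW, rfl⟩ x hx y hy
      exact hB W hW x hx y hy
    · intro i hi
      rintro V ⟨W, hW, rfl⟩ V' ⟨W', hW', rfl⟩ hne x hx y hy
      exact u2 i hi W hW W' hW' (fun h => hne (by rw [h])) x hx y hy
    · intro x
      obtain ⟨i, hi, V, hV, hx⟩ := u3 x x.2
      exact ⟨i, hi, _, ⟨V, hV, rfl⟩, hx⟩
  have hHC : Pool.Agent.Lib.MP_a813f9_gt.PropertyC dH := hH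
  exact Pool.Agent.Lib.MP_a813f9_gt.full_ext hGp hHp f hKC.label hHC.label

end Pool.Agent.S13721
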