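-- Proof of frozen statement S13991: for a zero-dimensional compact Hausdorff space X, if the space of
-- continuous maps from X to the discrete two-point space is normal, then it is Lindelof (in ZFC).
import Pool.Statements.S13991
import Pool.Agent.Lib.MP_d2cc73_gt.Final

set_option autoImplicit false
open Pool Pool.MP_d2cc73_gt

namespace Pool.Agent.S13991

/-- For every zero-dimensional compact Hausdorff space X, if the space of continuous maps from X to the discrete two-point space, with the pointwise topology, is normal, then it is Lindelöf. -/
theorem result :
    ∀ (X : Type) [TopologicalSpace X] [CompactSpace X] [T2Space X]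
      [TotallyDisconnectedSpace X],
      NormalSpace {f : X → Bool // Continuous f} →
        LindelofSpace {f : X → Bool // Continuous f} := by
  intro X _ _ _ _ h
  exact @Pool.Agent.Lib.MP_d2cc73_gt.normal_lindelof X _ _ _ _ h

end Pool.Agent.S13991
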