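import Pool.Statements.S14311

set_option autoImplicit false
open Pool Pool.MP_008bf5_lc

namespace Pool.Agent.S14311

section Game

variable {Ω X ι : Type} [DecidableEq ι]

/-- `Game W obs k S`: from the knowledge set `S`, at most `k` further queries to the
observables `obs i` suffice to reach a knowledge set satisfying `W`. -/
def Game (W : Set Ω → Prop) (obs : ι → Ω → X) : ℕ → Set Ω → Prop
  | 0, S => W S
  | (k + 1), S => Game W obs k S ∨ ∃ i, ∀ q, Game W obs k (S ∩ {ω | obs i ω = q})

omit [DecidableEq ι] in
theorem Game.mono {W : Set Ω → Prop} {obs : ι → Ω → X} {k : ℕ} {S : Set Ω}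
    (h : Game W obs k S) (j : ℕ) : Game W obs (k + j) S := by
  induction j with
  | zero => exact h
  | succ j ih => exact Or.inl ih

/-- Colours occurring strictly between two times. -/
def cols (v : ℕ → ι) (a b : ℕ) : Finset ι := (Finset.Ioo a b).image v

theorem cols_mono (v : ℕ → ι) {a b a' b' : ℕ} (ha : a' ≤ a) (hb : b ≤ b') :
    cols v a b ⊆ cols v a' b' := by
  unfold cols
  apply Finset.image_subset_image
  exact Finset.Ioo_subset_Ioo ha hb

/-- The colours whose candidate set is halved when the bit at time `t` is learned to be `1`. -/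
noncomputable def HH (v : ℕ → ι) (hi : ℕ → Prop) (m' b t : ℕ) : Finset ι := by
  classical
  exact ((Finset.Ioo t b).filter (fun f => (cols v t f).card ≤ m' ∧ hi f)).image v

/-- The colours whose candidate set is halved when the bit at time `t` is learned to be `0`. -/
noncomputable def GG (v : ℕ → ι) (lo : ℕ → Prop) (m' a t : ℕ) : Finset ι := by
  classical
  exact ((Finset.Ioc a t).filter (fun p => (cols v p t).card ≤ m' ∧ lo p)).image v

theorem mem_HH {v : ℕ → ι} {hi : ℕ → Prop} {m' b t : ℕ} {u : ι} (h : u ∈ HH v hi m' b t) :
    ∃ f, t < f ∧ f < b ∧ (cols v t f).card ≤ m' ∧ hi f ∧ v f = u := by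
  classical
  unfold HH at h
  obtain ⟨f, hf, rfl⟩ := Finset.mem_image.mp h
  rw [Finset.mem_filter, Finset.mem_Ioo] at hf
  exact ⟨f, hf.1.1, hf.1.2, hf.2.1, hf.2.2, rfl⟩

theorem mem_GG {v : ℕ → ι} {lo : ℕ → Prop} {m' a t : ℕ} {u : ι} (h : u ∈ GG v lo m' a t) :
    ∃ f, a < f ∧ f ≤ t ∧ (cols v f t).card ≤ m' ∧ lo f ∧ v f = u := by
  classical
  unfold GG at h
  obtain ⟨f, hf, rfl⟩ := Finset.mem_image.mp h
  rw [Finset.mem_filter, Finset.mem_Ioc] at hf
  exact ⟨f, hf.1.1, hf.1.2, hf.2.1, hf.2.2, rfl⟩

theorem window (v : ℕ → ι) (hi lo : ℕ → Prop) (hl : ∀ f, hi f ∨ lo f) (m' a b t : ℕ)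
    (hat : a ≤ t) (h : m' < (cols v t b).card) :
    ∃ t', t < t' ∧ t' < b ∧ m' + 1 ≤ (HH v hi m' b t).card + (GG v lo m' a t').card := by
  classical
  have hex : ∃ t', m' < ((Finset.Ioc t t').image v).card := by
    refine ⟨b, lt_of_lt_of_le h ?_⟩
    apply Finset.card_le_card
    apply Finset.image_subset_image
    exact Finset.Ioo_subset_Ioc_self
  set t' := Nat.find hex with ht'
  have hspec : m' < ((Finset.Ioc t t').image v).card := Nat.find_spec hex
  have hmin : ∀ t'' < t', ¬ m' < ((Finset.Ioc t t'').image v).card := fun t'' ht =>
    Nat.find_min hex ht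
  have htt' : t < t' := by
    by_contra hcon
    have : Finset.Ioc t t' = ∅ := Finset.Ioc_eq_empty (by omega)
    rw [this] at hspec
    simp at hspec
  have hshort : (cols v t t').card ≤ m' := by
    have h1 := hmin (t' - 1) (by omega)
    have h2 : Finset.Ioc t (t' - 1) = Finset.Ioo t t' := by
      ext x
      simp only [Finset.mem_Ioc, Finset.mem_Ioo]
      omega
    rw [h2] at h1
    exact not_lt.mp h1
  have ht'b : t' < b := by
    by_contra hcon
    have hb : b ≤ t' := not_lt.mp hcon
    have : (cols v t b).card ≤ (cols v t t').card := Finset.card_le_card (cols_mono v le_rfl hb)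
    omega
  refine ⟨t', htt', ht'b, ?_⟩
  have hsub : (Finset.Ioc t t').image v ⊆ HH v hi m' b t ∪ GG v lo m' a t' := by
    intro u hu
    obtain ⟨p, hp, rfl⟩ := Finset.mem_image.mp hu
    rw [Finset.mem_Ioc] at hp
    rw [Finset.mem_union]
    rcases hl p with h1 | h1
    · left
      unfold HH
      apply Finset.mem_image_of_mem
      rw [Finset.mem_filter, Finset.mem_Ioo]
      refine ⟨⟨hp.1, by omega⟩, ?_, h1⟩
      exact le_trans (Finset.card_le_card (cols_mono v le_rfl hp.2)) hshort
    · right
      unfold GG
      apply Finset.mem_image_of_mem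
      rw [Finset.mem_filter, Finset.mem_Ioc]
      refine ⟨⟨by omega, hp.2⟩, ?_, h1⟩
      exact le_trans (Finset.card_le_card (cols_mono v hp.1.le le_rfl)) hshort
  have h1 := Finset.card_le_card hsub
  have h2 := Finset.card_union_le (HH v hi m' b t) (GG v lo m' a t')
  omega

theorem place (v : ℕ → ι) (hi lo : ℕ → Prop) (hl : ∀ f, hi f ∨ lo f) (m' a b : ℕ)
    (hab : a + 1 < b) :
    ∃ t, a < t ∧ t < b ∧
      ((cols v a t).card ≤ m' ∨ m' + 1 ≤ 2 * (GG v lo m' a t).card) ∧
      ((cols v t b).card ≤ m' ∨ m' + 1 ≤ 2 * (HH v hi m' b t).card) := by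
  have key : ∀ d t, b - t = d → a < t → t < b →
      ((cols v a t).card ≤ m' ∨ m' + 1 ≤ 2 * (GG v lo m' a t).card) →
      ∃ t, a < t ∧ t < b ∧
      ((cols v a t).card ≤ m' ∨ m' + 1 ≤ 2 * (GG v lo m' a t).card) ∧
      ((cols v t b).card ≤ m' ∨ m' + 1 ≤ 2 * (HH v hi m' b t).card) := by
    intro d
    induction d using Nat.strong_induction_on with
    | _ d ih =>
      intro t hd hat htb hgood
      by_cases h1 : (cols v t b).card ≤ m' ∨ m' + 1 ≤ 2 * (HH v hi m' b t).card
      · exact ⟨t, hat, htb, hgood, h1⟩
      · rw [not_or] at h1
        obtain ⟨h1, h2⟩ := h1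
        obtain ⟨t', htt', ht'b, hsum⟩ := window v hi lo hl m' a b t hat.le (not_le.mp h1)
        refine ih (b - t') (by omega) t' rfl (by omega) ht'b ?_
        right
        omega
  refine key (b - (a + 1)) (a + 1) rfl (by omega) hab ?_
  left
  have : cols v a (a + 1) = ∅ := by
    unfold cols
    have : Finset.Ioo a (a + 1) = ∅ := by
      ext x
      simp only [Finset.mem_Ioo, Finset.notMem_empty, iff_false]
      omega
    rw [this]
    simp
  rw [this]
  simp

theorem main_game (W : Set Ω → Prop) (obs : ι → Ω → X) (v : ℕ → ι) (A : ℕ → Set X) (L : ℕ)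
    (hW : ∀ t < L, ∀ S : Set Ω,
      (∀ ω ∈ S, obs (v t) ω ∈ A t ∧ obs (v (t + 1)) ω ∉ A (t + 1)) → W S)
    (C0 : ι → Finset X) (hC0 : ∀ i ω, obs i ω ∈ C0 i) (s : ℕ)
    (hs : ∀ i, (C0 i).card < 2 ^ (s + 1)) :
    ∀ m a b : ℕ, a < b → b ≤ L → ∀ S : Set Ω,
      (∀ ω ∈ S, obs (v a) ω ∈ A a ∧ obs (v b) ω ∉ A b) →
      (cols v a b).card ≤ m → Game W obs ((4 * s + 5) * Nat.size m) S := by
  classical
  intro m
  induction m using Nat.strong_induction_on with
  | _ m IH =>
    intro a b hab hbL S hS hm
    by_cases hadj : b = a + 1
    · subst hadj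
      have : Game W obs 0 S := hW a (by omega) S hS
      have h2 := this.mono ((4 * s + 5) * Nat.size m)
      rwa [zero_add] at h2
    rcases Nat.eq_zero_or_pos m with hm0 | hmpos
    · exfalso
      subst hm0
      have h1 : cols v a b = ∅ := Finset.card_eq_zero.mp (Nat.le_zero.mp hm)
      have h2 : v (a + 1) ∈ cols v a b := by
        unfold cols
        apply Finset.mem_image_of_mem
        rw [Finset.mem_Ioo]
        omega
      rw [h1] at h2
      simp at h2
    set m' := m / 2 with hm'
    have hsize : Nat.size m = Nat.size m' + 1 := by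
      have h1 : Nat.bit (Nat.bodd m) (Nat.div2 m) = m := Nat.bit_bodd_div2 m
      have h2 : Nat.div2 m = m' := Nat.div2_val m
      rw [h2] at h1
      have h3 := Nat.size_bit (b := Nat.bodd m) (n := m') (by rw [h1]; omega)
      rw [h1] at h3
      exact h3
    set k := (4 * s + 5) * Nat.size m' with hk
    have IH' : ∀ a' b', a ≤ a' → a' < b' → b' ≤ b → (cols v a' b').card ≤ m' →
        ∀ S : Set Ω, (∀ ω ∈ S, obs (v a') ω ∈ A a' ∧ obs (v b') ω ∉ A b') → Game W obs k S :=
      fun a' b' h1 h2 h3 h4 S hS => IH m' (by omega) a' b' h2 (by omega) S hS h4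
    -- the rounds
    have rounds : ∀ r : ℕ, ∀ S : Set Ω, ∀ C : ι → Finset X, ∀ l : ι → ℕ,
        (∀ ω ∈ S, obs (v a) ω ∈ A a ∧ obs (v b) ω ∉ A b) →
        (∀ u, ∀ q, q ∉ C u → ∃ t t', a ≤ t ∧ t < t' ∧ t' ≤ b ∧ (cols v t t').card ≤ m' ∧
          ∀ ω ∈ S, obs u ω = q → (obs (v t) ω ∈ A t ∧ obs (v t') ω ∉ A t')) →
        (∀ u, (C u).card < 2 ^ (l u)) →
        2 * ∑ u ∈ cols v a b, l u ≤ r * (m' + 1) →
        Game W obs (k + 1 + r) S := by
      intro r
      induction r with
      | zero =>
        intro S C l hS hinv hcard hsum
        have hmem : v (a + 1) ∈ cols v a b := by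
          unfold cols
          apply Finset.mem_image_of_mem
          rw [Finset.mem_Ioo]
          omega
        have hl0 : l (v (a + 1)) = 0 := by
          have h1 := Finset.single_le_sum (f := l) (fun i _ => Nat.zero_le _) hmem
          omega
        have hC0 : C (v (a + 1)) = ∅ := by
          have := hcard (v (a + 1))
          rw [hl0] at this
          exact Finset.card_eq_zero.mp (by omega)
        refine Or.inr ⟨v (a + 1), fun q => ?_⟩
        obtain ⟨t, t', h1, h2, h3, h4, h5⟩ := hinv (v (a + 1)) q (by rw [hC0]; simp)
        exact IH' t t' h1 h2 h3 h4 _ (fun ω hω => h5 ω hω.1 hω.2)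
      | succ r ihr =>
        intro S C l hS hinv hcard hsum
        by_cases hemp : ∃ u, C u = ∅
        · obtain ⟨u, hu⟩ := hemp
          have : Game W obs (k + 1) S := by
            refine Or.inr ⟨u, fun q => ?_⟩
            obtain ⟨t, t', h1, h2, h3, h4, h5⟩ := hinv u q (by rw [hu]; simp)
            exact IH' t t' h1 h2 h3 h4 _ (fun ω hω => h5 ω hω.1 hω.2)
          exact this.mono (r + 1)
        · have hne : ∀ u, 0 < (C u).card := by
            intro u
            rw [Finset.card_pos, Finset.nonempty_iff_ne_empty]
            exact fun h => hemp ⟨u, h⟩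
          have hlpos : ∀ u, 1 ≤ l u := by
            intro u
            by_contra hcon
            have h0 : l u = 0 := by omega
            have h1 := hcard u
            have h2 := hne u
            rw [h0] at h1
            omega
          set hi : ℕ → Prop := fun f =>
            2 * ((C (v f)).filter (fun q => q ∈ A f)).card ≤ (C (v f)).card with hhi
          set lo : ℕ → Prop := fun f =>
            2 * ((C (v f)).filter (fun q => ¬ q ∈ A f)).card ≤ (C (v f)).card with hlo
          have hl : ∀ f, hi f ∨ lo f := by
            intro f
            have h1 := Finset.card_filter_add_card_filter_not (s := C (v f)) (fun q => q ∈ A f)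
            simp only [hhi, hlo]
            omega
          obtain ⟨t, hat, htb, hG, hH⟩ := place v hi lo hl m' a b (by omega)
          refine Or.inr ⟨v t, fun q => ?_⟩
          have hS' : ∀ ω ∈ S ∩ {ω | obs (v t) ω = q},
              obs (v a) ω ∈ A a ∧ obs (v b) ω ∉ A b := fun ω hω => hS ω hω.1
          by_cases hq : q ∈ A t
          · -- bit 1
            rcases hH with hH | hH
            · have : Game W obs k (S ∩ {ω | obs (v t) ω = q}) := by
                refine IH' t b hat.le htb le_rfl hH _ (fun ω hω => ⟨?_, (hS ω hω.1).2⟩)
                have : obs (v t) ω = q := hω.2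
                rw [this]
                exact hq
              have h2 := this.mono (1 + r)
              rwa [← add_assoc] at h2
            · have hex : ∀ u ∈ HH v hi m' b t, ∃ f, t < f ∧ f < b ∧ (cols v t f).card ≤ m' ∧
                  hi f ∧ v f = u := fun u hu => mem_HH hu
              choose! f hf1 hf2 hf3 hf4 hf5 using hex
              have hsubU : HH v hi m' b t ⊆ cols v a b := by
                intro u hu
                have := hf5 u hu
                rw [← this]
                unfold cols
                apply Finset.mem_image_of_mem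
                rw [Finset.mem_Ioo]
                have h1 := hf1 u hu
                have h2 := hf2 u hu
                omega
              refine ihr (S ∩ {ω | obs (v t) ω = q})
                (fun u => if u ∈ HH v hi m' b t then (C u).filter (fun q => q ∈ A (f u)) else C u)
                (fun u => if u ∈ HH v hi m' b t then l u - 1 else l u) hS' ?_ ?_ ?_
              · intro u q' hq'
                by_cases hu : u ∈ HH v hi m' b t
                · rw [if_pos hu, Finset.mem_filter, not_and_or] at hq'
                  rcases hq' with hq' | hq'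
                  · obtain ⟨t1, t2, h1, h2, h3, h4, h5⟩ := hinv u q' hq'
                    exact ⟨t1, t2, h1, h2, h3, h4, fun ω hω => h5 ω hω.1⟩
                  · refine ⟨t, f u, hat.le, hf1 u hu, (hf2 u hu).le, hf3 u hu, ?_⟩
                    intro ω hω hobs
                    have h1 : obs (v t) ω = q := hω.2
                    rw [h1, hf5 u hu, hobs]
                    exact ⟨hq, hq'⟩
                · rw [if_neg hu] at hq'
                  obtain ⟨t1, t2, h1, h2, h3, h4, h5⟩ := hinv u q' hq'
                  exact ⟨t1, t2, h1, h2, h3, h4, fun ω hω => h5 ω hω.1⟩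
              · intro u
                by_cases hu : u ∈ HH v hi m' b t
                · simp only [if_pos hu]
                  have h1 := hf4 u hu
                  simp only [hhi] at h1
                  rw [hf5 u hu] at h1
                  have h2 := hcard u
                  have h3 := hlpos u
                  obtain ⟨l', hl'⟩ : ∃ l', l u = l' + 1 := ⟨l u - 1, by omega⟩
                  rw [hl'] at h2 ⊢
                  rw [pow_succ] at h2
                  simp only [Nat.add_sub_cancel]
                  omega
                · simp only [if_neg hu]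
                  exact hcard u
              · have hsum' : ∑ u ∈ cols v a b, (if u ∈ HH v hi m' b t then l u - 1 else l u) +
                    (HH v hi m' b t).card = ∑ u ∈ cols v a b, l u := by
                  have h1 : (HH v hi m' b t).card =
                      ∑ u ∈ cols v a b, (if u ∈ HH v hi m' b t then 1 else 0) := by
                    rw [Finset.sum_ite_mem, Finset.inter_eq_right.mpr hsubU]
                    simp
                  rw [h1, ← Finset.sum_add_distrib]
                  apply Finset.sum_congr rfl
                  intro u _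
                  have := hlpos u
                  split_ifs <;> omega
                have h3 : (r + 1) * (m' + 1) = r * (m' + 1) + (m' + 1) := by ring
                omega
          · -- bit 0
            rcases hG with hG | hG
            · have : Game W obs k (S ∩ {ω | obs (v t) ω = q}) := by
                refine IH' a t le_rfl hat htb.le hG _ (fun ω hω => ⟨(hS ω hω.1).1, ?_⟩)
                have : obs (v t) ω = q := hω.2
                rw [this]
                exact hq
              have h2 := this.mono (1 + r)
              rwa [← add_assoc] at h2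
            · have hex : ∀ u ∈ GG v lo m' a t, ∃ f, a < f ∧ f ≤ t ∧ (cols v f t).card ≤ m' ∧
                  lo f ∧ v f = u := fun u hu => mem_GG hu
              choose! f hf1 hf2 hf3 hf4 hf5 using hex
              have hsubU : GG v lo m' a t ⊆ cols v a b := by
                intro u hu
                have := hf5 u hu
                rw [← this]
                unfold cols
                apply Finset.mem_image_of_mem
                rw [Finset.mem_Ioo]
                have h1 := hf1 u hu
                have h2 := hf2 u hu
                omega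
              refine ihr (S ∩ {ω | obs (v t) ω = q})
                (fun u => if u ∈ GG v lo m' a t then (C u).filter (fun q => ¬ q ∈ A (f u)) else C u)
                (fun u => if u ∈ GG v lo m' a t then l u - 1 else l u) hS' ?_ ?_ ?_
              · intro u q' hq'
                by_cases hu : u ∈ GG v lo m' a t
                · rw [if_pos hu, Finset.mem_filter, not_and_or, not_not] at hq'
                  rcases hq' with hq' | hq'
                  · obtain ⟨t1, t2, h1, h2, h3, h4, h5⟩ := hinv u q' hq'
                    exact ⟨t1, t2, h1, h2, h3, h4, fun ω hω => h5 ω hω.1⟩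
                  · rcases lt_or_eq_of_le (hf2 u hu) with hlt | heq
                    · refine ⟨f u, t, (hf1 u hu).le, hlt, htb.le, hf3 u hu, ?_⟩
                      intro ω hω hobs
                      have h1 : obs (v t) ω = q := hω.2
                      rw [h1, hf5 u hu, hobs]
                      exact ⟨hq', hq⟩
                    · refine ⟨a, a + 1, le_rfl, by omega, by omega, ?_, ?_⟩
                      · have : cols v a (a + 1) = ∅ := by
                          unfold cols
                          have : Finset.Ioo a (a + 1) = ∅ := by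
                            ext x
                            simp only [Finset.mem_Ioo, Finset.notMem_empty, iff_false]
                            omega
                          rw [this]
                          simp
                        rw [this]
                        simp
                      · intro ω hω hobs
                        exfalso
                        have h1 : obs (v t) ω = q := hω.2
                        have h2 : v t = u := by rw [← heq]; exact hf5 u hu
                        rw [h2, hobs] at h1
                        rw [heq] at hq'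
                        rw [h1] at hq'
                        exact hq hq'
                · rw [if_neg hu] at hq'
                  obtain ⟨t1, t2, h1, h2, h3, h4, h5⟩ := hinv u q' hq'
                  exact ⟨t1, t2, h1, h2, h3, h4, fun ω hω => h5 ω hω.1⟩
              · intro u
                by_cases hu : u ∈ GG v lo m' a t
                · simp only [if_pos hu]
                  have h1 := hf4 u hu
                  simp only [hlo] at h1
                  rw [hf5 u hu] at h1
                  have h2 := hcard u
                  have h3 := hlpos u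
                  obtain ⟨l', hl'⟩ : ∃ l', l u = l' + 1 := ⟨l u - 1, by omega⟩
                  rw [hl'] at h2 ⊢
                  rw [pow_succ] at h2
                  simp only [Nat.add_sub_cancel]
                  omega
                · simp only [if_neg hu]
                  exact hcard u
              · have hsum' : ∑ u ∈ cols v a b, (if u ∈ GG v lo m' a t then l u - 1 else l u) +
                    (GG v lo m' a t).card = ∑ u ∈ cols v a b, l u := by
                  have h1 : (GG v lo m' a t).card =
                      ∑ u ∈ cols v a b, (if u ∈ GG v lo m' a t then 1 else 0) := by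
                    rw [Finset.sum_ite_mem, Finset.inter_eq_right.mpr hsubU]
                    simp
                  rw [h1, ← Finset.sum_add_distrib]
                  apply Finset.sum_congr rfl
                  intro u _
                  have := hlpos u
                  split_ifs <;> omega
                have h3 : (r + 1) * (m' + 1) = r * (m' + 1) + (m' + 1) := by ring
                omega
    -- start the rounds
    have hstart := rounds (4 * (s + 1)) S C0 (fun _ => s + 1) hS ?_ hs ?_
    · have h1 : (4 * s + 5) * Nat.size m = k + 1 + 4 * (s + 1) := by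
        rw [hsize, hk]; ring
      rw [h1]
      exact hstart
    · intro u q hq
      refine ⟨a, a + 1, le_rfl, by omega, by omega, ?_, ?_⟩
      · have : cols v a (a + 1) = ∅ := by
          unfold cols
          have : Finset.Ioo a (a + 1) = ∅ := by
            ext x
            simp only [Finset.mem_Ioo, Finset.notMem_empty, iff_false]
            omega
          rw [this]
          simp
        rw [this]
        simp
      · intro ω _ hobs
        exact absurd (hobs ▸ hC0 u ω) hq
    · rw [Finset.sum_const, smul_eq_mul]
      have h1 : m ≤ 2 * (m' + 1) := by omega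
      calc 2 * ((cols v a b).card * (s + 1)) ≤ 2 * ((2 * (m' + 1)) * (s + 1)) := by
            have := le_trans hm h1
            gcongr
        _ = 4 * (s + 1) * (m' + 1) := by ring

end Game

section CNF

variable {n : ℕ}

/-- One round of adding all resolvents. -/
def res (S : Set (Finset (Fin n × Bool))) : Set (Finset (Fin n × Bool)) :=
  S ∪ {c | ∃ a ∈ S, ∃ b ∈ S, ∃ x : Fin n, (x, true) ∈ a ∧ (x, false) ∈ b ∧
              c = a.erase (x, true) ∪ b.erase (x, false)}

/-- Some clause derivable in depth `d` is contained in `R`. -/
def P (F : Set (Finset (Fin n × Bool))) (d : ℕ) (R : Finset (Fin n × Bool)) : Prop :=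
  ∃ c ∈ res^[d] F, c ⊆ R

theorem P.succ {F : Set (Finset (Fin n × Bool))} {d : ℕ} {R : Finset (Fin n × Bool)}
    (h : P F d R) : P F (d + 1) R := by
  obtain ⟨c, hc, hcR⟩ := h
  refine ⟨c, ?_, hcR⟩
  rw [Function.iterate_succ_apply']
  exact Or.inl hc

theorem P.add {F : Set (Finset (Fin n × Bool))} {d : ℕ} {R : Finset (Fin n × Bool)}
    (h : P F d R) (j : ℕ) : P F (d + j) R := by
  induction j with
  | zero => exact h
  | succ j ih => exact ih.succ

theorem P.mono {F : Set (Finset (Fin n × Bool))} {d e : ℕ} {R : Finset (Fin n × Bool)}
    (h : P F d R) (hde : d ≤ e) : P F e R := by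
  obtain ⟨j, rfl⟩ := Nat.exists_eq_add_of_le hde
  exact h.add j

theorem P.step {F : Set (Finset (Fin n × Bool))} {d : ℕ} {R : Finset (Fin n × Bool)} (x : Fin n)
    (h1 : P F d (insert (x, true) R)) (h0 : P F d (insert (x, false) R)) : P F (d + 1) R := by
  obtain ⟨a, ha, haR⟩ := h1
  obtain ⟨b, hb, hbR⟩ := h0
  by_cases hxa : (x, true) ∈ a
  · by_cases hxb : (x, false) ∈ b
    · refine ⟨a.erase (x, true) ∪ b.erase (x, false), ?_, ?_⟩
      · rw [Function.iterate_succ_apply']
        exact Or.inr ⟨a, ha, b, hb, x, hxa, hxb, rfl⟩
      · apply Finset.union_subset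
        · rwa [← Finset.subset_insert_iff]
        · rwa [← Finset.subset_insert_iff]
    · exact P.succ ⟨b, hb, (Finset.subset_insert_iff_of_notMem hxb).mp hbR⟩
  · exact P.succ ⟨a, ha, (Finset.subset_insert_iff_of_notMem hxa).mp haR⟩

/-- Consistent sets of falsified literals. -/
def Cons (R : Finset (Fin n × Bool)) : Prop := ∀ x : Fin n, ¬ ((x, true) ∈ R ∧ (x, false) ∈ R)

theorem P.query {F : Set (Finset (Fin n × Bool))} (V : Finset (Fin n)) :
    ∀ (d : ℕ) (R : Finset (Fin n × Bool)), Cons R →
    (∀ R', R ⊆ R' → Cons R' → (∀ x ∈ V, (x, true) ∈ R' ∨ (x, false) ∈ R') → P F d R') →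
    P F (d + V.card) R := by
  induction V using Finset.induction_on with
  | empty =>
    intro d R hR h
    rw [Finset.card_empty, add_zero]
    exact h R (Finset.Subset.refl R) hR (by simp)
  | insert x V hx ih =>
    intro d R hR h
    rw [Finset.card_insert_of_notMem hx, ← add_assoc]
    by_cases hxR : (x, true) ∈ R ∨ (x, false) ∈ R
    · refine P.succ (ih d R hR ?_)
      intro R' hRR' hR' hV
      refine h R' hRR' hR' ?_
      intro y hy
      rcases Finset.mem_insert.mp hy with rfl | hy
      · rcases hxR with h1 | h1
        · exact Or.inl (hRR' h1)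
        · exact Or.inr (hRR' h1)
      · exact hV y hy
    · rw [not_or] at hxR
      refine P.step x ?_ ?_
      · refine ih d _ ?_ ?_
        · rintro y ⟨h1, h2⟩
          rw [Finset.mem_insert] at h1 h2
          rcases h1 with h1 | h1
          · rcases h2 with h2 | h2
            · simp at h2
            · rw [Prod.mk.injEq] at h1
              rw [h1.1] at h2
              exact hxR.2 h2
          · rcases h2 with h2 | h2
            · simp at h2
            · exact hR y ⟨h1, h2⟩
        · intro R' hRR' hR' hV
          refine h R' (fun l hl => hRR' (Finset.mem_insert_of_mem hl)) hR' ?_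
          intro y hy
          rcases Finset.mem_insert.mp hy with rfl | hy
          · exact Or.inl (hRR' (Finset.mem_insert_self _ _))
          · exact hV y hy
      · refine ih d _ ?_ ?_
        · rintro y ⟨h1, h2⟩
          rw [Finset.mem_insert] at h1 h2
          rcases h2 with h2 | h2
          · rcases h1 with h1 | h1
            · simp at h1
            · rw [Prod.mk.injEq] at h2
              rw [h2.1] at h1
              exact hxR.1 h1
          · rcases h1 with h1 | h1
            · simp at h1
            · exact hR y ⟨h1, h2⟩
        · intro R' hRR' hR' hV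
          refine h R' (fun l hl => hRR' (Finset.mem_insert_of_mem hl)) hR' ?_
          intro y hy
          rcases Finset.mem_insert.mp hy with rfl | hy
          · exact Or.inr (hRR' (Finset.mem_insert_self _ _))
          · exact hV y hy

/-- Winning knowledge sets: some clause of `F` is falsified by all assignments in the set. -/
def Win (F : Finset (Finset (Fin n × Bool))) (S : Set (Fin n → Bool)) : Prop :=
  ∃ c ∈ F, ∀ σ ∈ S, ∀ l ∈ c, σ l.1 ≠ l.2

/-- Querying a register: the restriction of an assignment to a set of variables. -/
def obsv (s : ℕ) (V : {V : Finset (Fin n) // V.card ≤ s}) (σ : Fin n → Bool) : Finset (Fin n) :=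
  V.1.filter (fun x => σ x = true)

theorem game_to_P (F : Finset (Finset (Fin n × Bool))) (s : ℕ) :
    ∀ (k : ℕ) (S : Set (Fin n → Bool)) (R : Finset (Fin n × Bool)), Cons R →
    (∀ σ : Fin n → Bool, (∀ l ∈ R, σ l.1 ≠ l.2) → σ ∈ S) →
    Game (Win F) (obsv s) k S → P (F : Set (Finset (Fin n × Bool))) (s * k) R := by
  intro k
  induction k with
  | zero =>
    intro S R hR hS hG
    obtain ⟨c, hc, hfal⟩ := hG
    refine ⟨c, by simpa using hc, ?_⟩
    intro l hl
    by_contra hlR
    have hσ := hfal (fun x => if (x, true) ∈ R then false else if (x, false) ∈ R then true else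
      (if x = l.1 then l.2 else false)) ?_ l hl
    · apply hσ
      obtain ⟨x, v⟩ := l
      cases v with
      | true =>
        simp only [hlR, if_false]
        split_ifs <;> rfl
      | false =>
        simp only [hlR, if_false]
        split_ifs <;> rfl
    · apply hS
      rintro ⟨y, w⟩ hy
      cases w with
      | true =>
        simp only [hy, if_true]
        decide
      | false =>
        have : (y, true) ∉ R := fun h => hR y ⟨h, hy⟩
        simp only [this, hy, if_true, if_false]
        decide
  | succ k ih =>
    intro S R hR hS hG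
    rcases hG with hG | ⟨V, hV⟩
    · exact (ih S R hR hS hG).mono (Nat.mul_le_mul_left s (Nat.le_succ k))
    · have h1 : P (F : Set (Finset (Fin n × Bool))) (s * k + V.1.card) R := by
        refine P.query V.1 (s * k) R hR ?_
        intro R' hRR' hR' hVR'
        refine ih (S ∩ {ω | obsv s V ω = V.1.filter (fun x => (x, false) ∈ R')}) R' hR' ?_ (hV _)
        intro σ hσ
        refine ⟨hS σ (fun l hl => hσ l (hRR' hl)), ?_⟩
        show obsv s V σ = _
        unfold obsv
        apply Finset.filter_congr
        intro x hx
        constructor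
        · intro h2
          rcases hVR' x hx with h3 | h3
          · exact absurd h2 (hσ _ h3)
          · exact h3
        · intro h2
          have := hσ _ h2
          simpa using this
      refine h1.mono ?_
      have := V.2
      rw [Nat.mul_succ]
      omega

theorem depth_bound (F : Finset (Finset (Fin n × Bool)))
    (hF : ¬ ∃ σ : Fin n → Bool, ∀ c ∈ F, ∃ l ∈ c, σ l.1 = l.2) (s L : ℕ)
    (M : ℕ → Finset (Finset (Fin n × Bool))) (h0 : M 0 = ∅)
    (hL : (∅ : Finset (Fin n × Bool)) ∈ M L)
    (hstep : ∀ i < L,
            (∃ c ∈ F, M (i + 1) = insert c (M i)) ∨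
            (∃ c ∈ M i, M (i + 1) = (M i).erase c) ∨
            (∃ a ∈ M i, ∃ b ∈ M i, ∃ x : Fin n, (x, true) ∈ a ∧ (x, false) ∈ b ∧
              M (i + 1) = insert (a.erase (x, true) ∪ b.erase (x, false)) (M i)))
    (hvs : ∀ i ≤ L, ((M i).biUnion (fun c => c.image Prod.fst)).card ≤ s) :
    P (F : Set (Finset (Fin n × Bool)))
      (s * ((4 * s + 5) * Nat.size (Fintype.card {V : Finset (Fin n) // V.card ≤ s}))) ∅ := by
  classical
  have hL0 : 0 < L := by
    rcases Nat.eq_zero_or_pos L with h | h
    · rw [h, h0] at hL
      simp at hL
    · exact h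
  have hFne : ∃ c, c ∈ F := by
    by_contra hcon
    apply hF
    exact ⟨fun _ => true, fun c hc => absurd ⟨c, hc⟩ hcon⟩
  let v : ℕ → {V : Finset (Fin n) // V.card ≤ s} := fun t =>
    ⟨(M (min t L)).biUnion (fun c => c.image Prod.fst), hvs _ (min_le_right _ _)⟩
  let A : ℕ → Set (Finset (Fin n)) := fun t =>
    {q | ∀ c ∈ M (min t L), ∃ l ∈ c, (l.1 ∈ q ↔ l.2 = true)}
  have key : ∀ t (σ : Fin n → Bool), obsv s (v t) σ ∈ A t ↔
      ∀ c ∈ M (min t L), ∃ l ∈ c, σ l.1 = l.2 := by
    intro t σ
    show (∀ c ∈ M (min t L), ∃ l ∈ c, (l.1 ∈ obsv s (v t) σ ↔ l.2 = true)) ↔ _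
    apply forall_congr'
    intro c
    apply forall_congr'
    intro hc
    apply exists_congr
    intro l
    rw [and_congr_right_iff]
    intro hl
    have hmem : l.1 ∈ (v t).1 := by
      show l.1 ∈ (M (min t L)).biUnion (fun c => c.image Prod.fst)
      rw [Finset.mem_biUnion]
      exact ⟨c, hc, Finset.mem_image_of_mem _ hl⟩
    unfold obsv
    rw [Finset.mem_filter]
    cases h1 : σ l.1 <;> cases h2 : l.2 <;> simp [hmem]
  have hG := main_game (Win F) (obsv s) v A L ?_ (fun V => V.1.powerset) ?_ s ?_
    (Fintype.card {V : Finset (Fin n) // V.card ≤ s}) 0 L hL0 le_rfl Set.univ ?_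
    (Finset.card_le_univ _)
  · exact game_to_P F s _ Set.univ ∅ (by intro x hx; simp at hx) (fun _ _ => Set.mem_univ _) hG
  · intro t ht S hS
    have e1 : min t L = t := min_eq_left ht.le
    have e2 : min (t + 1) L = t + 1 := min_eq_left ht
    have hS' : ∀ σ ∈ S, (∀ c ∈ M t, ∃ l ∈ c, σ l.1 = l.2) ∧
        ¬ (∀ c ∈ M (t + 1), ∃ l ∈ c, σ l.1 = l.2) := by
      intro σ hσ
      obtain ⟨h1, h2⟩ := hS σ hσ
      rw [key, e1] at h1
      rw [key, e2] at h2
      exact ⟨h1, h2⟩
    rcases hstep t ht with ⟨c, hc, hM⟩ | ⟨c, hc, hM⟩ | ⟨a, ha, b, hb, x, hxa, hxb, hM⟩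
    · refine ⟨c, hc, fun σ hσ l hl heq => ?_⟩
      obtain ⟨h1, h2⟩ := hS' σ hσ
      apply h2
      intro c' hc'
      rw [hM, Finset.mem_insert] at hc'
      rcases hc' with rfl | hc'
      · exact ⟨l, hl, heq⟩
      · exact h1 c' hc'
    · obtain ⟨c0, hc0⟩ := hFne
      refine ⟨c0, hc0, fun σ hσ => ?_⟩
      exfalso
      obtain ⟨h1, h2⟩ := hS' σ hσ
      apply h2
      intro c' hc'
      rw [hM] at hc'
      exact h1 c' (Finset.mem_of_mem_erase hc')
    · obtain ⟨c0, hc0⟩ := hFne
      refine ⟨c0, hc0, fun σ hσ => ?_⟩
      exfalso
      obtain ⟨h1, h2⟩ := hS' σ hσ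
      apply h2
      intro c' hc'
      rw [hM, Finset.mem_insert] at hc'
      rcases hc' with rfl | hc'
      · cases hσx : σ x with
        | true =>
          obtain ⟨l, hl, heq⟩ := h1 b hb
          refine ⟨l, Finset.mem_union_right _ (Finset.mem_erase.mpr ⟨?_, hl⟩), heq⟩
          rintro rfl
          rw [hσx] at heq
          simp at heq
        | false =>
          obtain ⟨l, hl, heq⟩ := h1 a ha
          refine ⟨l, Finset.mem_union_left _ (Finset.mem_erase.mpr ⟨?_, hl⟩), heq⟩
          rintro rfl
          rw [hσx] at heq
          simp at heq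
      · exact h1 c' hc'
  · intro V σ
    rw [Finset.mem_powerset]
    exact Finset.filter_subset _ _
  · intro V
    rw [Finset.card_powerset]
    exact Nat.pow_lt_pow_right (by norm_num) (Nat.lt_succ_of_le V.2)
  · intro σ _
    rw [key, key]
    constructor
    · intro c hc
      rw [Nat.zero_min, h0] at hc
      simp at hc
    · intro hcon
      obtain ⟨l, hl, _⟩ := hcon ∅ (by rw [min_self]; exact hL)
      simp at hl

theorem depth_one (F : Finset (Finset (Fin n × Bool))) (L : ℕ)
    (M : ℕ → Finset (Finset (Fin n × Bool))) (h0 : M 0 = ∅)
    (hL : (∅ : Finset (Fin n × Bool)) ∈ M L)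
    (hstep : ∀ i < L,
            (∃ c ∈ F, M (i + 1) = insert c (M i)) ∨
            (∃ c ∈ M i, M (i + 1) = (M i).erase c) ∨
            (∃ a ∈ M i, ∃ b ∈ M i, ∃ x : Fin n, (x, true) ∈ a ∧ (x, false) ∈ b ∧
              M (i + 1) = insert (a.erase (x, true) ∪ b.erase (x, false)) (M i)))
    (hvs : ∀ i ≤ L, ((M i).biUnion (fun c => c.image Prod.fst)).card ≤ 1) :
    P (F : Set (Finset (Fin n × Bool))) 1 ∅ := by
  classical
  by_contra hcon
  have hsub : ∀ i ≤ L, ∀ c ∈ M i, c ∈ F := by
    intro i
    induction i with
    | zero =>
      intro _ c hc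
      rw [h0] at hc
      simp at hc
    | succ i ih =>
      intro hi c hc
      have ih' := ih (by omega)
      rcases hstep i (by omega) with ⟨d, hd, hM⟩ | ⟨d, hd, hM⟩ | ⟨a, ha, b, hb, x, hxa, hxb, hM⟩
      · rw [hM, Finset.mem_insert] at hc
        rcases hc with rfl | hc
        · exact hd
        · exact ih' c hc
      · rw [hM] at hc
        exact ih' c (Finset.mem_of_mem_erase hc)
      · rw [hM, Finset.mem_insert] at hc
        rcases hc with hc | hc
        · have hvar : ∀ d ∈ M i, ∀ l ∈ d, l.1 = x := by
            intro d hd l hl
            have h1 := Finset.card_le_one.mp (hvs i (by omega))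
            apply h1
            · rw [Finset.mem_biUnion]
              exact ⟨d, hd, Finset.mem_image_of_mem _ hl⟩
            · rw [Finset.mem_biUnion]
              exact ⟨a, ha, Finset.mem_image.mpr ⟨_, hxa, rfl⟩⟩
          have hva := hvar a ha
          have hvb := hvar b hb
          by_cases hfa : (x, false) ∈ a
          · by_cases htb : (x, true) ∈ b
            · have : c = a := by
                rw [hc]
                ext ⟨y, w⟩
                rw [Finset.mem_union, Finset.mem_erase, Finset.mem_erase]
                constructor
                · rintro (⟨_, h⟩ | ⟨_, h⟩)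
                  · exact h
                  · have := hvb _ h
                    simp only at this
                    subst this
                    cases w
                    · exact hfa
                    · exact hxa
                · intro h
                  have := hva _ h
                  simp only at this
                  subst this
                  cases w
                  · left; exact ⟨by simp, h⟩
                  · right; exact ⟨by simp, htb⟩
              rw [this]
              exact ih' a ha
            · have : c = b := by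
                rw [hc]
                ext ⟨y, w⟩
                rw [Finset.mem_union, Finset.mem_erase, Finset.mem_erase]
                constructor
                · rintro (⟨h', h⟩ | ⟨_, h⟩)
                  · have := hva _ h
                    simp only at this
                    subst this
                    cases w
                    · exact hxb
                    · exact absurd rfl h'
                  · exact h
                · intro h
                  have := hvb _ h
                  simp only at this
                  subst this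
                  cases w
                  · left; exact ⟨by simp, hfa⟩
                  · exact absurd h htb
              rw [this]
              exact ih' b hb
          · by_cases htb : (x, true) ∈ b
            · have : c = a := by
                rw [hc]
                ext ⟨y, w⟩
                rw [Finset.mem_union, Finset.mem_erase, Finset.mem_erase]
                constructor
                · rintro (⟨_, h⟩ | ⟨h', h⟩)
                  · exact h
                  · have := hvb _ h
                    simp only at this
                    subst this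
                    cases w
                    · exact absurd rfl h'
                    · exact hxa
                · intro h
                  have := hva _ h
                  simp only at this
                  subst this
                  cases w
                  · exact absurd h hfa
                  · right; exact ⟨by simp, htb⟩
              rw [this]
              exact ih' a ha
            · exfalso
              apply hcon
              refine ⟨c, ?_, ?_⟩
              · show c ∈ res (F : Set (Finset (Fin n × Bool)))
                exact Or.inr ⟨a, by simpa using ih' a ha, b, by simpa using ih' b hb, x, hxa, hxb, hc⟩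
              · rw [hc]
                rintro ⟨y, w⟩ hy
                exfalso
                rw [Finset.mem_union, Finset.mem_erase, Finset.mem_erase] at hy
                rcases hy with ⟨h', h⟩ | ⟨h', h⟩
                · have := hva _ h
                  simp only at this
                  subst this
                  cases w
                  · exact hfa h
                  · exact h' rfl
                · have := hvb _ h
                  simp only at this
                  subst this
                  cases w
                  · exact h' rfl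
                  · exact htb h
        · exact ih' c hc
  apply hcon
  have h1 : P (F : Set (Finset (Fin n × Bool))) 0 ∅ :=
    ⟨∅, by simpa using hsub L le_rfl ∅ hL, Finset.Subset.refl _⟩
  exact h1.succ

theorem card_bound (hn : 1 ≤ n) (s : ℕ) :
    Fintype.card {V : Finset (Fin n) // V.card ≤ s} ≤ (s + 1) * n ^ s := by
  classical
  rw [Fintype.card_subtype]
  have h1 : (Finset.univ.filter (fun V : Finset (Fin n) => V.card ≤ s)) ⊆
      (Finset.range (s + 1)).biUnion (fun j => Finset.powersetCard j Finset.univ) := by
    intro V hV
    rw [Finset.mem_filter] at hV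
    rw [Finset.mem_biUnion]
    exact ⟨V.card, Finset.mem_range.mpr (by omega),
      Finset.mem_powersetCard.mpr ⟨Finset.subset_univ _, rfl⟩⟩
  refine le_trans (Finset.card_le_card h1) (le_trans Finset.card_biUnion_le ?_)
  have h2 : ∀ j ∈ Finset.range (s + 1),
      (Finset.powersetCard j (Finset.univ : Finset (Fin n))).card ≤ n ^ s := by
    intro j hj
    rw [Finset.mem_range] at hj
    rw [Finset.card_powersetCard, Finset.card_univ, Fintype.card_fin]
    exact le_trans (Nat.choose_le_pow n j) (Nat.pow_le_pow_right hn (by omega))
  refine le_trans (Finset.sum_le_card_nsmul _ _ _ h2) ?_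
  rw [Finset.card_range, smul_eq_mul]

theorem numeric (hn : 2 ≤ n) (s : ℕ) (hs : 2 ≤ s) :
    s * ((4 * s + 5) * Nat.size (Fintype.card {V : Finset (Fin n) // V.card ≤ s})) ≤
      ⌊((s : ℝ) * Real.logb 2 (n : ℝ)) ^ 8⌋₊ := by
  apply Nat.le_floor
  set lam : ℝ := Real.logb 2 (n : ℝ) with hlam
  have hn' : (2 : ℝ) ≤ (n : ℝ) := by exact_mod_cast hn
  have hlam1 : 1 ≤ lam := by
    rw [hlam, Real.le_logb_iff_rpow_le (by norm_num) (by linarith)]
    simpa using hn'
  have hs' : (2 : ℝ) ≤ (s : ℝ) := by exact_mod_cast hs
  set y : ℝ := (s : ℝ) * lam with hy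
  have hsy : (s : ℝ) ≤ y := by
    rw [hy]
    nlinarith
  have hy2 : 2 ≤ y := le_trans hs' hsy
  have hsize : ((Nat.size (Fintype.card {V : Finset (Fin n) // V.card ≤ s}) : ℕ) : ℝ) ≤
      2 * y + 1 := by
    have h1 : Nat.size (Fintype.card {V : Finset (Fin n) // V.card ≤ s}) ≤ ⌊2 * y⌋₊ + 1 := by
      rw [Nat.size_le]
      have h2 := card_bound (n := n) (by omega) s
      have h3 : ((Fintype.card {V : Finset (Fin n) // V.card ≤ s} : ℕ) : ℝ) <
          ((2 ^ (⌊2 * y⌋₊ + 1) : ℕ) : ℝ) := by
        have h4 : ((Fintype.card {V : Finset (Fin n) // V.card ≤ s} : ℕ) : ℝ) ≤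
            ((s : ℝ) + 1) * (n : ℝ) ^ s := by exact_mod_cast h2
        have h5 : ((s : ℝ) + 1) ≤ 2 ^ s := by
          have : s + 1 ≤ 2 ^ s := Nat.lt_two_pow_self
          exact_mod_cast this
        have h6 : (n : ℝ) = (2 : ℝ) ^ lam := by
          rw [hlam, Real.rpow_logb (by norm_num) (by norm_num) (by linarith)]
        have h7 : (n : ℝ) ^ s = (2 : ℝ) ^ y := by
          rw [h6, ← Real.rpow_natCast, ← Real.rpow_mul (by norm_num), mul_comm lam]
        have h8 : ((2 : ℝ) ^ s) = (2 : ℝ) ^ (s : ℝ) := (Real.rpow_natCast _ _).symm
        calc ((Fintype.card {V : Finset (Fin n) // V.card ≤ s} : ℕ) : ℝ)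
            ≤ ((s : ℝ) + 1) * (n : ℝ) ^ s := h4
          _ ≤ (2 : ℝ) ^ s * (n : ℝ) ^ s := by gcongr
          _ = (2 : ℝ) ^ ((s : ℝ) + y) := by
              rw [h7, h8, ← Real.rpow_add (by norm_num)]
          _ ≤ (2 : ℝ) ^ (2 * y) := by
              apply Real.rpow_le_rpow_of_exponent_le (by norm_num)
              linarith
          _ < (2 : ℝ) ^ (((⌊2 * y⌋₊ + 1 : ℕ)) : ℝ) := by
              apply Real.rpow_lt_rpow_of_exponent_lt (by norm_num)
              push_cast
              exact Nat.lt_floor_add_one _
          _ = ((2 ^ (⌊2 * y⌋₊ + 1) : ℕ) : ℝ) := by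
              rw [Real.rpow_natCast]
              push_cast
              rfl
      exact_mod_cast h3
    have h2 : ((Nat.size (Fintype.card {V : Finset (Fin n) // V.card ≤ s}) : ℕ) : ℝ) ≤
        ((⌊2 * y⌋₊ + 1 : ℕ) : ℝ) := by exact_mod_cast h1
    have h3 : ((⌊2 * y⌋₊ : ℕ) : ℝ) ≤ 2 * y := Nat.floor_le (by linarith)
    push_cast at h2
    linarith
  push_cast
  have hz : (0 : ℝ) ≤ ((Nat.size (Fintype.card {V : Finset (Fin n) // V.card ≤ s}) : ℕ) : ℝ) :=
    Nat.cast_nonneg _
  have hy3 : 8 ≤ y ^ 3 := by
    have := pow_le_pow_left₀ (by norm_num : (0 : ℝ) ≤ 2) hy2 3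
    norm_num at this
    exact this
  have hy22 : 4 ≤ y ^ 2 := by nlinarith
  have e1 : 4 * (s : ℝ) + 5 ≤ y ^ 4 := by
    have : y ^ 4 = y * y ^ 3 := by ring
    rw [this]
    nlinarith
  have e2 : 2 * y + 1 ≤ y ^ 3 := by
    have : y ^ 3 = y * y ^ 2 := by ring
    rw [this]
    nlinarith
  calc (s : ℝ) * ((4 * (s : ℝ) + 5) *
        ((Nat.size (Fintype.card {V : Finset (Fin n) // V.card ≤ s}) : ℕ) : ℝ))
      ≤ y * (y ^ 4 * y ^ 3) := by
        have hs0 : (0 : ℝ) ≤ s := by linarith
        apply mul_le_mul hsy _ (by positivity) (by linarith)
        apply mul_le_mul e1 (le_trans hsize e2) hz (by positivity)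
    _ = y ^ 8 := by ring

end CNF

/-- There is a natural C such that for every n ≥ 2 and every unsatisfiable CNF on n variables, if F has a configurational resolution refutation of variable space ≤ s, then F has a resolution refutation of depth ≤ (s·log₂ n)^C. -/
theorem result :
    ∃ C : ℕ, ∀ n : ℕ, 2 ≤ n → ∀ F : Finset (Finset (Fin n × Bool)),
      (¬ ∃ σ : Fin n → Bool, ∀ c ∈ F, ∃ l ∈ c, σ l.1 = l.2) →
      ∀ s : ℕ,
        (∃ L : ℕ, ∃ M : ℕ → Finset (Finset (Fin n × Bool)),
          M 0 = ∅ ∧ (∅ : Finset (Fin n × Bool)) ∈ M L ∧
          (∀ i < L,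
            (∃ c ∈ F, M (i + 1) = insert c (M i)) ∨
            (∃ c ∈ M i, M (i + 1) = (M i).erase c) ∨
            (∃ a ∈ M i, ∃ b ∈ M i, ∃ x : Fin n, (x, true) ∈ a ∧ (x, false) ∈ b ∧
              M (i + 1) = insert (a.erase (x, true) ∪ b.erase (x, false)) (M i))) ∧
          (∀ i ≤ L, ((M i).biUnion (fun c => c.image Prod.fst)).card ≤ s)) →
        (∅ : Finset (Fin n × Bool)) ∈
          (fun S : Set (Finset (Fin n × Bool)) =>
            S ∪ {c | ∃ a ∈ S, ∃ b ∈ S, ∃ x : Fin n, (x, true) ∈ a ∧ (x, false) ∈ b ∧
              c = a.erase (x, true) ∪ b.erase (x, false)})^[⌊((s : ℝ) * Real.logb 2 (n : ℝ)) ^ C⌋₊]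
            (F : Set (Finset (Fin n × Bool))) := by
  refine ⟨8, ?_⟩
  intro n hn F hF s hex
  obtain ⟨L, M, h0, hL, hstep, hvs⟩ := hex
  have main : P (F : Set (Finset (Fin n × Bool)))
      ⌊((s : ℝ) * Real.logb 2 (n : ℝ)) ^ 8⌋₊ ∅ := by
    have hD := depth_bound F hF s L M h0 hL hstep hvs
    rcases Nat.lt_or_ge s 2 with hs | hs
    · have hs01 : s = 0 ∨ s = 1 := by omega
      rcases hs01 with rfl | rfl
      · rw [zero_mul] at hD
        exact hD.mono (Nat.zero_le _)
      · have h1 := depth_one F L M h0 hL hstep hvs
        refine h1.mono ?_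
        apply Nat.le_floor
        have hn' : (2 : ℝ) ≤ (n : ℝ) := by exact_mod_cast hn
        have hlam1 : 1 ≤ Real.logb 2 (n : ℝ) := by
          rw [Real.le_logb_iff_rpow_le (by norm_num) (by linarith)]
          simpa using hn'
        rw [Nat.cast_one, one_mul]
        exact one_le_pow₀ hlam1
    · exact hD.mono (numeric hn s hs)
  obtain ⟨c, hc, hce⟩ := main
  have hce' : c = ∅ := Finset.subset_empty.mp hce
  rw [hce'] at hc
  exact hc

end Pool.Agent.S14311
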