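import Pool.Statements.S14613
import Pool.Agent.Lib.MP_3ca114_lc.Kerdock
import Pool.Agent.Lib.MP_3ca114_lc.Preparata2

set_option autoImplicit false
open Pool Pool.MP_3ca114_lc

namespace Pool.Agent.S14613

open Pool.Agent.MP_3ca114_lc in
lemma card_pow {n : ℕ} (C : Submodule (ZMod 2) (Fin n → ZMod 2)) :
    Nat.card C = 2 ^ Module.finrank (ZMod 2) C := by
  classical
  rw [Nat.card_eq_fintype_card]
  have := Module.card_eq_pow_finrank (K := ZMod 2) (V := C)
  simpa [ZMod.card] using this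

/-- For every even m ≥ 4: every binary linear code of length 2^m with minimum distance 6 has at most 2^(2^m−2m−1) words, and every one with minimum distance 2^(m−1)−2^((m−2)/2) has at most 2^(2m−1) words. -/
theorem result :
    ∀ m : ℕ, Even m → 4 ≤ m →
      (∀ C : Submodule (ZMod 2) (Fin (2 ^ m) → ZMod 2),
          (∀ x ∈ C, ∀ y ∈ C, x ≠ y → 6 ≤ hammingDist x y) →
          (∃ x ∈ C, ∃ y ∈ C, x ≠ y ∧ hammingDist x y = 6) →
          Nat.card C ≤ 2 ^ (2 ^ m - 2 * m - 1)) ∧
      (∀ C : Submodule (ZMod 2) (Fin (2 ^ m) → ZMod 2),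
          (∀ x ∈ C, ∀ y ∈ C, x ≠ y →
              2 ^ (m - 1) - 2 ^ ((m - 2) / 2) ≤ hammingDist x y) →
          (∃ x ∈ C, ∃ y ∈ C, x ≠ y ∧
              hammingDist x y = 2 ^ (m - 1) - 2 ^ ((m - 2) / 2)) →
          Nat.card C ≤ 2 ^ (2 * m - 1)) := by
  intro m hm hm4
  obtain ⟨t, ht⟩ := hm
  have ht2 : 2 ≤ t := by omega
  have hn : 2 ^ m = 2 ^ t * 2 ^ t := by rw [ht, pow_add]
  have hmm : 2 ^ m * 2 ^ m = 2 ^ (2 * m) := by rw [← pow_add, two_mul]
  -- part (a), in the form of a contradiction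
  have key : ∀ C : Submodule (ZMod 2) (Fin (2 ^ m) → ZMod 2),
      (∀ x ∈ C, ∀ y ∈ C, x ≠ y → 6 ≤ hammingDist x y) →
      Nat.card C ≤ 2 ^ (2 ^ m - 2 * m - 1) := by
    intro C hC
    by_contra hcon
    push Not at hcon
    rw [card_pow C] at hcon
    have hk := (Nat.pow_lt_pow_iff_right (by norm_num)).mp hcon
    refine Pool.Agent.MP_3ca114_lc.no_preparata t ht2 hn C ?_ ?_
    · intro c hc hc0
      have := hC c hc 0 C.zero_mem hc0
      rwa [hammingDist_zero_right] at this
    · rw [hmm, card_pow C, ← pow_add]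
      apply Nat.pow_le_pow_right (by norm_num)
      omega
  refine ⟨fun C hC _ => key C hC, ?_⟩
  intro C hC _
  by_contra hcon
  have hcon' := hcon
  push Not at hcon
  rw [card_pow C] at hcon
  have hk := (Nat.pow_lt_pow_iff_right (by norm_num)).mp hcon
  have hm1 : (m - 2) / 2 = t - 1 := by omega
  rcases Nat.lt_or_ge t 3 with h3 | h3
  · -- m = 4
    have ht' : t = 2 := by omega
    have hm' : m = 4 := by omega
    subst hm'
    apply hcon'
    have h := key C (by
      intro x hx y hy hxy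
      have := hC x hx y hy hxy
      norm_num at this
      exact this)
    norm_num at h ⊢
    exact h
  · refine Pool.Agent.MP_3ca114_lc.no_kerdock t h3 hn C ?_ ?_
    · rw [hmm, card_pow C]
      apply Nat.pow_le_pow_right (by norm_num)
      omega
    · intro c hc hc0
      have h1 := hC c hc 0 C.zero_mem hc0
      rw [hammingDist_zero_right, hm1] at h1
      rw [Pool.Agent.MP_3ca114_lc.W_eq_sub]
      have h2 : 2 ^ (m - 1) ≤ hammingNorm c + 2 ^ (t - 1) := by omega
      have h4 : 2 ^ m = 2 * 2 ^ (m - 1) := by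
        rw [← pow_succ']; congr 1; omega
      have h5 : 2 ^ t = 2 * 2 ^ (t - 1) := by
        rw [← pow_succ']; congr 1; omega
      have h6 : (2 ^ (m - 1) : ℤ) ≤ (hammingNorm c : ℤ) + 2 ^ (t - 1) := by exact_mod_cast h2
      have h7 : ((2 ^ m : ℕ) : ℤ) = 2 * 2 ^ (m - 1) := by exact_mod_cast h4
      have h8 : (2 ^ t : ℤ) = 2 * 2 ^ (t - 1) := by exact_mod_cast h5
      rw [h7, h8]
      linarith

end Pool.Agent.S14613
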