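import Pool.Statements.S15030
import Pool.Agent.Lib.MP_8b3477_lc.Pair
import Pool.Agent.Lib.MP_8b3477_lc.Twin

set_option autoImplicit false
open Pool Pool.MP_8b3477_lc

namespace Pool.Agent.S15030

/-- The negation of the preceding statement: For every linear order A: if every chain strictly below A (under embeddability) has X+X strictly below A, then whenever A is isomorphic to an ordered sum B+C, A embeds into B or into C. -/
theorem result :
    ¬ (∀ (A : Type) [LinearOrder A],
      (∀ (X : Type) [LinearOrder X],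
        Nonempty (X ↪o A) → IsEmpty (A ↪o X) →
          (Nonempty (Lex (X ⊕ X) ↪o A) ∧ IsEmpty (A ↪o Lex (X ⊕ X)))) →
      ∀ (B C : Type) [LinearOrder B] [LinearOrder C],
        Nonempty (A ≃o Lex (B ⊕ C)) →
          Nonempty (A ↪o B) ∨ Nonempty (A ↪o C)) := by
  obtain ⟨B, C, iB, iC, h1, h2, h3, h4, h5, h6⟩ := Pool.Agent.Lib.MP_8b3477_lc.exists_twins
  exact Pool.Agent.Lib.MP_8b3477_lc.twin B C h1 h2 h3 h4 h5 h6

end Pool.Agent.S15030
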