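import Pool.Statements.S16202
import Pool.Agent.Lib.MP_1bab7f_nt.Rotation

set_option autoImplicit false
open Pool Pool.MP_1bab7f_nt

namespace Pool.Agent.S16202

open Pool.Agent.MP1bab7f

open Classical in
theorem SS_infinite : (setOf fun m : ℕ => SS (m : ℤ)).Infinite := by
  intro hfin
  obtain ⟨B, hB⟩ := hfin.bddAbove
  have hB' : ∀ z : ℤ, SS z → z ≤ B := by
    intro z hz
    have hz0 := hz.1
    have h1 : SS ((z.toNat : ℕ) : ℤ) := by
      rw [Int.toNat_of_nonneg hz0.le]
      exact hz
    have h2 : z.toNat ≤ B := hB h1
    omega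
  have hn : (600 : ℤ) < 2 * B + 601 := by omega
  by_cases h : InT (2 * B + 601)
  · have h3 : SS (2 * B + 601) := ⟨by omega, Or.inl h⟩
    have := hB' _ h3
    omega
  · obtain ⟨s, t, hs, ht, hst⟩ := is_sum hn h
    have a := hB' _ hs
    have b := hB' _ ht
    omega

/-- The negation of the preceding statement: For every finite increasing integer list extended greedily (each new term is the least integer above the last that is not a sum of two earlier terms, repeats allowed), the consecutive differences are eventually periodic. -/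
theorem result :
    ¬ (∀ (k : ℕ) (a : ℕ → ℤ), 0 < k → StrictMono a →
      (∀ n : ℕ, k ≤ n + 1 →
        (a n < a (n + 1) ∧
         (∀ i j : ℕ, i ≤ n → j ≤ n → a i + a j ≠ a (n + 1)) ∧
         (∀ x : ℤ, a n < x → x < a (n + 1) →
            ∃ i j : ℕ, i ≤ n ∧ j ≤ n ∧ a i + a j = x))) →
      ∃ p : ℕ, 0 < p ∧ ∃ N : ℕ, ∀ m : ℕ, N ≤ m →
        a (m + p + 1) - a (m + p) = a (m + 1) - a m) := by
  classical
  intro H
  set P : ℕ → Prop := fun m => SS (m : ℤ) with hP
  have hinf : (setOf P).Infinite := SS_infinite
  have hmono : StrictMono (Nat.nth P) := Nat.nth_strictMono hinf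
  have hmem : ∀ n, SS ((Nat.nth P n : ℕ) : ℤ) := fun n => Nat.nth_mem_of_infinite hinf n
  set a : ℕ → ℤ := fun n => ((Nat.nth P n : ℕ) : ℤ) with ha
  have hamono : StrictMono a := by
    intro i j hij
    have := hmono hij
    simp only [ha]
    exact_mod_cast this
  set K : ℕ := Nat.count P 601 with hK
  have hbig : ∀ n, K ≤ n → (601 : ℤ) ≤ a n := by
    intro n hn
    have h1 : 601 ≤ Nat.nth P K := Nat.le_nth_count hinf 601
    have h2 : Nat.nth P K ≤ Nat.nth P n := hmono.monotone hn
    simp only [ha]
    exact_mod_cast le_trans h1 h2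
  have hInT : ∀ n, K ≤ n → InT (a n) := by
    intro n hn
    have h1 := hbig n hn
    rcases (hmem n).2 with h | h
    · exact h
    · have := F_bound h
      simp only [ha] at h1
      omega
  have hidx : ∀ z : ℤ, SS z → ∃ i, a i = z := by
    intro z hz
    have hz0 := hz.1
    have h1 : P z.toNat := by
      simp only [hP]
      rw [Int.toNat_of_nonneg hz0.le]
      exact hz
    refine ⟨Nat.count P z.toNat, ?_⟩
    simp only [ha]
    rw [Nat.nth_count h1]
    exact Int.toNat_of_nonneg hz0.le
  obtain ⟨p, hp, N, hper⟩ := H (K + 1) a (Nat.succ_pos _) hamono (by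
    intro n hn
    have hKn : K ≤ n := by omega
    refine ⟨hamono (Nat.lt_succ_self n), ?_, ?_⟩
    · intro i j _ _
      exact not_sum (by have := hbig (n + 1) (by omega); omega) (hInT (n + 1) (by omega))
        (hmem i) (hmem j)
    · intro x hx1 hx2
      have hx600 : 600 < x := by have := hbig n hKn; omega
      have hnot : ¬ InT x := by
        intro hx
        obtain ⟨i, hi⟩ := hidx x ⟨by omega, Or.inl hx⟩
        rw [← hi] at hx1 hx2
        have h1 := hamono.lt_iff_lt.mp hx1
        have h2 := hamono.lt_iff_lt.mp hx2
        omega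
      obtain ⟨s, t, hs, ht, hst⟩ := is_sum hx600 hnot
      obtain ⟨i, hi⟩ := hidx s hs
      obtain ⟨j, hj⟩ := hidx t ht
      have hs0 := hs.1
      have ht0 := ht.1
      refine ⟨i, j, ?_, ?_, ?_⟩
      · have h1 : a i < a (n + 1) := by rw [hi]; omega
        have := hamono.lt_iff_lt.mp h1
        omega
      · have h1 : a j < a (n + 1) := by rw [hj]; omega
        have := hamono.lt_iff_lt.mp h1
        omega
      · rw [hi, hj, hst])
  set M : ℕ := max N K with hM
  have hNM : N ≤ M := le_max_left _ _
  have hKM : K ≤ M := le_max_right _ _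
  have hconst : ∀ m, M ≤ m → a (m + p) - a m = a (M + p) - a M := by
    intro m hm
    induction m, hm using Nat.le_induction with
    | base => rfl
    | succ m hm ih =>
      have h1 := hper m (by omega)
      have e : m + 1 + p = m + p + 1 := by ring
      rw [e]
      linarith
  set q : ℤ := a (M + p) - a M with hq
  have hqpos : 0 < q := by
    have := hamono (show M < M + p by omega)
    omega
  have hjump : ∀ j : ℕ, a (M + j * p) = a M + j * q := by
    intro j
    induction j with
    | zero => simp
    | succ j ih =>
      have h1 := hconst (M + j * p) (by omega)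
      have e : M + (j + 1) * p = M + j * p + p := by ring
      rw [e]
      push_cast
      linarith
  exact no_ap (n0 := a M) hqpos (by
    intro j
    rw [← hjump j]
    exact hInT _ (by omega))

end Pool.Agent.S16202
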