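import Pool.Statements.S17143

set_option autoImplicit false
open Pool Pool.MP_6023ab_nt

namespace Pool.Agent.S17143

open MvPolynomial

/-- The binary cubic form a x^3 + b x^2 y + c x y^2 + d y^3. -/
noncomputable def cub (a b c d : ℝ) : MvPolynomial (Fin 2) ℝ :=
  C a * X 0 ^ 3 + C b * (X 0 ^ 2 * X 1) + C c * (X 0 * X 1 ^ 2) + C d * X 1 ^ 3

theorem cub_hom (a b c d : ℝ) : (cub a b c d).IsHomogeneous 3 := by
  have hX0 : (X 0 : MvPolynomial (Fin 2) ℝ).IsHomogeneous 1 := isHomogeneous_X ℝ 0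
  have hX1 : (X 1 : MvPolynomial (Fin 2) ℝ).IsHomogeneous 1 := isHomogeneous_X ℝ 1
  have h1 : (C a * X 0 ^ 3 : MvPolynomial (Fin 2) ℝ).IsHomogeneous 3 := by
    have := (isHomogeneous_C (Fin 2) a).mul (hX0.pow 3)
    simpa using this
  have h2 : (C b * (X 0 ^ 2 * X 1) : MvPolynomial (Fin 2) ℝ).IsHomogeneous 3 := by
    have := (isHomogeneous_C (Fin 2) b).mul ((hX0.pow 2).mul hX1)
    simpa using this
  have h3 : (C c * (X 0 * X 1 ^ 2) : MvPolynomial (Fin 2) ℝ).IsHomogeneous 3 := by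
    have := (isHomogeneous_C (Fin 2) c).mul (hX0.mul (hX1.pow 2))
    simpa using this
  have h4 : (C d * X 1 ^ 3 : MvPolynomial (Fin 2) ℝ).IsHomogeneous 3 := by
    have := (isHomogeneous_C (Fin 2) d).mul (hX1.pow 3)
    simpa using this
  exact ((h1.add h2).add h3).add h4

theorem eval_cub (a b c d x y : ℝ) :
    eval ![x, y] (cub a b c d) = a * x ^ 3 + b * (x ^ 2 * y) + c * (x * y ^ 2) + d * y ^ 3 := by
  simp [cub]

theorem cub_ne_smul (a b c d a' b' c' d' : ℝ) (h : a * d' ≠ a' * d) (t : ℝ) :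
    cub a b c d ≠ t • cub a' b' c' d' := by
  intro he
  have h1 := congrArg (eval ![(1 : ℝ), 0]) he
  have h2 := congrArg (eval ![(0 : ℝ), 1]) he
  rw [smul_eval, eval_cub, eval_cub] at h1 h2
  norm_num at h1 h2
  apply h
  rw [h1, h2]
  ring

theorem cub_ne_zero (a b c d : ℝ) (h : a ≠ 0) : cub a b c d ≠ 0 := by
  intro he
  have h1 := congrArg (eval ![(1 : ℝ), 0]) he
  rw [eval_cub] at h1
  norm_num at h1
  exact h h1

theorem cub_scale (s a b c d : ℝ) : cub (s * a) (s * b) (s * c) (s * d) = C s * cub a b c d := by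
  simp only [cub, map_mul]
  ring

theorem key : (cub 1 4 (-2) 4) ^ 4 + 4 * (cub 1 (-1) 4 2) ^ 4 =
    (cub 1 (-4) (-2) (-4)) ^ 4 + 4 * (cub 1 1 4 (-2)) ^ 4 := by
  simp only [cub, map_one, map_neg, map_ofNat]
  ring

/-- The four cubic forms. -/
noncomputable def F : Fin 4 → MvPolynomial (Fin 2) ℝ :=
  ![cub 1 4 (-2) 4, cub (√2 * 1) (√2 * (-1)) (√2 * 4) (√2 * 2),
    cub 1 (-4) (-2) (-4), cub (√2 * 1) (√2 * 1) (√2 * 4) (√2 * (-2))]

theorem sqrt_four : (C (√2) : MvPolynomial (Fin 2) ℝ) ^ 4 = 4 := by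
  rw [← map_pow]
  have : (√2 : ℝ) ^ 4 = 4 := by
    have h : (√2 : ℝ) ^ 2 = 2 := Real.sq_sqrt (by norm_num)
    calc (√2 : ℝ) ^ 4 = ((√2 : ℝ) ^ 2) ^ 2 := by ring
      _ = 4 := by rw [h]; norm_num
  rw [this, map_ofNat]

/-- There is a degree k between 1 and 6 and four nonzero, pairwise non-proportional real binary forms of degree k with f1^4 + f2^4 = f3^4 + f4^4. -/
theorem result :
    ∃ k : ℕ, 1 ≤ k ∧ k < 7 ∧
      ∃ f : Fin 4 → MvPolynomial (Fin 2) ℝ,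
        (∀ i, f i ≠ 0 ∧ (f i).IsHomogeneous k) ∧
        (∀ i j, i ≠ j → ∀ c : ℝ, f i ≠ c • f j) ∧
        f 0 ^ 4 + f 1 ^ 4 = f 2 ^ 4 + f 3 ^ 4 := by
  have hs : (√2 : ℝ) ^ 2 = 2 := Real.sq_sqrt (by norm_num)
  have hpos : (0 : ℝ) < √2 := Real.sqrt_pos.mpr (by norm_num)
  refine ⟨3, by norm_num, by norm_num, F, ?_, ?_, ?_⟩
  · intro i
    fin_cases i
    · exact ⟨cub_ne_zero _ _ _ _ (by norm_num), cub_hom _ _ _ _⟩
    · exact ⟨cub_ne_zero _ _ _ _ (by simp), cub_hom _ _ _ _⟩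
    · exact ⟨cub_ne_zero _ _ _ _ (by norm_num), cub_hom _ _ _ _⟩
    · exact ⟨cub_ne_zero _ _ _ _ (by simp), cub_hom _ _ _ _⟩
  · intro i j hij c
    fin_cases i <;> fin_cases j <;> first | exact absurd rfl hij | skip
    all_goals
      refine cub_ne_smul _ _ _ _ _ _ _ _ ?_ c
      intro he
      nlinarith [hs, hpos, he]
  · show (cub 1 4 (-2) 4) ^ 4 + (cub (√2 * 1) (√2 * (-1)) (√2 * 4) (√2 * 2)) ^ 4 =
      (cub 1 (-4) (-2) (-4)) ^ 4 + (cub (√2 * 1) (√2 * 1) (√2 * 4) (√2 * (-2))) ^ 4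
    rw [cub_scale, cub_scale, mul_pow, mul_pow, sqrt_four]
    exact key

end Pool.Agent.S17143
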