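import Pool.Statements.S17230
import Pool.Agent.Lib.MP_649c59_nt.Final

set_option autoImplicit false
open Pool Pool.MP_649c59_nt

namespace Pool.Agent.S17230

/-- The negation of the preceding statement: If ψ ≥ 0 and the sum of ψ(q)φ(q)/q diverges, then for every real sequence y, almost every x in [0,1] has infinitely many integer pairs (a,q), q ≥ 1, with ∣qx − a − y_q∣ < ψ(q). -/
theorem result :
    ¬ (∀ ψ : ℕ → ℝ, (∀ q, 0 ≤ ψ q) →
      ¬ Summable (fun q : ℕ => ψ q * ((Nat.totient q : ℕ) : ℝ) / (q : ℝ)) →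
      ∀ y : ℕ → ℝ,
        MeasureTheory.volume
          {x : ℝ | x ∈ Set.Icc (0 : ℝ) 1 ∧
            Set.Infinite {p : ℤ × ℕ | 0 < p.2 ∧
              |(p.2 : ℝ) * x - (p.1 : ℝ) - y p.2| < ψ p.2}} = 1) := by
  intro h
  obtain ⟨ψ, y, h0, hns, hvol⟩ := Pool.Agent.MTDS.exists_counterexample
  have h1 := h ψ h0 hns y
  rw [hvol] at h1
  exact zero_ne_one h1

end Pool.Agent.S17230
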