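import Pool.Statements.S18540
import Pool.Agent.Lib.MP_ceb3e8_nt.Core

set_option autoImplicit false
open Pool Pool.MP_ceb3e8_nt

namespace Pool.Agent.S18540

open Pool.Agent.Lib.MP_ceb3e8_nt in
/-- The negation of the preceding statement: For generic-characteristic Drinfeld modules Φ_1..Φ_g over a field K ⊇ F_p(t), a finitely generated submodule Γ of K^g, and any Zariski-closed V, V(K) ∩ Γ is a finite union of cosets, by points of Γ, of submodules of Γ. -/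
theorem result :
    ¬ (∀ (p : ℕ), p.Prime →
  ∀ (K : Type) [Field K] [Algebra (ZMod p) K] (θ : K), Transcendental (ZMod p) θ →
  ∀ (g : ℕ) (r : Fin g → ℕ) (c : Fin g → ℕ → K),
    (∀ i, 1 ≤ r i) → (∀ i, c i 0 = θ) → (∀ i, c i (r i) ≠ 0) →
  ∀ (Ψ : Module.End (ZMod p) (Fin g → K)),
    (∀ (v : Fin g → K) (i : Fin g),
      Ψ v i = ∑ j ∈ Finset.range (r i + 1), c i j * v i ^ (p ^ j)) →
  ∀ (m : ℕ) (γ : Fin m → Fin g → K) (Γ : Set (Fin g → K)),
    Γ = Set.range (fun a : Fin m → Polynomial (ZMod p) =>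
          ∑ k, (Polynomial.aeval Ψ (a k)) (γ k)) →
  ∀ (S : Set (MvPolynomial (Fin g) K)),
  ∃ (n : ℕ) (δ : Fin n → Fin g → K) (H : Fin n → AddSubgroup (Fin g → K)),
    (∀ j, δ j ∈ Γ) ∧
    (∀ j, ((H j : AddSubgroup (Fin g → K)) : Set (Fin g → K)) ⊆ Γ) ∧
    (∀ j, ∀ x ∈ H j, Ψ x ∈ H j) ∧
    {x : Fin g → K | x ∈ Γ ∧ ∀ f ∈ S, MvPolynomial.eval x f = 0} =
      ⋃ j, {y : Fin g → K | ∃ s ∈ H j, y = δ j + s}) := by
  intro hall
  have : Fact (Nat.Prime 2) := ⟨Nat.prime_two⟩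
  have hs : Transcendental (ZMod 2) (RatFunc.X : RatFunc (ZMod 2)) := RatFunc.transcendental_X
  obtain ⟨n, δ, H, -, -, hstab, heq⟩ := hall 2 Nat.prime_two (RatFunc (ZMod 2))
    ((RatFunc.X : RatFunc (ZMod 2)) ^ 2) (hs.pow (by norm_num)) 2 ![2, 1]
    (coef 2 (RatFunc.X : RatFunc (ZMod 2)))
    (by intro i; fin_cases i <;> simp)
    (by
      intro i
      fin_cases i
      · exact e_zero (p := 2) _ 2
      · rfl)
    (by
      intro i
      fin_cases i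
      · show e 2 _ 2 2 ≠ 0
        rw [e_diag (p := 2)]
        exact one_ne_zero
      · show (if (1 : ℕ) = 0 then (RatFunc.X : RatFunc (ZMod 2)) ^ 2 else 1) ≠ 0
        simp)
    (Psi 2 (RatFunc.X : RatFunc (ZMod 2)))
    (fun v i => Psi_formula _ v i)
    3 (gen 2 (RatFunc.X : RatFunc (ZMod 2))) (Gam 2 (RatFunc.X : RatFunc (ZMod 2))) rfl
    {MvPolynomial.X 1 - MvPolynomial.X 0 ^ 2}
  have hmem : ∀ x : Fin 2 → RatFunc (ZMod 2),
      (∀ f ∈ ({MvPolynomial.X 1 - MvPolynomial.X 0 ^ 2} : Set (MvPolynomial (Fin 2) (RatFunc (ZMod 2)))),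
        MvPolynomial.eval x f = 0) ↔ x 1 = x 0 ^ 2 := by
    intro x
    simp [sub_eq_zero]
  have hinf := infinite_inter (p := 2) (RatFunc.X : RatFunc (ZMod 2)) hs
  have heq' : {x : Fin 2 → RatFunc (ZMod 2) | x ∈ Gam 2 (RatFunc.X : RatFunc (ZMod 2)) ∧ x 1 = x 0 ^ 2}
      = ⋃ j, {y : Fin 2 → RatFunc (ZMod 2) | ∃ s ∈ H j, y = δ j + s} := by
    rw [← heq]
    ext x
    simp only [Set.mem_ofPred_eq]
    rw [hmem x]
  rw [heq'] at hinf
  apply hinf
  apply Set.finite_iUnion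
  intro j
  have hfin : (H j : Set (Fin 2 → RatFunc (ZMod 2))).Finite := by
    refine finite_coset (p := 2) (RatFunc.X : RatFunc (ZMod 2)) Polynomial.X (by simp) (δ j) (H j) ?_ ?_
    · intro x hx
      rw [Polynomial.aeval_X]
      exact hstab j x hx
    · intro x hx
      have h1 : δ j + x ∈ ⋃ j, {y : Fin 2 → RatFunc (ZMod 2) | ∃ s ∈ H j, y = δ j + s} :=
        Set.mem_iUnion.mpr ⟨j, x, hx, rfl⟩
      rw [← heq'] at h1
      exact h1.2
  refine (hfin.image (fun s => δ j + s)).subset ?_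
  rintro y ⟨s, hs', rfl⟩
  exact ⟨s, hs', rfl⟩

end Pool.Agent.S18540
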