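-- Proof of the frozen statement S18928 (the negation).  For p = 5 and n = 1 there are infinitely
-- many totally 5-adic algebraic integers of height below 33/100, which is less than (log 5)/4.
import Pool.Statements.S18928
import Pool.Agent.Lib.MP_f15a68_nt.Small

set_option autoImplicit false
open Pool Pool.MP_f15a68_nt

namespace Pool.Agent.S18928

/-- The negation of the preceding statement: For every prime p and n ≥ 1, the infimum of c such that infinitely many algebraic integers of degree n over the totally p-adic field have Weil height below c equals log p divided by (p−1)n. -/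
theorem result :
    ¬ (∀ (p : ℕ) [Fact p.Prime] (n : ℕ), 1 ≤ n →
      sInf {c : ℝ | Set.Infinite {α : AlgebraicClosure ℚ | IsIntegral ℤ α ∧
        (minpoly (IntermediateField.adjoin ℚ {x : AlgebraicClosure ℚ |
            ((minpoly ℚ x).map (algebraMap ℚ ℚ_[p])).roots.card = (minpoly ℚ x).natDegree}) α).natDegree = n ∧
        Real.log (((minpoly ℚ α).map (algebraMap ℚ ℂ)).mahlerMeasure) / ((minpoly ℚ α).natDegree : ℝ) < c}}
      = 1 / ((p : ℝ) - 1) * (Real.log p / (n : ℝ))) := by
  intro h
  have : Fact (Nat.Prime 5) := ⟨by norm_num⟩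
  have h5 := h 5 1 le_rfl
  set A : Set ℝ := {c : ℝ | Set.Infinite {α : AlgebraicClosure ℚ | IsIntegral ℤ α ∧
        (minpoly (IntermediateField.adjoin ℚ {x : AlgebraicClosure ℚ |
            ((minpoly ℚ x).map (algebraMap ℚ ℚ_[5])).roots.card = (minpoly ℚ x).natDegree}) α).natDegree = 1 ∧
        Real.log (((minpoly ℚ α).map (algebraMap ℚ ℂ)).mahlerMeasure) / ((minpoly ℚ α).natDegree : ℝ) < c}}
    with hA
  have hmem : (33 / 100 : ℝ) ∈ A := by
    rw [hA, Set.mem_ofPred_eq]
    refine (Agent.Lib.MP_f15a68_nt.infinite_small (33 / 100)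
      Agent.Lib.MP_f15a68_nt.log713).mono ?_
    rintro α ⟨h1, h2, h3⟩
    refine ⟨h1, ?_, h3⟩
    rw [minpoly.natDegree_eq_one_iff]
    have hα : α ∈ IntermediateField.adjoin ℚ {x : AlgebraicClosure ℚ |
        ((minpoly ℚ x).map (algebraMap ℚ ℚ_[5])).roots.card = (minpoly ℚ x).natDegree} :=
      IntermediateField.subset_adjoin _ _ h2
    exact ⟨⟨α, hα⟩, rfl⟩
  have hbdd : BddBelow A := by
    refine ⟨0, ?_⟩
    rintro c hc
    obtain ⟨α, -, -, h3⟩ := hc.nonempty
    exact (Agent.Lib.MP_f15a68_nt.ht_nonneg α).trans h3.le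
  have hle := csInf_le hbdd hmem
  rw [h5] at hle
  have hlog := Agent.Lib.MP_f15a68_nt.log5
  norm_num at hle
  linarith

end Pool.Agent.S18928
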