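-- Proof of the frozen statement S19089: the exponent is at most 7/4 for an explicit vector.
import Pool.Statements.S19089
import Pool.Agent.Lib.MP_fe6546_nt.Indep

set_option autoImplicit false
open Pool Pool.MP_fe6546_nt

namespace Pool.Agent.S19089

/-- There are reals θ1,θ2,θ3 with 1,θ1,θ2,θ3 independent over ℤ such that, for some γ0<2, every γ for which t^γ·min over positive integer x with max x_i ≤ t of ‖Σθ_i x_i‖ stays bounded along arbitrarily large t satisfies γ ≤ γ0. -/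
theorem result :
    ∃ θ : Fin 3 → ℝ,
      LinearIndependent ℤ ![(1 : ℝ), θ 0, θ 1, θ 2] ∧
      ∃ γ₀ : ℝ, γ₀ < 2 ∧
        ∀ γ : ℝ,
          (∃ C : ℝ, ∃ᶠ t : ℝ in Filter.atTop,
              ∃ x : Fin 3 → ℕ, (∀ i, 1 ≤ x i ∧ (x i : ℝ) ≤ t) ∧
                t ^ γ * |(∑ i, θ i * (x i : ℝ)) - (round (∑ i, θ i * (x i : ℝ)) : ℝ)| ≤ C)
          → γ ≤ γ₀ := by
  refine ⟨Agent.Lib.MP_fe6546_nt.θ 3, ?_, 7 / 4, by norm_num, ?_⟩
  · have h := Agent.Lib.MP_fe6546_nt.linearIndependent_cons (m := 3) (by norm_num)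
    convert h using 1
    ext i
    fin_cases i <;> rfl
  · intro γ h
    exact Agent.Lib.MP_fe6546_nt.exponent_le (m := 3) (by norm_num) γ h

end Pool.Agent.S19089
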