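import Pool.Statements.S19122
import Pool.Agent.Lib.MP_05ceff_pr.Final

set_option autoImplicit false
open Pool Pool.MP_05ceff_pr

namespace Pool.Agent.S19122

/-- The negation of the preceding statement: For a 1D excited random walk in a shift-ergodic cookie environment with boundedly many cookies and weak ellipticity, let δ be the expected total cookie drift at 0. The walk is recurrent if ∣δ∣ ≤ 1, tends to +∞ a.s. if δ > 1, and to −∞ a.s. if δ < −1. -/
theorem result :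
    ¬ (∀ (Ω : Type) [MeasurableSpace Ω] (μ : MeasureTheory.Measure Ω)
      [MeasureTheory.IsProbabilityMeasure μ]
      (env : Ω → ℤ → ℕ → ℝ) (U : ℕ → Ω → ℝ) (X : ℕ → Ω → ℤ),
      Measurable env →
      (∀ n, Measurable (U n)) →
      (∀ w x i, env w x i ∈ Set.Icc (0:ℝ) 1) →
      ProbabilityTheory.iIndepFun U μ →
      (∀ n, μ.map (U n) = MeasureTheory.volume.restrict (Set.Icc (0:ℝ) 1)) →
      ProbabilityTheory.IndepFun env (fun w n => U n w) μ →
      Ergodic (fun (e : ℤ → ℕ → ℝ) (x : ℤ) => e (x + 1)) (μ.map env) →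
      (∃ M : ℕ, ∀ᵐ w ∂μ, ∀ x : ℤ, ∀ i : ℕ, M < i → env w x i = 1 / 2) →
      0 < μ {w | ∀ i : ℕ, 1 ≤ i → 0 < env w 0 i} →
      0 < μ {w | ∀ i : ℕ, 1 ≤ i → env w 0 i < 1} →
      (∀ w, X 0 w = 0) →
      (∀ n w, X (n + 1) w = X n w +
          (if U n w < env w (X n w)
              ((Finset.range (n + 1)).filter (fun m => X m w = X n w)).card
            then (1 : ℤ) else -1)) →
      ((|∫ w, (∑' i : ℕ, (2 * env w 0 (i + 1) - 1)) ∂μ| ≤ 1 →
          ∀ᵐ w ∂μ, ∃ᶠ n in Filter.atTop, X n w = 0) ∧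
       (1 < ∫ w, (∑' i : ℕ, (2 * env w 0 (i + 1) - 1)) ∂μ →
          ∀ᵐ w ∂μ, Filter.Tendsto (fun n => X n w) Filter.atTop Filter.atTop) ∧
       (∫ w, (∑' i : ℕ, (2 * env w 0 (i + 1) - 1)) ∂μ < -1 →
          ∀ᵐ w ∂μ, Filter.Tendsto (fun n => X n w) Filter.atTop Filter.atBot))) := by
  intro hall
  have h := hall Pool.Agent.ERW.Om Pool.Agent.ERW.mu0 Pool.Agent.ERW.env0 Pool.Agent.ERW.U0
    Pool.Agent.ERW.X0 Pool.Agent.ERW.measurable_env0 Pool.Agent.ERW.measurable_U0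
    (fun w x i => Pool.Agent.ERW.stk1_mem _ i)
    Pool.Agent.ERW.indep_U0 Pool.Agent.ERW.law_U0 Pool.Agent.ERW.indep_env0
    (by rw [Pool.Agent.ERW.map_env0]; exact Pool.Agent.ERW.ergodic_shift)
    ⟨2, Filter.Eventually.of_forall fun w x i hi => by
      obtain ⟨j, rfl⟩ : ∃ j, i = j + 3 := ⟨i - 3, by omega⟩
      show Pool.Agent.ERW.stk (Pool.Agent.ERW.typ (w.1 - (x : Pool.Agent.ERW.E2))) (j + 2) = 1 / 2
      rcases Pool.Agent.ERW.typ (w.1 - (x : Pool.Agent.ERW.E2)) with _ | _ | _ <;>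
        simp only [Pool.Agent.ERW.stk]⟩
    (Pool.Agent.ERW.pos_W' _ fun w hw i hi => by
      obtain ⟨j, rfl⟩ : ∃ j, i = j + 1 := ⟨i - 1, by omega⟩
      show 0 < Pool.Agent.ERW.stk (Pool.Agent.ERW.typ (w.1 - ((0 : ℤ) : Pool.Agent.ERW.E2))) j
      rw [Int.cast_zero, sub_zero, hw]
      simp only [Pool.Agent.ERW.stk]
      norm_num)
    (Pool.Agent.ERW.pos_W' _ fun w hw i hi => by
      obtain ⟨j, rfl⟩ : ∃ j, i = j + 1 := ⟨i - 1, by omega⟩
      show Pool.Agent.ERW.stk (Pool.Agent.ERW.typ (w.1 - ((0 : ℤ) : Pool.Agent.ERW.E2))) j < 1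
      rw [Int.cast_zero, sub_zero, hw]
      simp only [Pool.Agent.ERW.stk]
      norm_num)
    (fun w => rfl)
    (fun n w => Pool.Agent.ERW.X0_rec n w)
  have h1 := h.1
  rw [Pool.Agent.ERW.drift_eq] at h1
  exact Pool.Agent.ERW.not_recurrent (h1 (by norm_num))

end Pool.Agent.S19122
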