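import Pool.Statements.S19411
import Pool.Agent.Lib.MP_769d0b_pr.FinL

/-!
Random Littlewood polynomials are irreducible with probability tending to `1`.

Sketch. Write `P = G H` with `G` irreducible of degree `m ≤ n / 2`. Few integer polynomials have
small Mahler measure (`mcount`), so with high probability `M(H) ≥ n ^ 0.24` and `M(G) ≤ n ^ 0.27`.
If `m ≤ n ^ 0.9` a union bound suffices (Dobrowolski's theorem shows that a fixed non-cyclotomic
`G` divides `P` with probability `2 ^ (- n / polylog)`). If `m > n ^ 0.9`, reveal the first
`n - m + n ^ 0.85` coefficients of `P`: typically the zeros of `P` in `|z| < 1 - n ^ (-0.8)` are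
then known up to exponentially small errors; after `n ^ 0.8 log n` further bits (which of them
are zeros of `G`) the coefficients of `G` can be predicted successively by averaging Blaschke
products, at the cost of only `O(n ^ 0.42 (m log n) ^ (1/2)) = o(m)` bits, whereas `P` still
has about `m` free coefficients.
-/

set_option autoImplicit false
open Polynomial Filter
open Pool Pool.MP_769d0b_pr

namespace Pool.Agent.S19411

/-- Among all 2^(n+1) polynomials of degree n with every coefficient ±1, the fraction that are not irreducible over the rationals tends to 0 as n goes to infinity. -/
theorem result :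
    Tendsto
      (fun n : ℕ =>
        (Nat.card {f : Fin (n + 1) → Bool //
            ¬ Irreducible (∑ i : Fin (n + 1),
              Polynomial.C (if f i then (1 : ℚ) else -1) * Polynomial.X ^ (i : ℕ))} : ℝ)
          / (2 : ℝ) ^ (n + 1))
      atTop (nhds 0) := by
  exact Pool.Agent.Lib.MP_769d0b_pr.final

end Pool.Agent.S19411
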