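import Pool.Statements.S19637
import Pool.Agent.Lib.MP_cad76e_pr.UP2
import Pool.Agent.Lib.MP_cad76e_pr.LB4
import Pool.Agent.Lib.MP_cad76e_pr.RHO

set_option autoImplicit false
open Filter Topology
open Pool Pool.MP_cad76e_pr

namespace Pool.Agent.S19637

/-- For odd n, the random walk on S_n stepping by (1 2) or the n-cycle with probability 1/2 each has a cut-off: some t_n → ∞ makes TV distance to uniform tend to 0 at (1+ε)t_n steps and to 1 at (1−ε)t_n steps, for every ε in (0,1). -/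
theorem result :
    ∃ t : ℕ → ℝ, Tendsto t atTop atTop ∧
      ∀ ε : ℝ, 0 < ε → ε < 1 →
        Tendsto (fun m : ℕ =>
          (1 / 2 : ℝ) * ∑ g : Equiv.Perm (Fin (2 * m + 3)),
            |(((Finset.univ.filter (fun w : Fin ⌊(1 + ε) * t m⌋₊ → Bool =>
                (List.ofFn (fun i => if w i then Equiv.swap (0 : Fin (2 * m + 3)) 1
                  else finRotate (2 * m + 3))).prod = g)).card : ℝ)
                / (2 : ℝ) ^ ⌊(1 + ε) * t m⌋₊)
              - 1 / ((Nat.factorial (2 * m + 3) : ℕ) : ℝ)|) atTop (𝓝 0) ∧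
        Tendsto (fun m : ℕ =>
          (1 / 2 : ℝ) * ∑ g : Equiv.Perm (Fin (2 * m + 3)),
            |(((Finset.univ.filter (fun w : Fin ⌊(1 - ε) * t m⌋₊ → Bool =>
                (List.ofFn (fun i => if w i then Equiv.swap (0 : Fin (2 * m + 3)) 1
                  else finRotate (2 * m + 3))).prod = g)).card : ℝ)
                / (2 : ℝ) ^ ⌊(1 - ε) * t m⌋₊)
              - 1 / ((Nat.factorial (2 * m + 3) : ℕ) : ℝ)|) atTop (𝓝 1) := by
  refine ⟨fun m : ℕ => ((2 * m + 3 : ℕ) : ℝ) ^ 3 * Real.log ((2 * m + 3 : ℕ) : ℝ) /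
      (2 * Real.pi ^ 2), ?_, ?_⟩
  · have hm : Tendsto (fun m : ℕ => ((2 * m + 3 : ℕ) : ℝ)) atTop atTop := by
      apply tendsto_natCast_atTop_atTop.comp
      exact tendsto_atTop_mono (fun m => by omega : ∀ m : ℕ, m ≤ 2 * m + 3) tendsto_id
    apply Tendsto.atTop_div_const (by positivity)
    exact ((tendsto_pow_atTop (by norm_num : (3 : ℕ) ≠ 0)).comp hm).atTop_mul_atTop₀
      (Real.tendsto_log_atTop.comp hm)
  · intro ε hε hε1
    refine ⟨?_, ?_⟩
    · have h := (Pool.Agent.Lib.MP_cad76e_pr.upper_bound ε hε hε1).const_mul (1 / 2 : ℝ)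
      rw [mul_zero] at h
      refine h.congr fun m => ?_
      congr 1
      refine Finset.sum_congr rfl fun g _ => ?_
      rw [← Pool.Agent.Lib.MP_cad76e_pr.mu_eq_words]
    · have h := Pool.Agent.Lib.MP_cad76e_pr.lower_bound ε hε hε1
      refine h.congr fun m => ?_
      congr 1
      refine Finset.sum_congr rfl fun g _ => ?_
      rw [← Pool.Agent.Lib.MP_cad76e_pr.mu_eq_words]

end Pool.Agent.S19637
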